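import Pool.Agent.H40.ISO.Exn

/-!
# The data of the kit of the fattest boxes, for one family

`gd_isoN`: fullness of the near digits and full time give the near charts and the own relation on a
large event. `gd_iso`: the same from exactness.
-/

set_option autoImplicit false

namespace Pool.STAT.OKI

open Finset MvPolynomial
open Pool.Agent.H49.Ent Pool.Agent.H32.Dense Pool.STK Pool.KS3 Pool.KA Pool.KSAT Pool.PB Pool.GEN
open Pool.K2S Pool.S6C Pool.STAT.CLO Pool.STAT.Glu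
open Pool.BFL (Pb)
open Pool.MIC6

/-- The time is full in the windows. -/
theorem tm_win {m J : ℕ} {F : Fam m J} {q : F.Ω → ℝ} (hq : IsLaw q) {w₀ w : ℕ} {E : ℝ}
    (h0 : w₀ ≤ w) (hw : w ≤ J)
    (hT : ((J : ℝ) - w₀) * Real.log 2 - E ≤ CH q F.T (slam F w₀)) :
    ((J : ℝ) - w) * Real.log 2 - E ≤ CH q F.T (slam F w) := by
  have hd : Det q (slam F w₀) (fun ω => F.T ω / 2 ^ (J - w₀)) := fun ω ω' _ _ h =>
    congrArg (fun s => s.2.2) h
  have h1 := Glu.time_cell (T := F.T) (r := w) hq h0 hw hd (by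
    rw [Nat.cast_sub (h0.trans hw)]
    exact hT)
  refine h1.trans (CH_mono_cond hq.nonneg fun ω ω' _ _ h => ?_)
  have e1 := congrArg (fun x => x.1.1) h
  have e2 := congrArg (fun x => x.1.2.1) h
  have e3 := congrArg Prod.snd h
  exact Prod.ext e1 (Prod.ext e2 e3)

/-- **The data on a large event**, from the near digits. -/
theorem gd_isoN (n K K' s₁ Λ : ℕ) (sh : ℕ → ℕ) (hn : 1 ≤ n) : ∃ Bc : ℕ,
    GdIsoN n K K' s₁ Λ Bc sh := by
  obtain ⟨Bc, hcls⟩ := cls_gdN n K K' s₁ (Λ + 2) sh hn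
  obtain ⟨Cw, hCw, hwin⟩ := own_win n K
  refine ⟨Bc, fun M η hη hη1 => ?_⟩
  obtain ⟨η₁, hη₁⟩ : ∃ η₁ : ℝ, η₁ = η / 2 / (M ^ 2 + 1) := ⟨_, rfl⟩
  have hM0 : (0 : ℝ) ≤ M ^ 2 := by positivity
  have hη10 : 0 < η₁ := by
    rw [hη₁]
    positivity
  have hη11 : η₁ ≤ 1 := by
    rw [hη₁, div_le_one (by positivity)]
    linarith
  have hη12 : (M : ℝ) ^ 2 * η₁ ≤ η / 2 := by
    rw [hη₁, mul_div_assoc', div_le_iff₀ (by positivity)]
    nlinarith
  obtain ⟨κ₀, z₀, hκ₀, hcls⟩ := hcls η₁ hη10 hη11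
  obtain ⟨Co, hCo, hown⟩ := own_fam n K K' s₁ M (η / 2) (by positivity)
  obtain ⟨Ct, hCt⟩ : ∃ Ct : ℝ, Ct = Co + Cw + 1 := ⟨_, rfl⟩
  have hCt0 : 0 < Ct := by
    rw [hCt]
    linarith
  refine ⟨min κ₀ (min (1 / (4 * Ct)) 1), max 1 z₀, lt_min hκ₀ (lt_min (by positivity) one_pos), ?_⟩
  intro m J F D c a₀ w₀ z e g x z' B R ρ k E q hD hcom hsds hc hz hz' hwJ hsh hq hB hE0
    hE hT hk0 hk hex
  have hz1 : 1 ≤ z := (le_max_left _ _).trans hz
  have hz0 : z₀ ≤ z := (le_max_right _ _).trans hz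
  have hzr : (0 : ℝ) ≤ z := Nat.cast_nonneg z
  have hzr' : (z' : ℝ) ≤ z := by exact_mod_cast hz'
  have hzr0 : (0 : ℝ) ≤ z' := Nat.cast_nonneg z'
  have d1 : min κ₀ (min (1 / (4 * Ct)) 1) ≤ κ₀ := min_le_left _ _
  have d2 : min κ₀ (min (1 / (4 * Ct)) 1) ≤ 1 / (4 * Ct) := (min_le_right _ _).trans (min_le_left _ _)
  have eM : (M + 1) * z = M * z + z := by ring
  have hwM : w₀ + M * z + z ≤ J := by omega
  have hEκ : E ≤ κ₀ * z := by
    have h1 : min κ₀ (min (1 / (4 * Ct)) 1) * z' ≤ κ₀ * z :=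
      mul_le_mul d1 hzr' hzr0 hκ₀.le
    linarith
  have hkκ : k * z ≤ κ₀ * z := mul_le_mul_of_nonneg_right (hk.trans d1) hzr
  -- the charts of neighbouring windows
  have hev : ∀ i j, ∃ A : F.Ω → Prop, i < M → j < M → (∀ ω, A ω → 0 < q ω) ∧ 1 - η₁ ≤ Pb q A ∧
      ∀ ω, A ω → NbP n (Wn (tw F (w₀ + (j + 1) * z) ω) (w₀ + (j + 1) * z))
        (gs g (i + 1) (j + 1)) (2 ^ (Bc * z)) (Sy D c n w₀ z (i + 1) (j + 1) ω)
        (Sy D c n w₀ z i j ω) := by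
    intro i j
    by_cases hij : i < M ∧ j < M
    · obtain ⟨hi, hj⟩ := hij
      have hjM : (j + 1) * z ≤ M * z := Nat.mul_le_mul_right z hj
      have hex1 := hex (i + 1) hi (j + 1) hj 1 (by omega)
      rw [ExN.eq hi hj, one_mul, Nat.cast_one, one_mul, mul_assoc] at hex1
      obtain ⟨A, h1, h2, h3⟩ := hcls (E := E) (k := k * z) (ρ := ρ) hD hc hq hB hz0 hi hj hwM
        hz1 (fun l hl => ⟨hsh i hi.le j hj.le l hl, hsh (i + 1) hi (j + 1) hj l hl⟩)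
        (fun l hl => hsds.dg hi hj hl) hE0 hEκ (tm_win hq (by omega) (by omega) hT)
        (by positivity) hkκ hex1
      exact ⟨A, fun _ _ => ⟨h1, h2, h3⟩⟩
    · exact ⟨fun _ => True, fun hi hj => absurd ⟨hi, hj⟩ hij⟩
  choose A hA using hev
  -- the own relation
  obtain ⟨z'', hz''⟩ : ∃ z'', z'' = z' / 4 := ⟨_, rfl⟩
  have hE4 : 4 * (Ct * (E + 1)) ≤ z' := by
    have h1 : E + 1 ≤ 1 / (4 * Ct) * z' := hE.trans (mul_le_mul_of_nonneg_right d2 hzr0)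
    rw [one_div, inv_mul_eq_div, le_div_iff₀ (by positivity)] at h1
    linarith
  have hz4 : (z' : ℝ) ≤ 4 * z'' + 3 := by
    have : z' ≤ 4 * z'' + 3 := by omega
    exact_mod_cast this
  have hEE : 0 ≤ Co * E := by positivity
  have hz5 : Co * (E + 1) ≤ z'' := by
    rw [hCt] at hE4
    have h1 : (Co + Cw + 1) * (E + 1) = Co * (E + 1) + (Cw + 1) * (E + 1) := by ring
    rw [h1] at hE4
    have h2 : 2 ≤ (Cw + 1) * (E + 1) := by nlinarith
    linarith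
  have hz6 : Cw ≤ z'' := by
    rw [hCt] at hE4
    have h1 : (Co + Cw + 1) * (E + 1) = Cw * (E + 1) + (Co + 1) * (E + 1) := by ring
    rw [h1] at hE4
    have h2 : 2 ≤ (Co + 1) * (E + 1) := by nlinarith
    have h3 : Cw ≤ Cw * (E + 1) := by nlinarith
    linarith
  have hz7 : z'' ≤ z := by omega
  obtain ⟨A', k1, k2, k3⟩ := hown (z' := z'') (E := E + 1) hD hc hq hB (by omega) (by linarith)
    (by linarith) hz5
  have hcard : ((range M ×ˢ range M).card : ℝ) = M ^ 2 := by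
    rw [Finset.card_product, Finset.card_range]
    push_cast
    ring
  have h1 := pb_all hq (range M ×ˢ range M) (fun p => A p.1 p.2) (η := η₁) (fun p hp => by
    rw [Finset.mem_product, mem_range, mem_range] at hp
    exact (hA p.1 p.2 hp.1 hp.2).2.1)
  rw [hcard] at h1
  have h2 := pb_and hq (b := η / 2) (A := fun ω => ∀ p ∈ range M ×ˢ range M, A p.1 p.2 ω) h1 k2
  refine ⟨fun ω => (∀ p ∈ range M ×ˢ range M, A p.1 p.2 ω) ∧ A' ω, fun ω hω => k1 ω hω.2,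
    by linarith, ?_⟩
  refine (⟨fun i hi j hj ω hω => ?_, fun i hi j hj ω hω l l1 l2 t ht => ?_⟩ :
    Gd D c n w₀ z M g Bc z' _).iso (hD.sub fun ω hω => hB ω (k1 ω hω.2)) hcom hsds (by omega) hz1
    hz'
  · exact (hA i j hi hj).2.2 ω (hω.1 (i, j) (by
      rw [Finset.mem_product, mem_range, mem_range]
      exact ⟨hi, hj⟩))
  · have hjM : j * z ≤ M * z := Nat.mul_le_mul_right z hj
    have h3 := hwin (s := slam F (w₀ + j * z) ω) (s' := slam F w₀ ω) (ω := ω) (l := l)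
      (H := D.H i j) (w := w₀ + j * z) (by omega)
      (fun l _ => (hD.chn i hi j hj).degH _ l) (fun t ht => k3 ω hω.2 i hi j hj l l1 l2 t ht) t ht
    refine h3.trans ?_
    rw [← mul_div_assoc]
    refine div_le_div_of_nonneg_right ?_ (by positivity)
    calc Cw * 2 ^ (3 * z'') ≤ 2 ^ z'' * 2 ^ (3 * z'') :=
          mul_le_mul_of_nonneg_right (hz6.trans (two_ge z'')) (by positivity)
      _ ≤ 2 ^ z' := by
          rw [← pow_add]
          exact two_le (by omega)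

/-- **The data on a large event.** -/
theorem gd_iso (n K K' s₁ Λ : ℕ) (sh : ℕ → ℕ) (hn : 1 ≤ n) (hK' : 1 ≤ K') : ∃ Bc s₂ : ℕ,
    GdIso n K K' s₁ Λ Bc sh s₂ := by
  obtain ⟨Bc, hgd⟩ := gd_isoN n K K' s₁ Λ sh hn
  obtain ⟨L, s₂, hL, hexn⟩ := exn n K K' s₁ sh hK'
  refine ⟨Bc, s₂, fun M η hη hη1 => ?_⟩
  obtain ⟨δ, z₀, hδ, hgd⟩ := hgd M η hη hη1
  obtain ⟨z₁, hz₁⟩ := exists_nat_ge (2 * L / δ)
  refine ⟨δ / 2, max z₀ z₁, by positivity, ?_⟩
  intro m J F D c a₀ w₀ z e g x z' B R ρ k E q hD hcom hsds hc hz hz' hwJ haJ hsh hsz hq hB hE0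
    hE hT hk0 hk hex
  have hzr : (0 : ℝ) ≤ z := Nat.cast_nonneg z
  have hzr' : (0 : ℝ) ≤ z' := Nat.cast_nonneg z'
  have y1 : (z₁ : ℝ) ≤ z := by exact_mod_cast (le_max_right _ _).trans hz
  have h1 := hexn hD hc haJ hsh hsz hq hB hex
  have h2 : k * z + L ≤ δ * z := by
    have e1 : 2 * L / δ ≤ z := hz₁.trans y1
    rw [div_le_iff₀ hδ] at e1
    have e2 : k * z ≤ δ / 2 * z := mul_le_mul_of_nonneg_right hk hzr
    linarith
  exact hgd hD hcom hsds hc ((le_max_left _ _).trans hz) hz' hwJ hsh hq hB hE0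
    (hE.trans (mul_le_mul_of_nonneg_right (by linarith) hzr')) hT hδ.le le_rfl (h1.mono h2)

end Pool.STAT.OKI
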