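import Pool.Agent.H6.MIC.NfE

/-!
# Nonfull rows of a cell from the exactness of the base given the labels at the points

`NfHS`: the inputs of the row, the base is exact to `J` digits given the labels at the exact point
and the time (no context of the line). `nf_rowS`: the row for one pair.
-/

set_option autoImplicit false

namespace Pool.MIC6

open Finset MvPolynomial
open Pool.Agent.H49.Ent Pool.Agent.H32.Dense Pool.STK Pool.KS3 Pool.STAT Pool.STAT.CLO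
open Pool.KA Pool.KSAT Pool.PB Pool.GEN Pool.K2S Pool.S6C Pool.GEN.N83
open Pool.BFL (Pl CB Pb P2 MC alt)

/-- **The inputs of the nonfull rows**, exactness given the labels at the point. -/
structure NfHS (D : NDat2) (n J z M Y : ℕ) (L₀ κ : ℝ) (q : D.Ω → ℝ) : Prop where
  -- the labels have small variation in the small cells
  near : ∀ i ≤ M, ∀ j ≤ M, ∀ ω ω', 0 < q ω → 0 < q ω' → D.s i j ω = D.s i j ω' →
    D.T ω = D.T ω' → ∀ l, 1 ≤ l → l ≤ n →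
    (∀ k : Fin (n - 1), (k : ℕ) + 1 < l → vj D n J ω k = vj D n J ω' k) →
    |eval (D.X ω) (D.Ψ i j ω l) - eval (D.X ω') (D.Ψ i j ω' l)| ≤ L₀ / 2 ^ (D.g i j l + Y)
  -- the base is exact to `J` digits
  ex : ∀ i i' : ℕ, i ≤ i' → i' ≤ M → ∀ j ≤ M,
    (∑ l ∈ range (n - 1), ((J : ℝ) - D.g i' j (l + 1))) * Real.log 2 - κ * z ≤
      CH q (vj D n J) (fun ω => (D.s i j ω, (D.s i' j ω, D.T ω)))
  siz : ∀ i ≤ M, ∀ j ≤ M, ∀ l, 1 ≤ l → l ≤ n → D.g i j l + Y ≤ J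

variable {D : NDat2} {n K J a₀ w₀ z M Y : ℕ} {lam gam : ℕ → ℝ} {κ κ' C₁ L₀ : ℝ} {q : D.Ω → ℝ}

/-- **The base to `J` digits given natural digits.** -/
theorem NfHS.ch_vj (h : NfHS D n J z M Y L₀ κ q) (hq : IsLaw q) (hL : 0 ≤ L₀) {i j d : ℕ}
    (hi : i ≤ M) (hj : j ≤ M) (hd : d ≤ Y) {W : Type} {y : D.Ω → W}
    (hy : Det q y (fun ω => (D.vd n i j d ω, (D.s i j ω, D.T ω)))) :
    CH q (vj D n J) y ≤ ∑ l ∈ range (n - 1),
      (((J : ℝ) - (D.g i j (l + 1) + d : ℕ)) * Real.log 2 + Real.log (5 + 2 * L₀)) := by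
  have key := ch_vec hq (vj D n J) y
    (fun l _ => (2 : ℝ) ^ J * ((1 + L₀) / 2 ^ (D.g i j (l + 1) + d)) + 1)
    (fun l ω ω' hω hω' hyy hk => by
      have e := hy ω ω' hω hω' hyy
      simp only [Prod.mk.injEq] at e
      obtain ⟨e1, e2, e3⟩ := e
      have h1 := sh_near (congrFun e1 l)
      have h2 := h.near i hi j hj ω ω' hω hω' e2 e3 (l + 1) (by omega) (by omega)
        (fun k hk' => hk k (by
          show (k : ℕ) < l
          omega))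
      have h3 : L₀ / 2 ^ (D.g i j (l + 1) + Y) ≤ L₀ / 2 ^ (D.g i j (l + 1) + d) :=
        div_le_div_of_nonneg_left hL (by positivity)
          (pow_le_pow_right₀ one_le_two (by omega))
      have h4 := pos_near h1 (h2.trans h3)
      rw [← add_div] at h4
      exact hgt_diff h4)
  refine key.trans (Finset.sum_le_sum fun l hl => ?_)
  have hl' := mem_range.1 hl
  rw [Ex_const hq.sum_one]
  exact log_cell hL (by
    have := h.siz i hi j hj (l + 1) (by omega) (by omega)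
    omega)

/-- **Natural digits are full** given the labels at the points. -/
theorem NfHS.full (h : NfHS D n J z M Y L₀ κ q) (hq : IsLaw q) (hL : 0 ≤ L₀) {i i' j d : ℕ}
    (hii : i ≤ i') (hi : i' ≤ M) (hj : j ≤ M) (hd : d ≤ Y) :
    ((n - 1 : ℕ) : ℝ) * (d * Real.log 2) - κ * z - ((n - 1 : ℕ) : ℝ) * Real.log (5 + 2 * L₀) ≤
      CH q (D.vd n i' j d) (fun ω => (D.s i j ω, (D.s i' j ω, D.T ω))) := by
  have h1 := CH_le_add hq.nonneg (vj D n J) (D.vd n i' j d)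
    (fun ω => (D.s i j ω, (D.s i' j ω, D.T ω)))
  have h2 := h.ch_vj hq hL hi hj hd
    (y := fun ω => (D.vd n i' j d ω, (D.s i j ω, (D.s i' j ω, D.T ω))))
    (fun ω ω' hω hω' e => by
      simp only [Prod.mk.injEq] at e ⊢
      exact ⟨e.1, e.2.2⟩)
  have h3 := h.ex i i' hii hi j hj
  rw [Finset.sum_add_distrib, Finset.sum_const, Finset.card_range, nsmul_eq_mul,
    ← Finset.sum_mul] at h2
  have h4 : ∑ l ∈ range (n - 1), ((J : ℝ) - (D.g i' j (l + 1) + d : ℕ)) =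
      ∑ l ∈ range (n - 1), ((J : ℝ) - D.g i' j (l + 1)) - ((n - 1 : ℕ) : ℝ) * d := by
    have e : ∀ l ∈ range (n - 1), (J : ℝ) - (D.g i' j (l + 1) + d : ℕ) =
        ((J : ℝ) - D.g i' j (l + 1)) - d := fun l _ => by
      push_cast
      ring
    rw [Finset.sum_congr rfl e, Finset.sum_sub_distrib, Finset.sum_const, Finset.card_range,
      nsmul_eq_mul]
  rw [h4, sub_mul] at h2
  linarith

/-- The two labels: coarse at `(i, j)`, fine at `(i', j)`. -/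
theorem two_lS (hO : D.Ok2 n K J a₀ w₀ z M lam gam κ' C₁ q) {i i' j S : ℕ} (hi : i ≤ i')
    (hi' : i' ≤ M) (hj : j ≤ M)
    (hg : ∀ l, 1 ≤ l → l ≤ n → D.g i j l ≤ D.g i' j l ∧ D.g i' j l ≤ D.g i j l + S) :
    TwoL n K S q D.X (fun ω => (D.s i j ω, (D.s i' j ω, D.T ω)))
      (fun x => (x.2.2 : ℝ) / 2 ^ J) (fun x => D.G i j x.1) (fun x => D.G i' j x.2.1)
      (D.g i j) (D.g i' j) where
  time ω _ := hO.X_zero ω
  triΦ x := hO.G_tri i j x.1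
  triΨ x := hO.G_tri i' j x.2.1
  degΦ x l := hO.G_deg i j x.1 l
  degΨ x l := hO.G_deg i' j x.2.1 l
  g_le l l1 l2 := (hg l l1 l2).1
  g_ge l l1 l2 := (hg l l1 l2).2
  hgt ω hω l l1 l2 := hO.pos i (hi.trans hi') j hj ω hω l l1 l2
  hgt' ω hω l l1 l2 := hO.pos i' hi' j hj ω hω l l1 l2

/-- **The count for a cell.** -/
theorem nf_countS (n K : ℕ) (hn : 1 ≤ n) : ∃ C : ℕ, 1 ≤ C ∧ ∀ {D : NDat2}
    {J a₀ w₀ z M Y : ℕ} {lam gam : ℕ → ℝ} {κ κ' C₁ L₀ : ℝ} {q : D.Ω → ℝ},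
    D.Ok2 n K J a₀ w₀ z M lam gam κ' C₁ q → NfHS D n J z M Y L₀ κ q → 0 ≤ L₀ → 0 ≤ κ →
    ∀ {i i' j S L d p : ℕ}, i ≤ i' → i' ≤ M → j ≤ M →
    (∀ l, 1 ≤ l → l ≤ n → D.g i j l ≤ D.g i' j l ∧ D.g i' j l ≤ D.g i j l + S) →
    1 ≤ L → L ≤ Y → n * (S + 1 + C * L) + S ≤ d →
    CH q (fun ω => (D.vd n i j d ω, D.nd n i j p ω))
        (fun ω => (D.s i j ω, (D.s i' j ω, D.T ω))) ≤
      ∑ l ∈ range (n - 1), (((D.g i j (l + 1) + d : ℕ) : ℝ) - D.g i' j (l + 1)) * Real.log 2 +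
      max 0 (((D.g i j n + p : ℕ) : ℝ) - D.g i' j n) * Real.log 2 + n * Real.log 9 +
      n * (n * ((κ * z + ((n - 1 : ℕ) : ℝ) * Real.log (5 + 2 * L₀)) / (L * Real.log 2) + C / L) *
        ((d + p : ℕ) * Real.log 2 + Real.log 9)) := by
  obtain ⟨C, hC, hent⟩ := entA n K
  refine ⟨C, hC, ?_⟩
  intro D J a₀ w₀ z M Y lam gam κ κ' C₁ L₀ q hO h hL₀ hκ i i' j S L d p hi hi' hj hg hL hLY hd
  have hq := hO.isLaw
  have hLR : (0 : ℝ) < L := by exact_mod_cast hL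
  have hl2 : 0 < Real.log 2 := Real.log_pos one_lt_two
  have hl9 : 0 < Real.log 9 := Real.log_pos (by norm_num)
  have hfull := h.full hq hL₀ hi hi' hj hLY
  obtain ⟨e0, he0⟩ : ∃ e0 : ℝ, e0 = κ * z + ((n - 1 : ℕ) : ℝ) * Real.log (5 + 2 * L₀) := ⟨_, rfl⟩
  rw [← he0]
  obtain ⟨γ, hγ⟩ : ∃ γ : D.Ω → D.S × (D.S × ℕ),
      γ = fun ω => (D.s i j ω, (D.s i' j ω, D.T ω)) := ⟨_, rfl⟩
  have hT := two_lS hO (S := S) hi hi' hj hg
  rw [← hγ] at hT hfull ⊢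
  have e1 : (fun ω (l : Fin (n - 1)) => ⌊(2 : ℝ) ^ L *
      xi (D.g i' j) ((fun x : D.S × (D.S × ℕ) => D.G i' j x.2.1) (γ ω)) (D.X ω)
        (n - 1) l⌋) = D.vd n i' j L := by
    funext ω l
    rw [hγ]
    show ⌊(2 : ℝ) ^ L * (2 ^ D.g i' j (l + 1) * D.sh i' j ω (l + 1))⌋ = _
    rw [← mul_assoc, ← pow_add, add_comm L]
    rfl
  have hcnt := hent hq hT hL (δ := e0 / (L * Real.log 2)) (d := d) (u := dep n d p)
    (by
      rw [e1]
      refine le_trans (le_of_eq ?_) hfull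
      rw [sub_sub, ← he0]
      field_simp) hd (fun l _ l2 => by
      unfold dep
      rw [if_pos l2])
  have h2 : CH q (fun ω => (D.vd n i j d ω, D.nd n i j p ω)) γ ≤
      CH q (dgC D.X γ (fun x => D.G i j x.1) (D.g i j) (dep n d p) n) γ := by
    refine CH_mono_left hq.nonneg fun ω ω' _ _ e => ?_
    have e2 := (Prod.ext_iff.1 e).1
    refine Prod.ext ?_ ?_
    · funext l
      have e3 := congrFun e2 ⟨l, by omega⟩
      unfold dgC at e3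
      rw [hγ] at e3
      have e4 : dep n d p ((l : ℕ) + 1) = d := by
        unfold dep
        rw [if_pos (by omega)]
      simp only [e4] at e3
      exact e3
    · have e3 := congrFun e2 ⟨n - 1, by omega⟩
      unfold dgC at e3
      rw [hγ] at e3
      have e4 : dep n d p n = p := by
        unfold dep
        rw [if_neg (by omega)]
      simp only [Nat.sub_add_cancel hn, e4] at e3
      exact e3
  refine h2.trans (hcnt.trans ?_)
  refine sum_dep hn hl2 hl9 (fun l l1 l2 => (hg l l1 l2).2) (by omega) ?_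
  have h5 : 0 ≤ e0 := by
    rw [he0]
    have : 0 ≤ Real.log (5 + 2 * L₀) := Real.log_nonneg (by linarith)
    positivity
  positivity

/-! ### The rate -/

/-- **The natural digits of the target from the digits of its position.** -/
theorem NfHS.rate (h : NfHS D n J z M Y L₀ κ q) (hq : IsLaw q) (hL : 0 ≤ L₀) (hn : 1 ≤ n)
    {i j r p : ℕ} (hi : i ≤ M) (hj : j ≤ M) (hr : r ≤ p) (hp : p ≤ Y) :
    CH q (D.nd n i j p) (fun ω => (D.nd n i j r ω, (vj D n J ω, (D.s i j ω, D.T ω)))) ≤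
      CH q (fun ω => ⌊(2 : ℝ) ^ (D.g i j n + p) * D.X ω n⌋)
        (fun ω => (⌊(2 : ℝ) ^ (D.g i j n + r) * D.X ω n⌋, (vj D n J ω, D.T ω))) +
      2 * Real.log (5 + 2 * L₀) := by
  obtain ⟨xQ, hxQ⟩ : ∃ xQ : D.Ω → ℤ, xQ = fun ω => ⌊(2 : ℝ) ^ (D.g i j n + p) * D.X ω n⌋ :=
    ⟨_, rfl⟩
  obtain ⟨xP, hxP⟩ : ∃ xP : D.Ω → ℤ, xP = fun ω => ⌊(2 : ℝ) ^ (D.g i j n + r) * D.X ω n⌋ :=
    ⟨_, rfl⟩
  rw [← hxQ]
  have hxP' : (fun ω => (⌊(2 : ℝ) ^ (D.g i j n + r) * D.X ω n⌋, (vj D n J ω, D.T ω))) =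
      fun ω => (xP ω, (vj D n J ω, D.T ω)) := by rw [hxP]
  rw [hxP']
  obtain ⟨y, hy⟩ : ∃ y : D.Ω → ℤ × ((Fin (n - 1) → ℤ) × (D.S × ℕ)),
      y = fun ω => (D.nd n i j r ω, (vj D n J ω, (D.s i j ω, D.T ω))) := ⟨_, rfl⟩
  rw [← hy]
  have hpos : ∀ k : ℕ, (0 : ℝ) < 2 ^ k := fun k => by positivity
  -- the label at the point
  have hΨ : ∀ ω ω', 0 < q ω → 0 < q ω' → y ω = y ω' → ∀ k ≤ Y,
      |eval (D.X ω) (D.Ψ i j ω n) - eval (D.X ω') (D.Ψ i j ω' n)| ≤ L₀ / 2 ^ (D.g i j n + k) := by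
    intro ω ω' a b e k hk
    rw [hy] at e
    simp only [Prod.mk.injEq] at e
    obtain ⟨-, e2, e3, e4⟩ := e
    refine (h.near i hi j hj ω ω' a b e3 e4 n hn le_rfl fun k _ => congrFun e2 k).trans ?_
    exact div_le_div_of_nonneg_left hL (hpos _) (pow_le_pow_right₀ one_le_two (by omega))
  have hbd : ∀ (k : ℕ) (x x' : ℝ), |x - x'| ≤ 1 / 2 ^ k + L₀ / 2 ^ k →
      |((⌊(2 : ℝ) ^ k * x⌋ - ⌊(2 : ℝ) ^ k * x'⌋ : ℤ) : ℝ)| ≤ 2 + L₀ := by
    intro k x x' hx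
    refine (hgt_diff hx).trans (le_of_eq ?_)
    have := hpos k
    field_simp
    ring
  have s1 : CH q (D.nd n i j p) (fun ω => (xQ ω, y ω)) ≤ Real.log (5 + 2 * L₀) := by
    refine ch_few hq _ _ fun ω ω' a b e => ?_
    have e1 := (Prod.ext_iff.1 e).1
    have e2 := (Prod.ext_iff.1 e).2
    rw [hxQ] at e1
    exact hbd _ _ _ (near_sh (floor_near e1) (hΨ ω ω' a b e2 p hp))
  have s2 : CH q xP y ≤ Real.log (5 + 2 * L₀) := by
    refine ch_few hq _ _ fun ω ω' a b e => ?_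
    have h1 := hΨ ω ω' a b e r (hr.trans hp)
    rw [hy] at e
    have e1 := (Prod.ext_iff.1 e).1
    rw [hxP]
    exact hbd _ _ _ (pos_near (floor_near e1) h1)
  have s3 := CH_le_add hq.nonneg (D.nd n i j p) xQ y
  have s4 := CH_le_add hq.nonneg xQ xP y
  have s5 : CH q xQ (fun ω => (xP ω, y ω)) ≤ CH q xQ (fun ω => (xP ω, (vj D n J ω, D.T ω))) := by
    refine CH_mono_cond hq.nonneg fun ω ω' _ _ e => ?_
    rw [hy] at e
    simp only [Prod.mk.injEq] at e ⊢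
    exact ⟨e.1, e.2.2.1, e.2.2.2.2⟩
  linarith

/-! ### The row -/

/-- **The row**, one pair. -/
theorem nf_rowS (n K : ℕ) (hn : 1 ≤ n) (Λ : ℕ) {C₁ L₀ : ℝ} (hC₁ : 0 ≤ C₁) (hL₀ : 0 ≤ L₀) :
    ∃ B₀ : ℕ, 1 ≤ B₀ ∧ ∀ B ≥ B₀, ∀ M : ℕ, ∃ (κ₀ : ℝ) (z₀ : ℕ), 0 < κ₀ ∧
    ∀ {D : NDat2} {J a₀ w₀ z Y : ℕ} {lam gam : ℕ → ℝ} {κ κ' : ℝ} {q : D.Ω → ℝ}, z₀ ≤ z →
      0 ≤ κ → κ ≤ κ₀ → B * (M * z) ≤ Y → (∀ l, 1 ≤ l → l ≤ n → lam l + 2 * C₁ ≤ Λ) →
      D.Ok2 n K J a₀ w₀ z M lam gam κ' C₁ q → NfHS D n J z M Y L₀ κ q →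
      (∀ i i' : ℕ, i ≤ i' → i' ≤ M → ∀ j ≤ M, ∀ l, 1 ≤ l → l ≤ n → D.g i j l ≤ D.g i' j l) →
      ∀ i j r U : ℕ, i + (r + U) ≤ M → j ≤ M →
        CH q (D.nd n i j ((r + U) * z)) (fun ω => (D.nd n i j (r * z) ω,
          (D.vd n i j (B * ((r + U) * z)) ω, (D.s i j ω, D.T ω)))) ≤
        CH q (fun ω => ⌊(2 : ℝ) ^ (D.g i j n + (r + U) * z) * D.X ω n⌋)
          (fun ω => (⌊(2 : ℝ) ^ (D.g i j n + r * z) * D.X ω n⌋, (vj D n J ω, D.T ω))) +
          (2 * C₁ + 1) * z := by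
  obtain ⟨C, hC, hcnt⟩ := nf_countS n K hn
  refine ⟨n * Λ + n + n * C + Λ + 1, by omega, ?_⟩
  intro B hB M
  have hl2 : 0 < Real.log 2 := Real.log_pos one_lt_two
  have hl21 : Real.log 2 ≤ 1 := by
    have := Real.log_two_lt_d9
    linarith
  have hl9 : 0 < Real.log 9 := Real.log_pos (by norm_num)
  obtain ⟨ℓ, hℓ⟩ : ∃ ℓ : ℝ, ℓ = Real.log (5 + 2 * L₀) := ⟨_, rfl⟩
  have hℓ0 : 0 ≤ ℓ := by
    rw [hℓ]
    exact Real.log_nonneg (by linarith)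
  obtain ⟨C', hC'⟩ : ∃ C' : ℝ, C' = ((n - 1 : ℕ) : ℝ) * ℓ / Real.log 2 + C := ⟨_, rfl⟩
  have hC'0 : 0 ≤ C' := by
    rw [hC']
    positivity
  obtain ⟨E, hE⟩ : ∃ E : ℝ, E = ((B + 1) * M : ℕ) + Real.log 9 := ⟨_, rfl⟩
  have hE0 : 0 ≤ E := by
    rw [hE]
    positivity
  obtain ⟨V, hV⟩ : ∃ V : ℝ, V = (n : ℝ) * (n * E) := ⟨_, rfl⟩
  have hV0 : 0 ≤ V := by
    rw [hV]
    positivity
  obtain ⟨κ₀, hκ₀⟩ : ∃ κ₀ : ℝ, κ₀ = Real.log 2 / (8 * (V + 1)) := ⟨_, rfl⟩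
  obtain ⟨z₀, hz₀⟩ := exists_nat_ge (4 * (V * C' + (n + 2) * ℓ + n * Real.log 9) + 1)
  refine ⟨κ₀, z₀, by rw [hκ₀]; positivity, ?_⟩
  intro D J a₀ w₀ z Y lam gam κ κ' q hz hκ hκ1 hY hlam hO h hm i j r U hi hj
  have hq := hO.isLaw
  have hzR : (z₀ : ℝ) ≤ z := by exact_mod_cast hz
  have hvc : 0 ≤ V * C' + (n + 2) * ℓ + n * Real.log 9 := by positivity
  have hz1R : (1 : ℝ) ≤ z := by linarith
  have hz1 : 1 ≤ z := by exact_mod_cast hz1R
  have hzp : (0 : ℝ) < z := by linarith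
  rcases Nat.eq_zero_or_pos (r + U) with h0 | hs
  · have e0 : r = 0 := by omega
    have e1 : U = 0 := by omega
    subst e0 e1
    have h1 : CH q (D.nd n i j ((0 + 0) * z)) (fun ω => (D.nd n i j (0 * z) ω,
        (D.vd n i j (B * ((0 + 0) * z)) ω, (D.s i j ω, D.T ω)))) = 0 :=
      CH_eq_zero hq.nonneg fun ω ω' _ _ e => (Prod.ext_iff.1 e).1
    rw [h1]
    exact add_nonneg (CH_nonneg hq.nonneg _ _) (by positivity)
  obtain ⟨s, hs'⟩ : ∃ s, s = r + U := ⟨_, rfl⟩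
  rw [← hs'] at hs hi ⊢
  have hsz : 1 ≤ s * z := Nat.mul_pos hs hz1
  have hzsz : z ≤ s * z := Nat.le_mul_of_pos_left z hs
  have hszM : s * z ≤ M * z := Nat.mul_le_mul_right z (by omega)
  have hrs : r * z ≤ s * z := Nat.mul_le_mul_right z (by omega)
  obtain ⟨d, hd⟩ : ∃ d, d = B * (s * z) := ⟨_, rfl⟩
  rw [← hd]
  have hdY : d ≤ Y := by
    rw [hd]
    exact (Nat.mul_le_mul_left B hszM).trans hY
  have hB1 : 1 ≤ B := by omega
  have hszd : s * z ≤ d := by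
    rw [hd]
    exact Nat.le_mul_of_pos_left _ hB1
  have hcond : n * (Λ * (s * z) + 1 + C * z) + Λ * (s * z) ≤ d := by
    rw [hd]
    calc n * (Λ * (s * z) + 1 + C * z) + Λ * (s * z) ≤
          n * (Λ * (s * z) + s * z + C * (s * z)) + Λ * (s * z) := by
          refine Nat.add_le_add_right (Nat.mul_le_mul_left n ?_) _
          have := Nat.mul_le_mul_left C hzsz
          omega
      _ = (n * Λ + n + n * C + Λ) * (s * z) := by ring
      _ ≤ B * (s * z) := Nat.mul_le_mul_right _ (by omega)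
  have hg : ∀ l, 1 ≤ l → l ≤ n → D.g i j l ≤ D.g (i + s) j l ∧
      D.g (i + s) j l ≤ D.g i j l + Λ * (s * z) := by
    intro l l1 l2
    refine ⟨hm i (i + s) (by omega) hi j hj l l1 l2, ?_⟩
    have h1 := (abs_le.1 (lev_step hO hi hj l1 l2)).2
    have h2 := hlam l l1 l2
    have h3 : (1 : ℝ) ≤ s := by exact_mod_cast hs
    have h4 : (D.g (i + s) j l : ℝ) ≤ D.g i j l + Λ * (s * z) := by
      have h5 : lam l * s * z + 2 * C₁ * z ≤ (lam l + 2 * C₁) * (s * z) := by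
        have : C₁ * z * 1 ≤ C₁ * z * s := mul_le_mul_of_nonneg_left h3 (by positivity)
        nlinarith
      have h6 : (lam l + 2 * C₁) * (s * z) ≤ Λ * (s * z) :=
        mul_le_mul_of_nonneg_right h2 (by positivity)
      linarith
    exact_mod_cast h4
  have t1 := hcnt hO h hL₀ hκ (Nat.le_add_right i s) hi hj hg hz1 (by
    have h1 := hzsz.trans (hszM.trans (Nat.le_mul_of_pos_left (M * z) hB1))
    exact h1.trans hY) (d := d) (p := s * z) hcond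
  have t2 := nf_abs hq.nonneg (D.nd n i j (s * z)) (D.nd n i j (r * z)) (D.vd n i j d) (vj D n J)
    (fun ω => (D.s i j ω, D.T ω)) (fun ω => (D.s i j ω, (D.s (i + s) j ω, D.T ω)))
    (det_nd i j hrs)
  have t3 := h.rate (i := i) (j := j) hq hL₀ hn (by omega) hj hrs (hszd.trans hdY)
  have t4 := h.ch_vj hq hL₀ (by omega) hj hdY
    (y := fun ω => (D.vd n i j d ω, (D.s i j ω, D.T ω))) (fun _ _ _ _ e => e)
  have t5 : CH q (fun ω => (D.s i j ω, D.T ω))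
      (fun ω => (D.s i j ω, (D.s (i + s) j ω, D.T ω))) = 0 :=
    CH_eq_zero hq.nonneg fun ω ω' a b e => by
      simp only [Prod.mk.injEq] at e ⊢
      exact ⟨e.1, e.2.2⟩
  have t6 := h.ex i (i + s) (Nat.le_add_right i s) hi j hj
  have t7 : max 0 (((D.g i j n + s * z : ℕ) : ℝ) - D.g (i + s) j n) * Real.log 2 ≤
      2 * C₁ * z := by
    have h1 := (abs_le.1 (lev_step hO hi hj hn le_rfl)).1
    have h2 : (s : ℝ) * z ≤ lam n * s * z := by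
      have := mul_le_mul_of_nonneg_right (hO.lam_ge n) (by positivity : (0 : ℝ) ≤ s * z)
      linarith
    have h3 : max 0 (((D.g i j n + s * z : ℕ) : ℝ) - D.g (i + s) j n) ≤ 2 * C₁ * z := by
      refine max_le (by positivity) ?_
      push_cast
      linarith
    calc max 0 (((D.g i j n + s * z : ℕ) : ℝ) - D.g (i + s) j n) * Real.log 2 ≤
          2 * C₁ * z * Real.log 2 := mul_le_mul_of_nonneg_right h3 hl2.le
      _ ≤ 2 * C₁ * z * 1 := mul_le_mul_of_nonneg_left hl21 (by positivity)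
      _ = 2 * C₁ * z := mul_one _
  rw [← hℓ] at t1 t3 t4
  have t8 := sum_base (m := n - 1) (J := J) (g := D.g i j)
    (g' := D.g (i + s) j) (d := d) (a := Real.log 2) (b := ℓ)
  have t9 := row_err (s := s) (d := d) hℓ0 (Nat.cast_nonneg C) hC' hE hV hκ₀ hκ hκ1 hz1 (by
    rw [hd]
    have h1 := Nat.mul_le_mul_left B hszM
    calc B * (s * z) + s * z ≤ B * (M * z) + M * z := Nat.add_le_add h1 hszM
      _ = (B + 1) * M * z := by ring) (hz₀.trans hzR)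
  linarith

/-! ### One family -/

/-- **The base is exact** to `J` digits given the labels at the exact point and the exact time,
behind the precisions `g i' j l - sh (l + 1)`. -/
def ExS {m J : ℕ} {F : Fam m J} (D : GDat F) (c : ℕ → Fin m) (n : ℕ) (sh : ℕ → ℕ) (M : ℕ)
    (g : ℕ → ℕ → ℕ → ℕ) (k : ℝ) (q : F.Ω → ℝ) : Prop :=
  ∀ i i' : ℕ, i ≤ i' → i' ≤ M → ∀ j ≤ M,
    (∑ l ∈ range (n - 1), ((J : ℝ) - (g i' j l - sh (l + 1) : ℕ))) * Real.log 2 - k ≤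
      CH q (fun ω (l : Fin (n - 1)) => ⌊(2 : ℝ) ^ J * F.x ω (c l)⌋)
        (fun ω => (D.zS i j (ptr F J ω), (D.zS i' j (ptr F J ω), F.T ω)))

/-- **The inputs of the row for a family.** -/
theorem nfh_famS (n K K' s₁ : ℕ) (sh : ℕ → ℕ) (hK' : 1 ≤ K') : ∃ (L : ℝ) (s₂ : ℕ), 1 ≤ L ∧
    ∀ {m J : ℕ} {F : Fam m J} {D : GDat F} {c : ℕ → Fin m} {a₀ w₀ z M Y : ℕ} {e : ℕ → ℕ → ℕ}
    {g : ℕ → ℕ → ℕ → ℕ} {B : F.Ω → Prop} {R : ℕ → ℕ → Type} {ρ : (i j : ℕ) → LnT F → R i j}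
    {k : ℝ}, D.Ok c n K K' s₁ sh a₀ w₀ z M e g B → Inj c n →
    w₀ + M * z ≤ J → a₀ + M * z ≤ J →
    (∀ i ≤ M, ∀ j ≤ M, ∀ l < n, sh (l + 1) ≤ g i j l) → SizY n J Y M s₂ e g →
    ∀ {q : F.Ω → ℝ}, IsLaw q → (∀ ω, 0 < q ω → B ω) → ExS D c n sh M g (k * z) q →
    NfHS (D.nd c n sh w₀ z M g ρ) n J z M Y L k q := by
  obtain ⟨L, s₂, hL, hnear⟩ := near_gx n n K K' s₁ sh le_rfl hK'
  refine ⟨L, s₂, hL, ?_⟩
  intro m J F D c a₀ w₀ z M Y e g B R ρ k h hc hwM haM hsh hsiz q hq hB hx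
  have hgle : ∀ i j l, g i j l ≤ (range (l + 1)).sup (g i j) := fun i j l =>
    Finset.le_sup (f := g i j) (mem_range.2 (by omega))
  have hgnd : ∀ i j l, 1 ≤ l → (D.nd c n sh w₀ z M g ρ).g i j l = g i j (l - 1) - sh l :=
    fun i j l l1 => CDat2.nd2_g _ _ _ _ _ _ _ l1
  refine ⟨fun i hi j hj ω ω' hω hω' es eT l l1 l2 hk => ?_, fun i i' hii hi' j hj => ?_,
    fun i hi j hj l l1 l2 => ?_⟩
  · have hai : a₀ + i * z ≤ J := by
      have : i * z ≤ M * z := Nat.mul_le_mul_right _ hi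
      omega
    have hch := h.chn i hi j hj
    have hO := h.out i hi j hj
    have et : F.t ω = F.t ω' := by
      unfold Fam.t
      rw [show F.T ω = F.T ω' from eT]
    have ez : D.zS i j (ptr F J ω) = D.zS i j (ptr F J ω') := es
    have eΨ : ∀ ω, (D.nd c n sh w₀ z M g ρ).Ψ i j ω l = (D.cd n ρ).Ps2 i j ω l := fun ω =>
      CDat2.nd2_Ψ (D.cd n ρ) (cx F fun i => c (i - 1)) (pc c) w₀ z M
        (fun i j l => g i j (l - 1) - sh l) hi hj l1 l2 ω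
    rw [hgnd i j l l1, eΨ, eΨ]
    have h1 := hnear m J F c (a₀ + i * z) (g i j)
      (fun l => e i j + ((range (l + 1)).sup (g i j) - g i j l)) Y (D.G i j (ptr F J ω))
      (D.PS i j (D.zS i j (ptr F J ω))) ω hai hc (fun k _ => hch.degG _ k)
      (fun k => hch.depG _ k) (fun k hk b hb l hl => by
        refine (hch.lip ω (hB ω hω) k (by omega) b hb l hl).trans ?_
        refine pow_le_pow_right₀ (by norm_num) (Nat.add_le_add_left ?_ _)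
        unfold nlp
        have h5 : (Finset.Icc l k).sup (g i j) ≤ (range (k + 1)).sup (g i j) := by
          refine Finset.sup_mono fun x hx => ?_
          rw [Finset.mem_Icc] at hx
          exact mem_range.2 (by omega)
        omega)
      (fun k _ _ => hO.Stri _ k) (fun k _ _ => hO.Sdeg _ k)
      (by rw [hO.Szero, hO.Sfst, tx_eq]) (hO.nrS ω (hB ω hω))
      (fun k h1 h2 => hO.pos ω (hB ω hω) k h1 h2) (hsh i hi j hj) (fun l hl => by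
        have h5 := hgle i j l
        have h6 := hsiz i hi j hj l hl
        omega)
      (cx F (fun i => c (i - 1)) ω') (by
        show (if 0 = 0 then F.t ω' else _) = _
        rw [if_pos rfl, et]) l l1 l2 (fun k k1 k2 => by
        have h2 := floor_near (a := J) (hk ⟨k - 1, by omega⟩ (by
          show k - 1 + 1 < l
          omega))
        simp only [Nat.sub_add_cancel k1] at h2
        rw [abs_sub_comm]
        exact h2)
    rw [abs_sub_comm]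
    show |eval (cx F (fun i => c (i - 1)) ω') (D.PS i j (D.zS i j (ptr F J ω')) l) -
      eval (cx F (fun i => c (i - 1)) ω) (D.PS i j (D.zS i j (ptr F J ω)) l)| ≤ _
    rw [← ez]
    exact h1
  · have h2 := hx i i' hii hi' j hj
    have h3 : ∑ l ∈ range (n - 1), ((J : ℝ) - (D.nd c n sh w₀ z M g ρ).g i' j (l + 1)) =
        ∑ l ∈ range (n - 1), ((J : ℝ) - (g i' j l - sh (l + 1) : ℕ)) := by
      refine Finset.sum_congr rfl fun l _ => ?_
      rw [hgnd i' j (l + 1) (by omega), Nat.add_sub_cancel]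
    rw [h3]
    exact h2
  · rw [hgnd i j l l1]
    have h5 := hgle i j (l - 1)
    have h6 := hsiz i hi j hj (l - 1) (by omega)
    rw [Nat.sub_add_cancel l1] at h5 h6
    omega

/-- **The rows for one family**, from `ExS`. -/
theorem nf_famS (n K K' s₁ : ℕ) (sh : ℕ → ℕ) (hn : 1 ≤ n) (hK' : 1 ≤ K') (Λ : ℕ) {C₁ : ℝ}
    (hC₁ : 0 ≤ C₁) : ∃ (B₀ s₂ : ℕ), 1 ≤ B₀ ∧ ∀ B ≥ B₀, ∀ M : ℕ, ∃ (κ₀ : ℝ) (z₀ : ℕ), 0 < κ₀ ∧
    ∀ {m J : ℕ} {F : Fam m J} {D : GDat F} {c : ℕ → Fin m} {a₀ w₀ z : ℕ} {e : ℕ → ℕ → ℕ}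
    {g : ℕ → ℕ → ℕ → ℕ} {A : F.Ω → Prop} {R : ℕ → ℕ → Type} {ρ : (i j : ℕ) → LnT F → R i j}
    {lam gam : ℕ → ℝ} {k κ' a : ℝ},
    D.Ok c n K K' s₁ sh a₀ w₀ z M e g A → Inj c n →
    (∀ i : Fin m, i ≠ c (n - 1) → ∃ l < n - 1, c l = i) → z₀ ≤ z →
    0 ≤ k → k ≤ κ₀ → (∀ l, 1 ≤ l → l ≤ n → lam l + 2 * C₁ ≤ Λ) →
    (∀ i ≤ M, ∀ j ≤ M, ∀ l < n, sh (l + 1) ≤ g i j l) →
    (∀ i i' : ℕ, i ≤ i' → i' ≤ M → ∀ j ≤ M, ∀ l < n, g i j l ≤ g i' j l) →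
    SizY n J (B * (M * z)) M s₂ e g →
    ∀ {q : F.Ω → ℝ}, IsLaw q → (∀ ω, 0 < q ω → A ω) →
    (∀ ω ω', 0 < q ω → 0 < q ω' → F.Z ω = F.Z ω') →
    ExS D c n sh M g (k * z) q →
    (D.nd c n sh w₀ z M g ρ).Ok2 n K' J a₀ w₀ z M lam gam κ' C₁ q →
    (∀ P Q : ℕ, P ≤ Q → (∃ i ≤ M, ∃ j ≤ M, g i j (n - 1) - sh n ≤ P ∧
      Q ≤ g i j (n - 1) - sh n + M * z) →
      CH q (fun ω => F.X Q ω (c (n - 1)))
        (fun ω => (F.X P ω (c (n - 1)), oth (c (n - 1)) J F (ptr F J ω))) ≤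
        (1 - a) * (((Q : ℝ) - P) * Real.log 2) + z) →
    NF0 (D.nd c n sh w₀ z M g ρ) n z M B a (2 * C₁ + 2) q := by
  obtain ⟨L, s₂, hL, hnf⟩ := nfh_famS n K K' s₁ sh hK'
  obtain ⟨B₀, hB₀, hrow⟩ := nf_rowS n K' hn Λ hC₁ (by linarith : 0 ≤ L)
  refine ⟨B₀, s₂, hB₀, fun B hB M => ?_⟩
  obtain ⟨κ₀, z₀, hκ₀, hrow⟩ := hrow B hB M
  refine ⟨κ₀, z₀, hκ₀, ?_⟩
  intro m J F D c a₀ w₀ z e g A R ρ lam gam k κ' a hD hc hcov hz hk hk1 hlam hsh hmon hsiz q hq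
    hA hZ hx hok hrate i hi j hj r U hrU
  have hT := hok.thin
  have hP := hok.top
  have hMz : (M + 1) * z = M * z + z := by ring
  have hN := hnf (ρ := ρ) hD hc (by omega) (by omega) hsh hsiz hq hA hx
  have hgn : ∀ i j l, 1 ≤ l → (D.nd c n sh w₀ z M g ρ).g i j l = g i j (l - 1) - sh l :=
    fun i j l l1 => CDat2.nd2_g _ _ _ _ _ _ _ l1
  have h1 := hrow hz hk hk1 le_rfl hlam hok hN (fun i i' hii hi' j hj l l1 l2 => by
    rw [hgn i j l l1, hgn i' j l l1]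
    exact Nat.sub_le_sub_right (hmon i i' hii hi' j hj (l - 1) (by omega)) _) i j r U
    (by omega) hj
  refine h1.trans ?_
  rw [hgn i j n hn]
  have h2 := rate_vj (J := J) (c := c) hq.nonneg hn hcov hZ (g i j (n - 1) - sh n + r * z)
    (g i j (n - 1) - sh n + (r + U) * z)
  have h3 : r * z ≤ (r + U) * z := Nat.mul_le_mul_right z (by omega)
  have h4 : (r + U) * z ≤ M * z := Nat.mul_le_mul_right z (by omega)
  have h5 := hrate (g i j (n - 1) - sh n + r * z) (g i j (n - 1) - sh n + (r + U) * z)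
    (by omega) ⟨i, hi, j, hj, by omega, by omega⟩
  have h6 : (((g i j (n - 1) - sh n + (r + U) * z : ℕ) : ℝ) -
      ((g i j (n - 1) - sh n + r * z : ℕ) : ℝ)) = U * z := by
    push_cast
    ring
  rw [h6] at h5
  have h7 := h2.trans h5
  have h8 : CH q (fun ω => ⌊(2 : ℝ) ^ (g i j (n - 1) - sh n + (r + U) * z) *
      (D.nd c n sh w₀ z M g ρ).X ω n⌋)
      (fun ω => (⌊(2 : ℝ) ^ (g i j (n - 1) - sh n + r * z) * (D.nd c n sh w₀ z M g ρ).X ω n⌋,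
        (vj (D.nd c n sh w₀ z M g ρ) n J ω, (D.nd c n sh w₀ z M g ρ).T ω))) ≤
      (1 - a) * (U * z * Real.log 2) + z := h7
  have h9 : (1 - a) * (U * z * Real.log 2) + z + (2 * C₁ + 1) * z =
      (1 - a) * (U * z) * Real.log 2 + (2 * C₁ + 2) * z := by ring
  rw [← h9]
  exact add_le_add_left h8 _

end Pool.MIC6
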