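import Pool.Agent.H40.ISO.Stm
import Pool.Agent.H40.ISO.NfS

/-!
# The weak form of exactness

`ExN`: the base is full in the near digits given the cell and the time. `ExC.exn`, `ExC.exs`: the
exactness of the base given the relations of the cell gives `ExN` and `ExS` (exactness given the
labels at the point). `OkIsoN`, `GdIsoN`: the statements of the kit of the fattest boxes for one
family, with `ExN`.
-/

set_option autoImplicit false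

namespace Pool.STAT.OKI

open Finset MvPolynomial
open Pool.Agent.H49.Ent Pool.Agent.H32.Dense Pool.STK Pool.KS3 Pool.KA Pool.KSAT Pool.PB Pool.GEN
open Pool.K2S Pool.S6C Pool.STAT.CLO Pool.STAT.Glu
open Pool.BFL (Pb)
open Pool.MIC6

/-- **The base is full in the near digits** given the relations of the cell and the exact time. -/
def ExN {m J : ℕ} {F : Fam m J} (D : GDat F) (c : ℕ → Fin m) (n : ℕ) (sh : ℕ → ℕ)
    {R : ℕ → ℕ → Type} (ρ : (i j : ℕ) → LnT F → R i j) (w₀ z M : ℕ) (g : ℕ → ℕ → ℕ → ℕ) (k : ℝ)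
    (q : F.Ω → ℝ) : Prop :=
  ∀ i ≤ M, ∀ j ≤ M, ∀ U ≤ M, ((n - 1 : ℕ) : ℝ) * (U * z) * Real.log 2 - k ≤
    CH q ((D.nd c n sh w₀ z M g ρ).vd n i j (U * z))
      (fun ω => ((D.cd n ρ).lab2 w₀ z i j ω, F.T ω))

theorem ExN.mono {m J : ℕ} {F : Fam m J} {D : GDat F} {c : ℕ → Fin m} {n : ℕ} {sh : ℕ → ℕ}
    {R : ℕ → ℕ → Type} {ρ : (i j : ℕ) → LnT F → R i j} {w₀ z M : ℕ} {g : ℕ → ℕ → ℕ → ℕ} {k k' : ℝ}
    {q : F.Ω → ℝ} (h : ExN D c n sh ρ w₀ z M g k q) (hk : k ≤ k') :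
    ExN D c n sh ρ w₀ z M g k' q := fun i hi j hj U hU => by
  have := h i hi j hj U hU
  linarith

theorem ExN.eq {m J : ℕ} {F : Fam m J} {D : GDat F} {c : ℕ → Fin m} {n : ℕ} {sh : ℕ → ℕ}
    {R : ℕ → ℕ → Type} {ρ : (i j : ℕ) → LnT F → R i j} {w₀ z M : ℕ} {g : ℕ → ℕ → ℕ → ℕ}
    {q : F.Ω → ℝ} {i j : ℕ} (hi : i ≤ M) (hj : j ≤ M) (u : ℕ) :
    CH q ((D.nd c n sh w₀ z M g ρ).vd n i j u)
      (fun ω => ((D.cd n ρ).lab2 w₀ z i j ω, F.T ω)) =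
    CH q (fun ω (l : Fin (n - 1)) => ⌊(2 : ℝ) ^ (g i j (l + 1 - 1) - sh (l + 1) + u) *
      (cx F (fun i => c (i - 1)) ω (l + 1) - eval (cx F (fun i => c (i - 1)) ω)
        (D.PS i j (D.zS i j (ptr F J ω)) (l + 1)))⌋)
      (fun ω => ((D.cd n ρ).lab2 w₀ z i j ω, F.T ω)) := by
  congr 1
  funext ω l
  exact CDat2.nd2_vd _ _ _ _ _ _ _ hi hj ω l

/-- **From `J` digits to the near digits.** -/
theorem exn (n K K' s₁ : ℕ) (sh : ℕ → ℕ) (hK' : 1 ≤ K') : ∃ (L : ℝ) (s₂ : ℕ), 0 ≤ L ∧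
    ∀ {m J : ℕ} {F : Fam m J} {D : GDat F} {c : ℕ → Fin m} {a₀ w₀ z M : ℕ} {e : ℕ → ℕ → ℕ}
    {g : ℕ → ℕ → ℕ → ℕ} {A : F.Ω → Prop} {R : ℕ → ℕ → Type} {ρ : (i j : ℕ) → LnT F → R i j}
    {k : ℝ}, D.Ok c n K K' s₁ sh a₀ w₀ z M e g A → Inj c n → a₀ + M * z ≤ J →
    (∀ i ≤ M, ∀ j ≤ M, ∀ l < n, sh (l + 1) ≤ g i j l) → SizF n J z M s₂ e g →
    ∀ {q : F.Ω → ℝ}, IsLaw q → (∀ ω, 0 < q ω → A ω) → ExC D c n sh ρ w₀ z M g k q →
    ExN D c n sh ρ w₀ z M g (k + L) q := by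
  obtain ⟨L, s₂, hL, hful⟩ := full_gdat n K K' s₁ sh hK'
  refine ⟨((n - 1 : ℕ) : ℝ) * Real.log (5 + 2 * L), s₂,
    mul_nonneg (Nat.cast_nonneg _) (Real.log_nonneg (by linarith)), ?_⟩
  intro m J F D c a₀ w₀ z M e g A R ρ k h hc hJa hsh hsz q hq hA hx i hi j hj U hU
  have h3 : ∀ l < n - 1, g i j l ≤ (range (l + 1)).sup (g i j) := fun l _ =>
    Finset.le_sup (f := g i j) (mem_range.2 (by omega))
  have hUM : U * z ≤ M * z := Nat.mul_le_mul_right z hU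
  have h4 := hful h hc hJa hq hA i hi j hj
    (fun l => e i j + ((range (l + 1)).sup (g i j) - g i j l)) (U * z)
    (fun l hl => hsh i hi j hj l (by omega))
    (fun l _ k hk => by
      unfold nlp
      have h5 : (Finset.Icc k l).sup (g i j) ≤ (range (l + 1)).sup (g i j) := by
        refine Finset.sup_mono fun x hx => ?_
        rw [Finset.mem_Icc] at hx
        exact mem_range.2 (by omega)
      omega) (fun l hl => by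
      have h5 := h3 l hl
      have h6 := hsz i hi j hj l hl
      omega) (fun ω => ((D.cd n ρ).lab2 w₀ z i j ω, F.T ω)) (fun ω ω' _ _ e' => by
      simp only [Prod.mk.injEq] at e'
      have h5 := CDat2.lab2_val (D.cd n ρ) (i' := i) (j' := j) le_rfl le_rfl e'.1
      exact Prod.ext (congrArg (fun v : LV × R i j => v.1) h5) e'.2) k
    (hx i hi j hj)
  rw [ExN.eq hi hj]
  rw [Nat.cast_mul] at h4
  have h7 : ((n - 1 : ℕ) : ℝ) * (U * z) * Real.log 2 =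
      ((n - 1 : ℕ) : ℝ) * ((U * z) * Real.log 2) := by ring
  rw [h7]
  exact h4

/-- **Exactness given the labels at the point.** -/
theorem exs {m J : ℕ} {F : Fam m J} {D : GDat F} {c : ℕ → Fin m} {n K K' s₁ : ℕ} {sh : ℕ → ℕ}
    {a₀ w₀ z M : ℕ} {e : ℕ → ℕ → ℕ}
    {g : ℕ → ℕ → ℕ → ℕ} {A : F.Ω → Prop} {R : ℕ → ℕ → Type} {ρ : (i j : ℕ) → LnT F → R i j}
    {k : ℝ} (h : D.Ok c n K K' s₁ sh a₀ w₀ z M e g A) {q : F.Ω → ℝ} (hq : IsLaw q)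
    (hA : ∀ ω, 0 < q ω → A ω) (hx : ExC D c n sh ρ w₀ z M g k q) : ExS D c n sh M g k q := by
  intro i i' hii hi' j hj
  refine (hx i' hi' j hj).trans (CH_mono_cond hq.nonneg fun ω ω' hω hω' e' => ?_)
  simp only [Prod.mk.injEq] at e'
  have et : F.t ω = F.t ω' := by
    unfold Fam.t
    rw [e'.2]
  have ez : ∀ i₁ ≤ i', D.zS i₁ j (ptr F J ω) = D.zS i₁ j (ptr F J ω') := by
    intro i₁ h1
    have h5 := CDat2.lab2_val (D.cd n ρ) (i' := i₁) (j' := j) le_rfl (by omega) e'.1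
    have h6 : D.zL i₁ j (slam F (w₀ + j * z) ω) = D.zL i₁ j (slam F (w₀ + j * z) ω') :=
      congrArg (fun v : LV × R i₁ j => v.1) h5
    have hO := h.out i₁ (h1.trans hi') j hj
    rw [hO.cls ω (hA ω hω), hO.cls ω' (hA ω' hω'), h6, tx_eq, tx_eq, et]
  exact Prod.ext (ez i hii) (Prod.ext (ez i' le_rfl) e'.2)

/-- **The axioms `Ok2` for one family**, from the near digits. -/
def OkIsoN (n K K' s₁ Λ Bc : ℕ) (sh : ℕ → ℕ) (C₀ : ℝ) : Prop :=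
  ∀ (M : ℕ) (κ : ℝ), 0 < κ → ∃ (δ : ℝ) (z₀ : ℕ), 0 < δ ∧
    ∀ {m J : ℕ} {F : Fam m J} {D : GDat F} {c : ℕ → Fin m} {a₀ w₀ z : ℕ} {e : ℕ → ℕ → ℕ}
      {g : ℕ → ℕ → ℕ → ℕ} {x z' : ℕ} {A : F.Ω → Prop} {R : ℕ → ℕ → Type}
      {ρ : (i j : ℕ) → LnT F → R i j} {lam gam : ℕ → ℝ} {k C₁ : ℝ} {q : F.Ω → ℝ},
      IsoD D c n K K' s₁ sh a₀ w₀ z M e g x Λ Bc z' A →
      (∀ i j, Subsingleton (R i j)) → z₀ ≤ z → (x : ℝ) ≤ δ * z → (z' : ℝ) ≤ δ * z → C₀ ≤ C₁ →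
      CDat2.Num2 n J a₀ w₀ z M lam gam (fun i j l => g i j (l - 1) - sh l) C₁ →
      IsLaw q → (∀ ω, 0 < q ω → A ω) → k ≤ δ →
      ExN D c n sh ρ w₀ z M g (k * z) q →
      (D.nd c n sh w₀ z M g ρ).Ok2 n K' J a₀ w₀ z M lam gam κ C₁ q

/-- **The data on a large event**, from the near digits. -/
def GdIsoN (n K K' s₁ Λ Bc : ℕ) (sh : ℕ → ℕ) : Prop :=
  ∀ (M : ℕ) (η : ℝ), 0 < η → η ≤ 1 → ∃ (δ : ℝ) (z₀ : ℕ), 0 < δ ∧
    ∀ {m J : ℕ} {F : Fam m J} {D : GDat F} {c : ℕ → Fin m} {a₀ w₀ z : ℕ} {e : ℕ → ℕ → ℕ}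
      {g : ℕ → ℕ → ℕ → ℕ} {x z' : ℕ} {B : F.Ω → Prop} {R : ℕ → ℕ → Type}
      {ρ : (i j : ℕ) → LnT F → R i j} {k E : ℝ} {q : F.Ω → ℝ},
      D.Ok c n K K' s₁ sh a₀ w₀ z M e g B → Cmn D M → Sds n M z x Λ g → Inj c n →
      z₀ ≤ z → z' ≤ z → w₀ + (M + 1) * z ≤ J →
      (∀ i ≤ M, ∀ j ≤ M, ∀ l < n, sh (l + 1) ≤ g i j l) →
      IsLaw q → (∀ ω, 0 < q ω → B ω) → 0 ≤ E → E + 1 ≤ δ * z' →
      ((J : ℝ) - w₀) * Real.log 2 - E ≤ CH q F.T (slam F w₀) → 0 ≤ k → k ≤ δ →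
      ExN D c n sh ρ w₀ z M g (k * z) q →
      ∃ A : F.Ω → Prop, (∀ ω, A ω → 0 < q ω) ∧ 1 - η ≤ Pb q A ∧
        IsoD D c n K K' s₁ sh a₀ w₀ z M e g x Λ Bc z' A

end Pool.STAT.OKI
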