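import Pool.Agent.H40.ISO.Few2
import Pool.Agent.H40.ISO.Exn

/-!
# The axioms `Ok2` of the kit of the fattest boxes, for one family

`ok_isoN`: the data `IsoD` and fullness of the near digits give the axioms `Ok2`, the constant `C₀`
does not depend on `M`. `ok_iso`: the same from exactness.
-/

set_option autoImplicit false

namespace Pool.STAT.OKI

open Finset MvPolynomial
open Pool.Agent.H49.Ent Pool.Agent.H32.Dense Pool.STK Pool.KS3 Pool.KA Pool.KSAT Pool.PB Pool.GEN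
open Pool.K2S Pool.S6C Pool.STAT.CLO Pool.STAT.Glu
open Pool.BFL (Pb)
open Pool.MIC6

/-- **The axioms `Ok2` for one family**, from the near digits. -/
theorem ok_isoN (n K K' s₁ Λ Bc : ℕ) (sh : ℕ → ℕ) (hK' : 1 ≤ K') : ∃ C₀ : ℝ, 0 ≤ C₀ ∧
    OkIsoN n K K' s₁ Λ Bc sh C₀ := by
  obtain ⟨C₀, hC₀, hok⟩ := GDat.ok2 n K' s₁
  obtain ⟨C₂, z₁, hC₂, hij⟩ := ij_few n K K' s₁ Λ Bc sh hK'
  obtain ⟨C₃, z₂, hC₃, hi1⟩ := i_few n K K' s₁ Λ Bc sh hK'
  refine ⟨C₀ + 3 * C₂ + 3 * C₃, by positivity, fun M κ hκ => ?_⟩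
  have hM1 : (1 : ℝ) ≤ (M + 1) ^ 2 := one_le_pow₀ (by
    have : (0 : ℝ) ≤ M := Nat.cast_nonneg _
    linarith)
  obtain ⟨z₄, hz₄⟩ := exists_nat_ge ((M + 1 : ℝ) ^ 2)
  refine ⟨min κ (1 / (2 * (M + 1) ^ 2)), max (max z₁ z₂) z₄,
    lt_min hκ (by positivity), ?_⟩
  intro m J F D c a₀ w₀ z e g x z' A R ρ lam gam k C₁ q h hR hz hx hz' hC hN hq hA hk hx'
  have hzr : (0 : ℝ) ≤ z := Nat.cast_nonneg z
  have y1 : z₁ ≤ z := ((le_max_left _ _).trans (le_max_left _ _)).trans hz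
  have y2 : z₂ ≤ z := ((le_max_right _ _).trans (le_max_left _ _)).trans hz
  have y4 : (z₄ : ℝ) ≤ z := by
    exact_mod_cast (le_max_right _ _).trans hz
  have d1 : min κ (1 / (2 * (M + 1) ^ 2)) ≤ κ := min_le_left _ _
  have d2 : min κ (1 / (2 * ((M : ℝ) + 1) ^ 2)) ≤ 1 / (2 * (M + 1) ^ 2) := min_le_right _ _
  have few : ∀ C : ℝ, 0 ≤ C → C * z + ((M : ℝ) + 1) ^ 2 * (C * (x + z' + 1)) ≤ 3 * C * z := by
    intro C hC
    have f1 : (x : ℝ) ≤ 1 / (2 * (M + 1) ^ 2) * z := hx.trans (mul_le_mul_of_nonneg_right d2 hzr)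
    have f2 : (z' : ℝ) ≤ 1 / (2 * (M + 1) ^ 2) * z := hz'.trans (mul_le_mul_of_nonneg_right d2 hzr)
    have f3 : ((M : ℝ) + 1) ^ 2 * (x + z' + 1) ≤ 2 * z := by
      have g1 : ((M : ℝ) + 1) ^ 2 * x ≤ z / 2 := by
        have := mul_le_mul_of_nonneg_left f1 (by positivity : (0 : ℝ) ≤ (M + 1) ^ 2)
        refine this.trans (le_of_eq ?_)
        field_simp
      have g2 : ((M : ℝ) + 1) ^ 2 * z' ≤ z / 2 := by
        have := mul_le_mul_of_nonneg_left f2 (by positivity : (0 : ℝ) ≤ (M + 1) ^ 2)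
        refine this.trans (le_of_eq ?_)
        field_simp
      have g3 : ((M : ℝ) + 1) ^ 2 ≤ z := hz₄.trans y4
      nlinarith
    have f4 := mul_le_mul_of_nonneg_left f3 hC
    nlinarith
  have hCz : ∀ C' : ℝ, C' ≤ C₀ + 3 * C₂ + 3 * C₃ → C' * z ≤ C₁ * z := fun C' h' =>
    mul_le_mul_of_nonneg_right (h'.trans hC) hzr
  refine hok ρ hK' h.ok h.z1 (by linarith) hN hq hA (fun i hi j hj => ?_)
    (fun i hi j hj => ?_) fun i hi j hj U hU => ?_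
  · exact ((hi1 (ρ := ρ) h hR y2 hq hA i hi j hj).trans (few C₃ hC₃)).trans
      (hCz _ (by linarith))
  · exact ((hij (ρ := ρ) h hR y1 hq hA i hi j hj).trans (few C₂ hC₂)).trans
      (hCz _ (by linarith))
  · have h4 := hx' i hi j hj U (by omega)
    have h6 : k * (z : ℝ) ≤ κ * z := mul_le_mul_of_nonneg_right (hk.trans d1) hzr
    linarith

/-- **The axioms `Ok2` for one family.** -/
theorem ok_iso (n K K' s₁ Λ Bc : ℕ) (sh : ℕ → ℕ) (hK' : 1 ≤ K') : ∃ (C₀ : ℝ) (s₂ : ℕ), 0 ≤ C₀ ∧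
    OkIso n K K' s₁ Λ Bc sh C₀ s₂ := by
  obtain ⟨C₀, hC₀, hok⟩ := ok_isoN n K K' s₁ Λ Bc sh hK'
  obtain ⟨L, s₂, hL, hexn⟩ := exn n K K' s₁ sh hK'
  refine ⟨C₀, s₂, hC₀, fun M κ hκ => ?_⟩
  obtain ⟨δ, z₀, hδ, hok⟩ := hok M κ hκ
  obtain ⟨z₁, hz₁⟩ := exists_nat_ge (2 * L / δ)
  refine ⟨δ / 2, max z₀ z₁, by positivity, ?_⟩
  intro m J F D c a₀ w₀ z e g x z' A R ρ lam gam k C₁ q h hc hR hz hx hz' hC hN hsh hsz hq hA
    hk0 hk hx'
  have hzr : (0 : ℝ) ≤ z := Nat.cast_nonneg z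
  have y1 : (z₁ : ℝ) ≤ z := by exact_mod_cast (le_max_right _ _).trans hz
  have hd : δ / 2 * z ≤ δ * z := mul_le_mul_of_nonneg_right (by linarith) hzr
  have hJa : a₀ + M * z ≤ J := by
    have h2 := hN.top
    have h3 : (M + 1) * z = M * z + z := by ring
    omega
  have h1 := hexn h.ok hc hJa hsh hsz hq hA hx'
  have h2 : k * z + L ≤ δ * z := by
    have e1 : 2 * L / δ ≤ z := hz₁.trans y1
    rw [div_le_iff₀ hδ] at e1
    have e2 : k * z ≤ δ / 2 * z := mul_le_mul_of_nonneg_right hk hzr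
    linarith
  exact hok h hR ((le_max_left _ _).trans hz) (hx.trans hd) (hz'.trans hd) hC hN hq hA le_rfl
    (h1.mono h2)

end Pool.STAT.OKI
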