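import Pool.Agent.H40.ISO.Tbr
import Pool.Agent.H35.LBK.Lbk
import Pool.Agent.H78.MIC.IsoF

/-!
# Reference charts for the charts of a grid, for a class

`bal_cls`: the base is exact at the windows of the grid behind the sides of the balls, the time is
full; then re-centred ball charts have reference charts among any other ball charts with almost the
same sides, on large subevents of all large events.
-/

set_option autoImplicit false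

namespace Pool.STAT.OKI

open Finset MvPolynomial
open Pool.Agent.H49.Ent Pool.Agent.H32.Dense Pool.STK Pool.KS3 Pool.KA Pool.KSAT Pool.PB Pool.GEN
open Pool.K2S Pool.S6C Pool.STAT.CLO Pool.STAT.Glu
open Pool.BFL (Pb)
open Pool.CHT (TmH)

/-- **Reference charts, for a class**: the columns up to `j₀`, the size of one of the charts is
bounded. -/
theorem bal_clsC (n K : ℕ) (hn : 1 ≤ n) {ε : ℝ} (hε : 0 < ε) : ∃ κ : ℝ, 0 < κ ∧ κ ≤ 1 ∧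
    ∀ j₀ : ℕ, ∃ C : ℝ, 1 ≤ C ∧ ∀ {m : ℕ} {S : PCl m} {c : ℕ → Fin m} {ϖ ζ γ : ℝ}
    {b : ℕ → ℕ → ℝ} {eb : ℕ → ℝ}, TmH S → Inj c n → 0 ≤ ϖ → 0 < ζ → 0 < γ →
    ϖ + (j₀ + 1) * ζ + γ ≤ 1 → (∀ j ≤ j₀, ∀ l < n, ζ + γ ≤ b j l) →
    (∀ j ≤ j₀, ∀ l < n, b j l + eb j + 2 * ζ + γ ≤ 1) →
    (∀ j ≤ j₀, Bas S fun J F A => ExW F A (fun l : Fin (n - 1) => c l) (up ϖ J + j * up ζ J)
      ((∑ l ∈ range (n - 1), ((J : ℝ) - (⌊b j l * J⌋₊ : ℕ))) * Real.log 2 - κ * up ζ J)) →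
    Bas S fun J F A => ∀ (D : GDat F) (K' s₁ : ℕ) (sh : ℕ → ℕ) (a₀ M : ℕ) (e : ℕ → ℕ → ℕ)
      (g : ℕ → ℕ → ℕ → ℕ) (lo hi : ℕ → ℕ → ℝ) (e₀ e' : ℕ → ℕ) (g₀ g' : ℕ → ℕ → ℕ)
      (G₀ G' : ℕ → PtT F → ℕ → MvPolynomial (Option (Fin m)) ℝ)
      (H₀ H' : ℕ → LnT F → ℕ → MvPolynomial (Option (Fin m)) ℝ), j₀ ≤ M →
      D.Ok c n K K' s₁ sh a₀ (up ϖ J) (up ζ J) M e g A →
      BalG D.G D.H c n K M (up ϖ J) (up ζ J) lo hi e₀ g₀ G₀ H₀ A →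
      (∀ j ≤ j₀, ChOK F c n (fun _ => K) (up ϖ J + j * up ζ J) (up ϖ J + j * up ζ J) (e' j)
        (g' j) A (G' j) (H' j)) →
      (∀ j ≤ j₀, ∀ l < n, |(g₀ j l : ℝ) - b j l * J| ≤ κ * (ζ * J)) →
      (∀ j ≤ j₀, ∀ l < n, |(g' j l : ℝ) - b j l * J| ≤ κ * (ζ * J)) →
      (∀ j ≤ j₀, (e₀ j : ℝ) ≤ eb j * J ∨ (e' j : ℝ) ≤ eb j * J) →
      ∃ (W : Type) (cp : PtT F → W) (cs : LnT F → W) (Rf : ℕ → W → ℕ → PN) (B : F.Ω → Prop),
        Sub B A ∧ Pe F.p A ≤ C * Pe F.p B ∧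
        RefC D c n (up ϖ J) (up ζ J) M j₀ g₀ H' (Real.exp (ε * up ζ J)) cp cs Rf B := by
  obtain ⟨s₂, s₃, z₀, κ₀, C₁, hκ₀, hC₁, href⟩ := bal_refC n K hn hε
  obtain ⟨κ, hκ⟩ : ∃ κ : ℝ, κ = min 1 (κ₀ / (4 * (n + 1))) := ⟨_, rfl⟩
  have hn0 : (0 : ℝ) ≤ n := Nat.cast_nonneg n
  have hκ0 : 0 < κ := by
    rw [hκ]
    exact lt_min one_pos (by positivity)
  have hκ1 : κ ≤ 1 := by rw [hκ]; exact min_le_left _ _
  have hκ2 : κ * (4 * (n + 1)) ≤ κ₀ := by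
    have h1 : κ ≤ κ₀ / (4 * (n + 1)) := by rw [hκ]; exact min_le_right _ _
    rwa [le_div_iff₀ (by positivity)] at h1
  refine ⟨κ, hκ0, hκ1, fun j₀ => ⟨C₁ ^ (j₀ + 1), one_le_pow₀ hC₁, ?_⟩⟩
  intro m S c ϖ ζ γ b eb hS hc hϖ hζ hγ hwin hlow hsz hex
  have hC0 : 0 < C₁ ^ (j₀ + 1) := by positivity
  have hl1 := log2_le
  have hl0 := log2_pos
  obtain ⟨hpos, htm⟩ := hS
  obtain ⟨J₁, hJ₁⟩ := lin_ev (a := 1) one_pos hζ z₀
  obtain ⟨J₂, hJ₂⟩ := exists_nat_ge (((j₀ : ℝ) + 2 + s₃ + s₂ + 2) / γ)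
  obtain ⟨J₃, hJ₃⟩ := lin_ev (a := κ₀ / 4) (by positivity) hζ (n + 1)
  have hex' : Bas S fun J F A => ∀ j < j₀ + 1, ∀ B : F.Ω → Prop, Sub B A →
      (C₁ ^ (j₀ + 1))⁻¹ * Pe F.p A ≤ Pe F.p B →
      ExW F B (fun l : Fin (n - 1) => c l) (up ϖ J + j * up ζ J)
      ((∑ l ∈ range (n - 1), ((J : ℝ) - (⌊b j l * J⌋₊ : ℕ))) * Real.log 2 - κ * up ζ J) :=
    Bas.all (j₀ + 1) fun j hj => Pool.LBK.Bas.ev (hex j (by omega)) (by positivity)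
  have htm' := Pool.LBK.Bas.ev (htm (κ * ζ) (by positivity)) (inv_pos.2 hC0)
  have hp : Bas S (fun _ F A => 0 < Pe F.p A) := ⟨1, one_pos, 0, fun J _ F A hA => hpos 1 J F A hA⟩
  refine Bas.mono (max J₁ (max J₂ J₃)) (Bas.and (Bas.and hex' htm') hp) ?_
  rintro J hJ F A ⟨⟨h1, h2⟩, hA⟩ D K' s₁ sh a₀ M e g lo hi e₀ e' g₀ g' G₀ G' H₀ H' hjM hD hb
    hch' hg0 hg' he0
  obtain ⟨z, hz⟩ : ∃ z, z = up ζ J := ⟨_, rfl⟩
  obtain ⟨w₀, hw₀⟩ : ∃ w₀, w₀ = up ϖ J := ⟨_, rfl⟩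
  rw [← hz, ← hw₀] at hD hb
  simp only [← hz, ← hw₀] at hch'
  rw [← hz, ← hw₀]
  have hJr : (0 : ℝ) ≤ J := Nat.cast_nonneg J
  have j1 := hJ₁ J ((le_max_left _ _).trans hJ)
  have j2 : (J₂ : ℝ) ≤ J := by
    exact_mod_cast ((le_max_left _ _).trans (le_max_right _ _)).trans hJ
  have j3 := hJ₃ J (((le_max_right _ _).trans (le_max_right _ _)).trans hJ)
  rw [← hz] at j1 j3
  have j4 := hJ₂.trans j2
  rw [div_le_iff₀ hγ] at j4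
  have hzge : ζ * J ≤ z := by rw [hz]; exact up_ge _ _
  have hzle : (z : ℝ) ≤ ζ * J + 1 := by rw [hz]; exact up_le hζ.le _
  have hwle : (w₀ : ℝ) ≤ ϖ * J + 1 := by rw [hw₀]; exact up_le hϖ _
  have hz0 : (0 : ℝ) ≤ z := Nat.cast_nonneg z
  have hM0 : (0 : ℝ) ≤ j₀ := Nat.cast_nonneg j₀
  have hs3 : (0 : ℝ) ≤ s₃ := Nat.cast_nonneg _
  have hs2 : (0 : ℝ) ≤ s₂ := Nat.cast_nonneg _
  have hζJ : 0 ≤ ζ * J := by positivity
  have hκζ : κ * (ζ * J) ≤ ζ * J := by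
    calc κ * (ζ * J) ≤ 1 * (ζ * J) := mul_le_mul_of_nonneg_right hκ1 hζJ
      _ = ζ * J := one_mul _
  have hκz : κ * (ζ * J) ≤ κ * z := mul_le_mul_of_nonneg_left hzge hκ0.le
  have hκκ : κ * (4 * (n + 1)) * z ≤ κ₀ * z := mul_le_mul_of_nonneg_right hκ2 hz0
  have hκnz : 0 ≤ κ * n * z := by positivity
  have hwJ : w₀ + j₀ * z + z ≤ J := by
    have e1 : ((w₀ + j₀ * z + z : ℕ) : ℝ) ≤ J := by
      push_cast
      have e2 : (j₀ : ℝ) * z ≤ j₀ * (ζ * J + 1) := mul_le_mul_of_nonneg_left hzle hM0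
      have e3 : (ϖ + (j₀ + 1) * ζ + γ) * J ≤ 1 * J := mul_le_mul_of_nonneg_right hwin hJr
      nlinarith only [j4, hzle, hwle, e2, e3]
    exact_mod_cast e1
  refine href (M := M) hD hb hjM hch' hc (by
      have : (z₀ : ℝ) ≤ z := by linarith only [j1]
      exact_mod_cast this) hA hwJ (fun j hj l hl => ?_) (fun j hj l hl => ?_)
    (fun j hj => ?_) (fun j hj B hB hP => ?_) (fun B hB hP => ?_)
  · have e1 : (ζ + γ) * J ≤ b j l * J := mul_le_mul_of_nonneg_right (hlow j hj l hl) hJr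
    have e2 := (abs_le.1 (hg0 j hj l hl)).1
    have e3 := (abs_le.1 (hg' j hj l hl)).1
    constructor
    · have : (s₃ : ℝ) ≤ g₀ j l := by nlinarith only [j4, hκζ, e1, e2]
      exact_mod_cast this
    · have : (s₃ : ℝ) ≤ g' j l := by nlinarith only [j4, hκζ, e1, e3]
      exact_mod_cast this
  · have e2 := abs_le.1 (hg0 j hj l hl)
    have e3 := abs_le.1 (hg' j hj l hl)
    have e4 : 0 ≤ κ * z := by positivity
    rw [abs_le]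
    constructor <;> linarith only [j3, hκz, hκκ, hκnz, e2, e3, e2.1, e2.2, e3.1, e3.2]
  · have key : ∀ (g₁ : ℕ → ℕ) (e₁ : ℕ), (∀ l < n, |(g₁ l : ℝ) - b j l * J| ≤ κ * (ζ * J)) →
        (e₁ : ℝ) ≤ eb j * J → ∀ l < n, (range (l + 1)).sup g₁ + e₁ + z + s₂ ≤ J := by
      intro g₁ e₁ hg₁ he₁ l hl
      have e1 : ∀ k < l + 1, ((g₁ k : ℕ) : ℝ) + e₁ + z + s₂ ≤ J := by
        intro k hk
        have e2 := (abs_le.1 (hg₁ k (by omega))).2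
        have e4 : (b j k + eb j + 2 * ζ + γ) * J ≤ 1 * J :=
          mul_le_mul_of_nonneg_right (hsz j hj k (by omega)) hJr
        nlinarith only [j4, hzle, hκζ, e2, he₁, e4]
      have e2 : (range (l + 1)).sup g₁ ≤ J - (e₁ + z + s₂) := by
        refine Finset.sup_le fun k hk => ?_
        have e3 := e1 k (mem_range.1 hk)
        have e4 : g₁ k + e₁ + z + s₂ ≤ J := by exact_mod_cast e3
        omega
      have e3 := e1 l (by omega)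
      have e4 : g₁ l + e₁ + z + s₂ ≤ J := by exact_mod_cast e3
      omega
    rcases he0 j hj with h | h
    · exact Or.inl (key (g₀ j) (e₀ j) (hg0 j hj) h)
    · exact Or.inr (key (g' j) (e' j) (hg' j hj) h)
  · have e0 := h1 j (by omega) B hB (by
      rw [inv_mul_le_iff₀ hC0]
      exact hP)
    rw [← hz, ← hw₀] at e0
    refine e0.mono ?_
    have e1 : ∑ l ∈ range (n - 1), ((J : ℝ) - g₀ j l) ≤
        ∑ l ∈ range (n - 1), ((J : ℝ) - (⌊b j l * J⌋₊ : ℕ)) + n * (κ * z) := by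
      have e2 : ((n - 1 : ℕ) : ℝ) * (κ * z) = ∑ _l ∈ range (n - 1), (κ * z) := by
        rw [Finset.sum_const, Finset.card_range, nsmul_eq_mul]
      have e3 : ((n - 1 : ℕ) : ℝ) * (κ * z) ≤ n * (κ * z) := by
        refine mul_le_mul_of_nonneg_right ?_ (by positivity)
        exact_mod_cast Nat.sub_le n 1
      have e4 : ∑ l ∈ range (n - 1), ((J : ℝ) - g₀ j l) ≤
          ∑ l ∈ range (n - 1), ((J : ℝ) - (⌊b j l * J⌋₊ : ℕ)) +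
            ∑ _l ∈ range (n - 1), (κ * z) := by
        rw [← Finset.sum_add_distrib]
        refine Finset.sum_le_sum fun l hl => ?_
        have hl' := mem_range.1 hl
        have e5 := (abs_le.1 (hg0 j hj l (by omega))).1
        have e6 : (⌊b j l * J⌋₊ : ℝ) ≤ b j l * J := by
          refine Nat.floor_le ?_
          have e7 := hlow j hj l (by omega)
          have : 0 ≤ b j l := by linarith only [hζ, hγ, e7]
          positivity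
        linarith only [hκz, e5, e6]
      linarith only [e2, e3, e4]
    have e2 := mul_le_mul_of_nonneg_right e1 hl0.le
    rw [add_mul] at e2
    have e3 : n * (κ * z) * Real.log 2 ≤ n * (κ * z) := by
      have : 0 ≤ n * (κ * z) := by positivity
      nlinarith only [hl1, hκnz]
    nlinarith only [j3, hκκ, e2, e3]
  · have hBp : 0 < Pe F.p B := by
      by_contra hcon
      have e1 : Pe F.p B = 0 := le_antisymm (not_lt.1 hcon) (Pe_nonneg F.isLaw _)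
      rw [e1, mul_zero] at hP
      linarith only [hA, hP]
    have e0 := h2 B hB (by
      rw [inv_mul_le_iff₀ hC0]
      exact hP) hBp
    have e1 := CDat.nd_time hBp e0 (by omega : w₀ ≤ J)
    rw [Nat.cast_sub (by omega)] at e1
    have e2 : κ * (ζ * J) ≤ κ₀ * z := by nlinarith only [j3, hκz, hκκ, hκnz]
    have e3 : κ * ζ * (J : ℝ) = κ * (ζ * J) := by ring
    rw [e3] at e1
    linarith only [j3, hκz, hκκ, hκnz, e1]

/-- **Reference charts, for a class.** -/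
theorem bal_cls (n K : ℕ) (hn : 1 ≤ n) {ε : ℝ} (hε : 0 < ε) : ∃ κ : ℝ, 0 < κ ∧ κ ≤ 1 ∧
    ∀ M : ℕ, ∃ C : ℝ, 1 ≤ C ∧ ∀ {m : ℕ} {S : PCl m} {c : ℕ → Fin m} {ϖ ζ γ : ℝ}
    {b : ℕ → ℕ → ℝ} {eb : ℕ → ℝ}, TmH S → Inj c n → 0 ≤ ϖ → 0 < ζ → 0 < γ →
    ϖ + (M + 1) * ζ + γ ≤ 1 → (∀ j ≤ M, ∀ l < n, ζ + γ ≤ b j l) →
    (∀ j ≤ M, ∀ l < n, b j l + eb j + 2 * ζ + γ ≤ 1) →
    (∀ j ≤ M, Bas S fun J F A => ExW F A (fun l : Fin (n - 1) => c l) (up ϖ J + j * up ζ J)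
      ((∑ l ∈ range (n - 1), ((J : ℝ) - (⌊b j l * J⌋₊ : ℕ))) * Real.log 2 - κ * up ζ J)) →
    Bas S fun J F A => ∀ (D : GDat F) (K' s₁ : ℕ) (sh : ℕ → ℕ) (a₀ : ℕ) (e : ℕ → ℕ → ℕ)
      (g : ℕ → ℕ → ℕ → ℕ) (lo hi : ℕ → ℕ → ℝ) (e₀ e' : ℕ → ℕ) (g₀ g' : ℕ → ℕ → ℕ)
      (G₀ G' : ℕ → PtT F → ℕ → MvPolynomial (Option (Fin m)) ℝ)
      (H₀ H' : ℕ → LnT F → ℕ → MvPolynomial (Option (Fin m)) ℝ),
      D.Ok c n K K' s₁ sh a₀ (up ϖ J) (up ζ J) M e g A →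
      BalG D.G D.H c n K M (up ϖ J) (up ζ J) lo hi e₀ g₀ G₀ H₀ A →
      (∀ j ≤ M, ChOK F c n (fun _ => K) (up ϖ J + j * up ζ J) (up ϖ J + j * up ζ J) (e' j)
        (g' j) A (G' j) (H' j)) →
      (∀ j ≤ M, ∀ l < n, |(g₀ j l : ℝ) - b j l * J| ≤ κ * (ζ * J)) →
      (∀ j ≤ M, ∀ l < n, |(g' j l : ℝ) - b j l * J| ≤ κ * (ζ * J)) →
      (∀ j ≤ M, (e₀ j : ℝ) ≤ eb j * J) →
      ∃ (W : Type) (cp : PtT F → W) (cs : LnT F → W) (Rf : ℕ → W → ℕ → PN) (B : F.Ω → Prop),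
        Sub B A ∧ Pe F.p A ≤ C * Pe F.p B ∧
        RefD D c n (up ϖ J) (up ζ J) M g₀ H' (Real.exp (ε * up ζ J)) cp cs Rf B := by
  obtain ⟨κ, hκ, hκ1, h⟩ := bal_clsC n K hn hε
  refine ⟨κ, hκ, hκ1, fun M => ?_⟩
  obtain ⟨C, hC, h⟩ := h M
  refine ⟨C, hC, ?_⟩
  intro m S c ϖ ζ γ b eb hS hc hϖ hζ hγ hwin hlow hsz hex
  refine Bas.mono 0 (h hS hc hϖ hζ hγ hwin hlow hsz hex) ?_
  intro J _ F A hA D K' s₁ sh a₀ e g lo hi e₀ e' g₀ g' G₀ G' H₀ H' hD hb hch' hg0 hg' he0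
  exact hA D K' s₁ sh a₀ M e g lo hi e₀ e' g₀ g' G₀ G' H₀ H' le_rfl hD hb hch' hg0 hg'
    fun j hj => Or.inl (he0 j hj)

end Pool.STAT.OKI
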