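import Pool.Agent.H40.ISO.Few2
import Pool.Agent.H6.MIC.EntC

/-!
# The context from reference charts and own heights

`lab_ref`: the charts of the grid are near on the boxes of the ball to reference charts which are
functions of a code, the own path is near to the charts of the grid; then the context has few bits
given the code and the heights of the own path over the reference charts at the nodes.
-/

set_option autoImplicit false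

namespace Pool.STAT.OKI

open Finset MvPolynomial
open Pool.Agent.H49.Ent Pool.Agent.H32.Dense Pool.STK Pool.KS3 Pool.KA Pool.KSAT Pool.PB Pool.GEN
open Pool.K2S Pool.S6C Pool.STAT.CLO Pool.STAT.Glu
open Pool.BFL (Pb)

/-- The height of the own path over the system `Φ` at the time `t`. -/
noncomputable def ohg {m J : ℕ} (F : Fam m J) (c : ℕ → Fin m) (w₀ : ℕ) (Φ : ℕ → PN) (t : ℝ) (l : ℕ)
    (ω : F.Ω) : ℝ :=
  ptt (pc c (slam F w₀ ω)) t l - eval (ptt (pc c (slam F w₀ ω)) t) (Φ l)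

/-- The digits of the heights of the own path over the reference charts at the nodes. -/
noncomputable def hts {m J : ℕ} (F : Fam m J) (c : ℕ → Fin m) (n K w₀ z j : ℕ) (d : ℕ → ℕ → ℕ)
    {W : Type} (Rf : ℕ → W → ℕ → PN) (code : F.Ω → W) (ω : F.Ω) (j' : Fin (j + 1))
    (a : Fin (K + 1)) (l : Fin n) : ℤ :=
  ⌊(2 : ℝ) ^ d j' l * ohg F c w₀ (Rf j' (code ω))
    (nod K (tw F (w₀ + j' * z) ω) (w₀ + j' * z) a) (l + 1) ω⌋

/-- **The context has few bits** given the code and the heights; the columns up to `j₀`. -/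
theorem lab_refC (n K K' s₁ : ℕ) (sh : ℕ → ℕ) (hK' : 1 ≤ K') : ∃ C : ℝ, 0 ≤ C ∧
    ∀ {m J : ℕ} {F : Fam m J} {D : GDat F} {c : ℕ → Fin m} {a₀ w₀ z M j₀ : ℕ}
    {e : ℕ → ℕ → ℕ} {g : ℕ → ℕ → ℕ → ℕ} {A : F.Ω → Prop} {R : ℕ → ℕ → Type}
    {ρ : (i j : ℕ) → LnT F → R i j} {q : F.Ω → ℝ} {W : Type} {code : F.Ω → W}
    {Rf : ℕ → W → ℕ → PN} {g₀ : ℕ → ℕ → ℕ} {x : ℕ} {y : ℝ} {d : ℕ → ℕ → ℕ} {i j : ℕ},
    D.Ok c n K K' s₁ sh a₀ w₀ z M e g A → (∀ i j, Subsingleton (R i j)) → j₀ ≤ M →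
    w₀ + j₀ * z ≤ J → IsLaw q → (∀ ω, 0 < q ω → A ω) → i ≤ M → j ≤ j₀ → 0 ≤ y →
    (∀ i ≤ M, ∀ j ≤ j₀, ∀ ω, A ω → ∀ l, 1 ≤ l → l ≤ n → ∀ t : ℝ,
      Wn (tw F (w₀ + j * z) ω) (w₀ + j * z) t →
      |ohg F c w₀ (Sy D c n w₀ z i j ω) t l ω| ≤ Real.exp y / 2 ^ gs g i j l) →
    (∀ j ≤ j₀, ∀ v, Tr K (Rf j v)) →
    (∀ i ≤ M, ∀ j ≤ j₀, ∀ ω, A ω → NbP n (Wn (tw F (w₀ + j * z) ω) (w₀ + j * z))
      (fun l => g₀ j (l - 1)) (Real.exp y) (Sy D c n w₀ z i j ω) (Rf j (code ω))) →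
    Det q code (F.T1 (w₀ + j₀ * z)) →
    (∀ i ≤ M, ∀ j ≤ j₀, ∀ l < n, g₀ j l ≤ g i j l) →
    (∀ i ≤ M, ∀ j ≤ j₀, ∀ l < n, ∀ k < l, g i j l + g₀ j k ≤ g₀ j l + g i j k + x) →
    (∀ i' j', j' ≤ j → i' + j ≤ i + j' → ∀ l < n, g i' j' l ≤ d j' l + x) →
    CH q ((D.cd n ρ).lab2 w₀ z i j) (fun ω => (code ω, hts F c n K w₀ z j d Rf code ω)) ≤
      (M + 1) ^ 2 * (C * (y + x + 1)) := by
  obtain ⟨C₁, hC₁, hval⟩ := val_nb n K K' s₁ sh hK'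
  obtain ⟨c₀, hc₀, hnwl⟩ := nwl n K
  obtain ⟨c₂, hc₂, hsym⟩ := NbP.symm n K
  obtain ⟨c₃, hc₃, htra⟩ := NbP.trans n K
  have p1 : PBd fun Y => ((c₃ : ℝ) * (Y * ((c₂ : ℝ) * Y) ^ c₂)) ^ c₃ :=
    (PBd.id.mul (PBd.id.loss c₂)).loss c₃
  have p2 : PBd fun Y => ((c₀ : ℝ) * (Y * ((c₃ : ℝ) * (Y * ((c₂ : ℝ) * Y) ^ c₂)) ^ c₃)) ^ c₀ :=
    (PBd.id.mul p1).loss c₀
  obtain ⟨c₇, hc₇, h7⟩ := p2
  have hc71 : (1 : ℝ) ≤ c₇ := by exact_mod_cast hc₇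
  have hl7 : 0 ≤ Real.log c₇ := Real.log_nonneg hc71
  have hl1 := log2_le
  have hl0 := log2_pos
  refine ⟨C₁ * (c₇ * (Real.log c₇ + 1) + 1), by positivity, ?_⟩
  intro m J F D c a₀ w₀ z M j₀ e g A R ρ q W code Rf g₀ x y d i j hD hR hj₀ hwJ hq hA hi hj hy
    hown hRf hnear hT hg hgx hd
  have hww : ∀ j' ≤ j₀, w₀ + j' * z ≤ w₀ + j₀ * z := fun j' hj' =>
    Nat.add_le_add_left (Nat.mul_le_mul_right z hj') w₀
  have dT : ∀ ω ω', 0 < q ω → 0 < q ω' → code ω = code ω' → ∀ j' ≤ j₀,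
      F.T1 (w₀ + j' * z) ω = F.T1 (w₀ + j' * z) ω' := by
    intro ω ω' h1 h2 e' j' hj'
    exact CDat2.T1_slam F (hww j' hj') hwJ (hT ω ω' h1 h2 e')
  obtain ⟨Y, hY⟩ : ∃ Y : ℝ, Y = Real.exp y * 2 ^ x := ⟨_, rfl⟩
  have hey : 1 ≤ Real.exp y := Real.one_le_exp hy
  have h2x := two_one x
  have hY1 : 1 ≤ Y := by
    rw [hY]
    exact one_le_mul_of_one_le_of_one_le hey h2x
  have hyY : Real.exp y ≤ Y := by
    rw [hY]
    exact le_mul_of_one_le_right (by linarith only [hey]) h2x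
  have hxY : (2 : ℝ) ^ x ≤ Y := by
    rw [hY]
    exact le_mul_of_one_le_left (by linarith only [h2x]) hey
  obtain ⟨S, hS⟩ : ∃ S : ℝ, S = ((c₃ : ℝ) * (Y * ((c₂ : ℝ) * Y) ^ c₂)) ^ c₃ := ⟨_, rfl⟩
  have hS1 : 1 ≤ S := by
    rw [hS]
    exact pw_one hc₃ (one_le_mul_of_one_le_of_one_le hY1 (pw_one hc₂ hY1))
  have hYS : Y ≤ S := by
    have h1 : Y ≤ Y * ((c₂ : ℝ) * Y) ^ c₂ := le_mul_of_one_le_right (by linarith only [hY1]) (pw_one hc₂ hY1)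
    rw [hS]
    exact h1.trans (pw_self hc₃ (hY1.trans h1))
  obtain ⟨N, hN⟩ : ∃ N : ℝ, N = ((c₀ : ℝ) * (Y * S)) ^ c₀ := ⟨_, rfl⟩
  have hYS1 : 1 ≤ Y * S := one_le_mul_of_one_le_of_one_le hY1 hS1
  have hN1 : 1 ≤ N := by
    rw [hN]
    exact pw_one hc₀ hYS1
  have hNb : Real.log N ≤ c₇ * (Real.log c₇ + (y + x)) := by
    have h1 := (le_abs_self _).trans (h7 Y hY1)
    beta_reduce at h1
    rw [← hS, ← hN] at h1
    have h2 := Real.log_le_log (by linarith only [hN1]) h1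
    rw [Real.log_pow, Real.log_mul (by linarith only [hc71]) (by linarith only [hY1])] at h2
    have h3 : Real.log Y ≤ y + x := by
      rw [hY, Real.log_mul (by positivity) (by positivity), Real.log_exp, Real.log_pow]
      have : (x : ℝ) * Real.log 2 ≤ x * 1 := mul_le_mul_of_nonneg_left hl1 (Nat.cast_nonneg x)
      linarith only [this]
    refine h2.trans (mul_le_mul_of_nonneg_left ?_ (by linarith only [hc71]))
    linarith only [h3]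
  have hlN : 0 ≤ Real.log N := Real.log_nonneg hN1
  obtain ⟨ε, hε⟩ : ∃ ε : ℝ, ε = C₁ * (Real.log N + 1) := ⟨_, rfl⟩
  have key := (D.cd n ρ).lab2_le (M := M) hq
    (fun ω => (code ω, hts F c n K w₀ z j d Rf code ω)) (i := i) (j := j) hi (hj.trans hj₀)
    (fun ω ω' h1 h2 e' => dT ω ω' h1 h2 (Prod.ext_iff.mp e').1 j hj) (ε := ε) (by
    intro i' hi' j' hj' hij
    refine (val_zL hR hq _ w₀ z i' j').trans ?_
    have hi'M : i' ≤ M := by omega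
    have hj'M : j' ≤ j₀ := by omega
    have hj'M' : j' ≤ M := hj'M.trans hj₀
    rw [hε]
    refine hval hD hq hA i' hi'M j' hj'M' _
      (fun ω ω' h1 h2 e' => dT ω ω' h1 h2 (Prod.ext_iff.mp e').1 j' hj'M) _ hlN
      fun ω ω' hω hω' e' => ?_
    rw [Real.exp_log (by linarith only [hN1])]
    obtain ⟨e1, e2⟩ := Prod.ext_iff.mp e'
    simp only at e1 e2
    have eT := dT ω ω' hω hω' e1 j' hj'M
    have e0 : tw F (w₀ + j' * z) ω' = tw F (w₀ + j' * z) ω := tw_eq eT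
    have t1 := tr_sy hD hi'M hj'M' ω
    have t2 := tr_sy hD hi'M hj'M' ω'
    have t3 := hRf j' hj'M (code ω)
    have n1 := (hnear i' hi'M j' hj'M ω (hA ω hω)).mono le_rfl (fun _ h => h) hyY
    have n2 := (hnear i' hi'M j' hj'M ω' (hA ω' hω')).mono le_rfl (fun _ h => h) hyY
    rw [e0, ← e1] at n2
    have n3 := htra t1 t3 t2 hY1 (pw_one hc₂ hY1) n1 (hsym t2 t3 hY1 n2)
    rw [← hS] at n3
    have o1 := hown i' hi'M j' hj'M ω (hA ω hω)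
    have o2 := hown i' hi'M j' hj'M ω' (hA ω' hω')
    rw [e0] at o2
    rw [hN]
    have hYYS : Y ≤ Y * S := le_mul_of_one_le_right (by linarith only [hY1]) hS1
    have hSYS : S ≤ Y * S := le_mul_of_one_le_left (by linarith only [hS1]) hY1
    refine hnwl (S := S) (E := Real.exp y) (N := 2 ^ x) (Y := Y * S) (x := x)
      (g₀ := fun l => g₀ j' (l - 1)) (g₁ := gs g i' j') t1 t2 t3 hS1 hey h2x hSYS
      (hyY.trans hYYS) (hxY.trans hYYS) (hxY.trans hYYS) (pc_zero c _) (pc_zero c _) (pc_deg c _)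
      (fun k k1 k2 => hg i' hi'M j' hj'M (k - 1) (by omega))
      (fun l l2 k k1 k2 => hgx i' hi'M j' hj'M (l - 1) (by omega) (k - 1) (by omega))
      (n1.mono le_rfl (fun _ h => h) hYS) (n2.mono le_rfl (fun _ h => h) hYS) n3
      (fun l l1 l2 t ht => o1 l l1 l2 t ht) (fun l l1 l2 t ht => o2 l l1 l2 t ht)
      (fun l l1 l2 a ha => ?_)
    have e3 := congrFun (congrFun (congrFun e2 ⟨j', by omega⟩) ⟨a, by omega⟩) ⟨l - 1, by omega⟩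
    unfold hts at e3
    simp only [Nat.sub_add_cancel l1] at e3
    rw [e0, ← e1] at e3
    have h1 := Pool.MIC6.floor_near e3
    unfold ohg at h1
    refine h1.trans ?_
    rw [div_le_div_iff₀ (by positivity) (by positivity), one_mul]
    have h2 := two_mul_le (hd i' j' hj' (by omega) (l - 1) (by omega))
    exact h2)
  refine key.trans ?_
  refine mul_le_mul_of_nonneg_left ?_ (by positivity)
  rw [hε, mul_assoc]
  refine mul_le_mul_of_nonneg_left ?_ hC₁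
  have hx0 : (0 : ℝ) ≤ x := Nat.cast_nonneg x
  have h1 : (c₇ : ℝ) * (Real.log c₇ + (y + x)) ≤ c₇ * (Real.log c₇ + 1) * (y + x + 1) := by
    rw [mul_assoc]
    refine mul_le_mul_of_nonneg_left ?_ (by linarith only [hc71])
    have : 0 ≤ Real.log c₇ * (y + x) := by positivity
    nlinarith only [this]
  linarith only [hy, hNb, h1]

/-- **The context has few bits** given the code and the heights. -/
theorem lab_ref (n K K' s₁ : ℕ) (sh : ℕ → ℕ) (hK' : 1 ≤ K') : ∃ C : ℝ, 0 ≤ C ∧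
    ∀ {m J : ℕ} {F : Fam m J} {D : GDat F} {c : ℕ → Fin m} {a₀ w₀ z M : ℕ}
    {e : ℕ → ℕ → ℕ} {g : ℕ → ℕ → ℕ → ℕ} {A : F.Ω → Prop} {R : ℕ → ℕ → Type}
    {ρ : (i j : ℕ) → LnT F → R i j} {q : F.Ω → ℝ} {W : Type} {code : F.Ω → W}
    {Rf : ℕ → W → ℕ → PN} {g₀ : ℕ → ℕ → ℕ} {x : ℕ} {y : ℝ} {d : ℕ → ℕ → ℕ} {i j : ℕ},
    D.Ok c n K K' s₁ sh a₀ w₀ z M e g A → (∀ i j, Subsingleton (R i j)) → w₀ + M * z ≤ J →
    IsLaw q → (∀ ω, 0 < q ω → A ω) → i ≤ M → j ≤ M → 0 ≤ y →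
    (∀ i ≤ M, ∀ j ≤ M, ∀ ω, A ω → ∀ l, 1 ≤ l → l ≤ n → ∀ t : ℝ,
      Wn (tw F (w₀ + j * z) ω) (w₀ + j * z) t →
      |ohg F c w₀ (Sy D c n w₀ z i j ω) t l ω| ≤ Real.exp y / 2 ^ gs g i j l) →
    (∀ j ≤ M, ∀ v, Tr K (Rf j v)) →
    (∀ i ≤ M, ∀ j ≤ M, ∀ ω, A ω → NbP n (Wn (tw F (w₀ + j * z) ω) (w₀ + j * z))
      (fun l => g₀ j (l - 1)) (Real.exp y) (Sy D c n w₀ z i j ω) (Rf j (code ω))) →
    Det q code (F.T1 (w₀ + M * z)) →
    (∀ i ≤ M, ∀ j ≤ M, ∀ l < n, g₀ j l ≤ g i j l) →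
    (∀ i ≤ M, ∀ j ≤ M, ∀ l < n, ∀ k < l, g i j l + g₀ j k ≤ g₀ j l + g i j k + x) →
    (∀ i' j', j' ≤ j → i' + j ≤ i + j' → ∀ l < n, g i' j' l ≤ d j' l + x) →
    CH q ((D.cd n ρ).lab2 w₀ z i j) (fun ω => (code ω, hts F c n K w₀ z j d Rf code ω)) ≤
      (M + 1) ^ 2 * (C * (y + x + 1)) := by
  obtain ⟨C, hC, h⟩ := lab_refC n K K' s₁ sh hK'
  refine ⟨C, hC, ?_⟩
  intro m J F D c a₀ w₀ z M e g A R ρ q W code Rf g₀ x y d i j hD hR hwJ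
  exact h hD hR le_rfl hwJ

end Pool.STAT.OKI
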