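import Pool.Agent.H40.ISO.Tbe
import Pool.Agent.H40.ISO.Lref
import Pool.Agent.H40.ISO.Gdi

/-!
# Reference charts for the charts of a grid

`RefD`: reference charts which are functions of a closed code, near to the charts of the grid on the
boxes of the ball. `bal_ref`: re-centred ball charts have reference charts among any other ball
charts in the same windows, on a large event. `lab_bal`: the context has few bits given the code and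
the heights of the own path over the reference charts. `exc_bal`: from the entropy given the code and
the heights to the entropy given the context.
-/

set_option autoImplicit false

namespace Pool.STAT.OKI

open Finset MvPolynomial
open Pool.Agent.H49.Ent Pool.Agent.H32.Dense Pool.STK Pool.KS3 Pool.KA Pool.KSAT Pool.PB Pool.GEN
open Pool.K2S Pool.S6C Pool.STAT.CLO Pool.STAT.Glu
open Pool.BFL (Pb)

/-- **Several windows.** -/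
theorem refs_bal (n K : ℕ) (hn : 1 ≤ n) {ε : ℝ} (hε : 0 < ε) : ∃ (s₂ s₃ z₀ : ℕ) (κ C₁ : ℝ),
    0 < κ ∧ 1 ≤ C₁ ∧ ∀ {M m J : ℕ} {F : Fam m J} {c : ℕ → Fin m} {w e e' : ℕ → ℕ} {z : ℕ}
    {g g' : ℕ → ℕ → ℕ} {A : F.Ω → Prop}
    {G G' : ℕ → PtT F → ℕ → MvPolynomial (Option (Fin m)) ℝ}
    {H H₀ H' : ℕ → LnT F → ℕ → MvPolynomial (Option (Fin m)) ℝ},
    Inj c n → z₀ ≤ z → 0 < Pe F.p A →
    (∀ j < M, ChOK F c n (fun _ => K) (w j) (w j) (e j) (g j) A (G j) (H₀ j)) →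
    (∀ j < M, ChOK F c n (fun _ => K) (w j) (w j) (e' j) (g' j) A (G' j) (H' j)) →
    (∀ j < M, ∀ s i, (H j s i).totalDegree ≤ K) → (∀ j < M, ∀ s i, DepC c i (H j s i)) →
    (∀ j < M, ∀ s, ∀ l < n, H j s l = Hno (c l) (fun s => H₀ j s l) s) →
    (∀ j < M, w j + z ≤ J) → (∀ j < M, ∀ l < n, s₃ ≤ g j l ∧ s₃ ≤ g' j l) →
    (∀ j < M, ∀ l < n, |(g j l : ℝ) - g' j l| ≤ κ * z) →
    (∀ j < M, (∀ l < n, (range (l + 1)).sup (g j) + e j + z + s₂ ≤ J) ∨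
      (∀ l < n, (range (l + 1)).sup (g' j) + e' j + z + s₂ ≤ J)) →
    (∀ j < M, ∀ B : F.Ω → Prop, Sub B A → Pe F.p A ≤ C₁ ^ M * Pe F.p B →
      ExW F B (fun l : Fin (n - 1) => c l) (w j)
        ((∑ l ∈ range (n - 1), ((J : ℝ) - g j l)) * Real.log 2 - κ * z)) →
    (∀ j < M, ∀ B : F.Ω → Prop, Sub B A → Pe F.p A ≤ C₁ ^ M * Pe F.p B →
      ((J : ℝ) - w j) * Real.log 2 - κ * z ≤
        CH (Pool.Agent.H49.Ent.cond F.p B True) F.T (slam F (w j))) →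
    ∃ (Z : ℕ → PtT F → LV) (Z' : ℕ → LnT F → LV) (B : F.Ω → Prop), Sub B A ∧
      Pe F.p A ≤ C₁ ^ M * Pe F.p B ∧ ∀ j < M,
        RefB F c n (w j) (g j) (H j) (H' j) (Real.exp (ε * z)) (Z j) (Z' j) B := by
  obtain ⟨s₂, s₃, z₀, κ, C₁, hκ, hC₁, hone⟩ := ref_ball n K hn hε
  refine ⟨s₂, s₃, z₀, κ, C₁, hκ, hC₁, ?_⟩
  intro M m J F c w e e' z g g' A G G' H H₀ H' hc hz hA h1 h2 h3 h4 h5 h6 h7 h8 h9 hex htm
  have key : ∀ N ≤ M, ∃ (Z : ℕ → PtT F → LV) (Z' : ℕ → LnT F → LV) (B : F.Ω → Prop), Sub B A ∧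
      Pe F.p A ≤ C₁ ^ N * Pe F.p B ∧ ∀ j < N,
        RefB F c n (w j) (g j) (H j) (H' j) (Real.exp (ε * z)) (Z j) (Z' j) B := by
    intro N
    induction N with
    | zero =>
      intro _
      exact ⟨fun _ _ => (0, fun _ _ => 0), fun _ _ => (0, fun _ _ => 0), A, fun _ h => h, by
        rw [pow_zero, one_mul], fun j hj => absurd hj (Nat.not_lt_zero j)⟩
    | succ N ih =>
      intro hN
      obtain ⟨Z, Z', B, i1, i2, i3⟩ := ih (by omega)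
      have hC0 : (0 : ℝ) ≤ C₁ ^ N := by positivity
      have hB : 0 < Pe F.p B := by
        by_contra hcon
        have e1 : Pe F.p B = 0 := le_antisymm (not_lt.1 hcon) (Pe_nonneg F.isLaw _)
        rw [e1, mul_zero] at i2
        linarith
      have hP : ∀ B' : F.Ω → Prop, Pe F.p B ≤ C₁ * Pe F.p B' →
          Pe F.p A ≤ C₁ ^ M * Pe F.p B' := by
        intro B' hB'
        have e1 := mul_le_mul_of_nonneg_left hB' hC0
        have e2 : C₁ ^ (N + 1) ≤ C₁ ^ M := pow_le_pow_right₀ hC₁ hN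
        have e3 := mul_le_mul_of_nonneg_right e2 (Pe_nonneg F.isLaw B')
        rw [pow_succ] at e3
        linarith
      obtain ⟨Z₁, Z₁', B₁, j1, j2, j3⟩ := hone ((h1 N hN).sub i1) ((h2 N hN).sub i1) hc
        (h3 N hN) (h4 N hN) (h5 N hN) hz (h6 N hN) (h7 N hN) (h8 N hN) (h9 N hN) hB
        (fun B' hB' hP' => hex N hN B' (fun ω hω => i1 ω (hB' ω hω)) (hP B' hP'))
        (fun B' hB' hP' => htm N hN B' (fun ω hω => i1 ω (hB' ω hω)) (hP B' hP'))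
      refine ⟨fun j => if j = N then Z₁ else Z j, fun j => if j = N then Z₁' else Z' j, B₁,
        fun ω hω => i1 ω (j1 ω hω), ?_, fun j hj => ?_⟩
      · have e1 := mul_le_mul_of_nonneg_left j2 hC0
        rw [pow_succ]
        linarith
      · rcases Nat.lt_succ_iff_lt_or_eq.1 hj with hj' | rfl
        · simp only [if_neg (by omega : ¬ j = N)]
          exact (i3 j hj').sub j1
        · simp only [if_true]
          exact j3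
  exact key M le_rfl

/-- Representatives of the fibres in the event. -/
theorem rep_ev {Ω V : Type} (B : Ω → Prop) (hB : ∃ ω, B ω) (y : Ω → V) :
    ∃ rep : V → Ω, ∀ ω, B ω → B (rep (y ω)) ∧ y (rep (y ω)) = y ω := by
  classical
  obtain ⟨ω₁, -⟩ := hB
  have h1 : ∀ v : V, ∃ ω₀ : Ω, ∀ ω, B ω → y ω = v → B ω₀ ∧ y ω₀ = v := by
    intro v
    by_cases h : ∃ ω, B ω ∧ y ω = v
    · obtain ⟨ω₀, h1, h2⟩ := h
      exact ⟨ω₀, fun _ _ _ => ⟨h1, h2⟩⟩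
    · exact ⟨ω₁, fun ω h1 h2 => absurd ⟨ω, h1, h2⟩ h⟩
  choose rep hrep using h1
  exact ⟨rep, fun ω hω => hrep (y ω) ω hω rfl⟩

/-- **Reference charts for the charts of a grid**: functions of a closed code `cs`; the rows up to
`M`, the columns up to `j₀`. -/
structure RefC {m J : ℕ} {F : Fam m J} (D : GDat F) (c : ℕ → Fin m) (n w₀ z M j₀ : ℕ)
    (g₀ : ℕ → ℕ → ℕ) (H' : ℕ → LnT F → ℕ → MvPolynomial (Option (Fin m)) ℝ) (S : ℝ) {W : Type}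
    (cp : PtT F → W) (cs : LnT F → W) (Rf : ℕ → W → ℕ → PN) (B : F.Ω → Prop) : Prop where
  -- the code is a function of the point and a function of the line in the window
  cls : ∀ ω, B ω → cp (ptr F J ω) = cs (slam F (w₀ + j₀ * z) ω)
  -- the code determines the cell of the time
  tim : ∀ ω ω', B ω → B ω' → cs (slam F (w₀ + j₀ * z) ω) = cs (slam F (w₀ + j₀ * z) ω') →
    F.T1 (w₀ + j₀ * z) ω = F.T1 (w₀ + j₀ * z) ω'
  -- the reference charts are charts of lines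
  ref : ∀ j v, ∃ s : LnT F, Rf j v = Hx c n (w₀ + j * z) (H' j) s
  -- near on the boxes of the ball
  near : ∀ i ≤ M, ∀ j ≤ j₀, ∀ ω, B ω → NbP n (Wn (tw F (w₀ + j * z) ω) (w₀ + j * z))
    (fun l => g₀ j (l - 1)) S (Sy D c n w₀ z i j ω) (Rf j (cs (slam F (w₀ + j₀ * z) ω)))
  raw : ∀ j ≤ j₀, ∀ ω, B ω → NbP n (Wn (tw F (w₀ + j * z) ω) (w₀ + j * z))
    (fun l => g₀ j (l - 1)) S (Hx c n (w₀ + j * z) (H' j) (slam F (w₀ + j * z) ω))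
    (Rf j (cs (slam F (w₀ + j₀ * z) ω)))

theorem RefC.sub {m J : ℕ} {F : Fam m J} {D : GDat F} {c : ℕ → Fin m} {n w₀ z M j₀ : ℕ}
    {g₀ : ℕ → ℕ → ℕ} {H' : ℕ → LnT F → ℕ → MvPolynomial (Option (Fin m)) ℝ} {S : ℝ} {W : Type}
    {cp : PtT F → W} {cs : LnT F → W} {Rf : ℕ → W → ℕ → PN} {B B' : F.Ω → Prop}
    (h : RefC D c n w₀ z M j₀ g₀ H' S cp cs Rf B) (hB : Sub B' B) :
    RefC D c n w₀ z M j₀ g₀ H' S cp cs Rf B' :=
  ⟨fun ω hω => h.cls ω (hB ω hω), fun ω ω' hω hω' => h.tim ω ω' (hB ω hω) (hB ω' hω'), h.ref,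
    fun i hi j hj ω hω => h.near i hi j hj ω (hB ω hω),
    fun j hj ω hω => h.raw j hj ω (hB ω hω)⟩

/-- **Reference charts for the charts of a grid**, all the columns. -/
abbrev RefD {m J : ℕ} {F : Fam m J} (D : GDat F) (c : ℕ → Fin m) (n w₀ z M : ℕ)
    (g₀ : ℕ → ℕ → ℕ) (H' : ℕ → LnT F → ℕ → MvPolynomial (Option (Fin m)) ℝ) (S : ℝ) {W : Type}
    (cp : PtT F → W) (cs : LnT F → W) (Rf : ℕ → W → ℕ → PN) (B : F.Ω → Prop) : Prop :=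
  RefC D c n w₀ z M M g₀ H' S cp cs Rf B

/-- **Re-centred ball charts have reference charts**, the columns up to `j₀`, the size of one of the
charts is bounded. -/
theorem bal_refC (n K : ℕ) (hn : 1 ≤ n) {ε : ℝ} (hε : 0 < ε) : ∃ (s₂ s₃ z₀ : ℕ) (κ C₁ : ℝ),
    0 < κ ∧ 1 ≤ C₁ ∧ ∀ {m J : ℕ} {F : Fam m J} {D : GDat F} {c : ℕ → Fin m}
    {K' s₁ : ℕ} {sh : ℕ → ℕ} {a₀ w₀ z M j₀ : ℕ} {e : ℕ → ℕ → ℕ} {g : ℕ → ℕ → ℕ → ℕ}
    {lo hi : ℕ → ℕ → ℝ} {e₀ e' : ℕ → ℕ} {g₀ g' : ℕ → ℕ → ℕ} {A : F.Ω → Prop}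
    {G₀ G' : ℕ → PtT F → ℕ → MvPolynomial (Option (Fin m)) ℝ}
    {H₀ H' : ℕ → LnT F → ℕ → MvPolynomial (Option (Fin m)) ℝ},
    D.Ok c n K K' s₁ sh a₀ w₀ z M e g A →
    BalG D.G D.H c n K M w₀ z lo hi e₀ g₀ G₀ H₀ A →
    j₀ ≤ M →
    (∀ j ≤ j₀, ChOK F c n (fun _ => K) (w₀ + j * z) (w₀ + j * z) (e' j) (g' j) A (G' j)
      (H' j)) →
    Inj c n → z₀ ≤ z → 0 < Pe F.p A → w₀ + j₀ * z + z ≤ J →
    (∀ j ≤ j₀, ∀ l < n, s₃ ≤ g₀ j l ∧ s₃ ≤ g' j l) →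
    (∀ j ≤ j₀, ∀ l < n, |(g₀ j l : ℝ) - g' j l| ≤ κ * z) →
    (∀ j ≤ j₀, (∀ l < n, (range (l + 1)).sup (g₀ j) + e₀ j + z + s₂ ≤ J) ∨
      (∀ l < n, (range (l + 1)).sup (g' j) + e' j + z + s₂ ≤ J)) →
    (∀ j ≤ j₀, ∀ B : F.Ω → Prop, Sub B A → Pe F.p A ≤ C₁ ^ (j₀ + 1) * Pe F.p B →
      ExW F B (fun l : Fin (n - 1) => c l) (w₀ + j * z)
        ((∑ l ∈ range (n - 1), ((J : ℝ) - g₀ j l)) * Real.log 2 - κ * z)) →
    (∀ B : F.Ω → Prop, Sub B A → Pe F.p A ≤ C₁ ^ (j₀ + 1) * Pe F.p B →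
      ((J : ℝ) - w₀) * Real.log 2 - κ * z ≤
        CH (Pool.Agent.H49.Ent.cond F.p B True) F.T (slam F w₀)) →
    ∃ (W : Type) (cp : PtT F → W) (cs : LnT F → W) (Rf : ℕ → W → ℕ → PN) (B : F.Ω → Prop),
      Sub B A ∧ Pe F.p A ≤ C₁ ^ (j₀ + 1) * Pe F.p B ∧
      RefC D c n w₀ z M j₀ g₀ H' (Real.exp (ε * z)) cp cs Rf B := by
  obtain ⟨c₃, hc₃, htra⟩ := NbP.trans n K
  obtain ⟨ε₁, z₁, hε₁, hloss⟩ := loss_e c₃ hc₃ (half_pos hε)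
  obtain ⟨ε₂, hε₂⟩ : ∃ ε₂ : ℝ, ε₂ = min (ε₁ / 2) ε := ⟨_, rfl⟩
  have hε₂0 : 0 < ε₂ := by
    rw [hε₂]
    exact lt_min (by positivity) hε
  obtain ⟨s₂, s₃, z₀, κ, C₁, hκ, hC₁, hrefs⟩ := refs_bal n K hn hε₂0
  refine ⟨s₂, s₃, max z₀ z₁, κ, C₁, hκ, hC₁, ?_⟩
  intro m J F D c K' s₁ sh a₀ w₀ z M j₀ e g lo hi e₀ e' g₀ g' A G₀ G' H₀ H' hD hb hjM₀ hch' hc
    hz hA hwJ hs hgg hsiz hex htm
  have hz0 : z₀ ≤ z := (le_max_left _ _).trans hz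
  have hz1 : z₁ ≤ z := (le_max_right _ _).trans hz
  have hzr : (0 : ℝ) ≤ z := Nat.cast_nonneg z
  have hjM : ∀ j ≤ j₀, w₀ + j * z ≤ w₀ + j₀ * z := fun j hj =>
    Nat.add_le_add_left (Nat.mul_le_mul_right z hj) w₀
  have hHe : ∀ j ≤ M, ∀ s, ∀ l, D.H 0 j s l = Hno (c l) (fun s => H₀ j s l) s := by
    intro j hj s l
    have h1 := congrFun (congrFun (hb.eqH 0 (Nat.zero_le M) j hj) s) l
    exact h1
  obtain ⟨Z, Z', B, b1, b2, b3⟩ := hrefs (M := j₀ + 1) (F := F) (c := c) (w := fun j => w₀ + j * z)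
    (e := e₀) (e' := e') (z := z) (g := g₀) (g' := g') (A := A) (G := G₀) (G' := G')
    (H := fun j => D.H 0 j) (H₀ := H₀) (H' := H') hc hz0 hA
    (fun j hj => hb.ball j (by omega)) (fun j hj => hch' j (by omega))
    (fun j hj s i => (hD.chn 0 (Nat.zero_le M) j (by omega)).degH s i)
    (fun j hj s i => (hD.chn 0 (Nat.zero_le M) j (by omega)).depH s i)
    (fun j hj s l _ => hHe j (by omega) s l)
    (fun j hj => by
      have := hjM j (by omega)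
      beta_reduce
      omega) (fun j hj => hs j (by omega)) (fun j hj => hgg j (by omega))
    (fun j hj => hsiz j (by omega)) (fun j hj => hex j (by omega)) (fun j hj B hB hP => by
      have hBp : 0 < Pe F.p B := by
        by_contra hcon
        have e1 : Pe F.p B = 0 := le_antisymm (not_lt.1 hcon) (Pe_nonneg F.isLaw _)
        rw [e1, mul_zero] at hP
        linarith
      have := hjM j (by omega)
      exact tm_win (isLaw_cond F.isLaw hBp) (Nat.le_add_right _ _) (by omega) (htm B hB hP))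
  have hBp : 0 < Pe F.p B := by
    by_contra hcon
    have e1 : Pe F.p B = 0 := le_antisymm (not_lt.1 hcon) (Pe_nonneg F.isLaw _)
    rw [e1, mul_zero] at b2
    linarith
  have hne : ∃ ω, B ω := by
    by_contra hcon
    push Not at hcon
    have e1 : Pe F.p B = 0 := by
      rw [Pe_eq]
      exact Finset.sum_eq_zero fun ω _ => if_neg (hcon ω)
    linarith
  -- the code
  obtain ⟨cs, hcs⟩ : ∃ cs : LnT F → (ℕ → LV) × ℕ, cs = fun s =>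
    (fun j => if j ≤ j₀ then Z' j (s.1, s.2.1, s.2.2 / 2 ^ (w₀ + j₀ * z - (w₀ + j * z))) else
      (0, fun _ _ => 0), s.2.2) := ⟨_, rfl⟩
  obtain ⟨cp, hcp⟩ : ∃ cp : PtT F → (ℕ → LV) × ℕ, cp = fun y =>
    (fun j => if j ≤ j₀ then Z j y else (0, fun _ _ => 0), y.2.1 / 2 ^ (J - (w₀ + j₀ * z))) :=
    ⟨_, rfl⟩
  have hcs1 : ∀ ω, ∀ j ≤ j₀, (cs (slam F (w₀ + j₀ * z) ω)).1 j = Z' j (slam F (w₀ + j * z) ω) := by
    intro ω j hj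
    rw [hcs]
    simp only [if_pos hj]
    rw [slam_coarse F (hjM j hj) (by omega) ω]
  have hcs2 : ∀ ω, (cs (slam F (w₀ + j₀ * z) ω)).2 = F.T1 (w₀ + j₀ * z) ω := by
    intro ω
    rw [hcs]
    rfl
  obtain ⟨rep, hrep⟩ := rep_ev B hne (fun ω => cs (slam F (w₀ + j₀ * z) ω))
  have hT1 : ∀ ω ω', cs (slam F (w₀ + j₀ * z) ω) = cs (slam F (w₀ + j₀ * z) ω') → ∀ j ≤ j₀,
      F.T1 (w₀ + j * z) ω = F.T1 (w₀ + j * z) ω' := by
    intro ω ω' e0 j hj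
    have h1 := congrArg Prod.snd e0
    rw [hcs2, hcs2] at h1
    exact CDat2.T1_slam F (hjM j hj) (by omega) h1
  obtain ⟨Y, hY⟩ : ∃ Y : ℝ, Y = Real.exp (ε₂ * z) := ⟨_, rfl⟩
  have hY1 : 1 ≤ Y := by
    rw [hY]
    exact Real.one_le_exp (by positivity)
  have hYe : Y ≤ Real.exp (ε * z) := by
    rw [hY]
    refine Real.exp_le_exp.2 (mul_le_mul_of_nonneg_right ?_ hzr)
    rw [hε₂]
    exact min_le_right _ _
  have hYY : ((c₃ : ℝ) * (Y * Y)) ^ c₃ ≤ Real.exp (ε * z) := by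
    have h1 : Y * Y ≤ Real.exp (ε₁ * z) := by
      rw [hY, ← Real.exp_add]
      refine Real.exp_le_exp.2 ?_
      have h2 : ε₂ ≤ ε₁ / 2 := by rw [hε₂]; exact min_le_left _ _
      have := mul_le_mul_of_nonneg_right h2 hzr
      linarith
    have h2 : ((c₃ : ℝ) * (Y * Y)) ^ c₃ ≤ ((c₃ : ℝ) * Real.exp (ε₁ * z)) ^ c₃ :=
      pow_le_pow_left₀ (by positivity) (mul_le_mul_of_nonneg_left h1 (Nat.cast_nonneg _)) _
    refine h2.trans ((hloss z hz1).trans (Real.exp_le_exp.2 ?_))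
    have : ε / 2 ≤ ε := by linarith
    exact mul_le_mul_of_nonneg_right this hzr
  have hsame : ∀ j ≤ j₀, ∀ ω, B ω → NbP n (Wn (tw F (w₀ + j * z) ω) (w₀ + j * z)) (gl (g₀ j)) Y
      (Hx c n (w₀ + j * z) (H' j) (slam F (w₀ + j * z) ω))
      (Hx c n (w₀ + j * z) (H' j) (slam F (w₀ + j * z) (rep (cs (slam F (w₀ + j₀ * z) ω))))) := by
    intro j hj ω hω
    obtain ⟨r1, r2⟩ := hrep ω hω
    have h1 := (b3 j (by omega)).same ω (rep (cs (slam F (w₀ + j₀ * z) ω))) hω r1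
      (hT1 ω _ r2.symm j hj) (by
        rw [← hcs1 ω j hj, ← hcs1 _ j hj]
        rw [r2])
    rw [← hY] at h1
    exact h1
  refine ⟨(ℕ → LV) × ℕ, cp, cs,
    fun j v => Hx c n (w₀ + j * z) (H' j) (slam F (w₀ + j * z) (rep v)), B, b1, b2,
    fun ω hω => ?_, fun ω ω' hω hω' e0 => hT1 ω ω' e0 j₀ le_rfl, fun j v => ⟨_, rfl⟩,
    fun i hi j hj ω hω => ?_, fun j hj ω hω => (hsame j hj ω hω).mono le_rfl (fun _ h => h) hYe⟩
  · refine Prod.ext ?_ ?_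
    · funext j
      by_cases hj : j ≤ j₀
      · rw [hcs1 ω j hj, hcp]
        simp only [if_pos hj]
        exact (b3 j (by omega)).cls ω hω
      · rw [hcp, hcs]
        simp only [if_neg hj]
    · rw [hcs2, hcp]
      rfl
  · have h1 : Sy D c n w₀ z i j ω = Hx c n (w₀ + j * z) (D.H 0 j) (slam F (w₀ + j * z) ω) := by
      unfold Sy
      rw [(hb.com i hi j (hj.trans hjM₀)).2]
    rw [h1]
    have n1 := (b3 j (by omega)).near ω hω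
    rw [← hY] at n1
    have n2 := hsame j hj ω hω
    have t1 : Tr K (Hx c n (w₀ + j * z) (D.H 0 j) (slam F (w₀ + j * z) ω)) :=
      ⟨sy_tri, fun l => sy_deg (fun l _ =>
        (hD.chn 0 (Nat.zero_le M) j (hj.trans hjM₀)).degH _ l) l⟩
    have t2 := tr_hx (hch' j hj) (w₀ + j * z) (slam F (w₀ + j * z) ω)
    have t3 := tr_hx (hch' j hj) (w₀ + j * z)
      (slam F (w₀ + j * z) (rep (cs (slam F (w₀ + j₀ * z) ω))))
    exact (htra t1 t2 t3 hY1 hY1 n1 n2).mono le_rfl (fun _ h => h) hYY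

/-- **Re-centred ball charts have reference charts.** -/
theorem bal_ref (n K : ℕ) (hn : 1 ≤ n) {ε : ℝ} (hε : 0 < ε) : ∃ (s₂ s₃ z₀ : ℕ) (κ C₁ : ℝ),
    0 < κ ∧ 1 ≤ C₁ ∧ ∀ {m J : ℕ} {F : Fam m J} {D : GDat F} {c : ℕ → Fin m}
    {K' s₁ : ℕ} {sh : ℕ → ℕ} {a₀ w₀ z M : ℕ} {e : ℕ → ℕ → ℕ} {g : ℕ → ℕ → ℕ → ℕ}
    {lo hi : ℕ → ℕ → ℝ} {e₀ e' : ℕ → ℕ} {g₀ g' : ℕ → ℕ → ℕ} {A : F.Ω → Prop}
    {G₀ G' : ℕ → PtT F → ℕ → MvPolynomial (Option (Fin m)) ℝ}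
    {H₀ H' : ℕ → LnT F → ℕ → MvPolynomial (Option (Fin m)) ℝ},
    D.Ok c n K K' s₁ sh a₀ w₀ z M e g A →
    BalG D.G D.H c n K M w₀ z lo hi e₀ g₀ G₀ H₀ A →
    (∀ j ≤ M, ChOK F c n (fun _ => K) (w₀ + j * z) (w₀ + j * z) (e' j) (g' j) A (G' j)
      (H' j)) →
    Inj c n → z₀ ≤ z → 0 < Pe F.p A → w₀ + M * z + z ≤ J →
    (∀ j ≤ M, ∀ l < n, s₃ ≤ g₀ j l ∧ s₃ ≤ g' j l) →
    (∀ j ≤ M, ∀ l < n, |(g₀ j l : ℝ) - g' j l| ≤ κ * z) →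
    (∀ j ≤ M, ∀ l < n, (range (l + 1)).sup (g₀ j) + e₀ j + z + s₂ ≤ J) →
    (∀ j ≤ M, ∀ B : F.Ω → Prop, Sub B A → Pe F.p A ≤ C₁ ^ (M + 1) * Pe F.p B →
      ExW F B (fun l : Fin (n - 1) => c l) (w₀ + j * z)
        ((∑ l ∈ range (n - 1), ((J : ℝ) - g₀ j l)) * Real.log 2 - κ * z)) →
    (∀ B : F.Ω → Prop, Sub B A → Pe F.p A ≤ C₁ ^ (M + 1) * Pe F.p B →
      ((J : ℝ) - w₀) * Real.log 2 - κ * z ≤
        CH (Pool.Agent.H49.Ent.cond F.p B True) F.T (slam F w₀)) →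
    ∃ (W : Type) (cp : PtT F → W) (cs : LnT F → W) (Rf : ℕ → W → ℕ → PN) (B : F.Ω → Prop),
      Sub B A ∧ Pe F.p A ≤ C₁ ^ (M + 1) * Pe F.p B ∧
      RefD D c n w₀ z M g₀ H' (Real.exp (ε * z)) cp cs Rf B := by
  obtain ⟨s₂, s₃, z₀, κ, C₁, hκ, hC₁, h⟩ := bal_refC n K hn hε
  refine ⟨s₂, s₃, z₀, κ, C₁, hκ, hC₁, ?_⟩
  intro m J F D c K' s₁ sh a₀ w₀ z M e g lo hi e₀ e' g₀ g' A G₀ G' H₀ H' hD hb hch' hc hz hA
    hwJ hs hgg hsiz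
  exact h hD hb le_rfl hch' hc hz hA hwJ hs hgg fun j hj => Or.inl (hsiz j hj)

/-- **The context of the grid has few bits** given the code and the own heights; the columns up to
`j₀`. -/
theorem lab_balC (n K K' s₁ : ℕ) (sh : ℕ → ℕ) (hK' : 1 ≤ K') : ∃ C : ℝ, 0 ≤ C ∧
    ∀ {m J : ℕ} {F : Fam m J} {D : GDat F} {c : ℕ → Fin m} {a₀ w₀ z M j₀ : ℕ}
    {e : ℕ → ℕ → ℕ} {g : ℕ → ℕ → ℕ → ℕ} {lo hi : ℕ → ℕ → ℝ} {e₀ : ℕ → ℕ} {g₀ : ℕ → ℕ → ℕ}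
    {A : F.Ω → Prop} {G₀ : ℕ → PtT F → ℕ → MvPolynomial (Option (Fin m)) ℝ}
    {H₀ H' : ℕ → LnT F → ℕ → MvPolynomial (Option (Fin m)) ℝ} {R : ℕ → ℕ → Type}
    {ρ : (i j : ℕ) → LnT F → R i j} {q : F.Ω → ℝ} {W : Type} {cp : PtT F → W}
    {cs : LnT F → W} {Rf : ℕ → W → ℕ → PN} {x : ℕ} {y : ℝ} {d : ℕ → ℕ → ℕ} {i j : ℕ},
    D.Ok c n K K' s₁ sh a₀ w₀ z M e g A →
    BalG D.G D.H c n K M w₀ z lo hi e₀ g₀ G₀ H₀ A →
    (∀ j s i, (H' j s i).totalDegree ≤ K) →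
    RefC D c n w₀ z M j₀ g₀ H' (Real.exp y) cp cs Rf A → Inj c n →
    (∀ i j, Subsingleton (R i j)) → j₀ ≤ M → w₀ + j₀ * z ≤ J →
    IsLaw q → (∀ ω, 0 < q ω → A ω) → i ≤ M → j ≤ j₀ → 0 ≤ y →
    (∀ i ≤ M, ∀ j ≤ j₀, ∀ l < n, g₀ j l ≤ g i j l) →
    (∀ i ≤ M, ∀ j ≤ j₀, ∀ l < n, ∀ k < l, g i j l + g₀ j k ≤ g₀ j l + g i j k + x) →
    (∀ i' j', j' ≤ j → i' + j ≤ i + j' → ∀ l < n, g i' j' l ≤ d j' l + x) →
    CH q ((D.cd n ρ).lab2 w₀ z i j) (fun ω => (cs (slam F (w₀ + j₀ * z) ω),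
      hts F c n K w₀ z j d Rf (fun ω => cs (slam F (w₀ + j₀ * z) ω)) ω)) ≤
      (M + 1) ^ 2 * (C * (y + x + 1)) := by
  obtain ⟨C, hC, hlab⟩ := lab_refC n K K' s₁ sh hK'
  refine ⟨C, hC, ?_⟩
  intro m J F D c a₀ w₀ z M j₀ e g lo hi e₀ g₀ A G₀ H₀ H' R ρ q W cp cs Rf x y d i j hD hb hd' hr
    hc hR hj₀ hwJ hq hA hi hj hy hg hgx hd
  refine hlab hD hR hj₀ hwJ hq hA hi hj hy (fun i hi j hj ω hω l l1 l2 t ht => ?_)
    (fun j _ v => ?_) hr.near (fun ω ω' h1 h2 e' => hr.tim ω ω' (hA ω h1) (hA ω' h2) e') hg hgx hd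
  · obtain ⟨l, rfl⟩ : ∃ l', l = l' + 1 := ⟨l - 1, by omega⟩
    have h1 : D.H i j (slam F (w₀ + j * z) ω) l =
        Hno (c l) (fun s => H₀ j s l) (slam F (w₀ + j * z) ω) :=
      congrFun (congrFun (hb.eqH i hi j (hj.trans hj₀)) (slam F (w₀ + j * z) ω)) l
    have h2 := own_hno hc ((hD.chn i hi j (hj.trans hj₀)).depH (slam F (w₀ + j * z) ω))
      ((hb.ball j (hj.trans hj₀)).depH (slam F (w₀ + j * z) ω)) (w₀ + j * z) (show l < n by omega) h1 t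
    have h3 : ohg F c w₀ (Sy D c n w₀ z i j ω) t (l + 1) ω = 0 := h2
    rw [h3, abs_zero]
    positivity
  · obtain ⟨s, h1⟩ := hr.ref j v
    rw [h1]
    exact ⟨sy_tri, fun l => sy_deg (fun l _ => hd' j s l) l⟩

/-- **The context of the grid has few bits** given the code and the own heights. -/
theorem lab_bal (n K K' s₁ : ℕ) (sh : ℕ → ℕ) (hK' : 1 ≤ K') : ∃ C : ℝ, 0 ≤ C ∧
    ∀ {m J : ℕ} {F : Fam m J} {D : GDat F} {c : ℕ → Fin m} {a₀ w₀ z M : ℕ}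
    {e : ℕ → ℕ → ℕ} {g : ℕ → ℕ → ℕ → ℕ} {lo hi : ℕ → ℕ → ℝ} {e₀ : ℕ → ℕ} {g₀ : ℕ → ℕ → ℕ}
    {A : F.Ω → Prop} {G₀ : ℕ → PtT F → ℕ → MvPolynomial (Option (Fin m)) ℝ}
    {H₀ H' : ℕ → LnT F → ℕ → MvPolynomial (Option (Fin m)) ℝ} {R : ℕ → ℕ → Type}
    {ρ : (i j : ℕ) → LnT F → R i j} {q : F.Ω → ℝ} {W : Type} {cp : PtT F → W}
    {cs : LnT F → W} {Rf : ℕ → W → ℕ → PN} {x : ℕ} {y : ℝ} {d : ℕ → ℕ → ℕ} {i j : ℕ},
    D.Ok c n K K' s₁ sh a₀ w₀ z M e g A →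
    BalG D.G D.H c n K M w₀ z lo hi e₀ g₀ G₀ H₀ A →
    (∀ j s i, (H' j s i).totalDegree ≤ K) →
    RefD D c n w₀ z M g₀ H' (Real.exp y) cp cs Rf A → Inj c n →
    (∀ i j, Subsingleton (R i j)) → w₀ + M * z ≤ J →
    IsLaw q → (∀ ω, 0 < q ω → A ω) → i ≤ M → j ≤ M → 0 ≤ y →
    (∀ i ≤ M, ∀ j ≤ M, ∀ l < n, g₀ j l ≤ g i j l) →
    (∀ i ≤ M, ∀ j ≤ M, ∀ l < n, ∀ k < l, g i j l + g₀ j k ≤ g₀ j l + g i j k + x) →
    (∀ i' j', j' ≤ j → i' + j ≤ i + j' → ∀ l < n, g i' j' l ≤ d j' l + x) →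
    CH q ((D.cd n ρ).lab2 w₀ z i j) (fun ω => (cs (slam F (w₀ + M * z) ω),
      hts F c n K w₀ z j d Rf (fun ω => cs (slam F (w₀ + M * z) ω)) ω)) ≤
      (M + 1) ^ 2 * (C * (y + x + 1)) := by
  obtain ⟨C, hC, h⟩ := lab_balC n K K' s₁ sh hK'
  refine ⟨C, hC, ?_⟩
  intro m J F D c a₀ w₀ z M e g lo hi e₀ g₀ A G₀ H₀ H' R ρ q W cp cs Rf x y d i j hD hb hd' hr hc
    hR hwJ
  exact h hD hb hd' hr hc hR le_rfl hwJ

/-- The exchange of the conditions. -/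
theorem ch_trade {Ω V L Y T : Type} [Fintype Ω] {q : Ω → ℝ} (hq : IsLaw q) (X : Ω → V) (l : Ω → L)
    (y : Ω → Y) (t : Ω → T) :
    CH q X (fun ω => (y ω, t ω)) - CH q l y ≤ CH q X (fun ω => (l ω, t ω)) := by
  have h1 := CH_le_add hq.nonneg X l (fun ω => (y ω, t ω))
  have h2 := CH_mono_cond hq.nonneg (X := X) (W' := fun ω => (l ω, (y ω, t ω)))
    (W := fun ω => (l ω, t ω)) (fun ω ω' _ _ h => by
      simp only [Prod.mk.injEq] at h ⊢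
      exact ⟨h.1, h.2.2⟩)
  have h3 := CH_mono_cond hq.nonneg (X := l) (W' := fun ω => (y ω, t ω)) (W := y)
    (fun ω ω' _ _ h => congrArg Prod.fst h)
  linarith

end Pool.STAT.OKI
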