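import Pool.Agent.H40.ISO.Htf
import Pool.Agent.H40.ISO.Tbr

/-!
# Affine charts: coefficients and velocities of near systems

`nb_cf`: near affine systems have near coefficients. `vlo_nb`: the velocities over near affine
systems are near. `ref_cf`, `ref_vlo`: for the reference charts of a grid.
-/

set_option autoImplicit false

namespace Pool.STAT.OKI

open Finset MvPolynomial
open Pool.Agent.H49.Ent Pool.Agent.H32.Dense Pool.STK Pool.KS3 Pool.KA Pool.KSAT Pool.PB Pool.GEN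
open Pool.K2S Pool.S6C Pool.STAT.CLO Pool.STAT.Glu

variable {m J : ℕ}

/-- The derivatives of affine polynomials are coefficients. -/
theorem pd_aff {σ : Type*} {G : MvPolynomial σ ℝ} (h : G.totalDegree ≤ 1) (o : σ)
    (b : σ → ℝ) : eval b (pderiv o G) = coeff (Finsupp.single o 1) G := by
  classical
  have h1 : (pderiv o G).totalDegree = 0 := by
    refine Nat.le_zero.1 (Finset.sup_le fun s hs => ?_)
    rw [mem_support_iff, coeff_pderiv] at hs
    have h3 : s + Finsupp.single o 1 ∈ G.support := by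
      rw [mem_support_iff]
      exact left_ne_zero_of_mul hs
    have h4 := le_totalDegree h3
    have h5 : ((s + Finsupp.single o 1).sum fun _ e => e) = (s.sum fun _ e => e) + 1 := by
      rw [Finsupp.sum_add_index' (fun _ => rfl) (fun _ _ _ => rfl), Finsupp.sum_single_index rfl]
    omega
  rw [totalDegree_eq_zero_iff_eq_C.1 h1, eval_C, coeff_pderiv, zero_add, Finsupp.coe_zero,
    Pi.zero_apply]
  simp

/-- Points with given heights. -/
theorem ex_pt {Φ : ℕ → PN} (hΦ : TriN Φ) (t : ℝ) (r : ℕ → ℝ) :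
    ∃ b : ℕ → ℝ, b 0 = t ∧ ∀ l, 1 ≤ l → b l = eval b (Φ l) + r l := by
  obtain ⟨y, hy⟩ : ∃ y : ℕ → ℝ, y = fun l => if l = 0 then t - eval (fun _ => 0) (Φ 0) else r l :=
    ⟨_, rfl⟩
  have h1 := nc_nuc hΦ (fun _ => 0) y
  refine ⟨fun j => eval y (nuc (fun _ => 0) Φ j), ?_, fun l hl => ?_⟩
  · have h2 := congrFun h1 0
    unfold nc at h2
    have h4 : eval (fun j => eval y (nuc (fun _ => 0) Φ j)) (Φ 0) =
        eval (fun _ => (0 : ℝ)) (Φ 0) :=
      Pool.SYS35.eval_congr (hΦ 0) fun i hi => absurd hi (Nat.not_lt_zero _)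
    rw [h4, pow_zero, one_mul] at h2
    have h3 : y 0 = t - eval (fun _ => 0) (Φ 0) := by
      rw [hy]
      exact if_pos rfl
    rw [h3] at h2
    show eval y (nuc (fun _ => 0) Φ 0) = t
    linarith
  · have h2 := congrFun h1 l
    unfold nc at h2
    rw [pow_zero, one_mul] at h2
    have h3 : y l = r l := by
      rw [hy]
      exact if_neg (by omega)
    rw [h3] at h2
    show eval y (nuc (fun _ => 0) Φ l) = _
    linarith

/-- The exponent of the loss. -/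
def pwn (n q : ℕ) : ℕ := n * ((n + q) * n + n + 1)

/-- **Near affine systems have near coefficients.** -/
theorem nb_cf {n q s x : ℕ} {P : ℝ → Prop} {g : ℕ → ℕ} {Φ Ψ : ℕ → PN} (hn : 1 ≤ n)
    (hΦ : Tr 1 Φ) (hΨ : Tr 1 Ψ) {t₀ : ℝ} (ht : P t₀) (hnb : NbP n P g (2 ^ s) Φ Ψ) {l : ℕ}
    (l1 : 1 ≤ l) (ln : l ≤ n)
    (hcf : ∀ i < l, ∀ k, 1 ≤ k → k < i → |cfo Φ i k| ≤ 2 ^ q)
    (hg : ∀ k, 1 ≤ k → k < l → g k ≤ g l + x) :
    ∀ k, 1 ≤ k → k < l → |cfo Φ l k - cfo Ψ l k| ≤ 2 ^ (pwn n q + s + x + 1) := by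
  obtain ⟨E, hE⟩ : ∃ E : ℝ, E = 2 ^ q := ⟨_, rfl⟩
  have hE1 : 1 ≤ E := by rw [hE]; exact one_le_pow₀ (by norm_num)
  obtain ⟨Λ, hΛ⟩ : ∃ Λ : ℝ, Λ = (n * E) ^ n := ⟨_, rfl⟩
  have hn1 : (1 : ℝ) ≤ n := by exact_mod_cast hn
  have hnE : 1 ≤ (n : ℝ) * E := one_le_mul_of_one_le_of_one_le hn1 hE1
  have hΛ0 : 0 ≤ Λ := by rw [hΛ]; positivity
  obtain ⟨R, hR⟩ : ∃ R : ℝ, R = n * (1 + Λ) := ⟨_, rfl⟩
  have hR1 : 1 ≤ R := by
    rw [hR]
    exact one_le_mul_of_one_le_of_one_le hn1 (by linarith)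
  obtain ⟨S, hS⟩ : ∃ S : ℝ, S = 2 * 2 ^ s * 2 ^ x := ⟨_, rfl⟩
  have hS0 : 0 < S := by rw [hS]; positivity
  obtain ⟨δ, hδ⟩ : ∃ δ : ℕ → ℝ, δ = fun k => cfo Φ l k - cfo Ψ l k := ⟨_, rfl⟩
  have key : ∀ d : ℕ, ∀ k, 1 ≤ k → k < l → l - k ≤ d → |δ k| ≤ S * R ^ d := by
    intro d
    induction d with
    | zero =>
      intro k k1 kl h
      omega
    | succ d ih =>
      intro k k1 kl hd
      have pk : (0 : ℝ) < 2 ^ g k := by positivity
      obtain ⟨b₀, hb0, hb0'⟩ := ex_pt hΦ.tri t₀ (fun _ => 0)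
      obtain ⟨b₁, hb1, hb1'⟩ := ex_pt hΦ.tri t₀ (fun i => if i = k then 1 / 2 ^ g k else 0)
      obtain ⟨v, hv⟩ : ∃ v : ℕ → ℝ, v = fun i => b₁ i - b₀ i := ⟨_, rfl⟩
      have hdf : ∀ {p : PN} {i : ℕ}, p.vars ⊆ range i → p.totalDegree ≤ 1 →
          eval b₁ p - eval b₀ p = ∑ j ∈ range i, coeff (Finsupp.single j 1) p * v j := by
        intro p i h1 h2
        rw [eval_aff h1 h2, eval_aff h1 h2, add_sub_add_left_eq_sub, ← Finset.sum_sub_distrib]
        refine Finset.sum_congr rfl fun j _ => ?_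
        rw [hv]
        ring
      have hv0 : v 0 = 0 := by
        rw [hv]
        show b₁ 0 - b₀ 0 = 0
        rw [hb0, hb1, sub_self]
      have hvs : ∀ i, 1 ≤ i → v i = ∑ j ∈ range i, cfo Φ i j * v j +
          (if i = k then 1 / 2 ^ g k else 0) := by
        intro i i1
        have h1 := hdf (hΦ.tri i) (hΦ.deg i)
        have h2 : v i = b₁ i - b₀ i := by rw [hv]
        rw [h2, hb1' i i1, hb0' i i1]
        unfold cfo
        rw [← h1]
        ring
      have hvk : ∀ i < k, v i = 0 := by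
        intro i
        induction i using Nat.strong_induction_on with
        | _ i ih' =>
          intro hi
          rcases Nat.eq_zero_or_pos i with rfl | i1
          · exact hv0
          · rw [hvs i i1, if_neg (by omega), add_zero]
            refine Finset.sum_eq_zero fun j hj => ?_
            rw [Finset.mem_range] at hj
            rw [ih' j hj (by omega), mul_zero]
      have hvb : ∀ i < l, |v i| ≤ (n * E) ^ i / 2 ^ g k := by
        intro i
        induction i using Nat.strong_induction_on with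
        | _ i ih' =>
          intro hi
          rcases Nat.lt_trichotomy i k with h1 | h1 | h1
          · rw [hvk i h1, abs_zero]
            positivity
          · rw [hvs i (by omega), if_pos h1, Finset.sum_eq_zero, zero_add, abs_of_pos (by positivity)]
            · exact div_le_div_of_nonneg_right (one_le_pow₀ hnE) pk.le
            · intro j hj
              rw [Finset.mem_range] at hj
              rw [hvk j (by omega), mul_zero]
          · rw [hvs i (by omega), if_neg (by omega), add_zero]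
            refine (Finset.abs_sum_le_sum_abs _ _).trans ?_
            obtain ⟨i', rfl⟩ : ∃ i', i = i' + 1 := ⟨i - 1, by omega⟩
            have h2 : ∀ j ∈ range (i' + 1), |cfo Φ (i' + 1) j * v j| ≤
                E * ((n * E) ^ i' / 2 ^ g k) := by
              intro j hj
              rw [Finset.mem_range] at hj
              rcases Nat.eq_zero_or_pos j with rfl | j1
              · rw [hv0, mul_zero, abs_zero]
                positivity
              · rw [abs_mul]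
                refine mul_le_mul ?_ ?_ (abs_nonneg _) (by linarith)
                · rw [hE]
                  exact hcf (i' + 1) hi j j1 hj
                · refine (ih' j hj (by omega)).trans ?_
                  exact div_le_div_of_nonneg_right (pow_le_pow_right₀ hnE (by omega)) pk.le
            refine (Finset.sum_le_sum h2).trans ?_
            rw [Finset.sum_const, Finset.card_range, nsmul_eq_mul]
            have h3 : ((i' + 1 : ℕ) : ℝ) ≤ n := by exact_mod_cast (by omega : i' + 1 ≤ n)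
            calc ((i' + 1 : ℕ) : ℝ) * (E * ((n * E) ^ i' / 2 ^ g k)) ≤
                n * (E * ((n * E) ^ i' / 2 ^ g k)) :=
                  mul_le_mul_of_nonneg_right h3 (by positivity)
              _ = (n * E) ^ (i' + 1) / 2 ^ g k := by rw [pow_succ]; ring
      have hB : ∀ (b : ℕ → ℝ) (r : ℕ → ℝ), b 0 = t₀ → (∀ i, 1 ≤ i → b i = eval b (Φ i) + r i) →
          (∀ i, |r i| ≤ 1 / 2 ^ g i) → Bt 1 P g Φ l b := by
        intro b r h1 h2 h3
        refine ⟨by rw [h1]; exact ht, fun i i1 _ => ?_⟩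
        rw [h2 i i1, add_sub_cancel_left]
        exact h3 i
      have a1 := hnb l l1 ln b₁ (hB b₁ _ hb1 hb1' fun i => by
        show |(if i = k then 1 / 2 ^ g k else 0 : ℝ)| ≤ _
        split_ifs with h
        · rw [h, abs_of_pos (by positivity)]
        · rw [abs_zero]
          positivity)
      have a0 := hnb l l1 ln b₀ (hB b₀ _ hb0 hb0' fun i => by
        show |(0 : ℝ)| ≤ _
        rw [abs_zero]
        positivity)
      have hsum : ∑ j ∈ range l, δ j * v j = (eval b₁ (Φ l) - eval b₁ (Ψ l)) -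
          (eval b₀ (Φ l) - eval b₀ (Ψ l)) := by
        have h1 := hdf (hΦ.tri l) (hΦ.deg l)
        have h2 := hdf (hΨ.tri l) (hΨ.deg l)
        have h3 : ∑ j ∈ range l, δ j * v j = (eval b₁ (Φ l) - eval b₀ (Φ l)) -
            (eval b₁ (Ψ l) - eval b₀ (Ψ l)) := by
          rw [h1, h2, ← Finset.sum_sub_distrib]
          refine Finset.sum_congr rfl fun j _ => ?_
          rw [hδ]
          unfold cfo
          ring
        rw [h3]
        ring
      have hkl : k ∈ range l := Finset.mem_range.2 kl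
      have hsp : δ k * v k = ∑ j ∈ range l, δ j * v j - ∑ j ∈ (range l).erase k, δ j * v j := by
        rw [← Finset.add_sum_erase _ _ hkl]
        ring
      have hvkk : v k = 1 / 2 ^ g k := by
        rw [hvs k k1, if_pos rfl, Finset.sum_eq_zero, zero_add]
        intro j hj
        rw [Finset.mem_range] at hj
        rw [hvk j hj, mul_zero]
      have c1 : |∑ j ∈ range l, δ j * v j| ≤ S / 2 ^ g k := by
        rw [hsum]
        refine (abs_sub _ _).trans ((add_le_add a1 a0).trans ?_)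
        have h1 : (2 : ℝ) ^ s / 2 ^ g l + 2 ^ s / 2 ^ g l = 2 * 2 ^ s / 2 ^ g l := by ring
        rw [h1, hS, div_le_div_iff₀ (by positivity) pk]
        have h2 : (2 : ℝ) ^ g k ≤ 2 ^ x * 2 ^ g l := by
          rw [← pow_add]
          exact pow_le_pow_right₀ (by norm_num) (by
            have := hg k k1 kl
            omega)
        calc (2 : ℝ) * 2 ^ s * 2 ^ g k ≤ 2 * 2 ^ s * (2 ^ x * 2 ^ g l) :=
              mul_le_mul_of_nonneg_left h2 (by positivity)
          _ = 2 * 2 ^ s * 2 ^ x * 2 ^ g l := by ring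
      have c2 : |∑ j ∈ (range l).erase k, δ j * v j| ≤ n * (S * R ^ d * Λ) / 2 ^ g k := by
        refine (Finset.abs_sum_le_sum_abs _ _).trans ?_
        have h2 : ∀ j ∈ (range l).erase k, |δ j * v j| ≤ S * R ^ d * Λ / 2 ^ g k := by
          intro j hj
          rw [Finset.mem_erase, Finset.mem_range] at hj
          rcases Nat.lt_or_ge j k with h3 | h3
          · rw [hvk j h3, mul_zero, abs_zero]
            positivity
          · rw [abs_mul, mul_div_assoc]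
            refine mul_le_mul (ih j (by omega) hj.2 (by omega)) ?_ (abs_nonneg _) (by positivity)
            refine (hvb j hj.2).trans ?_
            rw [hΛ]
            exact div_le_div_of_nonneg_right (pow_le_pow_right₀ hnE (by omega)) pk.le
        refine (Finset.sum_le_sum h2).trans ?_
        rw [Finset.sum_const, nsmul_eq_mul]
        have h3 : ((range l).erase k).card ≤ n :=
          (Finset.card_le_card (Finset.erase_subset _ _)).trans (by rw [Finset.card_range]; exact ln)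
        have h4 : (((range l).erase k).card : ℝ) ≤ n := by exact_mod_cast h3
        have h5 : 0 ≤ S * R ^ d * Λ / 2 ^ g k := by positivity
        calc (((range l).erase k).card : ℝ) * (S * R ^ d * Λ / 2 ^ g k) ≤
            n * (S * R ^ d * Λ / 2 ^ g k) := mul_le_mul_of_nonneg_right h4 h5
          _ = n * (S * R ^ d * Λ) / 2 ^ g k := by ring
      have c3 : |δ k| / 2 ^ g k ≤ S / 2 ^ g k + n * (S * R ^ d * Λ) / 2 ^ g k := by
        have h1 : |δ k| / 2 ^ g k = |δ k * v k| := by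
          rw [hvkk, abs_mul, abs_of_pos (by positivity : (0 : ℝ) < 1 / 2 ^ g k)]
          ring
        rw [h1, hsp]
        exact (abs_sub _ _).trans (add_le_add c1 c2)
      rw [← add_div, div_le_div_iff_of_pos_right pk] at c3
      refine c3.trans ?_
      have hRd : 1 ≤ R ^ d := one_le_pow₀ hR1
      have h4 : S ≤ S * R ^ d * n := by
        have h5 : 1 ≤ R ^ d * n := one_le_mul_of_one_le_of_one_le hRd hn1
        calc S = S * 1 := (mul_one S).symm
          _ ≤ S * (R ^ d * n) := mul_le_mul_of_nonneg_left h5 hS0.le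
          _ = S * R ^ d * n := by ring
      calc S + n * (S * R ^ d * Λ) ≤ S * R ^ d * n + n * (S * R ^ d * Λ) := by linarith
        _ = S * R ^ (d + 1) := by rw [pow_succ, hR]; ring
  intro k k1 kl
  have h1 := key n k k1 kl (by omega)
  have h2 : cfo Φ l k - cfo Ψ l k = δ k := by rw [hδ]
  rw [h2]
  refine h1.trans ?_
  have hn2 : (n : ℝ) ≤ 2 ^ n := by exact_mod_cast Nat.lt_two_pow_self.le
  have hnE2 : (n : ℝ) * E ≤ 2 ^ (n + q) := by
    rw [hE, pow_add]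
    exact mul_le_mul_of_nonneg_right hn2 (by positivity)
  have hΛ2 : Λ ≤ 2 ^ ((n + q) * n) := by
    rw [hΛ, pow_mul]
    exact pow_le_pow_left₀ (by positivity) hnE2 n
  have hR2 : R ≤ 2 ^ ((n + q) * n + n + 1) := by
    rw [hR]
    have h3 : 1 + Λ ≤ 2 ^ ((n + q) * n + 1) := by
      have h4 : (1 : ℝ) ≤ 2 ^ ((n + q) * n) := one_le_pow₀ (by norm_num)
      rw [pow_succ]
      linarith
    calc (n : ℝ) * (1 + Λ) ≤ 2 ^ n * 2 ^ ((n + q) * n + 1) :=
          mul_le_mul hn2 h3 (by linarith) (by positivity)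
      _ = 2 ^ ((n + q) * n + n + 1) := by rw [← pow_add]; congr 1; ring
  calc S * R ^ n ≤ S * (2 ^ ((n + q) * n + n + 1)) ^ n :=
        mul_le_mul_of_nonneg_left (pow_le_pow_left₀ (by linarith) hR2 n) hS0.le
    _ = 2 ^ (pwn n q + s + x + 1) := by
        rw [hS, ← pow_mul]
        unfold pwn
        rw [show (2 : ℝ) * 2 ^ s * 2 ^ x * 2 ^ (((n + q) * n + n + 1) * n) =
          2 ^ (n * ((n + q) * n + n + 1)) * 2 ^ s * 2 ^ x * 2 ^ 1 by
            rw [mul_comm n ((n + q) * n + n + 1)]; ring, ← pow_add, ← pow_add, ← pow_add]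

section chart

variable {F : Fam m J} {c : ℕ → Fin m} {n a w e : ℕ} {g : ℕ → ℕ} {A : F.Ω → Prop}
  {G : PtT F → ℕ → MvPolynomial (Option (Fin m)) ℝ}
  {H : LnT F → ℕ → MvPolynomial (Option (Fin m)) ℝ}

theorem tr_gx {K : ℕ} (h : ChOK F c n (fun _ => K) a w e g A G H) (y : PtT F) :
    Tr K (Gx c n G y) :=
  ⟨sy_tri, fun l => sy_deg (fun l _ => h.degG _ l) l⟩

/-- The coefficients of the charts at the point. -/
theorem cf_gx (hc : Inj c n) (h : ChOK F c n (fun _ => 1) a w e g A G H) {ω : F.Ω} (hω : A ω)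
    {l k : ℕ} (hl : l < n) (hk : k < l) :
    |cfo (Gx c n G (ptr F J ω)) (l + 1) (k + 1)| ≤ 2 ^ (e + nlp g k l) := by
  have h1 := h.lip ω hω l hl (bt F ω) ⟨by
    show |F.t ω - F.t ω| ≤ _
    rw [sub_self, abs_zero]
    positivity, fun i hi => h.pos ω hω i (hi.trans hl)⟩ k hk
  have e1 : Gx c n G (ptr F J ω) (l + 1) = tr c l (G (ptr F J ω) l) := sy_succ hl
  have h2 := pd_trL hc hl.le hk (h.depG (ptr F J ω) l) (fun _ => 0)
  have h3 : (tr c l (G (ptr F J ω) l)).totalDegree ≤ 1 := by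
    rw [← e1]
    exact (tr_gx h _).deg _
  rw [pd_aff h3, pd_aff (h.degG _ l)] at h2
  rw [pd_aff (h.degG _ l)] at h1
  unfold cfo
  rw [e1, h2]
  exact h1

/-- The charts of a chain are near at the time of the sample. -/
theorem nb_gh (hw : w ≤ J) (hc : Inj c n) (h : ChOK F c n (fun _ => 1) a w e g A G H) {ω : F.Ω}
    (hω : A ω) : NbP n (Et (F.t ω)) (gl g) 1 (Gx c n G (ptr F J ω)) (Hx c n w H (slam F w ω)) := by
  intro l l1 l2 b hb
  have hR := raw2_of (K := 1) hw hc (fun _ _ => le_rfl) h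
  refine hR.near ω hω l l1 l2 b fun k hk => ?_
  rcases Nat.eq_zero_or_pos k with rfl | k1
  · have e1 : b 0 = F.t ω := hb.1
    have e2 : Gx c n G (ptr F J ω) 0 = MvPolynomial.C (F.t ω) := sy_zero
    rw [e1, e2, eval_C, sub_self, abs_zero]
    positivity
  · rw [gt0_pos _ _ k1]
    exact hb.2 k k1 hk

/-- **The coefficients of the charts of the line.** -/
theorem cf_hx (hn : 1 ≤ n) (hw : w ≤ J) (hc : Inj c n)
    (h : ChOK F c n (fun _ => 1) a w e g A G H) {ω : F.Ω} (hω : A ω) {x₀ x l k : ℕ} (hl : l < n)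
    (hx₀ : ∀ i < l, ∀ k < i, nlp g k i ≤ x₀) (hx : ∀ k < l, nlp g k l ≤ x) (hk : k < l) :
    |cfo (Hx c n w H (slam F w ω)) (l + 1) (k + 1)| ≤ 2 ^ (pwn n (e + x₀) + e + x + 2) := by
  have hnb : NbP n (Et (F.t ω)) (gl g) (2 ^ 0) (Gx c n G (ptr F J ω))
      (Hx c n w H (slam F w ω)) := by
    rw [pow_zero]
    exact nb_gh hw hc h hω
  have h1 := nb_cf (P := Et (F.t ω)) (q := e + x₀) (s := 0) (x := x) (l := l + 1)
    (t₀ := F.t ω) hn (tr_gx h _) (tr_hx h w _) rfl hnb (by omega) (by omega)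
    (fun i hi j j1 j2 => by
      obtain ⟨i, rfl⟩ : ∃ i', i = i' + 1 := ⟨i - 1, by omega⟩
      obtain ⟨j, rfl⟩ : ∃ j', j = j' + 1 := ⟨j - 1, by omega⟩
      refine (cf_gx hc h hω (by omega) (by omega)).trans ?_
      exact pow_le_pow_right₀ (by norm_num) (by
        have := hx₀ i (by omega) j (by omega)
        omega)) (fun j j1 j2 => by
      obtain ⟨j, rfl⟩ : ∃ j', j = j' + 1 := ⟨j - 1, by omega⟩
      have h2 := hx j (by omega)
      unfold nlp at h2
      have h3 : g j ≤ (Finset.Icc j l).sup g :=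
        Finset.le_sup (f := g) (Finset.mem_Icc.2 ⟨le_rfl, by omega⟩)
      show g (j + 1 - 1) ≤ g (l + 1 - 1) + x
      rw [Nat.add_sub_cancel, Nat.add_sub_cancel]
      omega) (k + 1) (by omega) (by omega)
  have h2 := cf_gx hc h hω hl hk
  have h3 : |cfo (Hx c n w H (slam F w ω)) (l + 1) (k + 1)| ≤ 2 ^ (e + nlp g k l) +
      2 ^ (pwn n (e + x₀) + 0 + x + 1) := by
    have e1 : cfo (Hx c n w H (slam F w ω)) (l + 1) (k + 1) =
        cfo (Gx c n G (ptr F J ω)) (l + 1) (k + 1) - (cfo (Gx c n G (ptr F J ω)) (l + 1) (k + 1) -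
          cfo (Hx c n w H (slam F w ω)) (l + 1) (k + 1)) := by ring
    rw [e1]
    exact (abs_sub _ _).trans (add_le_add h2 h1)
  refine h3.trans ?_
  have h4 : (2 : ℝ) ^ (e + nlp g k l) ≤ 2 ^ (pwn n (e + x₀) + e + x + 1) :=
    pow_le_pow_right₀ (by norm_num) (by
      have := hx k hk
      omega)
  have h5 : (2 : ℝ) ^ (pwn n (e + x₀) + 0 + x + 1) ≤ 2 ^ (pwn n (e + x₀) + e + x + 1) :=
    pow_le_pow_right₀ (by norm_num) (by omega)
  rw [pow_succ _ (pwn n (e + x₀) + e + x + 1)]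
  linarith

end chart

/-- The exponent of the coefficients of the reference charts. -/
def rfn (n e x₀ s x : ℕ) : ℕ := pwn n (pwn n (e + x₀) + e + x₀ + 2) + pwn n (e + x₀) + e + s + x + 3

/-- **The coefficients of the reference charts.** -/
theorem ref_cf {F : Fam m J} {D : GDat F} {c : ℕ → Fin m} {n w₀ z M j₀ : ℕ}
    {g₀ : ℕ → ℕ → ℕ} {G' : ℕ → PtT F → ℕ → MvPolynomial (Option (Fin m)) ℝ}
    {H' : ℕ → LnT F → ℕ → MvPolynomial (Option (Fin m)) ℝ} {S : ℝ} {W : Type}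
    {cp : PtT F → W} {cs : LnT F → W} {Rf : ℕ → W → ℕ → PN} {B : F.Ω → Prop} {e' : ℕ → ℕ}
    {g' : ℕ → ℕ → ℕ} {s x₀ x j l k : ℕ} (hn : 1 ≤ n) (hc : Inj c n) (hwJ : w₀ + j₀ * z ≤ J)
    (hR : RefC D c n w₀ z M j₀ g₀ H' S cp cs Rf B) (hS : S ≤ 2 ^ s) (hj : j ≤ j₀)
    (hch : ChOK F c n (fun _ => 1) (w₀ + j * z) (w₀ + j * z) (e' j) (g' j) B (G' j) (H' j))
    (hl : l < n) (hx₀ : ∀ i < l, ∀ k < i, nlp (g' j) k i ≤ x₀) (hx : ∀ k < l, nlp (g' j) k l ≤ x)
    (hg₀ : ∀ k < l, g₀ j k ≤ g₀ j l + x) (hk : k < l) {ω : F.Ω} (hω : B ω) :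
    |cfo (Rf j (cs (slam F (w₀ + j₀ * z) ω))) (l + 1) (k + 1)| ≤ 2 ^ rfn n (e' j) x₀ s x := by
  have hwj : w₀ + j * z ≤ J := (Nat.add_le_add_left (Nat.mul_le_mul_right z hj) w₀).trans hwJ
  obtain ⟨σ, hσ⟩ := hR.ref j (cs (slam F (w₀ + j₀ * z) ω))
  have hΨ : Tr 1 (Rf j (cs (slam F (w₀ + j₀ * z) ω))) := by
    rw [hσ]
    exact tr_hx hch _ _
  have hnb := (hR.raw j hj ω hω).mono le_rfl (fun _ h => h) hS
  have h1 := nb_cf (q := pwn n (e' j + x₀) + e' j + x₀ + 2) (s := s) (x := x) (l := l + 1)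
    (t₀ := F.t ω) hn (tr_hx hch _ _) hΨ (tw_t hwj ω) hnb (by omega) (by omega)
    (fun i hi k k1 k2 => by
      obtain ⟨i, rfl⟩ : ∃ i', i = i' + 1 := ⟨i - 1, by omega⟩
      obtain ⟨k, rfl⟩ : ∃ k', k = k' + 1 := ⟨k - 1, by omega⟩
      exact cf_hx hn hwj hc hch hω (by omega) (fun i' hi' => hx₀ i' (by omega))
        (hx₀ i (by omega)) (by omega)) (fun k k1 k2 => by
      obtain ⟨k, rfl⟩ : ∃ k', k = k' + 1 := ⟨k - 1, by omega⟩
      show g₀ j (k + 1 - 1) ≤ g₀ j (l + 1 - 1) + x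
      rw [Nat.add_sub_cancel, Nat.add_sub_cancel]
      exact hg₀ k (by omega)) (k + 1) (by omega) (by omega)
  have h2 := cf_hx hn hwj hc hch hω hl hx₀ hx hk
  obtain ⟨α, hα⟩ : ∃ α, α = cfo (Hx c n (w₀ + j * z) (H' j) (slam F (w₀ + j * z) ω)) (l + 1)
    (k + 1) := ⟨_, rfl⟩
  rw [← hα] at h1 h2
  have e1 : cfo (Rf j (cs (slam F (w₀ + j₀ * z) ω))) (l + 1) (k + 1) =
      α - (α - cfo (Rf j (cs (slam F (w₀ + j₀ * z) ω))) (l + 1) (k + 1)) := by ring
  rw [e1]
  refine (abs_sub _ _).trans ((add_le_add h2 h1).trans ?_)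
  unfold rfn
  have h4 : (2 : ℝ) ^ (pwn n (e' j + x₀) + e' j + x + 2) ≤
      2 ^ (pwn n (pwn n (e' j + x₀) + e' j + x₀ + 2) + pwn n (e' j + x₀) + e' j + s + x + 2) :=
    pow_le_pow_right₀ (by norm_num) (by omega)
  have h5 : (2 : ℝ) ^ (pwn n (pwn n (e' j + x₀) + e' j + x₀ + 2) + s + x + 1) ≤
      2 ^ (pwn n (pwn n (e' j + x₀) + e' j + x₀ + 2) + pwn n (e' j + x₀) + e' j + s + x + 2) :=
    pow_le_pow_right₀ (by norm_num) (by omega)
  rw [pow_succ _ (pwn n (pwn n (e' j + x₀) + e' j + x₀ + 2) + pwn n (e' j + x₀) + e' j + s + x + 2)]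
  linarith

/-- **The velocities over near affine systems are near.** -/
theorem vlo_nb (n : ℕ) : ∃ C : ℕ, 1 ≤ C ∧ ∀ {m J : ℕ} {F : Fam m J} {c : ℕ → Fin m} {w w' : ℕ}
    {g : ℕ → ℕ} {S R τ : ℝ} {Φ Ψ : ℕ → PN} {ω : F.Ω} {l : ℕ}, Tr 1 Φ → Tr 1 Ψ → 0 ≤ S → 1 ≤ R →
    NbP n (Wn τ w) g S Φ Ψ → (∀ k, 1 ≤ k → k ≤ n → ∀ t : ℝ, Wn τ w t →
      |ohg F c w' Φ t k ω| ≤ R / 2 ^ g k) → 1 ≤ l → l ≤ n →
    |vlo F c Φ l ω - vlo F c Ψ l ω| ≤ ((C : ℝ) * R) ^ C * S * 2 ^ w / 2 ^ g l := by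
  obtain ⟨C, hC, hdil⟩ := NbP.dil n 1
  refine ⟨C, hC, ?_⟩
  intro m J F c w w' g S R τ Φ Ψ ω l hΦ hΨ hS hR hnb hown l1 ln
  have pw : (0 : ℝ) < 2 ^ w := by positivity
  have pg : (0 : ℝ) < 2 ^ g l := by positivity
  have key : ∀ t, Wn τ w t → |ohg F c w' Ψ t l ω - ohg F c w' Φ t l ω| ≤
      ((C : ℝ) * R) ^ C * S / 2 ^ g l := by
    intro t ht
    have h1 := hdil hΦ hΨ hS hR hnb l l1 ln (ptt (pc c (slam F w' ω)) t) ⟨by
      have : ptt (pc c (slam F w' ω)) t 0 = t := by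
        unfold ptt
        rw [pc_zero, Polynomial.eval_X]
      rw [this]
      exact ht, fun k k1 k2 => hown k k1 (by omega) t ht⟩
    unfold ohg
    have e1 : ptt (pc c (slam F w' ω)) t l - eval (ptt (pc c (slam F w' ω)) t) (Ψ l) -
        (ptt (pc c (slam F w' ω)) t l - eval (ptt (pc c (slam F w' ω)) t) (Φ l)) =
        eval (ptt (pc c (slam F w' ω)) t) (Φ l) - eval (ptt (pc c (slam F w' ω)) t) (Ψ l) := by
      ring
    rw [e1]
    exact h1
  have hp : (0 : ℝ) < 1 / 2 ^ w := by positivity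
  have k1 := key (τ + 1 / 2 ^ w) (by
    unfold Wn
    rw [add_sub_cancel_left, abs_of_pos hp])
  have k2 := key (τ - 1 / 2 ^ w) (by
    unfold Wn
    rw [sub_sub_cancel_left, abs_neg, abs_of_pos hp])
  rw [ohg_aff hΨ _ l1, ohg_aff hΦ _ l1] at k1 k2
  obtain ⟨a, ha⟩ : ∃ a, a = F.x ω (c (l - 1)) - (coeff 0 (Ψ l) +
    ∑ k ∈ range l, cfo Ψ l k * xs F c ω k) := ⟨_, rfl⟩
  obtain ⟨b, hb⟩ : ∃ b, b = F.x ω (c (l - 1)) - (coeff 0 (Φ l) +
    ∑ k ∈ range l, cfo Φ l k * xs F c ω k) := ⟨_, rfl⟩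
  rw [← ha, ← hb] at k1 k2
  obtain ⟨u, hu⟩ : ∃ u, u = vlo F c Φ l ω := ⟨_, rfl⟩
  obtain ⟨v, hv⟩ : ∃ v, v = vlo F c Ψ l ω := ⟨_, rfl⟩
  rw [← hu, ← hv] at k1 k2 ⊢
  have h3 : |2 * (1 / 2 ^ w) * (v - u)| ≤ 2 * (((C : ℝ) * R) ^ C * S / 2 ^ g l) := by
    have e2 : 2 * (1 / 2 ^ w) * (v - u) =
        (a + (τ + 1 / 2 ^ w - F.t ω) * v - (b + (τ + 1 / 2 ^ w - F.t ω) * u)) -
        (a + (τ - 1 / 2 ^ w - F.t ω) * v - (b + (τ - 1 / 2 ^ w - F.t ω) * u)) := by ring
    rw [e2]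
    refine (abs_sub _ _).trans ?_
    linarith
  rw [abs_mul, abs_of_pos (by positivity : (0 : ℝ) < 2 * (1 / 2 ^ w)), mul_assoc] at h3
  have h4 : 1 / 2 ^ w * |v - u| ≤ ((C : ℝ) * R) ^ C * S / 2 ^ g l := by linarith
  rw [abs_sub_comm, le_div_iff₀ pg]
  rw [le_div_iff₀ pg] at h4
  have h5 : |v - u| * 2 ^ g l = 2 ^ w * (1 / 2 ^ w * |v - u| * 2 ^ g l) := by
    field_simp
  rw [h5]
  calc (2 : ℝ) ^ w * (1 / 2 ^ w * |v - u| * 2 ^ g l) ≤ 2 ^ w * (((C : ℝ) * R) ^ C * S) :=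
        mul_le_mul_of_nonneg_left h4 pw.le
    _ = ((C : ℝ) * R) ^ C * S * 2 ^ w := by ring

/-- **The velocities over the reference charts** are near to the velocities over the charts of the
line. -/
theorem ref_vlo (n : ℕ) : ∃ C : ℕ, 1 ≤ C ∧ ∀ {m J : ℕ} {F : Fam m J} {D : GDat F}
    {c : ℕ → Fin m} {w₀ z M j₀ w' : ℕ} {g₀ : ℕ → ℕ → ℕ}
    {H' : ℕ → LnT F → ℕ → MvPolynomial (Option (Fin m)) ℝ} {S R : ℝ} {W : Type}
    {cp : PtT F → W} {cs : LnT F → W} {Rf : ℕ → W → ℕ → PN} {B : F.Ω → Prop} {j l : ℕ},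
    RefC D c n w₀ z M j₀ g₀ H' S cp cs Rf B → 0 ≤ S → 1 ≤ R → j ≤ j₀ →
    (∀ s, Tr 1 (Hx c n (w₀ + j * z) (H' j) s)) → ∀ {ω : F.Ω}, B ω →
    (∀ k, 1 ≤ k → k ≤ n → ∀ t : ℝ, Wn (tw F (w₀ + j * z) ω) (w₀ + j * z) t →
      |ohg F c w' (Hx c n (w₀ + j * z) (H' j) (slam F (w₀ + j * z) ω)) t k ω| ≤
        R / 2 ^ g₀ j (k - 1)) → l < n →
    |vlo F c (Hx c n (w₀ + j * z) (H' j) (slam F (w₀ + j * z) ω)) (l + 1) ω -
      vlo F c (Rf j (cs (slam F (w₀ + j₀ * z) ω))) (l + 1) ω| ≤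
      ((C : ℝ) * R) ^ C * S * 2 ^ (w₀ + j * z) / 2 ^ g₀ j l := by
  obtain ⟨C, hC, h⟩ := vlo_nb n
  refine ⟨C, hC, ?_⟩
  intro m J F D c w₀ z M j₀ w' g₀ H' S R W cp cs Rf B j l hR hS hR1 hj hT ω hω hown hl
  obtain ⟨σ, hσ⟩ := hR.ref j (cs (slam F (w₀ + j₀ * z) ω))
  have hΨ : Tr 1 (Rf j (cs (slam F (w₀ + j₀ * z) ω))) := by
    rw [hσ]
    exact hT _
  exact h (l := l + 1) (g := fun l => g₀ j (l - 1)) (hT _) hΨ hS hR1 (hR.raw j hj ω hω) hown
    (by omega) (by omega)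

end Pool.STAT.OKI
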