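import Pool.Agent.H40.ISO.Rmx
import Pool.Agent.H40.MIC.GrdX

/-!
# The charts of neighbouring windows are close

`nb_raw`: the chart of the line and the value of the line are near. `cls_gd`: the base is full given
the context at `(i + 1, j + 1)` and the time; on a large event the charts at `(i, j)` and at
`(i + 1, j + 1)` are near on the boxes of the window of the index `j + 1`, up to `2 ^ (B z)` natural
units.
-/

set_option autoImplicit false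

namespace Pool.STAT.OKI

open Finset MvPolynomial
open Pool.Agent.H49.Ent Pool.Agent.H32.Dense Pool.STK Pool.KS3 Pool.KA Pool.KSAT Pool.PB Pool.GEN
open Pool.K2S Pool.S6C Pool.STAT.CLO Pool.STAT.Glu
open Pool.BFL (Pb)

variable {m J : ℕ} {F : Fam m J}

/-- The chart of the line at `(i, j)`. -/
noncomputable def Sy (D : GDat F) (c : ℕ → Fin m) (n w₀ z i j : ℕ) (ω : F.Ω) : ℕ → PN :=
  Hx c n (w₀ + j * z) (D.H i j) (slam F (w₀ + j * z) ω)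

/-- The polynomials of the value of the line at `(i, j)`. -/
noncomputable def PLs (D : GDat F) (w₀ z i j : ℕ) (ω : F.Ω) : ℕ → PN :=
  D.PL i j (D.zL i j (slam F (w₀ + j * z) ω))

/-- The polynomials of the label at the point at `(i, j)`. -/
noncomputable def PSs (D : GDat F) (i j : ℕ) (ω : F.Ω) : ℕ → PN := D.PS i j (D.zS i j (ptr F J ω))

/-- The start of the window. -/
noncomputable def tw (F : Fam m J) (w : ℕ) (ω : F.Ω) : ℝ := (F.T1 w ω : ℝ) / 2 ^ w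

/-- The sides, coordinates `1, …, n`. -/
def gs (g : ℕ → ℕ → ℕ → ℕ) (i j l : ℕ) : ℕ := g i j (l - 1)

/-- The sample in the coordinates of the chain. -/
noncomputable def xs (F : Fam m J) (c : ℕ → Fin m) (ω : F.Ω) : ℕ → ℝ := cx F (fun i => c (i - 1)) ω

theorem xs_zero (c : ℕ → Fin m) (ω : F.Ω) : xs F c ω 0 = F.t ω := by
  unfold xs cx
  exact if_pos rfl

section ok

variable {D : GDat F} {c : ℕ → Fin m} {n K K' s₁ : ℕ} {sh : ℕ → ℕ} {a₀ w₀ z M : ℕ}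
  {e : ℕ → ℕ → ℕ} {g : ℕ → ℕ → ℕ → ℕ} {B : F.Ω → Prop}

theorem tr_sy (h : D.Ok c n K K' s₁ sh a₀ w₀ z M e g B) {i j : ℕ} (hi : i ≤ M) (hj : j ≤ M)
    (ω : F.Ω) : Tr K (Sy D c n w₀ z i j ω) :=
  ⟨sy_tri, fun l => sy_deg (fun l _ => (h.chn i hi j hj).degH _ l) l⟩

theorem tr_pl (h : D.Ok c n K K' s₁ sh a₀ w₀ z M e g B) {i j : ℕ} (hi : i ≤ M) (hj : j ≤ M)
    (ω : F.Ω) : Tr K' (PLs D w₀ z i j ω) :=
  ⟨(h.out i hi j hj).Ltri _, (h.out i hi j hj).Ldeg _⟩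

theorem tr_ps (h : D.Ok c n K K' s₁ sh a₀ w₀ z M e g B) {i j : ℕ} (hi : i ≤ M) (hj : j ≤ M)
    (ω : F.Ω) : Tr K' (PSs D i j ω) :=
  ⟨(h.out i hi j hj).Stri _, (h.out i hi j hj).Sdeg _⟩

/-- **The chart and the value are near.** -/
theorem nb_raw (h : D.Ok c n K K' s₁ sh a₀ w₀ z M e g B) {i j : ℕ} (hi : i ≤ M) (hj : j ≤ M)
    {ω : F.Ω} (hω : B ω) : NbP n (Wn (tw F (w₀ + j * z) ω) (w₀ + j * z)) (gs g i j)
      ((K' * 2 * 1 : ℝ) ^ K') (Sy D c n w₀ z i j ω) (PLs D w₀ z i j ω) := by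
  intro l l1 l2 b hb
  have h1 := (h.out i hi j hj).nrL ω hω
  have h2 := h1.2 l l1 (by omega) 1 le_rfl b (fun k hk => by
    rcases Nat.eq_zero_or_pos k with rfl | k1
    · have e1 : Hx c n (w₀ + j * z) (D.H i j) (slam F (w₀ + j * z) ω) 0 =
          MvPolynomial.C (tw F (w₀ + j * z) ω) := sy_zero
      rw [e1, eval_C, gt0_zero]
      exact hb.1
    · rw [gt0_pos _ _ k1]
      exact hb.2 k k1 hk)
  rw [gt0_pos _ _ l1] at h2
  rw [abs_sub_comm]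
  exact h2

/-- The label at the point and the value of the line are near at the exact time. -/
theorem nb_agr (h : D.Ok c n K K' s₁ sh a₀ w₀ z M e g B) {i j : ℕ} (hi : i ≤ M) (hj : j ≤ M)
    {ω : F.Ω} (hω : B ω) : NbP n (Et (xs F c ω 0)) (fun l => gs g i j l - sh l) 1
      (PSs D i j ω) (PLs D w₀ z i j ω) := by
  intro l l1 l2 b hb
  have hO := h.out i hi j hj
  refine hO.agr ω hω l l1 l2 b fun k hk => ?_
  rcases Nat.eq_zero_or_pos k with rfl | k1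
  · have e1 : b 0 = F.t ω := (show b 0 = xs F c ω 0 from hb.1).trans (xs_zero c ω)
    rw [hO.Szero, eval_C, hO.Sfst, tx_eq, e1, sub_self, abs_zero]
    positivity
  · rw [gt0_pos _ _ k1]
    exact hb.2 k k1 hk

end ok

theorem tw_t {w : ℕ} (hw : w ≤ J) (ω : F.Ω) : |F.t ω - tw F w ω| ≤ 1 / 2 ^ w := t_cell F hw ω

/-- The starts of two windows. -/
theorem tw_tw {w w' : ℕ} (h : w ≤ w') (hw : w' ≤ J) (ω : F.Ω) :
    |tw F w' ω - tw F w ω| ≤ 2 / 2 ^ w := by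
  have h1 := tw_t (h.trans hw) ω
  have h2 := tw_t hw ω
  have h3 : (1 : ℝ) / 2 ^ w' ≤ 1 / 2 ^ w :=
    one_div_le_one_div_of_le (by positivity) (pow_le_pow_right₀ (by norm_num) h)
  have h4 := abs_sub (F.t ω - tw F w ω) (F.t ω - tw F w' ω)
  rw [sub_sub_sub_cancel_left] at h4
  refine h4.trans ((add_le_add h1 (h2.trans h3)).trans (le_of_eq ?_))
  ring

/-- Losses in powers of two. -/
theorem pw_two {c a z : ℕ} (hc : (c : ℝ) ≤ 2 ^ z) :
    ((c : ℝ) * 2 ^ (a * z)) ^ c ≤ 2 ^ (c * (a + 1) * z) := by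
  calc ((c : ℝ) * 2 ^ (a * z)) ^ c ≤ ((2 : ℝ) ^ z * 2 ^ (a * z)) ^ c :=
        pow_le_pow_left₀ (by positivity) (mul_le_mul_of_nonneg_right hc (by positivity)) c
    _ = 2 ^ (c * (a + 1) * z) := by
        rw [← pow_add, ← pow_mul]
        congr 1
        ring

theorem two_ge (z : ℕ) : (z : ℝ) ≤ 2 ^ z := by exact_mod_cast Nat.lt_two_pow_self.le

/-- **The charts of neighbouring windows are close**, from the fullness of `z` digits. -/
theorem cls_gdN (n K K' s₁ Λ : ℕ) (sh : ℕ → ℕ) (hn : 1 ≤ n) :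
    ∃ Bc : ℕ, ∀ η : ℝ, 0 < η → η ≤ 1 → ∃ (κ₀ : ℝ) (z₀ : ℕ), 0 < κ₀ ∧
    ∀ {m J : ℕ} {F : Fam m J} {D : GDat F} {c : ℕ → Fin m} {a₀ w₀ z M i j : ℕ} {e : ℕ → ℕ → ℕ}
    {g : ℕ → ℕ → ℕ → ℕ} {B : F.Ω → Prop} {R : ℕ → ℕ → Type} {ρ : (i j : ℕ) → LnT F → R i j}
    {q : F.Ω → ℝ} {k E : ℝ}, D.Ok c n K K' s₁ sh a₀ w₀ z M e g B → Inj c n → IsLaw q →
    (∀ ω, 0 < q ω → B ω) → z₀ ≤ z → i < M → j < M → w₀ + M * z + z ≤ J →
    1 ≤ z → (∀ l < n, sh (l + 1) ≤ g i j l ∧ sh (l + 1) ≤ g (i + 1) (j + 1) l) →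
    (∀ l < n, g (i + 1) (j + 1) l ≤ g i j l + Λ * z ∧ g i j l ≤ g (i + 1) (j + 1) l + Λ * z) →
    0 ≤ E → E ≤ κ₀ * z → ((J : ℝ) - (w₀ + (j + 1) * z : ℕ)) * Real.log 2 - E ≤
      CH q F.T (slam F (w₀ + (j + 1) * z)) → 0 ≤ k → k ≤ κ₀ * z →
    ((n - 1 : ℕ) : ℝ) * (z * Real.log 2) - k ≤
      CH q (fun ω (l : Fin (n - 1)) =>
        ⌊(2 : ℝ) ^ (g (i + 1) (j + 1) (l + 1 - 1) - sh (l + 1) + z) *
          (cx F (fun i => c (i - 1)) ω (l + 1) - eval (cx F (fun i => c (i - 1)) ω)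
            (D.PS (i + 1) (j + 1) (D.zS (i + 1) (j + 1) (ptr F J ω)) (l + 1)))⌋)
        (fun ω => ((D.cd n ρ).lab2 w₀ z (i + 1) (j + 1) ω, F.T ω)) →
    ∃ A : F.Ω → Prop, (∀ ω, A ω → 0 < q ω) ∧ 1 - η ≤ Pb q A ∧ ∀ ω, A ω →
      NbP n (Wn (tw F (w₀ + (j + 1) * z) ω) (w₀ + (j + 1) * z)) (gs g (i + 1) (j + 1))
        (2 ^ (Bc * z)) (Sy D c n w₀ z (i + 1) (j + 1) ω) (Sy D c n w₀ z i j ω) := by
  obtain ⟨K₂, hK₂⟩ : ∃ K₂, K₂ = max K K' := ⟨_, rfl⟩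
  have kK : K ≤ K₂ := by rw [hK₂]; exact le_max_left _ _
  have kK' : K' ≤ K₂ := by rw [hK₂]; exact le_max_right _ _
  obtain ⟨c₁, hc₁, hchg⟩ := NbP.chg n K₂
  obtain ⟨c₂, hc₂, hsym⟩ := NbP.symm n K₂
  obtain ⟨c₃, hc₃, htra⟩ := NbP.trans n K₂
  obtain ⟨SH, hSH⟩ : ∃ SH, SH = ∑ i ∈ range (n + 1), sh i := ⟨_, rfl⟩
  have hSHle : ∀ i ≤ n, sh i ≤ SH := fun i hi => by
    rw [hSH]
    exact Finset.single_le_sum (f := sh) (fun _ _ => Nat.zero_le _) (mem_range.2 (by omega))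
  -- the constants
  have p1 : PBd fun Y => ((c₁ : ℝ) * Y) ^ c₁ * Y := (PBd.id.loss c₁).mul PBd.id
  have p2 : PBd fun Y => ((c₁ : ℝ) * Y) ^ c₁ * ((c₂ : ℝ) * Y) ^ c₂ :=
    (PBd.id.loss c₁).mul (PBd.id.loss c₂)
  have p3 : PBd fun Y => ((c₃ : ℝ) * (Y * (((c₁ : ℝ) * Y) ^ c₁ * Y))) ^ c₃ :=
    (PBd.id.mul p1).loss c₃
  obtain ⟨c₄, hc₄, h4⟩ := (p3.mul p2).loss c₃
  obtain ⟨zc, hzc⟩ := exists_nat_ge ((c₄ : ℝ) + ((K' * 2 * 1 : ℝ) ^ K' + 2 ^ SH) + 2)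
  refine ⟨c₄ * (Λ + 5 + 1), fun η hη hη1 => ?_⟩
  obtain ⟨κ₁, z₁, hκ₁, hwin⟩ := rmz_win n K' η hn hη hη1
  refine ⟨κ₁, max zc z₁, hκ₁, ?_⟩
  intro m J F D c a₀ w₀ z M i j e g B R ρ q k E hD hc hq hB hz hi hj hwJ hz1 hsh hgg hE0
    hE htm hk0 hk hfull
  have hz0 : (0 : ℝ) ≤ z := Nat.cast_nonneg z
  have hzc1 : zc ≤ z := (le_max_left _ _).trans hz
  have hz1' : z₁ ≤ z := (le_max_right _ _).trans hz
  have hcz : (c₄ : ℝ) + ((K' * 2 * 1 : ℝ) ^ K' + 2 ^ SH) + 2 ≤ 2 ^ z :=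
    (hzc.trans (by exact_mod_cast hzc1)).trans (two_ge z)
  have hi1 : i + 1 ≤ M := hi
  have hj1 : j + 1 ≤ M := hj
  have hjM : (j + 1) * z ≤ M * z := Nat.mul_le_mul_right z hj1
  have hjj : (j + 1) * z = j * z + z := by ring
  have hO := hD.out (i + 1) hi1 (j + 1) hj1
  have hO' := hD.out i hi.le j hj.le
  obtain ⟨w, hw⟩ : ∃ w, w = w₀ + (j + 1) * z := ⟨_, rfl⟩
  have hwJ1 : w + z ≤ J := by omega
  have hww : w₀ + j * z ≤ w := by omega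
  have hT : ∀ ω : F.Ω, F.t ω = (F.T ω : ℝ) / 2 ^ J := fun _ => rfl
  -- determined
  have dzL : ∀ i' j', j' ≤ j + 1 → i' + (j + 1) ≤ i + 1 + j' →
      Det q (fun ω => ((D.cd n ρ).lab2 w₀ z (i + 1) (j + 1) ω, F.T ω))
        (fun ω => D.zL i' j' (slam F (w₀ + j' * z) ω)) := by
    intro i' j' h1 h2 ω ω' _ _ e'
    simp only [Prod.mk.injEq] at e'
    have h5 := CDat2.lab2_val (D.cd n ρ) (i' := i') (j' := j') h1 h2 e'.1
    exact congrArg (fun v : LV × R i' j' => v.1) h5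
  have dz1 := dzL (i + 1) (j + 1) le_rfl le_rfl
  have dz2 := dzL i j (by omega) (by omega)
  have hside : ∀ l, 1 ≤ l → l ≤ n →
      gs g (i + 1) (j + 1) l - sh l ≤ (gs g i j l - sh l) + Λ * z := by
    intro l l1 l2
    unfold gs
    have h1 := hgg (l - 1) (by omega)
    have h2 := hsh (l - 1) (by omega)
    rw [Nat.sub_add_cancel l1] at h2
    omega
  obtain ⟨A, hA0, hA1, hA2⟩ := hwin (q := q) hq hz1' (J := J) (w := w) (z := z) (T := F.T)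
    (lam := slam F w) (y := fun ω => ((D.cd n ρ).lab2 w₀ z (i + 1) (j + 1) ω, F.T ω))
    (g := fun l => gs g (i + 1) (j + 1) l - sh l) (Ψ := PSs D (i + 1) (j + 1))
    (Φ := PLs D w₀ z (i + 1) (j + 1))
    (F := fun ω l => PLs D w₀ z i j ω l - PLs D w₀ z (i + 1) (j + 1) ω l)
    (x := xs F c) (τ := fun l => 2 * 2 ^ (Λ * z) / 2 ^ (gs g (i + 1) (j + 1) l - sh l))
    (θ := k) (E := E) hk0 hk (fun ω ω' _ _ e' => by
      simp only [Prod.mk.injEq] at e'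
      beta_reduce
      rw [xs_zero, xs_zero, hT, hT, e'.2]) (fun ω ω' h1 h2 e' => by
      have h5 := dz1 ω ω' h1 h2 e'
      simp only [Prod.mk.injEq] at e'
      unfold PSs
      beta_reduce at h5
      rw [hO.cls ω (hB ω h1), hO.cls ω' (hB ω' h2), h5, tx_eq, tx_eq, hT, hT, e'.2])
    (fun l ω ω' h1 h2 e' => by
      have h5 := dz1 ω ω' h1 h2 e'
      have h6 := dz2 ω ω' h1 h2 e'
      beta_reduce at h5 h6 ⊢
      unfold PLs
      rw [h5, h6])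
    (fun ω _ => tr_ps hD hi1 hj1 ω) (fun ω _ => tr_pl hD hi1 hj1 ω)
    (fun ω _ l _ _ => (vars_sub_subset _).trans (Finset.union_subset
      ((tr_pl hD hi.le hj.le ω).tri l) ((tr_pl hD hi1 hj1 ω).tri l)))
    (fun ω _ l _ _ => (totalDegree_sub _ _).trans (max_le
      ((tr_pl hD hi.le hj.le ω).deg l) ((tr_pl hD hi1 hj1 ω).deg l)))
    (fun l => by positivity) (fun ω hω i' h1 h2 => hO.pos ω (hB ω hω) i' h1 (by omega)) hfull
    (fun ω hω l l1 l2 => by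
      rw [map_sub]
      have e1 := hO'.hgt ω (hB ω hω) l l1 l2
      have e2 := hO.hgt ω (hB ω hω) l l1 l2
      have e3 := abs_sub (xs F c ω l - eval (xs F c ω) (PLs D w₀ z (i + 1) (j + 1) ω l))
        (xs F c ω l - eval (xs F c ω) (PLs D w₀ z i j ω l))
      rw [sub_sub_sub_cancel_left] at e3
      refine e3.trans ((add_le_add e2 e1).trans ?_)
      have e4 : (1 : ℝ) / 2 ^ (g i j (l - 1) - sh l) ≤
          2 ^ (Λ * z) / 2 ^ (gs g (i + 1) (j + 1) l - sh l) := by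
        rw [div_le_div_iff₀ (by positivity) (by positivity), one_mul, ← pow_add]
        refine pow_le_pow_right₀ (by norm_num) ?_
        have := hside l l1 l2
        unfold gs at this ⊢
        omega
      have e5 : (1 : ℝ) / 2 ^ (g (i + 1) (j + 1) (l - 1) - sh l) ≤
          2 ^ (Λ * z) / 2 ^ (gs g (i + 1) (j + 1) l - sh l) :=
        div_le_div_of_nonneg_right (one_le_pow₀ (by norm_num)) (by positivity)
      refine (add_le_add e5 e4).trans (le_of_eq ?_)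
      ring) (fun ω hω => nb_agr hD hi1 hj1 (hB ω hω)) (fun ω => by rw [xs_zero, hT])
    F.tim hwJ1 (fun ω ω' _ _ e' => by
      have e1 : F.T1 w ω = F.T1 w ω' := congrArg (fun s : LnT F => s.2.2) e'
      exact e1) hE0 hE (by rw [hw]; exact htm) (fun ω ω' _ _ e' => by
      unfold PLs
      rw [hw] at e'
      rw [e']) (fun l ω ω' _ _ e' => by
      have e1 := CDat2.slam_slam F hww (by omega) e'
      rw [hw] at e'
      beta_reduce
      unfold PLs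
      rw [e1, e'])
  refine ⟨A, hA0, hA1, fun ω hω => ?_⟩
  have hωB := hB ω (hA0 ω hω)
  obtain ⟨Y, hY⟩ : ∃ Y : ℝ, Y = 2 ^ ((Λ + 5) * z) := ⟨_, rfl⟩
  have hzY : (2 : ℝ) ^ z ≤ Y := by
    rw [hY]
    exact pow_le_pow_right₀ (by norm_num) (Nat.le_mul_of_pos_left z (by omega))
  have hKp : (0 : ℝ) ≤ (K' * 2 * 1 : ℝ) ^ K' := by positivity
  have hSp : (0 : ℝ) ≤ 2 ^ SH := by positivity
  have hc4 : (0 : ℝ) ≤ c₄ := Nat.cast_nonneg _
  have hY1 : 1 ≤ Y := by linarith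
  have hY0 : 0 ≤ Y := by linarith
  have hY2 : 2 ≤ Y := by linarith
  have cY1 : (2 : ℝ) ^ SH ≤ Y := by linarith
  have cY2 : (K' * 2 * 1 : ℝ) ^ K' ≤ Y := by linarith
  have h2z : (2 : ℝ) ≤ 2 ^ z := by linarith
  have cY3 : (2 : ℝ) ^ (4 * z) * (2 * 2 ^ (Λ * z)) ≤ Y := by
    rw [hY]
    calc (2 : ℝ) ^ (4 * z) * (2 * 2 ^ (Λ * z)) ≤ 2 ^ (4 * z) * (2 ^ z * 2 ^ (Λ * z)) :=
          mul_le_mul_of_nonneg_left (mul_le_mul_of_nonneg_right h2z (by positivity))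
            (by positivity)
      _ = 2 ^ ((Λ + 5) * z) := by
          rw [← pow_add, ← pow_add]
          congr 1
          ring
  have cY4 : (2 : ℝ) ^ (Λ * z) ≤ Y := by
    rw [hY]
    exact pow_le_pow_right₀ (by norm_num) (Nat.mul_le_mul_right z (by omega))
  have hww2 : (1 : ℝ) / 2 ^ w ≤ Y / 2 ^ (w₀ + j * z) :=
    div_le_div₀ hY0 hY1 (by positivity) (pow_le_pow_right₀ (by norm_num) hww)
  have e0 : tw F (w₀ + (j + 1) * z) ω = tw F w ω := by rw [hw]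
  rw [← hw]
  have t1 := tr_mono (tr_sy hD hi1 hj1 ω) kK
  have t2 := tr_mono (tr_pl hD hi1 hj1 ω) kK'
  have t3 := tr_mono (tr_pl hD hi.le hj.le ω) kK'
  have t4 := tr_mono (tr_sy hD hi.le hj.le ω) kK
  -- the values
  have a1 : NbP n (Wn (F.t ω) w) (fun l => gs g (i + 1) (j + 1) l - sh l) Y
      (PLs D w₀ z (i + 1) (j + 1) ω) (PLs D w₀ z i j ω) := by
    intro l l1 l2 b hb
    have h5 := hA2 ω hω l l1 l2 b (by rw [xs_zero]; exact hb)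
    rw [map_sub, abs_sub_comm] at h5
    refine h5.trans ?_
    rw [← mul_div_assoc]
    exact div_le_div_of_nonneg_right cY3 (by positivity)
  have hshl : ∀ l, 1 ≤ l → l ≤ n → sh l ≤ gs g (i + 1) (j + 1) l := by
    intro l l1 l2
    have := (hsh (l - 1) (by omega)).2
    rw [Nat.sub_add_cancel l1] at this
    exact this
  have a1' := hchg (τ' := tw F w ω) (w' := w) (g' := gs g (i + 1) (j + 1)) (R := Y) t2 t3 hY0 hY1
    a1 (by
      rw [abs_sub_comm]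
      exact (tw_t (by omega) ω).trans (div_le_div_of_nonneg_right hY1 (by positivity)))
    (div_le_div_of_nonneg_right hY1 (by positivity)) (fun l l1 l2 => by
      have h6 : (2 : ℝ) ^ (gs g (i + 1) (j + 1) l - sh l) ≤ 2 ^ gs g (i + 1) (j + 1) l :=
        pow_le_pow_right₀ (by norm_num) (Nat.sub_le _ _)
      have h7 : (0 : ℝ) < 2 ^ gs g (i + 1) (j + 1) l := by positivity
      nlinarith) (fun l l1 l2 => by
      have h6 : (2 : ℝ) ^ gs g (i + 1) (j + 1) l ≤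
          2 ^ SH * 2 ^ (gs g (i + 1) (j + 1) l - sh l) := by
        rw [← pow_add]
        exact pow_le_pow_right₀ (by norm_num) (by
          have h8 := hshl l l1 l2
          have h9 := hSHle l l2
          omega)
      exact h6.trans (mul_le_mul_of_nonneg_right cY1 (by positivity)))
  have a2 := (nb_raw hD hi1 hj1 hωB).mono le_rfl (fun _ h => h) cY2
  rw [← hw] at a2
  have a3 := hsym t4 t3 hY1 ((nb_raw hD hi.le hj.le hωB).mono le_rfl (fun _ h => h) cY2)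
  have a3' := hchg (τ' := tw F w ω) (w' := w) (g' := gs g (i + 1) (j + 1)) (R := Y) t3 t4
    (by positivity) hY1 a3 ((tw_tw hww (by omega) ω).trans
      (div_le_div_of_nonneg_right hY2 (by positivity))) hww2 (fun l l1 l2 => by
      have h6 : (2 : ℝ) ^ gs g i j l ≤ 2 ^ (Λ * z) * 2 ^ gs g (i + 1) (j + 1) l := by
        rw [← pow_add]
        exact pow_le_pow_right₀ (by norm_num) (by
          have := (hgg (l - 1) (by omega)).2
          unfold gs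
          omega)
      exact h6.trans (mul_le_mul_of_nonneg_right cY4 (by positivity))) (fun l l1 l2 => by
      have h6 : (2 : ℝ) ^ gs g (i + 1) (j + 1) l ≤ 2 ^ (Λ * z) * 2 ^ gs g i j l := by
        rw [← pow_add]
        exact pow_le_pow_right₀ (by norm_num) (by
          have := (hgg (l - 1) (by omega)).1
          unfold gs
          omega)
      exact h6.trans (mul_le_mul_of_nonneg_right cY4 (by positivity)))
  have o1 : 1 ≤ ((c₁ : ℝ) * Y) ^ c₁ := pw_one hc₁ hY1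
  have o2 : 1 ≤ ((c₂ : ℝ) * Y) ^ c₂ := pw_one hc₂ hY1
  have o3 : 1 ≤ ((c₁ : ℝ) * Y) ^ c₁ * Y := one_le_mul_of_one_le_of_one_le o1 hY1
  have o4 : 1 ≤ ((c₁ : ℝ) * Y) ^ c₁ * ((c₂ : ℝ) * Y) ^ c₂ := one_le_mul_of_one_le_of_one_le o1 o2
  have a4 := htra t1 t2 t3 hY1 o3 a2 a1'
  have a5 := htra t1 t3 t4 (pw_one hc₃ (one_le_mul_of_one_le_of_one_le hY1 o3)) o4 a4 a3'
  refine a5.mono le_rfl (fun _ h => h) ?_
  have h8 := (le_abs_self _).trans (h4 Y hY1)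
  beta_reduce at h8
  refine h8.trans ?_
  rw [hY]
  exact pw_two (by linarith)

/-- **The charts of neighbouring windows are close.** -/
theorem cls_gd (n K K' s₁ Λ : ℕ) (sh : ℕ → ℕ) (hn : 1 ≤ n) (hK' : 1 ≤ K') :
    ∃ Bc s₂ : ℕ, ∀ η : ℝ, 0 < η → η ≤ 1 → ∃ (κ₀ : ℝ) (z₀ : ℕ), 0 < κ₀ ∧
    ∀ {m J : ℕ} {F : Fam m J} {D : GDat F} {c : ℕ → Fin m} {a₀ w₀ z M i j : ℕ} {e : ℕ → ℕ → ℕ}
    {g : ℕ → ℕ → ℕ → ℕ} {B : F.Ω → Prop} {R : ℕ → ℕ → Type} {ρ : (i j : ℕ) → LnT F → R i j}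
    {q : F.Ω → ℝ} {k E : ℝ}, D.Ok c n K K' s₁ sh a₀ w₀ z M e g B → Inj c n → IsLaw q →
    (∀ ω, 0 < q ω → B ω) → z₀ ≤ z → i < M → j < M → w₀ + M * z + z ≤ J → a₀ + M * z ≤ J →
    1 ≤ z → (∀ l < n, sh (l + 1) ≤ g i j l ∧ sh (l + 1) ≤ g (i + 1) (j + 1) l) →
    SizF n J z M s₂ e g →
    (∀ l < n, g (i + 1) (j + 1) l ≤ g i j l + Λ * z ∧ g i j l ≤ g (i + 1) (j + 1) l + Λ * z) →
    0 ≤ E → E ≤ κ₀ * z → ((J : ℝ) - (w₀ + (j + 1) * z : ℕ)) * Real.log 2 - E ≤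
      CH q F.T (slam F (w₀ + (j + 1) * z)) → 0 ≤ k → k ≤ κ₀ * z →
    (∑ l ∈ range (n - 1), ((J : ℝ) - (g (i + 1) (j + 1) l - sh (l + 1) : ℕ))) * Real.log 2 - k ≤
      CH q (fun ω (l : Fin (n - 1)) => ⌊(2 : ℝ) ^ J * F.x ω (c l)⌋)
        (fun ω => ((D.cd n ρ).lab2 w₀ z (i + 1) (j + 1) ω, F.T ω)) →
    ∃ A : F.Ω → Prop, (∀ ω, A ω → 0 < q ω) ∧ 1 - η ≤ Pb q A ∧ ∀ ω, A ω →
      NbP n (Wn (tw F (w₀ + (j + 1) * z) ω) (w₀ + (j + 1) * z)) (gs g (i + 1) (j + 1))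
        (2 ^ (Bc * z)) (Sy D c n w₀ z (i + 1) (j + 1) ω) (Sy D c n w₀ z i j ω) := by
  obtain ⟨L, s₂, hL, hful⟩ := full_gdat n K K' s₁ sh hK'
  obtain ⟨Bc, hcls⟩ := cls_gdN n K K' s₁ Λ sh hn
  refine ⟨Bc, s₂, fun η hη hη1 => ?_⟩
  obtain ⟨κ₁, z₁, hκ₁, hcls⟩ := hcls η hη hη1
  obtain ⟨z₂, hz₂⟩ := exists_nat_ge (2 * (((n - 1 : ℕ) : ℝ) * Real.log (5 + 2 * L)) / κ₁)
  refine ⟨κ₁ / 2, max z₁ z₂, by positivity, ?_⟩
  intro m J F D c a₀ w₀ z M i j e g B R ρ q k E hD hc hq hB hz hi hj hwJ haJ hz1 hsh hsz hgg hE0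
    hE htm hk0 hk hex
  have hz1' : z₁ ≤ z := (le_max_left _ _).trans hz
  have hz2r : (z₂ : ℝ) ≤ z := by exact_mod_cast (le_max_right _ _).trans hz
  have hi1 : i + 1 ≤ M := hi
  have hj1 : j + 1 ≤ M := hj
  have hκz : 0 ≤ κ₁ * z := by positivity
  have e2 : κ₁ / 2 * (z : ℝ) = κ₁ * z / 2 := by ring
  -- fullness
  have hlog : (0 : ℝ) ≤ ((n - 1 : ℕ) : ℝ) * Real.log (5 + 2 * L) :=
    mul_nonneg (Nat.cast_nonneg _) (Real.log_nonneg (by linarith))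
  have h3 : ∀ l < n - 1, g (i + 1) (j + 1) l ≤ (range (l + 1)).sup (g (i + 1) (j + 1)) :=
    fun l _ => Finset.le_sup (f := g (i + 1) (j + 1)) (mem_range.2 (by omega))
  have hzM : z ≤ M * z := Nat.le_mul_of_pos_left z (by omega)
  have hfull := hful hD hc haJ hq hB (i + 1) hi1 (j + 1) hj1
    (fun l => e (i + 1) (j + 1) + ((range (l + 1)).sup (g (i + 1) (j + 1)) -
      g (i + 1) (j + 1) l)) z (fun l hl => (hsh l (by omega)).2)
    (fun l _ k hk => by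
      unfold nlp
      have h5 : (Finset.Icc k l).sup (g (i + 1) (j + 1)) ≤
          (range (l + 1)).sup (g (i + 1) (j + 1)) := by
        refine Finset.sup_mono fun x hx => ?_
        rw [Finset.mem_Icc] at hx
        exact mem_range.2 (by omega)
      omega) (fun l hl => by
      have h5 := h3 l hl
      have h6 := hsz (i + 1) hi1 (j + 1) hj1 l hl
      omega) (fun ω => ((D.cd n ρ).lab2 w₀ z (i + 1) (j + 1) ω, F.T ω)) (fun ω ω' _ _ e' => by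
      simp only [Prod.mk.injEq] at e'
      have h5 := CDat2.lab2_val (D.cd n ρ) (i' := i + 1) (j' := j + 1) le_rfl le_rfl e'.1
      exact Prod.ext (congrArg (fun v : LV × R (i + 1) (j + 1) => v.1) h5) e'.2) k hex
  refine hcls hD hc hq hB hz1' hi hj hwJ hz1 hsh hgg hE0 (by linarith) htm
    (k := k + ((n - 1 : ℕ) : ℝ) * Real.log (5 + 2 * L)) (by linarith) ?_ hfull
  have e1 : 2 * (((n - 1 : ℕ) : ℝ) * Real.log (5 + 2 * L)) / κ₁ ≤ z := hz₂.trans hz2r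
  rw [div_le_iff₀ hκ₁] at e1
  rw [e2] at hk
  linarith

end Pool.STAT.OKI
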