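import Pool.Agent.H40.ISO.Exk
import Pool.Agent.H82.STAT.Kja

/-!
# Exactness given the labels at the points, for the affine cells, all slopes one

`fexs_J`: the field `fexs` of the kit `KitJ` (helper82), all coordinates have slope one (`V1` is
empty), from exactness at the good windows.
-/

set_option autoImplicit false

namespace Pool.STAT

open Finset MvPolynomial
open Pool.Agent.H49.Ent Pool.Agent.H32.Dense Pool.STK Pool.KS3 Pool.KA Pool.KSAT Pool.PB Pool.GEN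
open Pool.K2S Pool.S6C
open Pool.LEV (Law Lv)
open Pool.STA (Gnr)
open Pool.STAT.GRD
open CLO Pool.MIC6

variable {m n : ℕ} {L : ℕ → ℝ → ℝ → ℝ} {σ : ℕ → ℝ} {s : ℕ} {g : ℝ} {W : Set ℝ}
  {Att : Set (ℝ × ℝ)} {cs : ℕ → Fin m} {K : ℕ} {V : ℝ × ℝ → ℕ → ℕ → ℝ → GrdP m}
  {her : ∀ p N M θ, (V p N M θ).Her}

/-- A good window near a radius. -/
theorem IsCJ.next {ε r b : ℝ} (hp : IsCJ L n σ s g W Att ε (r, b)) {N₀ : ℕ} (hN : 2 ≤ N₀)
    (hε : (N₀ : ℝ) ≤ 1 / ε) {a : ℝ} (h1 : b ≤ a) (h2 : a ≤ b + r / 64) :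
    ∃ a' ∈ W, a < a' ∧ a' ≤ a + r / N₀ := by
  have hr : 0 < r := hp.r0
  have hN0 : (0 : ℝ) < N₀ := by
    have : (2 : ℝ) ≤ N₀ := by exact_mod_cast hN
    linarith
  have hN2 : (2 : ℝ) ≤ N₀ := by exact_mod_cast hN
  obtain ⟨j, hj⟩ : ∃ j : ℕ, j = ⌊(a - b) * N₀ / r⌋₊ + 1 := ⟨_, rfl⟩
  have hx0 : 0 ≤ (a - b) * N₀ / r := div_nonneg (mul_nonneg (by linarith) hN0.le) hr.le
  have h3 : (a - b) * N₀ / r < j := by
    rw [hj]
    push_cast
    exact Nat.lt_floor_add_one _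
  have h4 : (j : ℝ) ≤ (a - b) * N₀ / r + 1 := by
    rw [hj]
    push_cast
    have := Nat.floor_le hx0
    linarith
  obtain ⟨k, hk⟩ : ∃ k : ℚ, k = -((j : ℚ) / (N₀ : ℚ)) := ⟨_, rfl⟩
  have hkr : (k : ℝ) = -((j : ℝ) / N₀) := by
    rw [hk]
    push_cast
    rfl
  have h5 : (j : ℝ) / N₀ * r ≤ (a - b) + r / N₀ := by
    rw [div_mul_eq_mul_div, div_le_iff₀ hN0]
    have h6 : (j : ℝ) * r ≤ ((a - b) * N₀ / r + 1) * r := mul_le_mul_of_nonneg_right h4 hr.le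
    have h7 : ((a - b) * N₀ / r + 1) * r = (a - b) * N₀ + r := by field_simp
    have h8 : ((a - b) + r / N₀) * N₀ = (a - b) * N₀ + r := by field_simp
    linarith
  have h6 : a - b < (j : ℝ) / N₀ * r := by
    rw [div_mul_eq_mul_div, lt_div_iff₀ hN0]
    rw [div_lt_iff₀ hr] at h3
    linarith
  have h7 : b - (k : ℝ) * r = b + (j : ℝ) / N₀ * r := by rw [hkr]; ring
  refine ⟨b - k * r, hp.win k ?_ ?_, by rw [h7]; linarith, by rw [h7]; linarith⟩
  · rw [hkr, abs_neg, abs_of_nonneg (by positivity)]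
    refine le_trans ?_ hε
    have h8 : (j : ℝ) / N₀ * r ≤ 1 * r := by
      have h9 : r / N₀ ≤ r / 2 := div_le_div_of_nonneg_left hr.le (by norm_num) hN2
      linarith
    have h9 := le_of_mul_le_mul_right h8 hr
    linarith
  · refine le_trans ?_ hε
    have h8 : k.den ∣ N₀ := by
      rw [hk, Rat.neg_den]
      have := Rat.den_dvd (j : ℤ) (N₀ : ℤ)
      rw [Rat.divInt_eq_div] at this
      push_cast at this
      exact_mod_cast this
    exact_mod_cast Nat.le_of_dvd (by omega) h8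

/-- **Exactness given the labels at the points**, for the cells of the rows with slope one, all
coordinates of slope one. -/
theorem fexs_J {S : PCl m}
    (hpos : ∀ (τ : ℝ) (J : ℕ) (F : Fam m J) (A : F.Ω → Prop), S.St τ J F A → 0 < Pe F.p A)
    (hinj : Inj cs (n + 1)) (hlaw : ∀ i, Law (L i))
    (hge : ∀ i a w, 0 ≤ w → w ≤ a → a ≤ 1 → a ≤ L i a w) (hσn : σ (n + 1) = 1)
    (hσ : ∀ i, 1 ≤ σ i) (hs : ∀ i ≤ n + 1, σ i ≤ s) (htop : ∀ i ≤ n, L i g g < 1)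
    (hone : ∀ i < n, σ (i + 1) = 1)
    (hex : ∀ w ∈ W, 0 < w → w < 1 → ∀ ρ : ℝ, 0 < ρ → Bas S (fun J F A =>
      ExW F A (fun l : Fin n => cs l) ⌊w * J⌋₊
        (((∑ j : Fin n, (1 - L j w w)) - ρ) * Real.log 2 * J)))
    {K' s₁ : ℕ} {sh : ℕ → ℕ} (hK' : 1 ≤ K') : ∀ k : ℝ, 0 < k → ∀ M : ℕ,
    EvQ (IsCJ L n σ s g W Att) fun N θ p =>
      (KitJ cs n L σ K V her).FldN S K' s₁ sh M N θ p fun G J F D q =>
        ExS D G.c G.n G.sh G.M (G.gn J) (k * up G.ζ J) q := by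
  have fcel := fun (ε' : ℝ) (hε' : 0 < ε') => kitJ_cel (cs := cs) (K := K) (V := V) (her := her)
    (W := W) (Att := Att) hlaw hge hσn hσ hs htop ε' hε'
  refine exs_P isCJ_mono hpos (KitJ cs n L σ K V her) (fun _ => hinj) hK' fcel ?_
  refine exw_P isCJ_mono (KitJ cs n L σ K V her) fcel (Lb := fun _ j a => L j a a)
    (Ww := fun _ => W) (fun _ w hw h0 h1 ρ hρ => hex w hw h0 h1 ρ hρ) ?_
  intro ε' hε'
  obtain ⟨N₀, hN₀⟩ := exists_nat_ge (max 2 (128 / ε'))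
  have hN2 : 2 ≤ N₀ := by exact_mod_cast (le_max_left _ _).trans hN₀
  have hN3 : 128 / ε' ≤ N₀ := (le_max_right _ _).trans hN₀
  have hN0 : (0 : ℝ) < N₀ := by
    have : (2 : ℝ) ≤ N₀ := by exact_mod_cast hN2
    linarith
  refine ⟨min (1 / N₀) (ε' / 256), lt_min (by positivity) (by positivity), ?_⟩
  rintro ⟨r, b⟩ hp
  obtain ⟨ε, hε⟩ : ∃ ε : ℝ, ε = min (1 / (N₀ : ℝ)) (ε' / 256) := ⟨_, rfl⟩
  rw [← hε] at hp
  have hr : 0 < r := hp.r0
  have hε0 : 0 < ε := hp.r0.trans_le hp.rε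
  have he1 : ε ≤ 1 / N₀ := by rw [hε]; exact min_le_left _ _
  have he2 : ε ≤ ε' / 256 := by rw [hε]; exact min_le_right _ _
  have he3 : (N₀ : ℝ) ≤ 1 / ε := by
    rw [le_div_iff₀ hε0]
    rw [le_div_iff₀ hN0] at he1
    linarith
  intro a w h1 h2 h3 h4
  change b - r / 8 + r / 8 ≤ a at h1
  change a ≤ b - r / 8 + r / 8 + r / 64 at h2
  change b - r / 8 ≤ w at h3
  change w ≤ b - r / 8 + r / 64 at h4
  obtain ⟨a', ha', h5, h6⟩ := hp.next hN2 he3 (a := a) (by linarith) (by linarith)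
  have h7 : r / N₀ ≤ ε' / 128 * r := by
    rw [div_le_iff₀ hN0]
    rw [div_le_iff₀ hε'] at hN3
    have h8 : 0 ≤ (N₀ * ε' - 128) * r := mul_nonneg (by linarith) hr.le
    nlinarith
  have h8 : r / N₀ ≤ r / 2 :=
    div_le_div_of_nonneg_left hr.le (by norm_num) (by exact_mod_cast hN2)
  have hhi : b + r ≤ 1 := hp.cel.hi
  refine ⟨a', ha', h5, by linarith, fun l hl => ?_⟩
  have h9 := (abs_le.1 (hp.cel.all hσn (i := l) hl.le (a' := a') (w' := a') (by linarith) le_rfl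
    (by linarith))).2
  have h10 := (abs_le.1 (hp.cel.all hσn (i := l) hl.le (a' := a) (w' := w) (by linarith)
    (by linarith) (by linarith))).1
  change L l a' a' - L l b b - (a' - b) - (σ (l + 1) - 1) * (a' - b) ≤ ε * r at h9
  change -(ε * r) ≤ L l a w - L l b b - (a - b) - (σ (l + 1) - 1) * (w - b) at h10
  rw [hone l hl, sub_self, zero_mul, sub_zero] at h9 h10
  show L l a' a' ≤ L l a w + ε' * (r / 64)
  have h11 : ε * r ≤ ε' / 256 * r := mul_le_mul_of_nonneg_right he2 hr.le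
  linarith

end Pool.STAT
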