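import Pool.Agent.H78.MIC.GenT
import Pool.Agent.H40.ISO.Exn

/-!
# Nonfull rows of the cells of a class, from exactness given the labels at the points

`nf_clsS`: the rows `NF0` for a class. `nf_S`: the rows `NF1` of the cells of a kit.
-/

set_option autoImplicit false

namespace Pool.STAT

open Finset MvPolynomial
open Pool.Agent.H49.Ent Pool.Agent.H32.Dense Pool.STK Pool.KS3 Pool.KA Pool.KSAT Pool.PB Pool.GEN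
open Pool.K2S Pool.S6C Pool.GEN.N83
open Pool.BFL (Pb)
open Pool.LEV (Law)
open Pool.STR (Affn Nw JCB NfB NoJB2)
open CLO Pool.MIC6

variable {m : ℕ}

/-- **The rows of the cells of the real grid, for a class**, from exactness given the
labels at the points. -/
theorem nf_clsS (n K K' s₁ : ℕ) (sh : ℕ → ℕ) (hn : 1 ≤ n) (hK' : 1 ≤ K') (Λ : ℕ) {C₁ : ℝ}
    (hC₁ : 0 ≤ C₁) : ∃ B₀ : ℕ, 1 ≤ B₀ ∧ ∀ B ≥ B₀, ∀ M : ℕ, ∃ k₀ : ℝ, 0 < k₀ ∧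
    ∀ {m : ℕ} {S : PCl m} {W : GrdP m} {c : ℕ → Fin m} {α ϖ ζ : ℝ} {e : ℕ → ℕ → ℝ} {b : ℕ → ℕ → ℕ → ℝ}
    {R : (J : ℕ) → (F : Fam m J) → GDat F → ℕ → ℕ → Type}
    {ρ : (J : ℕ) → (F : Fam m J) → (D : GDat F) → (i j : ℕ) → LnT F → R J F D i j} {lam gam : ℕ → ℝ}
    {k κ' h A₀ B₁ η : ℝ} {r : ℝ → ℝ},
    0 < ζ → 0 ≤ k → k ≤ k₀ → Inj c n →
    (∀ i : Fin m, i ≠ c (n - 1) → ∃ l < n - 1, c l = i) →
    (∀ l, 1 ≤ l → l ≤ n → lam l + 2 * C₁ ≤ Λ) →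
    (∀ i ≤ M, ∀ j ≤ M, 0 ≤ e i j) → (∀ i ≤ M, ∀ j ≤ M, ∀ l < n, 0 < b i j l) →
    (∀ i ≤ M, ∀ j ≤ M, ∀ l < n, b i j l + e i j + (B * M + 1) * ζ < 1) →
    (∀ i i' : ℕ, i ≤ i' → i' ≤ M → ∀ j ≤ M, ∀ l < n, b i j l ≤ b i' j l) →
    0 ≤ A₀ → B₁ ≤ 1 →
    (∀ i ≤ M, ∀ j ≤ M, A₀ + ζ ≤ b i j (n - 1) ∧ b i j (n - 1) + (M + 1) * ζ ≤ B₁) →
    0 ≤ h → h ≤ 1 → 0 ≤ η → η ≤ ζ / 2 → Pool.STR.NfB r h η A₀ B₁ →
    (∀ (τ : ℝ) (J : ℕ) (F : Fam m J) (A : F.Ω → Prop), S.St τ J F A → 0 < Pe F.p A) →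
    Bas S (fun _ F _ => Zc F) → Pool.ALL.RateOf S (c (n - 1)) r →
    FldV S W c n K K' s₁ sh α ϖ ζ M e b (fun J F D q =>
      ExS D c n sh M (fun i j l => ⌊b i j l * J⌋₊) (k * up ζ J) q) →
    FldV S W c n K K' s₁ sh α ϖ ζ M e b (fun J F D q =>
      (D.nd c n sh (up ϖ J) (up ζ J) M (fun i j l => ⌊b i j l * J⌋₊) (ρ J F D)).Ok2 n K' J
        (up α J) (up ϖ J) (up ζ J) M lam gam κ' C₁ q) →
    FldV S W c n K K' s₁ sh α ϖ ζ M e b (fun J F D q =>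
      NF0 (D.nd c n sh (up ϖ J) (up ζ J) M (fun i j l => ⌊b i j l * J⌋₊) (ρ J F D)) n
        (up ζ J) M B h (2 * C₁ + 2) q) := by
  obtain ⟨B₀, s₂, hB₀, hfam⟩ := nf_famS n K K' s₁ sh hn hK' Λ hC₁
  refine ⟨B₀, hB₀, fun B hB M => ?_⟩
  obtain ⟨κ₀, z₀, hκ₀, hfam⟩ := hfam B hB M
  refine ⟨κ₀, hκ₀, ?_⟩
  intro m S W c α ϖ ζ e b R ρ lam gam k κ' h A₀ B₁ η r hζ hk hk1 hc hcov hlam he hb hsz hmon hA₀
    hB₁ hlev hh hh1 hη hη1 hnf hpos hZ hR hr hok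
  have hAB : A₀ ≤ B₁ := by
    obtain ⟨l1, l2⟩ := hlev 0 (Nat.zero_le M) 0 (Nat.zero_le M)
    have : (0 : ℝ) ≤ (M + 1) * ζ := by positivity
    linarith
  have hrb := rate_box hpos (fun J F ω => oth (c (n - 1)) J F (ptr F J ω)) (c (n - 1))
    (ρ := r) hR.num hA₀ hAB hB₁ hh hh1 hη hnf (e := ζ / 2) (by positivity)
  have hP : Bas S (fun _ F A => 0 < Pe F.p A) := ⟨1, one_pos, 0, fun J _ F A hA => hpos 1 J F A hA⟩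
  obtain ⟨J₁, hlv⟩ := lev_ev (B₁ := B₁) hA₀ hζ M (sh n)
  obtain ⟨J₂, hflo⟩ := flo_ev hb sh
  obtain ⟨J₃, hsi⟩ := sizY_ev (hB₀.trans hB) hζ he hb hsz s₂
  obtain ⟨J₄, hJ₄⟩ := exists_nat_ge ((z₀ : ℝ) / ζ)
  refine Bas.mono (max (max J₁ J₂) (max J₃ J₄)) (Bas.and (Bas.and hP hZ)
    (Bas.and (Bas.and hr hok) hrb)) fun J hJ F A hA D hD hX => ?_
  obtain ⟨⟨f1, f2⟩, ⟨f3, f6⟩, f7⟩ := hA
  have f5 := f3 D hD hX
  have j1 : J₁ ≤ J := ((le_max_left _ _).trans (le_max_left _ _)).trans hJ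
  have j2 : J₂ ≤ J := ((le_max_right _ _).trans (le_max_left _ _)).trans hJ
  have j3 : J₃ ≤ J := ((le_max_left _ _).trans (le_max_right _ _)).trans hJ
  have j4 : J₄ ≤ J := ((le_max_right _ _).trans (le_max_right _ _)).trans hJ
  have hz : z₀ ≤ up ζ J := by
    have h8 : (J₄ : ℝ) ≤ J := by exact_mod_cast j4
    have h9 : (z₀ : ℝ) / ζ ≤ J := hJ₄.trans h8
    rw [div_le_iff₀ hζ] at h9
    have h10 : ζ * J ≤ up ζ J := up_ge ζ J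
    have h11 : (z₀ : ℝ) ≤ up ζ J := by linarith only [h9, h10]
    exact_mod_cast h11
  have hJ0 : (0 : ℝ) ≤ J := Nat.cast_nonneg J
  refine hfam hD hc hcov hz hk hk1 hlam
    (fun i hi j hj l hl => hflo J j2 i hi j hj l hl)
    (fun i i' hii hi' j hj l hl => Nat.floor_le_floor
      (mul_le_mul_of_nonneg_right (hmon i i' hii hi' j hj l hl) hJ0))
    (hsi J j3) (isLaw_cond F.isLaw f1) (fun ω hω => Pool.PB.End.of_cond_pos hω)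
    (fun ω ω' hω hω' => f2 ω ω' ((cond_pos_iff F.isLaw.nonneg _ _ _).1 hω).1
      ((cond_pos_iff F.isLaw.nonneg _ _ _).1 hω').1) f5 (f6 D hD hX) ?_
  rintro P Q hPQ ⟨i, hi, j, hj, k1, k2⟩
  obtain ⟨l1, l2⟩ := hlev i hi j hj
  obtain ⟨m1, m2⟩ := hlv J j1 _ l1 l2
  have k1' : ((⌊b i j (n - 1) * J⌋₊ - sh n : ℕ) : ℝ) ≤ P := by exact_mod_cast k1
  have k2' : (Q : ℝ) ≤ ((⌊b i j (n - 1) * J⌋₊ - sh n + M * up ζ J : ℕ) : ℝ) := by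
    exact_mod_cast k2
  refine (f7 P Q (m1.trans k1') hPQ (k2'.trans m2)).trans ?_
  have h10 : ζ * J ≤ up ζ J := up_ge ζ J
  have h11 : (η + ζ / 2) * J ≤ ζ * J := mul_le_mul_of_nonneg_right (by linarith) hJ0
  linarith

section kit

variable {n₀ : ℕ} {Θ : Type*} {I : ℝ → Θ → Prop} {S : PCl m}

/-- **Nonfull rows** of the cells of the kit, from exactness given the
labels at the points and from `Ok2`. -/
theorem nf_S (hI : MonoI I)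
    (hpos : ∀ (τ : ℝ) (J : ℕ) (F : Fam m J) (A : F.Ω → Prop), S.St τ J F A → 0 < Pe F.p A)
    (hZ : Bas S (fun _ F _ => Zc F)) (Kt : KitP m Θ n₀) (hinj : ∀ p, Inj (Kt.cs p) (n₀ + 1))
    (hcov : ∀ p, ∀ i : Fin m, i ≠ Kt.cs p n₀ → ∃ l < n₀, Kt.cs p l = i)
    {r : ℝ → ℝ} (hR : ∀ p, Pool.ALL.RateOf S (Kt.cs p n₀) r) {K' s₁ : ℕ} {sh : ℕ → ℕ}
    (hK' : 1 ≤ K') {h : ℝ} (hh : 0 < h) (hh1 : h ≤ 1)
    (frow : ∀ ε' : ℝ, 0 < ε' → EvP I fun p => NfB r h (ε' * Kt.X p)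
      (Kt.L p n₀ ((Kt.y p).1 + (Kt.y p).2) (Kt.y p).1 - Kt.X p)
      (Kt.L p n₀ ((Kt.y p).1 + (Kt.y p).2) (Kt.y p).1 + 2 * Kt.X p)) {T' : ℝ}
    (fcel : ∀ ε' : ℝ, 0 < ε' → EvP I fun p =>
      CellL (n₀ + 1) (Kt.L p) ε' T' (Kt.y p) (Kt.X p) (Kt.la p) (Kt.ml p))
    (fexs : ∀ k : ℝ, 0 < k → ∀ M : ℕ, EvQ I fun N θ p =>
      Kt.FldN S K' s₁ sh M N θ p fun G J F D q => ExS D G.c G.n G.sh G.M (G.gn J)
        (k * up G.ζ J) q)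
    (fok : ∃ C₅ : ℝ, ∀ C₁ ≥ C₅, ∀ κ : ℝ, 0 < κ → ∀ M : ℕ, EvQ I fun N θ p =>
      Kt.FldN S K' s₁ sh M N θ p fun G J F D q => (Kt.nd p N M θ G F D).Ok2 G.n G.K' J
        (up G.α J) (up G.ϖ J) (up G.ζ J) G.M (lamS (n₀ + 1) (Kt.ml p))
        (gamS (n₀ + 1) (Kt.la p) (Kt.ml p)) κ C₁ q) :
    ∃ C₃ : ℝ, ∀ C₁ ≥ C₃, ∃ B : ℕ, 1 ≤ B ∧ ∀ M : ℕ,
    EvQ I fun N θ p => Kt.FldN S K' s₁ sh M N θ p fun G J F D q =>
      (Kt.nd p N M θ G F D).NF1 G.n (up G.ζ J) G.M B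
        (gamS (n₀ + 1) (Kt.la p) (Kt.ml p)) h C₁ q := by
  obtain ⟨C₅, fok⟩ := fok
  obtain ⟨C₁', hC₁'⟩ : ∃ C₁', C₁' = max C₅ 1 := ⟨_, rfl⟩
  have c1 : C₅ ≤ C₁' := by rw [hC₁']; exact le_max_left _ _
  have c3 : 1 ≤ C₁' := by rw [hC₁']; exact le_max_right _ _
  obtain ⟨Λ, hΛ⟩ := exists_nat_ge (T' + 1 + 2 * C₁')
  obtain ⟨B, hB, hnf⟩ := nf_clsS (n₀ + 1) Kt.K K' s₁ sh (by omega) hK' Λ (C₁ := C₁')
    (by linarith only [c3])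
  refine ⟨2 * C₁' + 2, fun C₁ hC₁ => ⟨B, hB, fun M => ?_⟩⟩
  obtain ⟨k, hk0, hnf⟩ := hnf B le_rfl M
  obtain ⟨N₁, hN₁⟩ := exists_nat_ge (4 * (T' + 2))
  have key := (((KitP.cel_evQ fcel M).and hI (EvQ.of_evP fun N =>
    frow (1 / (64 * (N * (M + 4)) + 1)) (by positivity))).and hI
    ((fexs k hk0 M).and hI (fok C₁' c1 1 one_pos M))).and hI
    (EvQ.self I (max N₁ (B + 1)) (θ₀ := 1 / 16) (by norm_num)
      (ε := fun N _ => 1) (fun N _ _ => one_pos))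
  refine key.mono ?_
  rintro N θ p ⟨⟨⟨hL, hNf⟩, pexc, pok⟩, hN, hθ, hθ1, -⟩ b e hnear
  obtain ⟨ε, hε⟩ : ∃ ε : ℝ, ε = 1 / (64 * (N * (M + 4)) + 1) := ⟨_, rfl⟩
  rw [← hε] at hL hNf
  have hNN : N₁ ≤ N := (le_max_left _ _).trans hN
  have hNB : B + 1 ≤ N := (le_max_right _ _).trans hN
  have hN1 : 1 ≤ N := by omega
  have hNT : 4 * (T' + 2) ≤ N := hN₁.trans (by exact_mod_cast hNN)
  have hε0 : 0 < ε := by rw [hε]; positivity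
  have hεN : ε * (64 * (N * (M + 4))) ≤ 1 := by
    rw [hε, one_div, inv_mul_le_iff₀ (by positivity)]
    linarith
  have hn1 : 1 ≤ n₀ + 1 := by omega
  have hs := hL.sideE (B := B) hn1 hN1 hNT hNB hB hε0.le hεN hθ hθ1 hnear
  have hX := hL.pos
  have hζ0 := hs.ζ0
  have e1 : N * ((M + 4) * msh (Kt.X p) N M) = Kt.X p := msh_mul hN1
  have hεX : ε * Kt.X p ≤ msh (Kt.X p) N M / 2 := by
    have h1 : ε * (64 * (N * (M + 4))) * msh (Kt.X p) N M ≤ 1 * msh (Kt.X p) N M :=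
      mul_le_mul_of_nonneg_right hεN hζ0.le
    have h2 : ε * (64 * (N * (M + 4))) * msh (Kt.X p) N M =
      64 * (ε * (N * ((M + 4) * msh (Kt.X p) N M))) := by ring
    rw [h2, e1] at h1
    linarith only [h1, hζ0]
  have hlow0 := hL.low n₀ (by omega) ((Kt.y p).1 + (Kt.y p).2) (Kt.y p).1 hs.win
    (by linarith only [hL.dep, hX]) (by linarith only [hL.top, hX])
  have hup0 := hL.lt n₀ (by omega)
  have hfin := hnf (S := S) (W := Kt.W p N M θ) (c := Kt.cs p)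
    (α := (Kt.y p).1 + (Kt.y p).2) (ϖ := (Kt.y p).1) (ζ := msh (Kt.X p) N M) (e := e) (b := b)
    (ρ := fun J F D => Kt.rc p N M θ J F D) (lam := lamS (n₀ + 1) (Kt.ml p))
    (gam := gamS (n₀ + 1) (Kt.la p) (Kt.ml p)) (k := k) (η := ε * Kt.X p) (r := r)
    (A₀ := Kt.L p n₀ ((Kt.y p).1 + (Kt.y p).2) (Kt.y p).1 - Kt.X p)
    (B₁ := Kt.L p n₀ ((Kt.y p).1 + (Kt.y p).2) (Kt.y p).1 + 2 * Kt.X p)
    hζ0 hk0.le le_rfl (hinj p) (hcov p)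
    (fun l _ _ => by
      have := hL.lamS_le hn1 l
      linarith only [this, hΛ]) hnear.e0 hs.pos hs.siz hs.mono
    (by linarith only [hlow0, hL.dep, hL.win, hX]) (by linarith only [hup0, hX])
    hs.lev hh.le hh1 (by positivity) hεX hNf hpos hZ (hR p)
    (FldW.iff_v.1 (pexc b e hnear)) (FldW.iff_v.1 (pok b e hnear))
  exact (FldW.iff_v.2 hfin).mono 0 fun J _ F D q hq => (hq.nf1 _).mono hC₁

end kit

end Pool.STAT
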