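import Pool.Agent.H40.ISO.Pts
import Pool.Agent.H40.ISO.NfK

/-!
# Exactness given the labels at the points, from exactness given closed values

`ch_two`: the entropies on an event and on its complement. `exh_ch`: exhaustion, a bound on a large
part of every large event gives the bound on the whole event. `exs_fam`: the family theorem.
-/

set_option autoImplicit false

namespace Pool.STAT.OKI

open Finset MvPolynomial
open Pool.Agent.H49.Ent Pool.Agent.H32.Dense Pool.STK Pool.KS3 Pool.KA Pool.KSAT Pool.PB Pool.GEN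
open Pool.K2S Pool.S6C Pool.STAT.CLO Pool.STAT.Glu
open Pool.BFL (Pb)
open CLO Pool.MIC6

section ent

variable {Ω S T : Type} [Fintype Ω]

/-- The law on an event. -/
theorem cn_ev (p : Ω → ℝ) (A : Ω → Prop) [DecidablePred A] (ω : Ω) :
    Pool.Agent.H49.Ent.cond p A True ω = if A ω then p ω / Pe p A else 0 := by
  classical
  unfold Pool.Agent.H49.Ent.cond
  by_cases h : A ω
  · rw [if_pos (eq_true h), if_pos h]
  · rw [if_neg (fun h' => h (of_eq_true h')), if_neg h]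

theorem cn_and (p : Ω → ℝ) {A E : Ω → Prop} (hA : Pe p A ≠ 0) :
    Pool.Agent.H49.Ent.cond (Pool.Agent.H49.Ent.cond p A True) E True =
      Pool.Agent.H49.Ent.cond p (fun ω => A ω ∧ E ω) True := by
  classical
  funext ω
  rw [cn_ev, cn_ev, cn_ev, Pe_cond E]
  by_cases h1 : A ω
  · by_cases h2 : E ω
    · rw [if_pos h2, if_pos h1, if_pos (⟨h1, h2⟩ : A ω ∧ E ω), div_div_div_cancel_right₀ hA]
    · rw [if_neg h2, if_neg (fun h : A ω ∧ E ω => h2 h.2)]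
  · rw [if_neg h1, if_neg (fun h : A ω ∧ E ω => h1 h.1), zero_div, ite_self]

/-- The entropies on an event and on its complement. -/
theorem ch_two {q : Ω → ℝ} (hq : ∀ ω, 0 ≤ q ω) (X : Ω → S) (Y : Ω → T) (E : Ω → Prop) :
    Pe q E * CH (Pool.Agent.H49.Ent.cond q E True) X Y +
      Pe q (fun ω => ¬ E ω) * CH (Pool.Agent.H49.Ent.cond q (fun ω => ¬ E ω) True) X Y ≤
      CH q X Y := by
  classical
  have h1 : CH q X (fun v => (Y v, E v)) ≤ CH q X Y :=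
    CH_mono_cond hq (fun _ _ _ _ h => (Prod.ext_iff.mp h).1)
  rw [CH_split hq X Y E] at h1
  have e1 : law q E False = Pe q (fun ω => ¬ E ω) := by
    unfold Pe law
    refine Finset.sum_congr rfl fun ω _ => ?_
    by_cases h : E ω <;> simp [h]
  have e2 : Pool.Agent.H49.Ent.cond q E False =
      Pool.Agent.H49.Ent.cond q (fun ω => ¬ E ω) True := by
    funext ω
    rw [cn_ev, ← e1]
    unfold Pool.Agent.H49.Ent.cond
    by_cases h : E ω <;> simp [h]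
  have h2 : ∑ j ∈ univ.image E, law q E j * CH (Pool.Agent.H49.Ent.cond q E j) X Y =
      ∑ j ∈ ({True, False} : Finset Prop), law q E j *
        CH (Pool.Agent.H49.Ent.cond q E j) X Y := by
    refine Finset.sum_subset (fun j _ => ?_) fun j _ hj => ?_
    · by_cases h : j
      · rw [eq_true h]
        exact Finset.mem_insert_self _ _
      · rw [eq_false h]
        exact Finset.mem_insert_of_mem (Finset.mem_singleton_self _)
    · rw [law_eq_zero_of_notMem q E hj, zero_mul]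
  rw [h2, Finset.sum_pair (by simp), e1, e2] at h1
  exact h1

/-- The unnormalized entropy is superadditive. -/
theorem ch_sup {p : Ω → ℝ} (hp : IsLaw p) (X : Ω → S) (Y : Ω → T) {B R : Ω → Prop}
    (hBR : ∀ ω, B ω → R ω) (hR : 0 < Pe p R) :
    Pe p B * CH (Pool.Agent.H49.Ent.cond p B True) X Y +
      Pe p (fun ω => R ω ∧ ¬ B ω) *
        CH (Pool.Agent.H49.Ent.cond p (fun ω => R ω ∧ ¬ B ω) True) X Y ≤
      Pe p R * CH (Pool.Agent.H49.Ent.cond p R True) X Y := by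
  have h1 := ch_two (cond_nonneg hp.nonneg R True) X Y B
  rw [cn_and p hR.ne', cn_and p hR.ne', Pe_cond, Pe_cond] at h1
  have e1 : (fun ω => R ω ∧ B ω) = B := by
    funext ω
    exact propext ⟨fun h => h.2, fun h => ⟨hBR ω h, h⟩⟩
  rw [e1] at h1
  have h2 := mul_le_mul_of_nonneg_left h1 hR.le
  refine le_trans (le_of_eq ?_) h2
  field_simp

theorem pe_add {p : Ω → ℝ} {B R : Ω → Prop} (hBR : ∀ ω, B ω → R ω) :
    Pe p B + Pe p (fun ω => R ω ∧ ¬ B ω) = Pe p R := by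
  classical
  rw [Pe_eq, Pe_eq p fun ω => R ω ∧ ¬ B ω, Pe_eq p R, ← Finset.sum_add_distrib]
  refine Finset.sum_congr rfl fun ω _ => ?_
  by_cases hB : B ω
  · have := hBR ω hB
    simp [hB, this]
  · by_cases hR : R ω <;> simp [hB, hR]

/-- **Exhaustion**: a bound for the entropy on a part of every large event. -/
theorem exh_ch {p : Ω → ℝ} (hp : IsLaw p) {A : Ω → Prop} (hA : 0 < Pe p A) {δ E : ℝ} (hδ : 0 < δ)
    (hE : 0 ≤ E) (X : Ω → S) (Y : Ω → T)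
    (h : ∀ B : Ω → Prop, (∀ ω, B ω → A ω) → δ * Pe p A ≤ Pe p B → ∃ B' : Ω → Prop,
      (∀ ω, B' ω → B ω) ∧ 0 < Pe p B' ∧ E ≤ CH (Pool.Agent.H49.Ent.cond p B' True) X Y) :
    (1 - δ) * E ≤ CH (Pool.Agent.H49.Ent.cond p A True) X Y := by
  classical
  have key : ∀ (N : ℕ) (R : Ω → Prop), (∀ ω, R ω → A ω) →
      (Finset.univ.filter R).card ≤ N → E * (Pe p R - δ * Pe p A) ≤
        Pe p R * CH (Pool.Agent.H49.Ent.cond p R True) X Y := by
    intro N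
    induction N with
    | zero =>
      intro R hR hc
      have h0 : Pe p R = 0 := by
        rw [Pe_eq]
        refine Finset.sum_eq_zero fun ω _ => ?_
        rw [if_neg]
        intro hω
        have h1 : ω ∈ Finset.univ.filter R := Finset.mem_filter.2 ⟨Finset.mem_univ _, hω⟩
        have h2 : (Finset.univ.filter R).card = 0 := by omega
        rw [Finset.card_eq_zero.1 h2] at h1
        exact absurd h1 (Finset.notMem_empty _)
      rw [h0, zero_mul]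
      have := mul_nonneg hE (mul_pos hδ hA).le
      linarith
    | succ N ih =>
      intro R hR hc
      rcases lt_or_ge (Pe p R) (δ * Pe p A) with h1 | h1
      · have h2 : 0 ≤ Pe p R * CH (Pool.Agent.H49.Ent.cond p R True) X Y :=
          mul_nonneg (Pe_nonneg hp R) (CH_nonneg (cond_nonneg hp.nonneg _ _) _ _)
        have h3 : E * (Pe p R - δ * Pe p A) ≤ 0 :=
          mul_nonpos_of_nonneg_of_nonpos hE (by linarith)
        linarith
      · obtain ⟨B', hB', hP, hEB⟩ := h R hR h1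
        have hRp : 0 < Pe p R := (mul_pos hδ hA).trans_le h1
        have h2 := ch_sup hp X Y hB' hRp
        have h3 := ih (fun ω => R ω ∧ ¬ B' ω) (fun ω hω => hR ω hω.1) (by
          have h4 : ∃ ω, B' ω := by
            by_contra hcon
            have : Pe p B' = 0 := by
              rw [Pe_eq]
              exact Finset.sum_eq_zero fun ω _ => if_neg fun h => hcon ⟨ω, h⟩
            linarith
          obtain ⟨ω₀, hω₀⟩ := h4
          refine Nat.le_of_lt_succ (lt_of_lt_of_le (Finset.card_lt_card ?_) hc)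
          refine (Finset.ssubset_iff_of_subset fun ω hω => ?_).2 ⟨ω₀, ?_, ?_⟩
          · simp only [Finset.mem_filter] at hω ⊢
            exact ⟨hω.1, hω.2.1⟩
          · simp only [Finset.mem_filter]
            exact ⟨Finset.mem_univ _, hB' ω₀ hω₀⟩
          · simp only [Finset.mem_filter]
            rintro ⟨-, -, h6⟩
            exact h6 hω₀)
        have h4 := pe_add (p := p) hB'
        have h5 : Pe p B' * E ≤ Pe p B' * CH (Pool.Agent.H49.Ent.cond p B' True) X Y :=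
          mul_le_mul_of_nonneg_left hEB hP.le
        nlinarith
  have h1 := key _ A (fun _ h => h) le_rfl
  have h2 : Pe p A * ((1 - δ) * E) ≤
      Pe p A * CH (Pool.Agent.H49.Ent.cond p A True) X Y := by
    refine le_trans (le_of_eq ?_) h1
    ring
  exact le_of_mul_le_mul_left h2 hA

end ent

/-! ### Few bits over closed values -/

/-- **Few bits over closed values** at the radius `a`: every event has a part of proportion at
least `1 / c₁` with a closed value, such that `Y` has at most `C` given this value and the time. -/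
def FewC {m J : ℕ} (F : Fam m J) (a : ℕ) (C c₁ : ℝ) {U : Type} (Y : F.Ω → U)
    (A : F.Ω → Prop) : Prop :=
  ∀ B : F.Ω → Prop, (∀ ω, B ω → A ω) → 0 < Pe F.p B →
    ∃ (V : Type) (z : PtT F → V) (z' : LnT F → V) (B' : F.Ω → Prop), (∀ ω, B' ω → B ω) ∧
      Pe F.p B ≤ c₁ * Pe F.p B' ∧ (∀ ω, B' ω → z (ptr F J ω) = z' (slam F a ω)) ∧
      ∀ {q : F.Ω → ℝ}, IsLaw q → (∀ ω, 0 < q ω → B' ω) →
        CH q Y (fun ω => (z' (slam F a ω), F.T ω)) ≤ C

section few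

variable {m J : ℕ} {F : Fam m J} {a : ℕ} {C c₁ C' c₁' : ℝ} {U U' : Type} {Y : F.Ω → U}
  {Y' : F.Ω → U'} {A A' : F.Ω → Prop}

theorem FewC.sub (h : FewC F a C c₁ Y A) (hA : ∀ ω, A' ω → A ω) : FewC F a C c₁ Y A' :=
  fun B hB hP => h B (fun ω hω => hA ω (hB ω hω)) hP

theorem FewC.mono (h : FewC F a C c₁ Y A) (hC : C ≤ C') (hc : c₁ ≤ c₁') :
    FewC F a C' c₁' Y A := by
  intro B hB hP
  obtain ⟨V, z, z', B', h1, h2, h3, h4⟩ := h B hB hP
  exact ⟨V, z, z', B', h1, h2.trans (mul_le_mul_of_nonneg_right hc (Pe_nonneg F.isLaw _)), h3,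
    fun hq hqB => (h4 hq hqB).trans hC⟩

/-- A trivial variable. -/
theorem FewC.triv (F : Fam m J) (a : ℕ) (u : U) (A : F.Ω → Prop) :
    FewC F a 0 1 (fun _ => u) A := by
  intro B _ _
  refine ⟨Unit, fun _ => (), fun _ => (), B, fun _ h => h, by rw [one_mul], fun _ _ => rfl,
    fun hq _ => ?_⟩
  exact (CH_eq_zero hq.nonneg fun _ _ _ _ _ => rfl).le

theorem FewC.pair (h : FewC F a C c₁ Y A) (h' : FewC F a C' c₁' Y' A) (hc : 0 ≤ c₁) :
    FewC F a (C + C') (c₁ * c₁') (fun ω => (Y ω, Y' ω)) A := by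
  intro B hB hP
  obtain ⟨V, z, z', B₁, h1, h2, h3, h4⟩ := h B hB hP
  have hP1 : 0 < Pe F.p B₁ := by
    rcases (Pe_nonneg F.isLaw B₁).eq_or_lt with h5 | h5
    · rw [← h5, mul_zero] at h2
      linarith
    · exact h5
  obtain ⟨V₂, y, y', B₂, k1, k2, k3, k4⟩ := h' B₁ (fun ω hω => hB ω (h1 ω hω)) hP1
  refine ⟨V × V₂, fun s => (z s, y s), fun s => (z' s, y' s), B₂, fun ω hω => h1 ω (k1 ω hω),
    ?_, fun ω hω => ?_, fun {q} hq hqB => ?_⟩
  · refine h2.trans ?_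
    rw [mul_assoc]
    exact mul_le_mul_of_nonneg_left k2 hc
  · exact Prod.ext (h3 ω (k1 ω hω)) (k3 ω hω)
  · have e1 := CH_subadd hq.nonneg Y Y' (fun ω => ((z' (slam F a ω), y' (slam F a ω)), F.T ω))
    have e2 := CH_mono_cond hq.nonneg (X := Y)
      (W' := fun ω => ((z' (slam F a ω), y' (slam F a ω)), F.T ω))
      (W := fun ω => (z' (slam F a ω), F.T ω)) (fun ω ω' _ _ h => by
        simp only [Prod.mk.injEq] at h ⊢
        exact ⟨h.1.1, h.2⟩)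
    have e3 := CH_mono_cond hq.nonneg (X := Y')
      (W' := fun ω => ((z' (slam F a ω), y' (slam F a ω)), F.T ω))
      (W := fun ω => (y' (slam F a ω), F.T ω)) (fun ω ω' _ _ h => by
        simp only [Prod.mk.injEq] at h ⊢
        exact ⟨h.1.2, h.2⟩)
    have e4 := h4 hq fun ω hω => k1 ω (hqB ω hω)
    have e5 := k4 hq hqB
    linarith

theorem FewC.win (h : FewC F a C c₁ Y A) {a' : ℕ} (ha : a ≤ a') (ha' : a' ≤ J) :
    FewC F a' C c₁ Y A := by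
  intro B hB hP
  obtain ⟨V, z, z', B', h1, h2, h3, h4⟩ := h B hB hP
  have e : ∀ ω, z' ((slam F a' ω).1, (slam F a' ω).2.1, (slam F a' ω).2.2 / 2 ^ (a' - a)) =
      z' (slam F a ω) := fun ω => by rw [← slam_coarse F ha ha' ω]
  refine ⟨V, z, fun s => z' (s.1, s.2.1, s.2.2 / 2 ^ (a' - a)), B', h1, h2,
    fun ω hω => (h3 ω hω).trans (e ω).symm, fun hq hqB => ?_⟩
  have h5 := h4 hq hqB
  simp only [e]
  exact h5

/-- **The label at the point** has few bits over closed values. -/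
theorem few_pt (n K K' s₁ : ℕ) (sh : ℕ → ℕ) (hK' : 1 ≤ K') : ∃ (C₁ : ℝ) (c₁ s₃ : ℕ), 0 ≤ C₁ ∧
    1 ≤ c₁ ∧
    ∀ {m J : ℕ} {F : Fam m J} {D : GDat F} {c : ℕ → Fin m} {a₀ w₀ z M : ℕ} {e : ℕ → ℕ → ℕ}
    {g : ℕ → ℕ → ℕ → ℕ} {A : F.Ω → Prop}, D.Ok c n K K' s₁ sh a₀ w₀ z M e g A → Inj c n →
    ∀ i ≤ M, ∀ j ≤ M, w₀ + j * z ≤ a₀ + i * z → a₀ + i * z ≤ J → (∀ l < n, s₃ ≤ g i j l) →
    FewC F (a₀ + i * z) C₁ c₁ (fun ω => D.zS i j (ptr F J ω)) A := by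
  obtain ⟨C₁, c₁, s₃, hC₁, hc₁, hclo⟩ := clo_pt n K K' s₁ sh hK'
  refine ⟨C₁, c₁, s₃, hC₁, hc₁, ?_⟩
  intro m J F D c a₀ w₀ z M e g A hD hc i hi j hj hwa haJ hg B hB _
  obtain ⟨y, y', B', h1, h2, h3, h4⟩ := hclo (hD.sub hB) hc i hi j hj hwa haJ hg
  exact ⟨LV, y, y', B', h1, h2, h3, fun hq hqB => h4 hq hqB⟩

/-- **Exactness** given a variable which has few bits over closed values. -/
theorem FewC.exw (h : FewC F a C c₁ Y A) (hA : 0 < Pe F.p A) (hc : 0 < c₁) {n : ℕ}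
    {eps : Fin n → Fin m} {E η δ : ℝ} (hδ : 0 < δ) (hδ1 : δ ≤ 1) (hη : η * c₁ ≤ δ)
    (hex : ∀ B : F.Ω → Prop, (∀ ω, B ω → A ω) → η * Pe F.p A ≤ Pe F.p B → ExW F B eps a E) :
    (1 - δ) * (E - C) ≤ CH (Pool.Agent.H49.Ent.cond F.p A True) (fun ω i => F.X J ω (eps i))
      (fun ω => (Y ω, F.T ω)) := by
  rcases lt_or_ge (E - C) 0 with hE | hE
  · have h1 : (1 - δ) * (E - C) ≤ 0 := mul_nonpos_of_nonneg_of_nonpos (by linarith) hE.le
    exact h1.trans (CH_nonneg (cond_nonneg F.isLaw.nonneg _ _) _ _)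
  refine exh_ch F.isLaw hA hδ hE _ _ fun B hB hP => ?_
  have hPB : 0 < Pe F.p B := (mul_pos hδ hA).trans_le hP
  obtain ⟨V, z, z', B', h1, h2, h3, h4⟩ := h B hB hPB
  have hPB' : 0 < Pe F.p B' := by
    rcases (Pe_nonneg F.isLaw B').eq_or_lt with h5 | h5
    · rw [← h5, mul_zero] at h2
      linarith
    · exact h5
  refine ⟨B', h1, hPB', ?_⟩
  have hq := isLaw_cond F.isLaw hPB'
  have e1 : η * Pe F.p A ≤ Pe F.p B' := by
    have h5 : c₁ * (η * Pe F.p A) ≤ c₁ * Pe F.p B' := by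
      refine le_trans ?_ h2
      refine le_trans ?_ hP
      have := mul_le_mul_of_nonneg_right hη hA.le
      linarith
    exact le_of_mul_le_mul_left h5 hc
  have e2 := hex B' (fun ω hω => hB ω (h1 ω hω)) e1 V z z' h3
  have e3 := h4 hq fun ω hω => cond_supp hω
  have e4 := CH_mono_cond hq.nonneg (X := fun ω i => F.X J ω (eps i))
    (W' := fun ω => (z' (slam F a ω), F.W ω)) (W := fun ω => (z' (slam F a ω), F.T ω))
    (fun ω ω' _ _ h => by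
      simp only [Prod.mk.injEq] at h ⊢
      exact ⟨h.1, congrArg Prod.fst h.2⟩)
  have e5 := CH_chain hq.nonneg (fun ω i => F.X J ω (eps i)) Y
    (fun ω => (z' (slam F a ω), F.T ω))
  have e6 := CH_mono_left hq.nonneg (X := fun ω i => F.X J ω (eps i))
    (X' := fun ω => ((fun i => F.X J ω (eps i)), Y ω))
    (W := fun ω => (z' (slam F a ω), F.T ω)) (fun ω ω' _ _ h => by
      simp only [Prod.mk.injEq] at h ⊢
      exact h.1.1)
  have e7 := CH_mono_cond hq.nonneg (X := fun ω i => F.X J ω (eps i))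
    (W' := fun ω => (Y ω, (z' (slam F a ω), F.T ω))) (W := fun ω => (Y ω, F.T ω))
    (fun ω ω' _ _ h => by
      simp only [Prod.mk.injEq] at h ⊢
      exact ⟨h.1, h.2.2⟩)
  linarith

/-- **The row of the exactness given the labels at the points**, for one family; `Vm`: digits of
the base which have few bits over closed values. -/
theorem exs_row (n K K' s₁ : ℕ) (sh : ℕ → ℕ) (hK' : 1 ≤ K') : ∃ (C₁ : ℝ) (c₁ s₃ : ℕ), 0 ≤ C₁ ∧
    1 ≤ c₁ ∧
    ∀ {m J : ℕ} {F : Fam m J} {D : GDat F} {c : ℕ → Fin m} {a₀ w₀ z M : ℕ} {e : ℕ → ℕ → ℕ}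
    {g : ℕ → ℕ → ℕ → ℕ} {A : F.Ω → Prop}, D.Ok c n K K' s₁ sh a₀ w₀ z M e g A → Inj c n →
    0 < Pe F.p A → ∀ i i' : ℕ, i ≤ i' → i' ≤ M → ∀ j ≤ M, w₀ + j * z ≤ a₀ + i * z →
    a₀ + i' * z ≤ J → (∀ l < n, s₃ ≤ g i j l ∧ s₃ ≤ g i' j l) →
    ∀ {U : Type} {Vm : F.Ω → U} {C₀ c₀ E mid η δ : ℝ}, 0 < c₀ →
    (∀ ω ω', (fun l : Fin (n - 1) => F.X J ω (c l)) = (fun l : Fin (n - 1) => F.X J ω' (c l)) →
      Vm ω = Vm ω') → FewC F (a₀ + i' * z) C₀ c₀ Vm A → 0 < δ → δ ≤ 1 →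
    η * (c₀ * (c₁ * c₁)) ≤ δ →
    (∀ B : F.Ω → Prop, (∀ ω, B ω → A ω) → η * Pe F.p A ≤ Pe F.p B →
      ExW F B (fun l : Fin (n - 1) => c l) (a₀ + i' * z) E) →
    mid ≤ CH (Pool.Agent.H49.Ent.cond F.p A True) Vm
      (fun ω => (D.zS i j (ptr F J ω), (D.zS i' j (ptr F J ω), F.T ω))) →
    mid + (1 - δ) * (E - (C₀ + 2 * C₁)) ≤ CH (Pool.Agent.H49.Ent.cond F.p A True)
      (fun ω (l : Fin (n - 1)) => ⌊(2 : ℝ) ^ J * F.x ω (c l)⌋)
      (fun ω => (D.zS i j (ptr F J ω), (D.zS i' j (ptr F J ω), F.T ω))) := by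
  obtain ⟨C₁, c₁, s₃, hC₁, hc₁, hpt⟩ := few_pt n K K' s₁ sh hK'
  refine ⟨C₁, c₁, s₃, hC₁, hc₁, ?_⟩
  intro m J F D c a₀ w₀ z M e g A hD hc hA i i' hii hi' j hj hwa haJ hg U Vm C₀ c₀ E mid η δ hc₀
    hdet hfew hδ hδ1 hη hex hmid
  have haa : a₀ + i * z ≤ a₀ + i' * z := Nat.add_le_add_left (Nat.mul_le_mul_right z hii) _
  have hc1 : (1 : ℝ) ≤ c₁ := by exact_mod_cast hc₁
  have f1 := (hpt hD hc i (hii.trans hi') j hj hwa (haa.trans haJ) fun l hl => (hg l hl).1).win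
    haa haJ
  have f2 := hpt hD hc i' hi' j hj (hwa.trans haa) haJ fun l hl => (hg l hl).2
  have f3 := hfew.pair (f1.pair f2 (by positivity)) hc₀.le
  have h1 := f3.exw hA (mul_pos hc₀ (by positivity)) (eps := fun l : Fin (n - 1) => c l) (E := E)
    hδ hδ1 hη hex
  have hq := isLaw_cond F.isLaw hA
  obtain ⟨q, hqq⟩ : ∃ q, q = Pool.Agent.H49.Ent.cond F.p A True := ⟨_, rfl⟩
  rw [← hqq] at h1 hq hmid ⊢
  have e5 := CH_chain hq.nonneg (fun ω (l : Fin (n - 1)) => F.X J ω (c l)) Vm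
    (fun ω => (D.zS i j (ptr F J ω), (D.zS i' j (ptr F J ω), F.T ω)))
  have e6 := CH_mono_left hq.nonneg (X := fun ω (l : Fin (n - 1)) => F.X J ω (c l))
    (X' := fun ω => ((fun l : Fin (n - 1) => F.X J ω (c l)), Vm ω))
    (W := fun ω => (D.zS i j (ptr F J ω), (D.zS i' j (ptr F J ω), F.T ω)))
    (fun ω ω' _ _ h => by
      simp only [Prod.mk.injEq] at h ⊢
      exact h.1.1)
  have e7 := CH_mono_left hq.nonneg
    (X' := fun ω (l : Fin (n - 1)) => F.X J ω (c l))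
    (X := fun ω => ((fun l : Fin (n - 1) => F.X J ω (c l)), Vm ω))
    (W := fun ω => (D.zS i j (ptr F J ω), (D.zS i' j (ptr F J ω), F.T ω)))
    (fun ω ω' _ _ h => by
      have h5 := (Prod.ext_iff.1 h).1
      exact Prod.ext h5 (hdet ω ω' h5))
  have e8 := CH_mono_cond hq.nonneg (X := fun ω (l : Fin (n - 1)) => F.X J ω (c l))
    (W' := fun ω => ((Vm ω, (D.zS i j (ptr F J ω), D.zS i' j (ptr F J ω))), F.T ω))
    (W := fun ω => (Vm ω, (D.zS i j (ptr F J ω), (D.zS i' j (ptr F J ω), F.T ω))))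
    (fun ω ω' _ _ h => by
      simp only [Prod.mk.injEq] at h ⊢
      exact ⟨h.1.1, h.1.2.1, h.1.2.2, h.2⟩)
  have e9 : CH q (fun ω (l : Fin (n - 1)) => F.X J ω (c l))
      (fun ω => (D.zS i j (ptr F J ω), (D.zS i' j (ptr F J ω), F.T ω))) =
      CH q (fun ω (l : Fin (n - 1)) => ⌊(2 : ℝ) ^ J * F.x ω (c l)⌋)
      (fun ω => (D.zS i j (ptr F J ω), (D.zS i' j (ptr F J ω), F.T ω))) := rfl
  have e10 : C₀ + (C₁ + C₁) = C₀ + 2 * C₁ := by ring
  rw [e10] at h1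
  rw [← e9]
  linarith

end few

/-! ### Classes -/

/-- Finitely many statements on `i, j ≤ M`. -/
theorem bas_ij {m : ℕ} {S : PCl m} {M : ℕ} {Φ : ℕ → ℕ → Stat m}
    (h : ∀ i ≤ M, ∀ j ≤ M, Bas S (Φ i j)) :
    Bas S (fun J F A => ∀ i ≤ M, ∀ j ≤ M, Φ i j J F A) := by
  refine Bas.mono 0 (Bas.all (M + 1) (Φ := fun i J F A => ∀ j < M + 1, Φ i j J F A)
    fun i hi => Bas.all (M + 1) fun j hj => h i (by omega) j (by omega)) ?_
  intro J _ F A h1 i hi j hj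
  exact h1 i (by omega) j (by omega)

/-- **Exactness given the labels at the points, for a class**: from exactness given the closed
values (`E i j`) and from digits `Vm` of the base which have few bits over closed values and
entropy at least `mid` given the labels at the points. -/
theorem exs_clsm (n K K' s₁ : ℕ) (sh : ℕ → ℕ) (hK' : 1 ≤ K') {m : ℕ} {S : PCl m} {W : GrdP m}
    {c : ℕ → Fin m} {α ϖ ζ : ℝ} {M : ℕ} {e : ℕ → ℕ → ℝ} {b : ℕ → ℕ → ℕ → ℝ} (hϖ : 0 ≤ ϖ)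
    (hζ : 0 < ζ) (hthin : ϖ + (M + 1) * ζ < α) (htop : α + (M + 1) * ζ < 1) (hc : Inj c n)
    (hb : ∀ i ≤ M, ∀ j ≤ M, ∀ l < n, 0 < b i j l)
    (hpos : ∀ (τ : ℝ) (J : ℕ) (F : Fam m J) (A : F.Ω → Prop), S.St τ J F A → 0 < Pe F.p A)
    {U : ℕ → ℕ → (J : ℕ) → Fam m J → Type} {Vm : (i j J : ℕ) → (F : Fam m J) → F.Ω → U i j J F}
    (hdet : ∀ (i j J : ℕ) (F : Fam m J) (ω ω' : F.Ω), (fun l : Fin (n - 1) => F.X J ω (c l)) =
      (fun l : Fin (n - 1) => F.X J ω' (c l)) → Vm i j J F ω = Vm i j J F ω')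
    {k₀ k₁ k₂ c₀ : ℝ} (hk : k₀ + k₁ < k₂) (hk₀ : 0 ≤ k₀) (hc₀ : 0 < c₀)
    (hfew : ∀ i ≤ M, ∀ j ≤ M, Bas S fun J F A =>
      FewC F (up α J + i * up ζ J) (k₀ * up ζ J) c₀ (Vm i j J F) A)
    {E mid : ℕ → ℕ → ℕ → ℝ}
    (hex : ∀ i ≤ M, ∀ j ≤ M, Bas S fun J F A =>
      ExW F A (fun l : Fin (n - 1) => c l) (up α J + i * up ζ J) (E i j J))
    (hmid : FldV S W c n K K' s₁ sh α ϖ ζ M e b fun J F D q => ∀ i i' : ℕ, i ≤ i' → i' ≤ M →
      ∀ j ≤ M, mid i' j J ≤ CH q (Vm i' j J F)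
        (fun ω => (D.zS i j (ptr F J ω), (D.zS i' j (ptr F J ω), F.T ω))))
    (hE : ∀ i ≤ M, ∀ j ≤ M, ∃ J₁ : ℕ, ∀ J ≥ J₁, E i j J ≤ n * Real.log 2 * J)
    (hnum : ∀ i ≤ M, ∀ j ≤ M, ∃ J₁ : ℕ, ∀ J ≥ J₁,
      (∑ l ∈ range (n - 1), ((J : ℝ) - (⌊b i j l * J⌋₊ - sh (l + 1) : ℕ))) * Real.log 2 -
        k₁ * up ζ J ≤ mid i j J + E i j J) :
    FldV S W c n K K' s₁ sh α ϖ ζ M e b (fun J F D q =>
      ExS D c n sh M (fun i j l => ⌊b i j l * J⌋₊) (k₂ * up ζ J) q) := by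
  obtain ⟨C₁, c₁, s₃, hC₁, hc₁, hrow⟩ := exs_row n K K' s₁ sh hK'
  have hc1 : (1 : ℝ) ≤ c₁ := by exact_mod_cast hc₁
  obtain ⟨ρ, hρ⟩ : ∃ ρ, ρ = (k₂ - (k₀ + k₁)) / 2 := ⟨_, rfl⟩
  have hρ0 : 0 < ρ := by rw [hρ]; linarith
  obtain ⟨δ, hδ⟩ : ∃ δ, δ = min 1 (ρ * ζ / (n * Real.log 2 + 1)) := ⟨_, rfl⟩
  have hl2 : 0 < Real.log 2 := Real.log_pos one_lt_two
  have hn0 : (0 : ℝ) ≤ n * Real.log 2 := by positivity
  have hδ0 : 0 < δ := by rw [hδ]; exact lt_min one_pos (by positivity)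
  have hδ1 : δ ≤ 1 := by rw [hδ]; exact min_le_left _ _
  have hδ2 : δ * (n * Real.log 2) ≤ ρ * ζ := by
    have h1 : δ ≤ ρ * ζ / (n * Real.log 2 + 1) := by rw [hδ]; exact min_le_right _ _
    rw [le_div_iff₀ (by positivity)] at h1
    nlinarith
  obtain ⟨η, hη⟩ : ∃ η, η = δ / (c₀ * (c₁ * c₁)) := ⟨_, rfl⟩
  have hcc : 0 < c₀ * ((c₁ : ℝ) * c₁) := by positivity
  have hη0 : 0 < η := by rw [hη]; positivity
  have hη1 : η * (c₀ * (c₁ * c₁)) ≤ δ := by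
    rw [hη, div_mul_cancel₀ _ hcc.ne']
  obtain ⟨J₁, hgr⟩ := grid_ev hϖ hζ hthin htop
  obtain ⟨J₂, hfl⟩ := flo_ev hb fun _ => s₃
  obtain ⟨J₃, hJ₃⟩ := exists_nat_ge (2 * C₁ / (ρ * ζ))
  have hnum' : ∃ J₄ : ℕ, ∀ J ≥ J₄, ∀ i ≤ M, ∀ j ≤ M, E i j J ≤ n * Real.log 2 * J ∧
      (∑ l ∈ range (n - 1), ((J : ℝ) - (⌊b i j l * J⌋₊ - sh (l + 1) : ℕ))) * Real.log 2 -
        k₁ * up ζ J ≤ mid i j J + E i j J := by
    have h1 : ∀ i j : ℕ, ∃ J₄ : ℕ, i ≤ M → j ≤ M → ∀ J ≥ J₄, E i j J ≤ n * Real.log 2 * J ∧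
      (∑ l ∈ range (n - 1), ((J : ℝ) - (⌊b i j l * J⌋₊ - sh (l + 1) : ℕ))) * Real.log 2 -
        k₁ * up ζ J ≤ mid i j J + E i j J := by
      intro i j
      by_cases h : i ≤ M ∧ j ≤ M
      · obtain ⟨j1, h1⟩ := hE i h.1 j h.2
        obtain ⟨j2, h2⟩ := hnum i h.1 j h.2
        exact ⟨max j1 j2, fun _ _ J hJ => ⟨h1 J ((le_max_left _ _).trans hJ),
          h2 J ((le_max_right _ _).trans hJ)⟩⟩
      · exact ⟨0, fun h1 h2 => absurd ⟨h1, h2⟩ h⟩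
    choose j₄ h1 using h1
    refine ⟨(range (M + 1)).sup fun i => (range (M + 1)).sup (j₄ i), fun J hJ i hi j hj => ?_⟩
    refine h1 i j hi hj J (le_trans ?_ hJ)
    exact (Finset.le_sup (f := j₄ i) (mem_range.2 (by omega))).trans
      (Finset.le_sup (f := fun i => (range (M + 1)).sup (j₄ i)) (mem_range.2 (by omega)))
  obtain ⟨J₄, hJ₄⟩ := hnum'
  have hex' := Pool.LBK.Bas.ev (bas_ij hex) hη0
  have hP : Bas S (fun _ F A => 0 < Pe F.p A) := ⟨1, one_pos, 0, fun J _ F A hA => hpos 1 J F A hA⟩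
  refine Bas.mono (max (max J₁ J₂) (max J₃ J₄)) ((Bas.and hP hex').and
    (Bas.and (bas_ij hfew) hmid)) fun J hJ F A hA D hD hX => ?_
  obtain ⟨⟨f1, f2⟩, f3, f4⟩ := hA
  have f4 := f4 D hD hX
  have j1 : J₁ ≤ J := ((le_max_left _ _).trans (le_max_left _ _)).trans hJ
  have j2 : J₂ ≤ J := ((le_max_right _ _).trans (le_max_left _ _)).trans hJ
  have j3 : J₃ ≤ J := ((le_max_left _ _).trans (le_max_right _ _)).trans hJ
  have j4 : J₄ ≤ J := ((le_max_right _ _).trans (le_max_right _ _)).trans hJ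
  obtain ⟨g1, g2, g3⟩ := hgr J j1
  have hJ0 : (0 : ℝ) ≤ J := Nat.cast_nonneg J
  have hz : ζ * J ≤ up ζ J := up_ge ζ J
  have hCz : 2 * C₁ ≤ ρ * up ζ J := by
    have h1 : (J₃ : ℝ) ≤ J := by exact_mod_cast j3
    have h2 := hJ₃.trans h1
    rw [div_le_iff₀ (by positivity)] at h2
    have h3 : ρ * (ζ * J) ≤ ρ * up ζ J := mul_le_mul_of_nonneg_left hz hρ0.le
    linarith
  intro i i' hii hi' j hj
  have haa : up α J + i * up ζ J ≤ up α J + i' * up ζ J :=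
    Nat.add_le_add_left (Nat.mul_le_mul_right _ hii) _
  have hjM : j * up ζ J ≤ (M + 1) * up ζ J := Nat.mul_le_mul_right _ (by omega)
  have hiM : i' * up ζ J ≤ (M + 1) * up ζ J := Nat.mul_le_mul_right _ (by omega)
  have h1 := hrow hD hc f1 i i' hii hi' j hj (by omega) (by omega)
    (fun l hl => ⟨hfl J j2 i (hii.trans hi') j hj l hl, hfl J j2 i' hi' j hj l hl⟩)
    (C₀ := k₀ * up ζ J) (E := E i' j J) (mid := mid i' j J) (η := η) (δ := δ) hc₀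
    (hdet i' j J F) (f3 i' hi' j hj) hδ0 hδ1 hη1
    (fun B hB hPB => f2 B hB hPB i' hi' j hj) (f4 i i' hii hi' j hj)
  obtain ⟨n1, n2⟩ := hJ₄ J j4 i' hi' j hj
  refine le_trans ?_ h1
  have h2 : δ * E i' j J ≤ ρ * up ζ J := by
    have h3 : δ * E i' j J ≤ δ * (n * Real.log 2 * J) := mul_le_mul_of_nonneg_left n1 hδ0.le
    have h4 : δ * (n * Real.log 2) * J ≤ ρ * ζ * J := mul_le_mul_of_nonneg_right hδ2 hJ0
    have h5 : ρ * (ζ * J) ≤ ρ * up ζ J := mul_le_mul_of_nonneg_left hz hρ0.le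
    nlinarith
  have h6 : 0 ≤ δ * (k₀ * up ζ J + 2 * C₁) := by positivity
  have h7 : 2 * (ρ * up ζ J) = (k₂ - (k₀ + k₁)) * up ζ J := by rw [hρ]; ring
  nlinarith

/-- **Exactness given the labels at the points, for a class**, all coordinates exact behind the
sides. -/
theorem exs_cls (n K K' s₁ : ℕ) (sh : ℕ → ℕ) (hn : 1 ≤ n) (hK' : 1 ≤ K') {m : ℕ} {S : PCl m}
    {W : GrdP m} {c : ℕ → Fin m} {α ϖ ζ : ℝ} {M : ℕ} {e : ℕ → ℕ → ℝ} {b : ℕ → ℕ → ℕ → ℝ}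
    (hϖ : 0 ≤ ϖ) (hζ : 0 < ζ) (hthin : ϖ + (M + 1) * ζ < α) (htop : α + (M + 1) * ζ < 1)
    (hc : Inj c n) (hb : ∀ i ≤ M, ∀ j ≤ M, ∀ l < n, 0 < b i j l)
    (hpos : ∀ (τ : ℝ) (J : ℕ) (F : Fam m J) (A : F.Ω → Prop), S.St τ J F A → 0 < Pe F.p A)
    {k : ℝ} (hk : 0 < k)
    (hex : ∀ i ≤ M, ∀ j ≤ M, Bas S fun J F A =>
      ExW F A (fun l : Fin (n - 1) => c l) (up α J + i * up ζ J)
        ((∑ l ∈ range (n - 1), ((J : ℝ) - (⌊b i j l * J⌋₊ : ℕ))) * Real.log 2 -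
          k / 2 * up ζ J)) :
    FldV S W c n K K' s₁ sh α ϖ ζ M e b (fun J F D q =>
      ExS D c n sh M (fun i j l => ⌊b i j l * J⌋₊) (k * up ζ J) q) := by
  have hl2 : 0 < Real.log 2 := Real.log_pos one_lt_two
  obtain ⟨s, hs⟩ : ∃ s : ℕ, s = ∑ l ∈ range (n - 1), sh (l + 1) := ⟨_, rfl⟩
  obtain ⟨J₁, hJ₁⟩ := exists_nat_ge ((s : ℝ) * Real.log 2 / (k / 4 * ζ))
  refine exs_clsm n K K' s₁ sh hK' hϖ hζ hthin htop hc hb hpos (U := fun _ _ _ _ => Unit)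
    (Vm := fun _ _ _ _ _ => ()) (fun _ _ _ _ _ _ _ => rfl) (k₀ := 0) (k₁ := 3 * k / 4) (k₂ := k)
    (c₀ := 1) (by linarith) le_rfl one_pos (fun i _ j _ => ?_) (mid := fun _ _ _ => 0) hex ?_
    (fun i _ j _ => ⟨0, fun J _ => ?_⟩) fun i _ j _ => ⟨J₁, fun J hJ => ?_⟩
  · have hP : Bas S (fun _ F A => 0 < Pe F.p A) :=
      ⟨1, one_pos, 0, fun J _ F A hA => hpos 1 J F A hA⟩
    refine Bas.mono 0 hP fun J _ F A _ => ?_
    rw [zero_mul]
    exact FewC.triv F _ () A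
  · have hP : Bas S (fun _ F A => 0 < Pe F.p A) :=
      ⟨1, one_pos, 0, fun J _ F A hA => hpos 1 J F A hA⟩
    refine Bas.mono 0 hP fun J _ F A _ D _ _ i i' _ _ j _ => ?_
    exact CH_nonneg (cond_nonneg F.isLaw.nonneg _ _) _ _
  · have hJ0 : (0 : ℝ) ≤ J := Nat.cast_nonneg J
    have h1 : ∑ l ∈ range (n - 1), ((J : ℝ) - (⌊b i j l * J⌋₊ : ℕ)) ≤ n * J := by
      calc ∑ l ∈ range (n - 1), ((J : ℝ) - (⌊b i j l * J⌋₊ : ℕ)) ≤
          ∑ _l ∈ range (n - 1), (J : ℝ) := Finset.sum_le_sum fun l _ => by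
            have : (0 : ℝ) ≤ (⌊b i j l * J⌋₊ : ℕ) := Nat.cast_nonneg _
            linarith
        _ = ((n - 1 : ℕ) : ℝ) * J := by rw [Finset.sum_const, card_range, nsmul_eq_mul]
        _ ≤ n * J := mul_le_mul_of_nonneg_right (by exact_mod_cast Nat.sub_le _ _) hJ0
    have h2 : 0 ≤ k / 2 * (up ζ J : ℝ) := by positivity
    have h3 := mul_le_mul_of_nonneg_right h1 hl2.le
    linarith
  · have h1 : (J₁ : ℝ) ≤ J := by exact_mod_cast hJ
    have h2 := hJ₁.trans h1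
    rw [div_le_iff₀ (by positivity)] at h2
    have h3 : k / 4 * (ζ * J) ≤ k / 4 * up ζ J :=
      mul_le_mul_of_nonneg_left (up_ge ζ J) (by positivity)
    have h4 : ∑ l ∈ range (n - 1), ((J : ℝ) - (⌊b i j l * J⌋₊ - sh (l + 1) : ℕ)) ≤
        ∑ l ∈ range (n - 1), ((J : ℝ) - (⌊b i j l * J⌋₊ : ℕ)) + s := by
      rw [hs, Nat.cast_sum, ← Finset.sum_add_distrib]
      refine Finset.sum_le_sum fun l _ => ?_
      have h5 : (⌊b i j l * J⌋₊ : ℕ) ≤ (⌊b i j l * J⌋₊ - sh (l + 1)) + sh (l + 1) := by omega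
      have h6 : ((⌊b i j l * J⌋₊ : ℕ) : ℝ) ≤ ((⌊b i j l * J⌋₊ - sh (l + 1) : ℕ) : ℝ) +
        (sh (l + 1) : ℕ) := by exact_mod_cast h5
      linarith
    have h7 := mul_le_mul_of_nonneg_right h4 hl2.le
    rw [add_mul] at h7
    linarith

end Pool.STAT.OKI
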