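import Pool.Agent.H40.ISO.Exh

/-!
# Exactness given the labels at the points, for the cells of a kit

`exw_win`: exactness at the windows of a grid, from exactness at one real window beyond.
`exs_P`: the field `fexs` from the exactness at the windows of the grids (all coordinates exact
behind the sides). `exw_P`: the exactness at the windows of the grids, from `ExIn`-exactness at the
windows of a set which meets all right neighbourhoods, and from the comparison of the levels.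
-/

set_option autoImplicit false

namespace Pool.STAT

open Finset MvPolynomial
open Pool.Agent.H49.Ent Pool.Agent.H32.Dense Pool.STK Pool.KS3 Pool.KA Pool.KSAT Pool.PB Pool.GEN
open Pool.K2S Pool.S6C
open CLO Pool.MIC6 OKI

variable {m : ℕ}

/-- **Exactness at a window of a grid**, from exactness at a real window beyond: the numbers of the
exactness at `a'` are at most `b l + θ`. -/
theorem exw_win {S : PCl m} {r : ℕ} {eps : Fin r → Fin m} {α ζ a' : ℝ} {i : ℕ} (hα : 0 ≤ α)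
    (hζ : 0 < ζ) (ha : α + i * ζ < a') (ha1 : a' ≤ 1) {L b : ℕ → ℝ} {θ k ρ : ℝ} (hρ : 0 < ρ)
    (hL : ∀ l < r, L l ≤ b l + θ) (hk : (r * θ + ρ) * Real.log 2 < k * ζ)
    (hb : ∀ l < r, 0 ≤ b l)
    (h : Bas S fun J F A => ExW F A eps ⌊a' * J⌋₊
      (((∑ j : Fin r, (1 - L j)) - ρ) * Real.log 2 * J)) :
    Bas S fun J F A => ExW F A eps (up α J + i * up ζ J)
      ((∑ l ∈ range r, ((J : ℝ) - (⌊b l * J⌋₊ : ℕ))) * Real.log 2 - k * up ζ J) := by
  have hl2 : 0 < Real.log 2 := Real.log_pos one_lt_two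
  have hd : 0 < a' - (α + i * ζ) := by linarith
  have hd2 : 0 < k * ζ - (r * θ + ρ) * Real.log 2 := by linarith
  have hk0 : 0 ≤ k ∨ k < 0 := le_or_gt 0 k
  obtain ⟨J₁, hJ₁⟩ := exists_nat_ge (((i : ℝ) + 2) / (a' - (α + i * ζ)))
  obtain ⟨J₂, hJ₂⟩ := exists_nat_ge
    ((|k| + r * Real.log 2) / (k * ζ - (r * θ + ρ) * Real.log 2))
  refine Bas.mono (max J₁ J₂) h fun J hJ F A hA => ?_
  have hJ0 : (0 : ℝ) ≤ J := Nat.cast_nonneg J
  have j1 : (J₁ : ℝ) ≤ J := by exact_mod_cast (le_max_left _ _).trans hJ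
  have j2 : (J₂ : ℝ) ≤ J := by exact_mod_cast (le_max_right _ _).trans hJ
  have h1 := hJ₁.trans j1
  rw [div_le_iff₀ hd] at h1
  have h2 := hJ₂.trans j2
  rw [div_le_iff₀ hd2] at h2
  have hw : up α J + i * up ζ J ≤ ⌊a' * J⌋₊ := by
    refine Nat.le_floor ?_
    push_cast
    have h3 := up_le hα J
    have h4 := up_le hζ.le J
    have h5 : (i : ℝ) * up ζ J ≤ i * (ζ * J + 1) := mul_le_mul_of_nonneg_left h4 (Nat.cast_nonneg i)
    nlinarith
  have hw1 : ⌊a' * J⌋₊ ≤ J := by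
    refine Nat.floor_le_of_le ?_
    calc a' * J ≤ 1 * J := mul_le_mul_of_nonneg_right ha1 hJ0
      _ = J := one_mul _
  refine (hA.win hw hw1).mono ?_
  have h3 : ∑ l ∈ range r, ((J : ℝ) - (⌊b l * J⌋₊ : ℕ)) ≤
      (∑ j : Fin r, (1 - L j)) * J + r * (θ * J + 1) := by
    rw [← Fin.sum_univ_eq_sum_range (fun l => (J : ℝ) - (⌊b l * J⌋₊ : ℕ)) r, Finset.sum_mul]
    have e1 : (r : ℝ) * (θ * J + 1) = ∑ _j : Fin r, (θ * J + 1) := by
      rw [Finset.sum_const, card_univ, Fintype.card_fin, nsmul_eq_mul]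
    rw [e1, ← Finset.sum_add_distrib]
    refine Finset.sum_le_sum fun l _ => ?_
    have h4 : b l * J < ⌊b l * J⌋₊ + 1 := Nat.lt_floor_add_one _
    have h5 := mul_le_mul_of_nonneg_right (hL l l.2) hJ0
    linarith
  have h4 := mul_le_mul_of_nonneg_right h3 hl2.le
  have h5 : ζ * J ≤ up ζ J := up_ge ζ J
  have h6 : k * (ζ * J) ≤ k * up ζ J + |k| := by
    rcases hk0 with h7 | h7
    · have h8 := mul_le_mul_of_nonneg_left h5 h7
      have h9 := abs_nonneg k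
      linarith
    · have h8 := up_le hζ.le J
      have h9 := mul_le_mul_of_nonpos_left h8 h7.le
      rw [abs_of_neg h7]
      linarith
  have e2 : (r * (θ * J + 1) + ρ * J) * Real.log 2 =
      (r * θ + ρ) * Real.log 2 * J + r * Real.log 2 := by ring
  have e3 : ((∑ j : Fin r, (1 - L j)) - ρ) * Real.log 2 * J =
      (∑ j : Fin r, (1 - L j)) * J * Real.log 2 - ρ * J * Real.log 2 := by ring
  rw [e3]
  nlinarith

section kit

variable {n₀ : ℕ} {Θ : Type*} {I : ℝ → Θ → Prop} {S : PCl m}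

/-- **Exactness given the labels at the points**, for the cells of the kit: from exactness at the
windows of the grids, all coordinates exact behind the sides. -/
theorem exs_P (hI : MonoI I)
    (hpos : ∀ (τ : ℝ) (J : ℕ) (F : Fam m J) (A : F.Ω → Prop), S.St τ J F A → 0 < Pe F.p A)
    (Kt : KitP m Θ n₀) (hinj : ∀ p, Inj (Kt.cs p) (n₀ + 1)) {K' s₁ : ℕ} {sh : ℕ → ℕ}
    (hK' : 1 ≤ K') {T' : ℝ}
    (fcel : ∀ ε' : ℝ, 0 < ε' → EvP I fun p =>
      CellL (n₀ + 1) (Kt.L p) ε' T' (Kt.y p) (Kt.X p) (Kt.la p) (Kt.ml p))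
    (fexw : ∀ k : ℝ, 0 < k → ∀ M : ℕ, EvQ I fun N θ p => ∀ (b : ℕ → ℕ → ℕ → ℝ) (e : ℕ → ℕ → ℝ),
      Kt.Near p N M θ b e → ∀ i ≤ M, ∀ j ≤ M, Bas S fun J F A =>
        ExW F A (fun l : Fin n₀ => Kt.cs p l)
          (up ((Kt.y p).1 + (Kt.y p).2) J + i * up (msh (Kt.X p) N M) J)
          ((∑ l ∈ range n₀, ((J : ℝ) - (⌊b i j l * J⌋₊ : ℕ))) * Real.log 2 -
            k * up (msh (Kt.X p) N M) J)) :
    ∀ k : ℝ, 0 < k → ∀ M : ℕ, EvQ I fun N θ p =>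
      Kt.FldN S K' s₁ sh M N θ p fun G J F D q => ExS D G.c G.n G.sh G.M (G.gn J)
        (k * up G.ζ J) q := by
  intro k hk M
  obtain ⟨N₁, hN₁⟩ := exists_nat_ge (4 * (T' + 2))
  have key := ((KitP.cel_evQ fcel M).and hI (fexw (k / 2) (by positivity) M)).and hI
    (EvQ.self I (max N₁ 2) (θ₀ := 1 / 16) (by norm_num)
      (ε := fun N _ => 1) (fun N _ _ => one_pos))
  refine key.mono ?_
  rintro N θ p ⟨⟨hL, pexw⟩, hN, hθ, hθ1, -⟩ b e hnear
  obtain ⟨ε, hε⟩ : ∃ ε : ℝ, ε = 1 / (64 * (N * (M + 4)) + 1) := ⟨_, rfl⟩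
  rw [← hε] at hL
  have hNN : N₁ ≤ N := (le_max_left _ _).trans hN
  have hN2 : 2 ≤ N := (le_max_right _ _).trans hN
  have hN1 : 1 ≤ N := by omega
  have hNT : 4 * (T' + 2) ≤ N := hN₁.trans (by exact_mod_cast hNN)
  have hε0 : 0 < ε := by rw [hε]; positivity
  have hεN : ε * (64 * (N * (M + 4))) ≤ 1 := by
    rw [hε, one_div, inv_mul_le_iff₀ (by positivity)]
    linarith
  have hs := hL.sideE (B := 1) (by omega) hN1 hNT hN2 le_rfl hε0.le hεN hθ hθ1 hnear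
  exact FldW.iff_v.2 (exs_cls (n₀ + 1) Kt.K K' s₁ sh (by omega) hK' (S := S)
    (W := Kt.W p N M θ) (c := Kt.cs p) (α := (Kt.y p).1 + (Kt.y p).2) (ϖ := (Kt.y p).1)
    (ζ := msh (Kt.X p) N M) (e := e) (b := b) hs.win hs.ζ0 hs.thin hs.top (hinj p) hs.pos hpos hk
    fun i hi j hj => pexw b e hnear i hi j hj)

/-- **Exactness at the windows of the grids**, from exactness at good real windows, and from the
comparison of the numbers `Lb` of the exactness with the levels. -/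
theorem exw_P (hI : MonoI I) (Kt : KitP m Θ n₀) {T' : ℝ}
    (fcel : ∀ ε' : ℝ, 0 < ε' → EvP I fun p =>
      CellL (n₀ + 1) (Kt.L p) ε' T' (Kt.y p) (Kt.X p) (Kt.la p) (Kt.ml p))
    {Lb : Θ → ℕ → ℝ → ℝ} {Ww : Θ → Set ℝ}
    (fex : ∀ p, ∀ w ∈ Ww p, 0 < w → w < 1 → ∀ ρ : ℝ, 0 < ρ → Bas S (fun J F A =>
      ExW F A (fun l : Fin n₀ => Kt.cs p l) ⌊w * J⌋₊
        (((∑ j : Fin n₀, (1 - Lb p j w)) - ρ) * Real.log 2 * J)))
    (fnum : ∀ ε' : ℝ, 0 < ε' → EvP I fun p => ∀ a w : ℝ, (Kt.y p).1 + (Kt.y p).2 ≤ a →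
      a ≤ (Kt.y p).1 + (Kt.y p).2 + Kt.X p → (Kt.y p).1 ≤ w → w ≤ (Kt.y p).1 + Kt.X p →
      ∃ a' ∈ Ww p, a < a' ∧ a' < 1 ∧ ∀ l < n₀, Lb p l a' ≤ Kt.L p l a w + ε' * Kt.X p) :
    ∀ k : ℝ, 0 < k → ∀ M : ℕ, EvQ I fun N θ p => ∀ (b : ℕ → ℕ → ℕ → ℝ) (e : ℕ → ℕ → ℝ),
      Kt.Near p N M θ b e → ∀ i ≤ M, ∀ j ≤ M, Bas S fun J F A =>
        ExW F A (fun l : Fin n₀ => Kt.cs p l)
          (up ((Kt.y p).1 + (Kt.y p).2) J + i * up (msh (Kt.X p) N M) J)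
          ((∑ l ∈ range n₀, ((J : ℝ) - (⌊b i j l * J⌋₊ : ℕ))) * Real.log 2 -
            k * up (msh (Kt.X p) N M) J) := by
  intro k hk M
  have hl2 : 0 < Real.log 2 := Real.log_pos one_lt_two
  obtain ⟨N₁, hN₁⟩ := exists_nat_ge (4 * (T' + 2))
  obtain ⟨θ₁, hθ₁⟩ : ∃ θ₁ : ℝ, θ₁ = k / (8 * (n₀ + 1)) := ⟨_, rfl⟩
  have hθ₁0 : 0 < θ₁ := by rw [hθ₁]; positivity
  have key := ((KitP.cel_evQ fcel M).and hI (EvQ.of_evP fun N =>
    fnum (θ₁ / (N * (M + 4) + 1)) (by positivity))).and hI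
    (EvQ.self I (max N₁ 2) (θ₀ := min (1 / 16) θ₁) (lt_min (by norm_num) hθ₁0)
      (ε := fun N _ => 1) (fun N _ _ => one_pos))
  refine key.mono ?_
  rintro N θ p ⟨⟨hL, pnum⟩, hN, hθ, hθ1, -⟩ b e hnear i hi j hj
  obtain ⟨ε, hε⟩ : ∃ ε : ℝ, ε = 1 / (64 * (N * (M + 4)) + 1) := ⟨_, rfl⟩
  rw [← hε] at hL
  have hNN : N₁ ≤ N := (le_max_left _ _).trans hN
  have hN2 : 2 ≤ N := (le_max_right _ _).trans hN
  have hN1 : 1 ≤ N := by omega
  have hNT : 4 * (T' + 2) ≤ N := hN₁.trans (by exact_mod_cast hNN)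
  have hε0 : 0 < ε := by rw [hε]; positivity
  have hεN : ε * (64 * (N * (M + 4))) ≤ 1 := by
    rw [hε, one_div, inv_mul_le_iff₀ (by positivity)]
    linarith
  have hs := hL.sideE (B := 1) (by omega) hN1 hNT hN2 le_rfl hε0.le hεN hθ
    (hθ1.trans (min_le_left _ _)) hnear
  have hX := hL.pos
  obtain ⟨ζ, hζ⟩ : ∃ ζ, ζ = msh (Kt.X p) N M := ⟨_, rfl⟩
  have e1 : N * ((M + 4) * ζ) = Kt.X p := by rw [hζ]; exact msh_mul hN1
  have hζ0 : 0 < ζ := by rw [hζ]; exact hs.ζ0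
  have hMX : ∀ v : ℕ, v ≤ M → v * ζ ≤ Kt.X p := by
    intro v hv
    have h1 : (v : ℝ) ≤ M := by exact_mod_cast hv
    have h2 : (1 : ℝ) ≤ N := by exact_mod_cast hN1
    have h3 : (v : ℝ) * ζ ≤ (M + 4) * ζ := mul_le_mul_of_nonneg_right (by linarith) hζ0.le
    have h4 : (M + 4) * ζ ≤ N * ((M + 4) * ζ) := le_mul_of_one_le_left (by positivity) h2
    linarith
  have hi0 : (0 : ℝ) ≤ i * ζ := by positivity
  have hj0 : (0 : ℝ) ≤ j * ζ := by positivity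
  obtain ⟨a', ha', h1, h2, h3⟩ := pnum ((Kt.y p).1 + (Kt.y p).2 + i * ζ) ((Kt.y p).1 + j * ζ)
    (by linarith) (by linarith [hMX i hi]) (by linarith) (by linarith [hMX j hj])
  have hy1 : 0 ≤ (Kt.y p).1 := hX.le.trans hL.win
  have hy2 : 0 ≤ (Kt.y p).2 := hX.le.trans hL.dep
  rw [← hζ]
  have h4 : θ₁ / (N * (M + 4) + 1) * Kt.X p ≤ θ₁ * ζ := by
    rw [← e1, div_mul_eq_mul_div, div_le_iff₀ (by positivity)]
    have h5 : 0 ≤ θ₁ * ζ := by positivity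
    nlinarith
  have h6 : θ * ζ ≤ θ₁ * ζ := mul_le_mul_of_nonneg_right (hθ1.trans (min_le_right _ _)) hζ0.le
  have hkk : (n₀ * (2 * (θ₁ * ζ)) + θ₁ * ζ) * Real.log 2 < k * ζ := by
    have h7 : Real.log 2 ≤ 1 := by
      have := Real.log_two_lt_d9
      linarith
    have h8 : (n₀ * (2 * (θ₁ * ζ)) + θ₁ * ζ) * Real.log 2 ≤
        (n₀ * (2 * (θ₁ * ζ)) + θ₁ * ζ) * 1 :=
      mul_le_mul_of_nonneg_left h7 (by positivity)
    have h9 : θ₁ * (8 * (n₀ + 1)) = k := by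
      rw [hθ₁]
      field_simp
    have h10 : 0 < θ₁ * ζ := by positivity
    have h11 : k * ζ = (8 * (n₀ + 1)) * (θ₁ * ζ) := by rw [← h9]; ring
    rw [h11]
    have h12 : (0 : ℝ) ≤ n₀ * (θ₁ * ζ) := by positivity
    linarith
  have ha0 : 0 < a' := by
    have h5 := hL.win
    linarith
  refine exw_win (by linarith) hζ0 h1 h2.le (L := fun l => Lb p l a') (b := b i j)
    (θ := 2 * (θ₁ * ζ)) (ρ := θ₁ * ζ) (by positivity) (fun l hl => ?_) hkk
    (fun l hl => (hs.pos i hi j hj l (by omega)).le)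
    (fex p a' ha' ha0 h2 (θ₁ * ζ) (by positivity))
  have h7 := hnear.lo i hi j hj l (by omega)
  have h8 := h3 l hl
  rw [← hζ] at h7
  linarith

end kit

end Pool.STAT
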