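import Pool.Agent.H40.ISO.Exk

/-!
# Exactness given the labels at the points, with digits behind the sides

As `exs_clsm`, the digits `Vm` have few bits over a closed value of the event, for the law of the
event (the form `Few0` of helper91).
-/

set_option autoImplicit false

namespace Pool.STAT.OKI

open Finset MvPolynomial
open Pool.Agent.H49.Ent Pool.Agent.H32.Dense Pool.STK Pool.KS3 Pool.KA Pool.KSAT Pool.PB Pool.GEN
open Pool.K2S Pool.S6C Pool.STAT.CLO Pool.STAT.Glu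
open Pool.BFL (Pb)
open CLO Pool.MIC6

/-- **Few bits over a closed value of the event**, for the law of the event. -/
def FewA {m J : ℕ} (F : Fam m J) (a : ℕ) (C : ℝ) {U : Type} (Y : F.Ω → U) (A : F.Ω → Prop) :
    Prop :=
  ∃ (V : Type) (z : PtT F → V) (z' : LnT F → V),
    (∀ ω, A ω → z (ptr F J ω) = z' (slam F a ω)) ∧
      CH (Pool.Agent.H49.Ent.cond F.p A True) Y (fun ω => (z' (slam F a ω), F.T ω)) ≤ C

section few

variable {m J : ℕ} {F : Fam m J} {a : ℕ} {C c₁ C' c₁' : ℝ} {U U' : Type} {Y : F.Ω → U}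
  {Y' : F.Ω → U'} {A A' : F.Ω → Prop}

theorem FewA.mono (h : FewA F a C Y A) (hC : C ≤ C') : FewA F a C' Y A := by
  obtain ⟨V, z, z', h1, h2⟩ := h
  exact ⟨V, z, z', h1, h2.trans hC⟩

/-- **Exactness** given a variable which has few bits over closed values (`Y`), and a variable which
has few bits over a closed value of every large event (`Vm`). -/
theorem FewC.exw0 (h : FewC F a C c₁ Y A) (hA : 0 < Pe F.p A) (hc : 0 < c₁) {n : ℕ}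
    {eps : Fin n → Fin m} {E η δ C₀ : ℝ} {Vm : F.Ω → U'} (hη0 : 0 < η) (hδ : 0 < δ) (hδ1 : δ ≤ 1)
    (hη : η * c₁ ≤ δ)
    (hfew : ∀ B : F.Ω → Prop, (∀ ω, B ω → A ω) → η * Pe F.p A ≤ Pe F.p B → FewA F a C₀ Vm B)
    (hex : ∀ B : F.Ω → Prop, (∀ ω, B ω → A ω) → η * Pe F.p A ≤ Pe F.p B → ExW F B eps a E) :
    (1 - δ) * (E - (C₀ + C)) ≤ CH (Pool.Agent.H49.Ent.cond F.p A True)
      (fun ω i => F.X J ω (eps i)) (fun ω => ((Vm ω, Y ω), F.T ω)) := by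
  rcases lt_or_ge (E - (C₀ + C)) 0 with hE | hE
  · have h1 : (1 - δ) * (E - (C₀ + C)) ≤ 0 :=
      mul_nonpos_of_nonneg_of_nonpos (by linarith) hE.le
    exact h1.trans (CH_nonneg (cond_nonneg F.isLaw.nonneg _ _) _ _)
  refine exh_ch F.isLaw hA hδ hE _ _ fun B hB hP => ?_
  have hPB : 0 < Pe F.p B := (mul_pos hδ hA).trans_le hP
  obtain ⟨V, z, z', B', h1, h2, h3, h4⟩ := h B hB hPB
  have e1 : η * Pe F.p A ≤ Pe F.p B' := by
    have h5 : c₁ * (η * Pe F.p A) ≤ c₁ * Pe F.p B' := by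
      refine le_trans ?_ h2
      refine le_trans ?_ hP
      have := mul_le_mul_of_nonneg_right hη hA.le
      linarith
    exact le_of_mul_le_mul_left h5 hc
  have hPB' : 0 < Pe F.p B' := (mul_pos hη0 hA).trans_le e1
  have hBA' : ∀ ω, B' ω → A ω := fun ω hω => hB ω (h1 ω hω)
  refine ⟨B', h1, hPB', ?_⟩
  have hq := isLaw_cond F.isLaw hPB'
  obtain ⟨V₂, y, y', k1, k2⟩ := hfew B' hBA' e1
  have e2 := hex B' hBA' e1 (V × V₂) (fun s => (z s, y s)) (fun s => (z' s, y' s))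
    fun ω hω => Prod.ext (h3 ω hω) (k1 ω hω)
  have e3 := h4 hq fun ω hω => cond_supp hω
  obtain ⟨X, hX⟩ : ∃ X : F.Ω → Fin n → ℤ, X = fun ω i => F.X J ω (eps i) := ⟨_, rfl⟩
  obtain ⟨Z, hZ⟩ : ∃ Z : F.Ω → V × V₂, Z = fun ω => (z' (slam F a ω), y' (slam F a ω)) := ⟨_, rfl⟩
  have e2' : E ≤ CH (Pool.Agent.H49.Ent.cond F.p B' True) X (fun ω => (Z ω, F.W ω)) := by
    rw [hX, hZ]
    exact e2
  have e4 := CH_mono_cond hq.nonneg (X := X)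
    (W' := fun ω => (Z ω, F.W ω)) (W := fun ω => (Z ω, F.T ω))
    (fun ω ω' _ _ h => by
      simp only [Prod.mk.injEq] at h ⊢
      exact ⟨h.1, congrArg Prod.fst h.2⟩)
  have e5 := CH_chain hq.nonneg X (fun ω => (Vm ω, Y ω)) (fun ω => (Z ω, F.T ω))
  have e6 := CH_mono_left hq.nonneg (X := X) (X' := fun ω => (X ω, (Vm ω, Y ω)))
    (W := fun ω => (Z ω, F.T ω)) (fun ω ω' _ _ h => by
      simp only [Prod.mk.injEq] at h ⊢
      exact h.1.1)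
  have e7 := CH_mono_cond hq.nonneg (X := X)
    (W' := fun ω => ((Vm ω, Y ω), (Z ω, F.T ω))) (W := fun ω => ((Vm ω, Y ω), F.T ω))
    (fun ω ω' _ _ h => by
      simp only [Prod.mk.injEq] at h ⊢
      exact ⟨h.1, h.2.2⟩)
  have e8 := CH_subadd hq.nonneg Vm Y (fun ω => (Z ω, F.T ω))
  have e9 := CH_mono_cond hq.nonneg (X := Vm)
    (W' := fun ω => (Z ω, F.T ω)) (W := fun ω => (y' (slam F a ω), F.T ω))
    (fun ω ω' _ _ h => by
      simp only [hZ, Prod.mk.injEq] at h ⊢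
      exact ⟨h.1.2, h.2⟩)
  have e10 := CH_mono_cond hq.nonneg (X := Y)
    (W' := fun ω => (Z ω, F.T ω)) (W := fun ω => (z' (slam F a ω), F.T ω))
    (fun ω ω' _ _ h => by
      simp only [hZ, Prod.mk.injEq] at h ⊢
      exact ⟨h.1.1, h.2⟩)
  rw [← hX]
  linarith

end few

/-- **The row of the exactness given the labels at the points**, for one family; `Vm`: digits of
the base which have few bits over a closed value of every large event. -/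
theorem exs_row0 (n K K' s₁ : ℕ) (sh : ℕ → ℕ) (hK' : 1 ≤ K') : ∃ (C₁ : ℝ) (c₁ s₃ : ℕ), 0 ≤ C₁ ∧
    1 ≤ c₁ ∧
    ∀ {m J : ℕ} {F : Fam m J} {D : GDat F} {c : ℕ → Fin m} {a₀ w₀ z M : ℕ} {e : ℕ → ℕ → ℕ}
    {g : ℕ → ℕ → ℕ → ℕ} {A : F.Ω → Prop}, D.Ok c n K K' s₁ sh a₀ w₀ z M e g A → Inj c n →
    0 < Pe F.p A → ∀ i i' : ℕ, i ≤ i' → i' ≤ M → ∀ j ≤ M, w₀ + j * z ≤ a₀ + i * z →
    a₀ + i' * z ≤ J → (∀ l < n, s₃ ≤ g i j l ∧ s₃ ≤ g i' j l) →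
    ∀ {U : Type} {Vm : F.Ω → U} {C₀ E mid η δ : ℝ},
    (∀ ω ω', (fun l : Fin (n - 1) => F.X J ω (c l)) = (fun l : Fin (n - 1) => F.X J ω' (c l)) →
      Vm ω = Vm ω') → 0 < η → 0 < δ → δ ≤ 1 → η * (c₁ * c₁) ≤ δ →
    (∀ B : F.Ω → Prop, (∀ ω, B ω → A ω) → η * Pe F.p A ≤ Pe F.p B →
      FewA F (a₀ + i' * z) C₀ Vm B) →
    (∀ B : F.Ω → Prop, (∀ ω, B ω → A ω) → η * Pe F.p A ≤ Pe F.p B →
      ExW F B (fun l : Fin (n - 1) => c l) (a₀ + i' * z) E) →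
    mid ≤ CH (Pool.Agent.H49.Ent.cond F.p A True) Vm
      (fun ω => (D.zS i j (ptr F J ω), (D.zS i' j (ptr F J ω), F.T ω))) →
    mid + (1 - δ) * (E - (C₀ + 2 * C₁)) ≤ CH (Pool.Agent.H49.Ent.cond F.p A True)
      (fun ω (l : Fin (n - 1)) => ⌊(2 : ℝ) ^ J * F.x ω (c l)⌋)
      (fun ω => (D.zS i j (ptr F J ω), (D.zS i' j (ptr F J ω), F.T ω))) := by
  obtain ⟨C₁, c₁, s₃, hC₁, hc₁, hpt⟩ := few_pt n K K' s₁ sh hK'
  refine ⟨C₁, c₁, s₃, hC₁, hc₁, ?_⟩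
  intro m J F D c a₀ w₀ z M e g A hD hc hA i i' hii hi' j hj hwa haJ hg U Vm C₀ E mid η δ
    hdet hη0 hδ hδ1 hη hfew hex hmid
  have haa : a₀ + i * z ≤ a₀ + i' * z := Nat.add_le_add_left (Nat.mul_le_mul_right z hii) _
  have hc1 : (1 : ℝ) ≤ c₁ := by exact_mod_cast hc₁
  have f1 := (hpt hD hc i (hii.trans hi') j hj hwa (haa.trans haJ) fun l hl => (hg l hl).1).win
    haa haJ
  have f2 := hpt hD hc i' hi' j hj (hwa.trans haa) haJ fun l hl => (hg l hl).2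
  have h1 := (f1.pair f2 (by positivity)).exw0 hA (by positivity)
    (eps := fun l : Fin (n - 1) => c l) (E := E) hη0 hδ hδ1 hη hfew hex
  have hq := isLaw_cond F.isLaw hA
  obtain ⟨q, hqq⟩ : ∃ q, q = Pool.Agent.H49.Ent.cond F.p A True := ⟨_, rfl⟩
  rw [← hqq] at h1 hq hmid ⊢
  have e5 := CH_chain hq.nonneg (fun ω (l : Fin (n - 1)) => F.X J ω (c l)) Vm
    (fun ω => (D.zS i j (ptr F J ω), (D.zS i' j (ptr F J ω), F.T ω)))
  have e7 := CH_mono_left hq.nonneg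
    (X' := fun ω (l : Fin (n - 1)) => F.X J ω (c l))
    (X := fun ω => ((fun l : Fin (n - 1) => F.X J ω (c l)), Vm ω))
    (W := fun ω => (D.zS i j (ptr F J ω), (D.zS i' j (ptr F J ω), F.T ω)))
    (fun ω ω' _ _ h => by
      have h5 := (Prod.ext_iff.1 h).1
      exact Prod.ext h5 (hdet ω ω' h5))
  have e8 := CH_mono_cond hq.nonneg (X := fun ω (l : Fin (n - 1)) => F.X J ω (c l))
    (W' := fun ω => ((Vm ω, (D.zS i j (ptr F J ω), D.zS i' j (ptr F J ω))), F.T ω))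
    (W := fun ω => (Vm ω, (D.zS i j (ptr F J ω), (D.zS i' j (ptr F J ω), F.T ω))))
    (fun ω ω' _ _ h => by
      simp only [Prod.mk.injEq] at h ⊢
      exact ⟨h.1.1, h.1.2.1, h.1.2.2, h.2⟩)
  have e9 : CH q (fun ω (l : Fin (n - 1)) => F.X J ω (c l))
      (fun ω => (D.zS i j (ptr F J ω), (D.zS i' j (ptr F J ω), F.T ω))) =
      CH q (fun ω (l : Fin (n - 1)) => ⌊(2 : ℝ) ^ J * F.x ω (c l)⌋)
      (fun ω => (D.zS i j (ptr F J ω), (D.zS i' j (ptr F J ω), F.T ω))) := rfl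
  have e10 : C₀ + (C₁ + C₁) = C₀ + 2 * C₁ := by ring
  rw [e10] at h1
  rw [← e9]
  linarith

/-- **Exactness given the labels at the points, for a class**: from exactness given the closed
values (`E i j`) and from digits `Vm` of the base which have few bits over a closed value of the
event and entropy at least `mid` given the labels at the points. -/
theorem exs_cls0 (n K K' s₁ : ℕ) (sh : ℕ → ℕ) (hK' : 1 ≤ K') {m : ℕ} {S : PCl m} {W : GrdP m}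
    {c : ℕ → Fin m} {α ϖ ζ : ℝ} {M : ℕ} {e : ℕ → ℕ → ℝ} {b : ℕ → ℕ → ℕ → ℝ} (hϖ : 0 ≤ ϖ)
    (hζ : 0 < ζ) (hthin : ϖ + (M + 1) * ζ < α) (htop : α + (M + 1) * ζ < 1) (hc : Inj c n)
    (hb : ∀ i ≤ M, ∀ j ≤ M, ∀ l < n, 0 < b i j l)
    (hpos : ∀ (τ : ℝ) (J : ℕ) (F : Fam m J) (A : F.Ω → Prop), S.St τ J F A → 0 < Pe F.p A)
    {U : ℕ → ℕ → (J : ℕ) → Fam m J → Type} {Vm : (i j J : ℕ) → (F : Fam m J) → F.Ω → U i j J F}
    (hdet : ∀ (i j J : ℕ) (F : Fam m J) (ω ω' : F.Ω), (fun l : Fin (n - 1) => F.X J ω (c l)) =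
      (fun l : Fin (n - 1) => F.X J ω' (c l)) → Vm i j J F ω = Vm i j J F ω')
    {k₀ k₁ k₂ : ℝ} (hk : k₀ + k₁ < k₂) (hk₀ : 0 ≤ k₀)
    (hfew : ∀ i ≤ M, ∀ j ≤ M, Bas S fun J F A =>
      FewA F (up α J + i * up ζ J) (k₀ * up ζ J) (Vm i j J F) A)
    {E mid : ℕ → ℕ → ℕ → ℝ}
    (hex : ∀ i ≤ M, ∀ j ≤ M, Bas S fun J F A =>
      ExW F A (fun l : Fin (n - 1) => c l) (up α J + i * up ζ J) (E i j J))
    (hmid : FldV S W c n K K' s₁ sh α ϖ ζ M e b fun J F D q => ∀ i i' : ℕ, i ≤ i' → i' ≤ M →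
      ∀ j ≤ M, mid i' j J ≤ CH q (Vm i' j J F)
        (fun ω => (D.zS i j (ptr F J ω), (D.zS i' j (ptr F J ω), F.T ω))))
    (hE : ∀ i ≤ M, ∀ j ≤ M, ∃ J₁ : ℕ, ∀ J ≥ J₁, E i j J ≤ n * Real.log 2 * J)
    (hnum : ∀ i ≤ M, ∀ j ≤ M, ∃ J₁ : ℕ, ∀ J ≥ J₁,
      (∑ l ∈ range (n - 1), ((J : ℝ) - (⌊b i j l * J⌋₊ - sh (l + 1) : ℕ))) * Real.log 2 -
        k₁ * up ζ J ≤ mid i j J + E i j J) :
    FldV S W c n K K' s₁ sh α ϖ ζ M e b (fun J F D q =>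
      ExS D c n sh M (fun i j l => ⌊b i j l * J⌋₊) (k₂ * up ζ J) q) := by
  obtain ⟨C₁, c₁, s₃, hC₁, hc₁, hrow⟩ := exs_row0 n K K' s₁ sh hK'
  have hc1 : (1 : ℝ) ≤ c₁ := by exact_mod_cast hc₁
  obtain ⟨ρ, hρ⟩ : ∃ ρ, ρ = (k₂ - (k₀ + k₁)) / 2 := ⟨_, rfl⟩
  have hρ0 : 0 < ρ := by rw [hρ]; linarith
  obtain ⟨δ, hδ⟩ : ∃ δ, δ = min 1 (ρ * ζ / (n * Real.log 2 + 1)) := ⟨_, rfl⟩
  have hl2 : 0 < Real.log 2 := Real.log_pos one_lt_two
  have hn0 : (0 : ℝ) ≤ n * Real.log 2 := by positivity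
  have hδ0 : 0 < δ := by rw [hδ]; exact lt_min one_pos (by positivity)
  have hδ1 : δ ≤ 1 := by rw [hδ]; exact min_le_left _ _
  have hδ2 : δ * (n * Real.log 2) ≤ ρ * ζ := by
    have h1 : δ ≤ ρ * ζ / (n * Real.log 2 + 1) := by rw [hδ]; exact min_le_right _ _
    rw [le_div_iff₀ (by positivity)] at h1
    nlinarith
  obtain ⟨η, hη⟩ : ∃ η, η = δ / ((c₁ : ℝ) * c₁) := ⟨_, rfl⟩
  have hcc : 0 < (c₁ : ℝ) * c₁ := by positivity
  have hη0 : 0 < η := by rw [hη]; positivity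
  have hη1 : η * (c₁ * c₁) ≤ δ := by
    rw [hη, div_mul_cancel₀ _ hcc.ne']
  obtain ⟨J₁, hgr⟩ := grid_ev hϖ hζ hthin htop
  obtain ⟨J₂, hfl⟩ := flo_ev hb fun _ => s₃
  obtain ⟨J₃, hJ₃⟩ := exists_nat_ge (2 * C₁ / (ρ * ζ))
  have hnum' : ∃ J₄ : ℕ, ∀ J ≥ J₄, ∀ i ≤ M, ∀ j ≤ M, E i j J ≤ n * Real.log 2 * J ∧
      (∑ l ∈ range (n - 1), ((J : ℝ) - (⌊b i j l * J⌋₊ - sh (l + 1) : ℕ))) * Real.log 2 -
        k₁ * up ζ J ≤ mid i j J + E i j J := by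
    have h1 : ∀ i j : ℕ, ∃ J₄ : ℕ, i ≤ M → j ≤ M → ∀ J ≥ J₄, E i j J ≤ n * Real.log 2 * J ∧
      (∑ l ∈ range (n - 1), ((J : ℝ) - (⌊b i j l * J⌋₊ - sh (l + 1) : ℕ))) * Real.log 2 -
        k₁ * up ζ J ≤ mid i j J + E i j J := by
      intro i j
      by_cases h : i ≤ M ∧ j ≤ M
      · obtain ⟨j1, h1⟩ := hE i h.1 j h.2
        obtain ⟨j2, h2⟩ := hnum i h.1 j h.2
        exact ⟨max j1 j2, fun _ _ J hJ => ⟨h1 J ((le_max_left _ _).trans hJ),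
          h2 J ((le_max_right _ _).trans hJ)⟩⟩
      · exact ⟨0, fun h1 h2 => absurd ⟨h1, h2⟩ h⟩
    choose j₄ h1 using h1
    refine ⟨(range (M + 1)).sup fun i => (range (M + 1)).sup (j₄ i), fun J hJ i hi j hj => ?_⟩
    refine h1 i j hi hj J (le_trans ?_ hJ)
    exact (Finset.le_sup (f := j₄ i) (mem_range.2 (by omega))).trans
      (Finset.le_sup (f := fun i => (range (M + 1)).sup (j₄ i)) (mem_range.2 (by omega)))
  obtain ⟨J₄, hJ₄⟩ := hnum'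
  have hex' := Pool.LBK.Bas.ev (Bas.and (bas_ij hex) (bas_ij hfew)) hη0
  have hP : Bas S (fun _ F A => 0 < Pe F.p A) := ⟨1, one_pos, 0, fun J _ F A hA => hpos 1 J F A hA⟩
  refine Bas.mono (max (max J₁ J₂) (max J₃ J₄)) ((Bas.and hP hex').and hmid)
    fun J hJ F A hA D hD hX => ?_
  obtain ⟨⟨f1, f2⟩, f4⟩ := hA
  have f4 := f4 D hD hX
  have j1 : J₁ ≤ J := ((le_max_left _ _).trans (le_max_left _ _)).trans hJ
  have j2 : J₂ ≤ J := ((le_max_right _ _).trans (le_max_left _ _)).trans hJ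
  have j3 : J₃ ≤ J := ((le_max_left _ _).trans (le_max_right _ _)).trans hJ
  have j4 : J₄ ≤ J := ((le_max_right _ _).trans (le_max_right _ _)).trans hJ
  obtain ⟨g1, g2, g3⟩ := hgr J j1
  have hJ0 : (0 : ℝ) ≤ J := Nat.cast_nonneg J
  have hz : ζ * J ≤ up ζ J := up_ge ζ J
  have hCz : 2 * C₁ ≤ ρ * up ζ J := by
    have h1 : (J₃ : ℝ) ≤ J := by exact_mod_cast j3
    have h2 := hJ₃.trans h1
    rw [div_le_iff₀ (by positivity)] at h2
    have h3 : ρ * (ζ * J) ≤ ρ * up ζ J := mul_le_mul_of_nonneg_left hz hρ0.le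
    linarith
  intro i i' hii hi' j hj
  have haa : up α J + i * up ζ J ≤ up α J + i' * up ζ J :=
    Nat.add_le_add_left (Nat.mul_le_mul_right _ hii) _
  have hjM : j * up ζ J ≤ (M + 1) * up ζ J := Nat.mul_le_mul_right _ (by omega)
  have hiM : i' * up ζ J ≤ (M + 1) * up ζ J := Nat.mul_le_mul_right _ (by omega)
  have h1 := hrow hD hc f1 i i' hii hi' j hj (by omega) (by omega)
    (fun l hl => ⟨hfl J j2 i (hii.trans hi') j hj l hl, hfl J j2 i' hi' j hj l hl⟩)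
    (C₀ := k₀ * up ζ J) (E := E i' j J) (mid := mid i' j J) (η := η) (δ := δ)
    (hdet i' j J F) hη0 hδ0 hδ1 hη1
    (fun B hB hPB => (f2 B hB hPB).2 i' hi' j hj)
    (fun B hB hPB => (f2 B hB hPB).1 i' hi' j hj) (f4 i i' hii hi' j hj)
  obtain ⟨n1, n2⟩ := hJ₄ J j4 i' hi' j hj
  refine le_trans ?_ h1
  have h2 : δ * E i' j J ≤ ρ * up ζ J := by
    have h3 : δ * E i' j J ≤ δ * (n * Real.log 2 * J) := mul_le_mul_of_nonneg_left n1 hδ0.le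
    have h4 : δ * (n * Real.log 2) * J ≤ ρ * ζ * J := mul_le_mul_of_nonneg_right hδ2 hJ0
    have h5 : ρ * (ζ * J) ≤ ρ * up ζ J := mul_le_mul_of_nonneg_left hz hρ0.le
    nlinarith
  have h6 : 0 ≤ δ * (k₀ * up ζ J + 2 * C₁) := by positivity
  have h7 : 2 * (ρ * up ζ J) = (k₂ - (k₀ + k₁)) * up ζ J := by rw [hρ]; ring
  nlinarith

end Pool.STAT.OKI
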