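import Pool.Agent.H40.ISO.Few0

/-!
# Few bits at the finer indices

`IsoD`: data at the grid with charts which do not depend on the radius, almost linear sides, near
charts of neighbouring windows (`cls`) and the own relation on the windows (`own`). `nb_cls`: the
next window. `nb_mid`: the radii between. `nb_down`: the window before. `nb_new`: the next radius.
-/

set_option autoImplicit false

namespace Pool.STAT.OKI

open Finset MvPolynomial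
open Pool.Agent.H49.Ent Pool.Agent.H32.Dense Pool.STK Pool.KS3 Pool.KA Pool.KSAT Pool.PB Pool.GEN
open Pool.K2S Pool.S6C Pool.STAT.CLO Pool.STAT.Glu
open Pool.BFL (Pb)

variable {m J : ℕ} {F : Fam m J}

/-- **The sides** are almost linear in the radius, with step `z`. -/
structure Sds (n M z x Λ : ℕ) (g : ℕ → ℕ → ℕ → ℕ) : Prop where
  up : ∀ i ≤ M, ∀ j ≤ M, ∀ l < n, g i j l ≤ g 0 j l + i * z + x
  dn : ∀ i ≤ M, ∀ j ≤ M, ∀ l < n, g 0 j l + i * z ≤ g i j l + x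
  wu : ∀ i ≤ M, ∀ j < M, ∀ l < n, g i (j + 1) l ≤ g i j l + Λ * z
  wd : ∀ i ≤ M, ∀ j < M, ∀ l < n, g i j l ≤ g i (j + 1) l + Λ * z
  hx : 2 * x ≤ z

/-- The charts of a window do not depend on the radius. -/
def Cmn (D : GDat F) (M : ℕ) : Prop := ∀ i ≤ M, ∀ j ≤ M, D.H i j = D.H 0 j

theorem Cmn.sy {D : GDat F} {M : ℕ} (h : Cmn D M) {c : ℕ → Fin m} {n w₀ z i j : ℕ} (hi : i ≤ M)
    (hj : j ≤ M) (ω : F.Ω) : Sy D c n w₀ z i j ω = Sy D c n w₀ z 0 j ω := by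
  unfold Sy
  rw [h i hi j hj]

/-- **The data.** -/
structure IsoD (D : GDat F) (c : ℕ → Fin m) (n K K' s₁ : ℕ) (sh : ℕ → ℕ) (a₀ w₀ z M : ℕ)
    (e : ℕ → ℕ → ℕ) (g : ℕ → ℕ → ℕ → ℕ) (x Λ Bc z' : ℕ) (A : F.Ω → Prop) : Prop where
  ok : D.Ok c n K K' s₁ sh a₀ w₀ z M e g A
  com : Cmn D M
  sds : Sds n M z x Λ g
  wJ : w₀ + M * z ≤ J
  z1 : 1 ≤ z
  zz : z' ≤ z
  cls : ∀ i < M, ∀ j < M, ∀ ω, A ω →
    NbP n (Wn (tw F (w₀ + (j + 1) * z) ω) (w₀ + (j + 1) * z)) (gs g (i + 1) (j + 1))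
      (2 ^ (Bc * z)) (Sy D c n w₀ z (i + 1) (j + 1) ω) (Sy D c n w₀ z i j ω)
  own : ∀ i ≤ M, ∀ j ≤ M, ∀ ω, A ω → ∀ l, 1 ≤ l → l ≤ n → ∀ t : ℝ,
    Wn (tw F (w₀ + j * z) ω) (w₀ + j * z) t →
      |ptt (pc c (slam F w₀ ω)) t l - eval (ptt (pc c (slam F w₀ ω)) t)
        (Sy D c n w₀ z i j ω l)| ≤ 2 ^ z' / 2 ^ gs g i j l

theorem tw_eq {w : ℕ} {ω ω' : F.Ω} (h : F.T1 w ω = F.T1 w ω') : tw F w ω' = tw F w ω := by
  unfold tw
  rw [h]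

theorem two_le {a b : ℕ} (h : a ≤ b) : (2 : ℝ) ^ a ≤ 2 ^ b := pow_le_pow_right₀ (by norm_num) h

theorem two_one (a : ℕ) : (1 : ℝ) ≤ 2 ^ a := one_le_pow₀ (by norm_num)

theorem two_mul_le {a b k : ℕ} (h : a ≤ b + k) : (2 : ℝ) ^ a ≤ 2 ^ k * 2 ^ b := by
  rw [← pow_add]
  exact two_le (by omega)

section sides

variable {n M z x Λ : ℕ} {g : ℕ → ℕ → ℕ → ℕ}

theorem Sds.x1 (h : Sds n M z x Λ g) : x ≤ z := by have := h.hx; omega

/-- One step in the radius. -/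
theorem Sds.r1 (h : Sds n M z x Λ g) {i j l : ℕ} (hi : i + 1 ≤ M) (hj : j ≤ M) (hl : l < n) :
    g (i + 1) j l ≤ g i j l + z + 2 * x ∧ g i j l + z ≤ g (i + 1) j l + 2 * x := by
  have h1 := h.up (i + 1) hi j hj l hl
  have h2 := h.dn (i + 1) hi j hj l hl
  have h3 := h.up i (by omega) j hj l hl
  have h4 := h.dn i (by omega) j hj l hl
  have h5 : (i + 1) * z = i * z + z := by ring
  omega

/-- A step along the diagonal. -/
theorem Sds.dg (h : Sds n M z x Λ g) {i j l : ℕ} (hi : i + 1 ≤ M) (hj : j + 1 ≤ M) (hl : l < n) :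
    g (i + 1) (j + 1) l ≤ g i j l + (Λ + 2) * z ∧
      g i j l ≤ g (i + 1) (j + 1) l + (Λ + 2) * z := by
  have h1 := h.r1 (j := j) hi (by omega) hl
  have h2 := h.wu (i + 1) hi j (by omega) l hl
  have h3 := h.wd (i + 1) hi j (by omega) l hl
  have h4 := h.hx
  have h5 : (Λ + 2) * z = Λ * z + 2 * z := by ring
  omega

end sides

section near

/-- **The next window.** -/
theorem nb_cls (n K K' Λ Bc : ℕ) (hK' : 1 ≤ K') : ∃ b₀ z₀ : ℕ,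
    ∀ {m J s₁ : ℕ} {sh : ℕ → ℕ} {F : Fam m J} {D : GDat F} {c : ℕ → Fin m} {a₀ w₀ z M : ℕ}
    {e : ℕ → ℕ → ℕ} {g : ℕ → ℕ → ℕ → ℕ} {x z' : ℕ} {A : F.Ω → Prop},
    IsoD D c n K K' s₁ sh a₀ w₀ z M e g x Λ Bc z' A → z₀ ≤ z → ∀ i < M, ∀ j < M, ∀ ω ω', A ω →
    A ω' → F.T1 (w₀ + (j + 1) * z) ω = F.T1 (w₀ + (j + 1) * z) ω' →
    D.zL i j (slam F (w₀ + j * z) ω) = D.zL i j (slam F (w₀ + j * z) ω') →
    NbP n (Wn (tw F (w₀ + (j + 1) * z) ω) (w₀ + (j + 1) * z)) (gs g (i + 1) (j + 1))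
      (2 ^ (b₀ * z)) (Sy D c n w₀ z (i + 1) (j + 1) ω) (Sy D c n w₀ z (i + 1) (j + 1) ω') := by
  obtain ⟨S₀, hS₀, hsame⟩ := nb_same n K K' hK'
  obtain ⟨c₁, hc₁, hchg⟩ := NbP.chg n K
  obtain ⟨c₂, hc₂, hsym⟩ := NbP.symm n K
  obtain ⟨c₃, hc₃, htra⟩ := NbP.trans n K
  have p1 : PBd fun Y => ((c₁ : ℝ) * Y) ^ c₁ * Y := (PBd.id.loss c₁).mul PBd.id
  have p2 : PBd fun Y => ((c₃ : ℝ) * (((c₃ : ℝ) * (Y * (((c₁ : ℝ) * Y) ^ c₁ * Y))) ^ c₃ *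
      ((c₂ : ℝ) * Y) ^ c₂)) ^ c₃ :=
    (((PBd.id.mul p1).loss c₃).mul (PBd.id.loss c₂)).loss c₃
  obtain ⟨c₄, hc₄, h4⟩ := p2
  obtain ⟨z₀, hz₀⟩ := exists_nat_ge ((c₄ : ℝ) + S₀ + 2)
  refine ⟨c₄ * (Λ + Bc + 3 + 1), z₀, ?_⟩
  intro m J s₁ sh F D c a₀ w₀ z M e g x z' A h hz i hi j hj ω ω' hω hω' eT ez
  have hc4 : (0 : ℝ) ≤ c₄ := Nat.cast_nonneg _
  have hzz : (c₄ : ℝ) + S₀ + 2 ≤ 2 ^ z := (hz₀.trans (by exact_mod_cast hz)).trans (two_ge z)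
  obtain ⟨Y, hY⟩ : ∃ Y : ℝ, Y = 2 ^ ((Λ + Bc + 3) * z) := ⟨_, rfl⟩
  have hzY : (2 : ℝ) ^ z ≤ Y := by
    rw [hY]
    exact two_le (Nat.le_mul_of_pos_left z (by omega))
  have hY2 : 2 ≤ Y := by linarith
  have hY1 : 1 ≤ Y := by linarith
  have hY0 : 0 ≤ Y := by linarith
  have hSY : S₀ ≤ Y := by linarith
  have hBY : (2 : ℝ) ^ (Bc * z) ≤ Y := by
    rw [hY]
    exact two_le (Nat.mul_le_mul_right z (by omega))
  have hΛY : (2 : ℝ) ^ ((Λ + 2) * z) ≤ Y := by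
    rw [hY]
    exact two_le (Nat.mul_le_mul_right z (by omega))
  have hjM : (j + 1) * z ≤ M * z := Nat.mul_le_mul_right z hj
  have hww : w₀ + j * z ≤ w₀ + (j + 1) * z := by
    have : (j + 1) * z = j * z + z := by ring
    omega
  have hwJ : w₀ + (j + 1) * z ≤ J := by have := h.wJ; omega
  have eT0 : F.T1 (w₀ + j * z) ω = F.T1 (w₀ + j * z) ω' := CDat2.T1_slam F hww hwJ eT
  have t1 := tr_sy h.ok (Nat.succ_le_of_lt hi) (Nat.succ_le_of_lt hj) ω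
  have t2 := tr_sy h.ok hi.le hj.le ω
  have t3 := tr_sy h.ok hi.le hj.le ω'
  have t4 := tr_sy h.ok (Nat.succ_le_of_lt hi) (Nat.succ_le_of_lt hj) ω'
  have a1 := (h.cls i hi j hj ω hω).mono le_rfl (fun _ h => h) hBY
  have a2 := (hsame h.ok i hi.le j hj.le ω ω' hω hω' eT0 ez).mono le_rfl (fun _ h => h) hSY
  have a2' := hchg (τ' := tw F (w₀ + (j + 1) * z) ω) (w' := w₀ + (j + 1) * z)
    (g' := gs g (i + 1) (j + 1)) (R := Y) t2 t3 hY0 hY1 a2 ((tw_tw hww hwJ ω).trans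
      (div_le_div_of_nonneg_right hY2 (by positivity)))
    (div_le_div₀ hY0 hY1 (by positivity) (two_le hww)) (fun l l1 l2 =>
      (two_mul_le (h.sds.dg hi hj (l := l - 1) (by omega)).2).trans
        (mul_le_mul_of_nonneg_right hΛY (by positivity))) (fun l l1 l2 =>
      (two_mul_le (h.sds.dg hi hj (l := l - 1) (by omega)).1).trans
        (mul_le_mul_of_nonneg_right hΛY (by positivity)))
  have a3 := hsym t4 t3 hY1 ((h.cls i hi j hj ω' hω').mono le_rfl (fun _ h => h) hBY)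
  rw [tw_eq eT] at a3
  have o1 : 1 ≤ ((c₁ : ℝ) * Y) ^ c₁ * Y := one_le_mul_of_one_le_of_one_le (pw_one hc₁ hY1) hY1
  have o2 : 1 ≤ ((c₂ : ℝ) * Y) ^ c₂ := pw_one hc₂ hY1
  have a4 := htra t1 t2 t3 hY1 o1 a1 a2'
  have a5 := htra t1 t3 t4 (pw_one hc₃ (one_le_mul_of_one_le_of_one_le hY1 o1)) o2 a4 a3
  refine a5.mono le_rfl (fun _ h => h) ?_
  have h8 := (le_abs_self _).trans (h4 Y hY1)
  beta_reduce at h8
  refine h8.trans ?_
  rw [hY]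
  exact pw_two (by linarith)

/-- **The next window, radius `0`.** -/
theorem nb_cls0 (n K K' Λ Bc : ℕ) (hK' : 1 ≤ K') : ∃ b₀ z₀ : ℕ,
    ∀ {m J s₁ : ℕ} {sh : ℕ → ℕ} {F : Fam m J} {D : GDat F} {c : ℕ → Fin m} {a₀ w₀ z M : ℕ}
    {e : ℕ → ℕ → ℕ} {g : ℕ → ℕ → ℕ → ℕ} {x z' : ℕ} {A : F.Ω → Prop},
    IsoD D c n K K' s₁ sh a₀ w₀ z M e g x Λ Bc z' A → z₀ ≤ z → ∀ j < M, ∀ ω ω', A ω →
    A ω' → F.T1 (w₀ + (j + 1) * z) ω = F.T1 (w₀ + (j + 1) * z) ω' →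
    D.zL 0 j (slam F (w₀ + j * z) ω) = D.zL 0 j (slam F (w₀ + j * z) ω') →
    NbP n (Wn (tw F (w₀ + (j + 1) * z) ω) (w₀ + (j + 1) * z)) (gs g 0 (j + 1))
      (2 ^ (b₀ * z)) (Sy D c n w₀ z 0 (j + 1) ω) (Sy D c n w₀ z 0 (j + 1) ω') := by
  obtain ⟨b₀, z₁, hcls⟩ := nb_cls n K K' Λ Bc hK'
  obtain ⟨c₁, hc₁, hchg⟩ := NbP.chg n K
  obtain ⟨z₂, hz₂⟩ := exists_nat_ge ((c₁ : ℝ) + 2)
  refine ⟨c₁ * (2 + 1) + b₀, max z₁ z₂, ?_⟩
  intro m J s₁ sh F D c a₀ w₀ z M e g x z' A h hz j hj ω ω' hω hω' eT ez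
  have hc1 : (0 : ℝ) ≤ c₁ := Nat.cast_nonneg _
  have hz2 : z₂ ≤ z := (le_max_right _ _).trans hz
  have hzz : (c₁ : ℝ) + 2 ≤ 2 ^ z := (hz₂.trans (by exact_mod_cast hz2)).trans (two_ge z)
  have hM : 1 ≤ M := by omega
  have t1 := tr_sy h.ok (Nat.zero_le M) (Nat.succ_le_of_lt hj) ω
  have t2 := tr_sy h.ok (Nat.zero_le M) (Nat.succ_le_of_lt hj) ω'
  have h1 := hcls h ((le_max_left _ _).trans hz) 0 hM j hj ω ω' hω hω' eT ez
  rw [h.com.sy (by omega) hj, h.com.sy (i := 0 + 1) (by omega) hj] at h1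
  have hs := fun l (hl : l < n) => h.sds.r1 (i := 0) (j := j + 1) hM hj hl
  have hx := h.sds.hx
  have h2 := hchg (τ' := tw F (w₀ + (j + 1) * z) ω) (w' := w₀ + (j + 1) * z)
    (g' := gs g 0 (j + 1)) (R := 2 ^ (2 * z)) t1 t2 (by positivity) (two_one _) h1 (by
      rw [sub_self, abs_zero]
      positivity)
    (div_le_div_of_nonneg_right (two_one _) (by positivity)) (fun l l1 l2 => two_mul_le (by
      have := hs (l - 1) (by omega)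
      unfold gs
      omega)) (fun l l1 l2 => two_mul_le (by
      have := hs (l - 1) (by omega)
      unfold gs
      omega))
  refine h2.mono le_rfl (fun _ h => h) ?_
  have e1 : (c₁ * (2 + 1) + b₀) * z = c₁ * (2 + 1) * z + b₀ * z := by ring
  rw [e1, pow_add]
  exact mul_le_mul_of_nonneg_right (pw_two (by linarith)) (by positivity)

/-- **The radii between.** -/
theorem nb_mid (n K K' : ℕ) (hK' : 1 ≤ K') : ∃ S₁ : ℝ, 1 ≤ S₁ ∧
    ∀ {m J s₁ Λ Bc : ℕ} {sh : ℕ → ℕ} {F : Fam m J} {D : GDat F} {c : ℕ → Fin m} {a₀ w₀ z M : ℕ}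
    {e : ℕ → ℕ → ℕ} {g : ℕ → ℕ → ℕ → ℕ} {x z' : ℕ} {A : F.Ω → Prop},
    IsoD D c n K K' s₁ sh a₀ w₀ z M e g x Λ Bc z' A → ∀ i ≤ M, ∀ j ≤ M, ∀ ω ω', A ω →
    A ω' → F.T1 (w₀ + j * z) ω = F.T1 (w₀ + j * z) ω' →
    D.zL 0 j (slam F (w₀ + j * z) ω) = D.zL 0 j (slam F (w₀ + j * z) ω') →
    D.zL i j (slam F (w₀ + j * z) ω) = D.zL i j (slam F (w₀ + j * z) ω') → ∀ i' ≤ i,
    NbP n (Wn (tw F (w₀ + j * z) ω) (w₀ + j * z)) (gs g i' j)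
      (S₁ * 2 ^ (2 * x)) (Sy D c n w₀ z i' j ω) (Sy D c n w₀ z i' j ω') := by
  obtain ⟨S₀, hS₀, hsame⟩ := nb_same n K K' hK'
  obtain ⟨c, hc, hmid⟩ := mid n K
  have hc1 : (1 : ℝ) ≤ c := by exact_mod_cast hc
  refine ⟨c * S₀, one_le_mul_of_one_le_of_one_le hc1 hS₀, ?_⟩
  intro m J s₁ Λ Bc sh F D cc a₀ w₀ z M e g x z' A h i hi j hj ω ω' hω hω' eT e0 ei i' hi'
  have hiM : i' ≤ M := hi'.trans hi
  have t1 := tr_sy h.ok (Nat.zero_le M) hj ω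
  have t2 := tr_sy h.ok (Nat.zero_le M) hj ω'
  have h1 := hsame h.ok 0 (Nat.zero_le M) j hj ω ω' hω hω' eT e0
  have h2 := hsame h.ok i hi j hj ω ω' hω hω' eT ei
  rw [h.com.sy hi hj, h.com.sy hi hj] at h2
  rw [h.com.sy hiM hj, h.com.sy hiM hj]
  have hx := h.sds.hx
  have hi'z : i' * z ≤ i * z := Nat.mul_le_mul_right z hi'
  have h3 := hmid (g₁ := gs g i' j) (x := 2 * x) t1 t2 (by linarith) (fun k k1 k2 => by
      rcases Nat.eq_zero_or_pos i' with h0 | h0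
      · rw [h0]
      · have := h.sds.dn i' hiM j hj (k - 1) (by omega)
        have hz' : z ≤ i' * z := Nat.le_mul_of_pos_left z h0
        unfold gs
        omega) (fun k k1 k2 => by
      have := h.sds.up i' hiM j hj (k - 1) (by omega)
      have := h.sds.dn i hi j hj (k - 1) (by omega)
      unfold gs
      omega) (fun l l2 k k1 k2 => by
      have := h.sds.up i' hiM j hj (l - 1) (by omega)
      have := h.sds.dn i' hiM j hj (k - 1) (by omega)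
      unfold gs
      omega) h1 h2
  refine h3.mono le_rfl (fun _ h => h) (le_of_eq ?_)
  ring

/-- **The window before.** -/
theorem nb_down (n K K' Λ Bc : ℕ) (hK' : 1 ≤ K') : ∃ b₀ z₀ : ℕ,
    ∀ {m J s₁ : ℕ} {sh : ℕ → ℕ} {F : Fam m J} {D : GDat F} {c : ℕ → Fin m} {a₀ w₀ z M : ℕ}
    {e : ℕ → ℕ → ℕ} {g : ℕ → ℕ → ℕ → ℕ} {x z' : ℕ} {A : F.Ω → Prop},
    IsoD D c n K K' s₁ sh a₀ w₀ z M e g x Λ Bc z' A → z₀ ≤ z → ∀ j < M, ∀ ω ω', A ω →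
    A ω' → F.T1 (w₀ + (j + 1) * z) ω = F.T1 (w₀ + (j + 1) * z) ω' →
    D.zL 0 (j + 1) (slam F (w₀ + (j + 1) * z) ω) = D.zL 0 (j + 1) (slam F (w₀ + (j + 1) * z) ω') →
    NbP n (Wn (tw F (w₀ + j * z) ω) (w₀ + j * z)) (gs g 0 j)
      (2 ^ (b₀ * z)) (Sy D c n w₀ z 0 j ω) (Sy D c n w₀ z 0 j ω') := by
  obtain ⟨S₀, hS₀, hsame⟩ := nb_same n K K' hK'
  obtain ⟨c₁, hc₁, hchg⟩ := NbP.chg n K
  obtain ⟨c₂, hc₂, hsym⟩ := NbP.symm n K
  obtain ⟨c₃, hc₃, htra⟩ := NbP.trans n K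
  have p1 : PBd fun Y => ((c₁ : ℝ) * Y) ^ c₁ * Y := (PBd.id.loss c₁).mul PBd.id
  have p2 : PBd fun Y => ((c₁ : ℝ) * Y) ^ c₁ * (((c₃ : ℝ) *
      (((c₃ : ℝ) * (((c₂ : ℝ) * Y) ^ c₂ * (((c₁ : ℝ) * Y) ^ c₁ * Y))) ^ c₃ * Y)) ^ c₃) :=
    (PBd.id.loss c₁).mul (((((PBd.id.loss c₂).mul p1).loss c₃).mul PBd.id).loss c₃)
  obtain ⟨c₄, hc₄, h4⟩ := p2
  obtain ⟨z₀, hz₀⟩ := exists_nat_ge ((c₄ : ℝ) + S₀ + 2)
  refine ⟨c₄ * (Λ + Bc + 3 + 1), z₀, ?_⟩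
  intro m J s₁ sh F D c a₀ w₀ z M e g x z' A h hz j hj ω ω' hω hω' eT ez
  have hc4 : (0 : ℝ) ≤ c₄ := Nat.cast_nonneg _
  have hzz : (c₄ : ℝ) + S₀ + 2 ≤ 2 ^ z := (hz₀.trans (by exact_mod_cast hz)).trans (two_ge z)
  obtain ⟨Y, hY⟩ : ∃ Y : ℝ, Y = 2 ^ ((Λ + Bc + 3) * z) := ⟨_, rfl⟩
  have hzY : (2 : ℝ) ^ z ≤ Y := by
    rw [hY]
    exact two_le (Nat.le_mul_of_pos_left z (by omega))
  have hY2 : 2 ≤ Y := by linarith
  have hY1 : 1 ≤ Y := by linarith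
  have hY0 : 0 ≤ Y := by linarith
  have hSY : S₀ ≤ Y := by linarith
  have hBY : (2 : ℝ) ^ (Bc * z) ≤ Y := by
    rw [hY]
    exact two_le (Nat.mul_le_mul_right z (by omega))
  have hΛY : (2 : ℝ) ^ ((Λ + 2) * z) ≤ Y := by
    rw [hY]
    exact two_le (Nat.mul_le_mul_right z (by omega))
  have h2Y : (2 : ℝ) ^ (2 * z) ≤ Y := by
    rw [hY]
    exact two_le (Nat.mul_le_mul_right z (by omega))
  have hjM : (j + 1) * z ≤ M * z := Nat.mul_le_mul_right z hj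
  have hjz : (j + 1) * z = j * z + z := by ring
  have hww : w₀ + j * z ≤ w₀ + (j + 1) * z := by omega
  have hwJ : w₀ + (j + 1) * z ≤ J := by have := h.wJ; omega
  have hM : 1 ≤ M := by omega
  have h2z : (2 : ℝ) * 2 ^ z ≤ Y := by
    refine le_trans ?_ h2Y
    have e1 : 2 * z = z + z := by ring
    rw [e1, pow_add]
    refine mul_le_mul_of_nonneg_right ?_ (by positivity)
    linarith
  -- the charts at `(0, j)` and `(1, j + 1)`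
  have hcom : ∀ ω, Sy D c n w₀ z (0 + 1) (j + 1) ω = Sy D c n w₀ z 0 (j + 1) ω := fun ω =>
    h.com.sy (by omega) hj ω
  have t1 := tr_sy h.ok (Nat.zero_le M) hj.le ω
  have t2 := tr_sy h.ok (Nat.zero_le M) (Nat.succ_le_of_lt hj) ω
  have t3 := tr_sy h.ok (Nat.zero_le M) (Nat.succ_le_of_lt hj) ω'
  have t4 := tr_sy h.ok (Nat.zero_le M) hj.le ω'
  have k1 := h.cls 0 hM j hj ω hω
  have k2 := h.cls 0 hM j hj ω' hω'
  rw [hcom] at k1 k2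
  rw [tw_eq eT] at k2
  have a1 := hsym t2 t1 hY1 (k1.mono le_rfl (fun _ h => h) hBY)
  have a2 := (hsame h.ok 0 (Nat.zero_le M) (j + 1) hj ω ω' hω hω' eT ez).mono le_rfl
    (fun _ h => h) hSY
  have hs := fun l (hl : l < n) => h.sds.r1 (i := 0) (j := j + 1) hM hj hl
  have hx := h.sds.hx
  have a2' := hchg (τ' := tw F (w₀ + (j + 1) * z) ω) (w' := w₀ + (j + 1) * z)
    (g' := gs g (0 + 1) (j + 1)) (R := Y) t2 t3 hY0 hY1 a2 (by
      rw [sub_self, abs_zero]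
      positivity) (div_le_div_of_nonneg_right hY1 (by positivity)) (fun l l1 l2 =>
      (two_mul_le (k := 2 * z) (by
        have := hs (l - 1) (by omega)
        unfold gs
        omega)).trans (mul_le_mul_of_nonneg_right h2Y (by positivity))) (fun l l1 l2 =>
      (two_mul_le (k := 2 * z) (by
        have := hs (l - 1) (by omega)
        unfold gs
        omega)).trans (mul_le_mul_of_nonneg_right h2Y (by positivity)))
  have a3 := k2.mono le_rfl (fun _ h => h) hBY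
  have o1 : 1 ≤ ((c₁ : ℝ) * Y) ^ c₁ * Y := one_le_mul_of_one_le_of_one_le (pw_one hc₁ hY1) hY1
  have o2 : 1 ≤ ((c₂ : ℝ) * Y) ^ c₂ := pw_one hc₂ hY1
  have a4 := htra t1 t2 t3 o2 o1 a1 a2'
  have a5 := htra t1 t3 t4 (pw_one hc₃ (one_le_mul_of_one_le_of_one_le o2 o1)) hY1 a4 a3
  have a6 := hchg (τ' := tw F (w₀ + j * z) ω) (w' := w₀ + j * z)
    (g' := gs g 0 j) (R := Y) t1 t4 (by positivity) hY1 a5 (by
      rw [abs_sub_comm]
      refine (tw_tw hww hwJ ω).trans ?_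
      rw [div_le_div_iff₀ (by positivity) (by positivity)]
      have e1 : (2 : ℝ) ^ (w₀ + (j + 1) * z) = 2 ^ z * 2 ^ (w₀ + j * z) := by
        rw [← pow_add]
        congr 1
        omega
      rw [e1, ← mul_assoc]
      exact mul_le_mul_of_nonneg_right h2z (by positivity)) (by
      rw [div_le_div_iff₀ (by positivity) (by positivity), one_mul]
      have e1 : (2 : ℝ) ^ (w₀ + (j + 1) * z) = 2 ^ z * 2 ^ (w₀ + j * z) := by
        rw [← pow_add]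
        congr 1
        omega
      rw [e1]
      exact mul_le_mul_of_nonneg_right hzY (by positivity)) (fun l l1 l2 =>
      (two_mul_le (h.sds.dg (i := 0) hM hj (l := l - 1) (by omega)).1).trans
        (mul_le_mul_of_nonneg_right hΛY (by positivity))) (fun l l1 l2 =>
      (two_mul_le (h.sds.dg (i := 0) hM hj (l := l - 1) (by omega)).2).trans
        (mul_le_mul_of_nonneg_right hΛY (by positivity)))
  refine a6.mono le_rfl (fun _ h => h) ?_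
  have h8 := (le_abs_self _).trans (h4 Y hY1)
  beta_reduce at h8
  refine h8.trans ?_
  rw [hY]
  exact pw_two (by linarith)

end near

end Pool.STAT.OKI
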