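import Pool.Agent.H40.ISO.Cls
import Pool.Agent.H40.MIC.Val
import Pool.Agent.H62.ISO.Own
import Pool.Agent.H62.ISO.Vol

/-!
# Values of near charts

`val_nb`: the value of the line has few bits if the charts are near. `nb_same`: the charts of two
samples with the same value are near. `own_win`: the own relation on the window. `hp`: the height of
the path over a system as a polynomial in the parameters of the line.
-/

set_option autoImplicit false

namespace Pool.STAT.OKI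

open Finset MvPolynomial
open Pool.Agent.H49.Ent Pool.Agent.H32.Dense Pool.STK Pool.KS3 Pool.KA Pool.KSAT Pool.PB Pool.GEN
open Pool.K2S Pool.S6C Pool.STAT.CLO Pool.STAT.Glu
open Pool.BFL (Pb)

/-- **The value of the line has few bits** if the charts are near. -/
theorem val_nb (n K K' s₁ : ℕ) (sh : ℕ → ℕ) (hK' : 1 ≤ K') : ∃ C₁ : ℝ, 0 ≤ C₁ ∧
    ∀ {m J : ℕ} {F : Fam m J} {D : GDat F} {c : ℕ → Fin m} {a₀ w₀ z M : ℕ} {e : ℕ → ℕ → ℕ}
    {g : ℕ → ℕ → ℕ → ℕ} {B : F.Ω → Prop} {q : F.Ω → ℝ} {W : Type},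
    D.Ok c n K K' s₁ sh a₀ w₀ z M e g B → IsLaw q → (∀ ω, 0 < q ω → B ω) →
    ∀ i ≤ M, ∀ j ≤ M, ∀ y : F.Ω → W, Det q y (F.T1 (w₀ + j * z)) → ∀ C' : ℝ, 0 ≤ C' →
    (∀ ω ω', 0 < q ω → 0 < q ω' → y ω = y ω' →
      NbP n (Wn (tw F (w₀ + j * z) ω) (w₀ + j * z)) (gs g i j) (Real.exp C')
        (Sy D c n w₀ z i j ω) (Sy D c n w₀ z i j ω')) →
    CH q (fun ω => D.zL i j (slam F (w₀ + j * z) ω)) y ≤ C₁ * (C' + 1) := by
  obtain ⟨C₁, hC₁, h⟩ := val_net n K K' s₁ sh hK'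
  refine ⟨C₁, hC₁, ?_⟩
  intro m J F D c a₀ w₀ z M e g B q W hD hq hB i hi j hj y hy C' hC' hn
  have hch := hD.chn i hi j hj
  refine h (hD.out i hi j hj) hq hB (fun s => sy_tri) (fun s l => sy_deg (fun l _ => hch.degH s l)
    l) (fun s => sy_zero) y (fun ω ω' h h' e => ?_) C' hC' fun ω ω' h h' e l l1 l2 b hb => ?_
  · have h1 := hy ω ω' h h' e
    show tl (w₀ + j * z) (slam F (w₀ + j * z) ω) = tl (w₀ + j * z) (slam F (w₀ + j * z) ω')
    rw [tl_eq, tl_eq, h1]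
  · have h1 := hn ω ω' h h' e l l1 l2 b ⟨?_, fun k k1 k2 => ?_⟩
    · rw [gt0_pos _ _ l1]
      exact h1
    · have h2 := hb 0 (by omega)
      have e1 : Hx c n (w₀ + j * z) (D.H i j) (slam F (w₀ + j * z) ω) 0 =
          MvPolynomial.C (tw F (w₀ + j * z) ω) := sy_zero
      rw [e1, eval_C, gt0_zero] at h2
      exact h2
    · have h2 := hb k k2
      rw [gt0_pos _ _ k1] at h2
      exact h2

/-- **The charts of two samples with the same value are near.** -/
theorem nb_same (n K K' : ℕ) (hK' : 1 ≤ K') : ∃ S₀ : ℝ, 1 ≤ S₀ ∧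
    ∀ {m J s₁ : ℕ} {sh : ℕ → ℕ} {F : Fam m J} {D : GDat F} {c : ℕ → Fin m} {a₀ w₀ z M : ℕ}
    {e : ℕ → ℕ → ℕ} {g : ℕ → ℕ → ℕ → ℕ} {B : F.Ω → Prop},
    D.Ok c n K K' s₁ sh a₀ w₀ z M e g B → ∀ i ≤ M, ∀ j ≤ M, ∀ ω ω', B ω → B ω' →
    F.T1 (w₀ + j * z) ω = F.T1 (w₀ + j * z) ω' →
    D.zL i j (slam F (w₀ + j * z) ω) = D.zL i j (slam F (w₀ + j * z) ω') →
    NbP n (Wn (tw F (w₀ + j * z) ω) (w₀ + j * z)) (gs g i j) S₀
      (Sy D c n w₀ z i j ω) (Sy D c n w₀ z i j ω') := by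
  obtain ⟨K₂, hK₂⟩ : ∃ K₂, K₂ = max K K' := ⟨_, rfl⟩
  have kK : K ≤ K₂ := by rw [hK₂]; exact le_max_left _ _
  have kK' : K' ≤ K₂ := by rw [hK₂]; exact le_max_right _ _
  obtain ⟨c₂, hc₂, hsym⟩ := NbP.symm n K₂
  obtain ⟨c₃, hc₃, htra⟩ := NbP.trans n K₂
  obtain ⟨S, hS⟩ : ∃ S : ℝ, S = (K' * 2 * 1 : ℝ) ^ K' := ⟨_, rfl⟩
  have hK1 : (1 : ℝ) ≤ K' := by exact_mod_cast hK'
  have hS1 : 1 ≤ S := by
    rw [hS]
    exact one_le_pow₀ (by linarith)
  have hS2 : 1 ≤ ((c₂ : ℝ) * S) ^ c₂ := pw_one hc₂ hS1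
  refine ⟨((c₃ : ℝ) * (S * ((c₂ : ℝ) * S) ^ c₂)) ^ c₃, pw_one hc₃
    (one_le_mul_of_one_le_of_one_le hS1 hS2), ?_⟩
  intro m J s₁ sh F D c a₀ w₀ z M e g B hD i hi j hj ω ω' hω hω' eT ez
  have e0 : tw F (w₀ + j * z) ω' = tw F (w₀ + j * z) ω := by
    unfold tw
    rw [eT]
  have e1 : PLs D w₀ z i j ω' = PLs D w₀ z i j ω := by
    unfold PLs
    rw [ez]
  have h1 := nb_raw hD hi hj hω
  have h2 := nb_raw hD hi hj hω'
  rw [e0, e1] at h2
  rw [← hS] at h1 h2
  have t1 := tr_mono (tr_sy hD hi hj ω) kK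
  have t2 := tr_mono (tr_pl hD hi hj ω) kK'
  have t3 := tr_mono (tr_sy hD hi hj ω') kK
  exact htra t1 t2 t3 hS1 hS2 h1 (hsym t3 t2 hS1 h2)

/-! ### The own relation -/

theorem pc_zero {m J : ℕ} {F : Fam m J} (c : ℕ → Fin m) (s : LnT F) :
    pc c s 0 = Polynomial.X := if_pos rfl

/-- **From the window around the sample to the window.** -/
theorem own_win (n K : ℕ) : ∃ C : ℝ, 1 ≤ C ∧ ∀ {m J : ℕ} {F : Fam m J} {c : ℕ → Fin m} {w : ℕ}
    {H : LnT F → ℕ → MvPolynomial (Option (Fin m)) ℝ} {s s' : LnT F} {ω : F.Ω} {l : ℕ} {S : ℝ},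
    w ≤ J → (∀ i < n, (H s i).totalDegree ≤ K) →
    (∀ t : ℝ, |t - F.t ω| ≤ 1 / 2 ^ w →
      |(pc c s' l).eval t - eval (fun k => (pc c s' k).eval t) (Hx c n w H s l)| ≤ S) →
    ∀ t : ℝ, Wn (tw F w ω) w t →
      |ptt (pc c s') t l - eval (ptt (pc c s') t) (Hx c n w H s l)| ≤ C * S := by
  obtain ⟨C, hC, h⟩ := Glu.ext3 (K + 1)
  refine ⟨C, hC, ?_⟩
  intro m J F c w H s s' ω l S hw hH hS t ht
  obtain ⟨p, hp⟩ : ∃ p : Polynomial ℝ, p = pc c s' l -
      MvPolynomial.aeval (fun k => pc c s' k) (Hx c n w H s l) := ⟨_, rfl⟩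
  have e1 : ∀ t, p.eval t = (pc c s' l).eval t -
      eval (fun k => (pc c s' k).eval t) (Hx c n w H s l) := by
    intro t
    rw [hp, Polynomial.eval_sub, Pool.UNJ.eval_aeval_poly]
  have hd : p.natDegree ≤ K + 1 := by
    rw [hp]
    refine (Polynomial.natDegree_sub_le _ _).trans (max_le ?_ ?_)
    · exact (pc_deg c s' l).trans (Nat.le_add_left _ _)
    · exact (Pool.UNJ.natDegree_aeval_le _ _ (fun k => pc_deg c s' k) (sy_deg hH l)).trans
        (Nat.le_succ _)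
  have hℓ : (0 : ℝ) < 1 / 2 ^ w := by positivity
  have h1 := h p (F.t ω - 1 / 2 ^ w) (2 * (1 / 2 ^ w)) S hd (by positivity) (fun t ht => by
    rw [e1]
    refine hS t ?_
    rw [Set.mem_Icc] at ht
    rw [abs_le]
    constructor <;> linarith [ht.1, ht.2]) t
  have h2 := abs_le.1 (tw_t (F := F) hw ω)
  have h3 := abs_le.1 (show |t - tw F w ω| ≤ 1 / 2 ^ w from ht)
  have h4 := h1 (by linarith [h2.1, h2.2, h3.1, h3.2]) (by linarith [h2.1, h2.2, h3.1, h3.2])
  rw [e1] at h4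
  exact h4

/-! ### The heights in the parameters of the line -/

/-- The coordinates of the point of the line at the time `t` in the parameters. -/
noncomputable def lpt (t : ℝ) (k : ℕ) : PN :=
  if k = 0 then MvPolynomial.C t else
    MvPolynomial.X (2 * (k - 1)) + MvPolynomial.C t * MvPolynomial.X (2 * (k - 1) + 1)

/-- The parameters of the line. -/
def lpar {m J : ℕ} {F : Fam m J} (c : ℕ → Fin m) (s : LnT F) (r : ℕ) : ℝ :=
  if r % 2 = 0 then s.1.1 (c (r / 2)) else s.1.2 (c (r / 2))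

theorem eval_lpt {m J : ℕ} {F : Fam m J} (c : ℕ → Fin m) (s : LnT F) (t : ℝ) (k : ℕ) :
    eval (lpar c s) (lpt t k) = ptt (pc c s) t k := by
  unfold lpt ptt pc
  split_ifs with h
  · rw [eval_C, Polynomial.eval_X]
  · have e1 : lpar c s (2 * (k - 1)) = s.1.1 (c (k - 1)) := by
      unfold lpar
      rw [if_pos (by omega), Nat.mul_div_cancel_left _ (by norm_num)]
    have e2 : lpar c s (2 * (k - 1) + 1) = s.1.2 (c (k - 1)) := by
      unfold lpar
      have e3 : (2 * (k - 1) + 1) / 2 = k - 1 := by omega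
      rw [if_neg (by omega), e3]
    rw [map_add, map_mul, eval_C, eval_X, eval_X, e1, e2, Polynomial.eval_add,
      Polynomial.eval_mul, Polynomial.eval_C, Polynomial.eval_C, Polynomial.eval_X]
    ring

theorem deg_bind₁ (f : ℕ → PN) (hf : ∀ i, (f i).totalDegree ≤ 1) (p : PN) :
    (bind₁ f p).totalDegree ≤ p.totalDegree := by
  classical
  conv_lhs => rw [p.as_sum, map_sum]
  refine (totalDegree_finsetSum _ _).trans (Finset.sup_le fun s hs => ?_)
  rw [bind₁_monomial]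
  refine (totalDegree_mul _ _).trans ?_
  rw [totalDegree_C, zero_add]
  refine (totalDegree_finsetProd _ _).trans ?_
  refine le_trans ?_ (le_totalDegree hs)
  rw [Finsupp.sum]
  refine Finset.sum_le_sum fun i _ => ?_
  refine (totalDegree_pow _ _).trans ?_
  have := hf i
  nlinarith

/-- The height over the system `Φ` at the time `t`, times `s`, in the parameters. -/
noncomputable def hp (s t : ℝ) (Φ : ℕ → PN) (l : ℕ) : PN :=
  MvPolynomial.C s * (lpt t l - bind₁ (lpt t) (Φ l))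

theorem eval_hp {m J : ℕ} {F : Fam m J} (c : ℕ → Fin m) (x : LnT F) (s t : ℝ) (Φ : ℕ → PN)
    (l : ℕ) : eval (lpar c x) (hp s t Φ l) =
      s * (ptt (pc c x) t l - eval (ptt (pc c x) t) (Φ l)) := by
  have e1 : (fun k => eval (lpar c x) (lpt t k)) = ptt (pc c x) t :=
    funext fun k => eval_lpt c x t k
  unfold hp
  rw [map_mul, eval_C, map_sub, eval_lpt]
  congr 2
  rw [← e1]
  exact eval₂Hom_bind₁ _ _ _ _

theorem lpt_vars (t : ℝ) {k n : ℕ} (hk : k ≤ n) : (lpt t k).vars ⊆ range (2 * n) := by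
  classical
  unfold lpt
  split_ifs with h
  · rw [vars_C]
    exact Finset.empty_subset _
  · refine (vars_add_subset _ _).trans (Finset.union_subset ?_ ?_)
    · rw [vars_X, Finset.singleton_subset_iff, mem_range]
      omega
    · refine (vars_mul _ _).trans (Finset.union_subset ?_ ?_)
      · rw [vars_C]
        exact Finset.empty_subset _
      · rw [vars_X, Finset.singleton_subset_iff, mem_range]
        omega

theorem lpt_deg (t : ℝ) (k : ℕ) : (lpt t k).totalDegree ≤ 1 := by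
  unfold lpt
  split_ifs with h
  · rw [totalDegree_C]
    exact Nat.zero_le _
  · refine (totalDegree_add _ _).trans (max_le ?_ ?_)
    · rw [totalDegree_X]
    · refine (totalDegree_mul _ _).trans ?_
      rw [totalDegree_C, totalDegree_X]

theorem hp_vars (s t : ℝ) {Φ : ℕ → PN} (hΦ : TriN Φ) {l n : ℕ} (hl : l ≤ n) :
    (hp s t Φ l).vars ⊆ range (2 * n) := by
  classical
  unfold hp
  refine (vars_mul _ _).trans (Finset.union_subset ?_ ?_)
  · rw [vars_C]
    exact Finset.empty_subset _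
  · refine (vars_sub_subset _).trans (Finset.union_subset (lpt_vars t hl) ?_)
    refine (vars_bind₁ _ _).trans (Finset.biUnion_subset.2 fun k hk => ?_)
    have := mem_range.1 (hΦ l hk)
    exact lpt_vars t (by omega)

theorem hp_deg (s t : ℝ) {Φ : ℕ → PN} {K : ℕ} (hΦ : ∀ l, (Φ l).totalDegree ≤ K) (l : ℕ) :
    (hp s t Φ l).totalDegree ≤ K + 1 := by
  unfold hp
  refine (totalDegree_mul _ _).trans ?_
  rw [totalDegree_C, zero_add]
  refine (totalDegree_sub _ _).trans (max_le ((lpt_deg t l).trans (by omega)) ?_)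
  exact ((deg_bind₁ _ (lpt_deg t) _).trans (hΦ l)).trans (Nat.le_succ K)

end Pool.STAT.OKI
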