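import Pool.Agent.H40.ISO.Few

/-!
# Few bits at the finer indices, the contexts

`ij_few`, `i_few`: the contexts at `(i + 1, j + 1)` and `(i + 1, j)` have at most
`C z + (M + 1) ^ 2 (C (x + z' + 1))` bits given the context at `(i, j)`; the constant `C` does not
depend on `M`. The new radius is obtained by the count of maximal volume.
-/

set_option autoImplicit false

namespace Pool.STAT.OKI

open Finset MvPolynomial
open Pool.Agent.H49.Ent Pool.Agent.H32.Dense Pool.STK Pool.KS3 Pool.KA Pool.KSAT Pool.PB Pool.GEN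
open Pool.K2S Pool.S6C Pool.STAT.CLO Pool.STAT.Glu
open Pool.BFL (Pb)

/-- The value of the cell, from the value of the label. -/
theorem val_zL {m J n : ℕ} {F : Fam m J} {D : GDat F} {R : ℕ → ℕ → Type}
    {ρ : (i j : ℕ) → LnT F → R i j} (hR : ∀ i j, Subsingleton (R i j)) {q : F.Ω → ℝ}
    (hq : IsLaw q) {U : Type} (W : F.Ω → U) (w₀ z i j : ℕ) :
    CH q ((D.cd n ρ).val w₀ z i j) W ≤ CH q (fun ω => D.zL i j (slam F (w₀ + j * z) ω)) W := by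
  refine CH_mono_left hq.nonneg fun ω ω' _ _ e => ?_
  simp only [Prod.mk.injEq] at e
  exact Prod.ext e.1 ((hR i j).elim _ _)

theorem exp_two (a : ℕ) : Real.exp (a * Real.log 2) = 2 ^ a := by
  rw [Real.exp_nat_mul, Real.exp_log (by norm_num)]

theorem log2_le : Real.log 2 ≤ 1 := by
  have := Real.log_two_lt_d9
  linarith

theorem log2_pos : 0 < Real.log 2 := Real.log_pos (by norm_num)

/-- **The context at `(i + 1, j + 1)`.** -/
theorem ij_few (n K K' s₁ Λ Bc : ℕ) (sh : ℕ → ℕ) (hK' : 1 ≤ K') : ∃ (C : ℝ) (z₀ : ℕ), 0 ≤ C ∧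
    ∀ {m J : ℕ} {F : Fam m J} {D : GDat F} {c : ℕ → Fin m} {a₀ w₀ z M : ℕ}
    {e : ℕ → ℕ → ℕ} {g : ℕ → ℕ → ℕ → ℕ} {x z' : ℕ} {A : F.Ω → Prop} {R : ℕ → ℕ → Type}
    {ρ : (i j : ℕ) → LnT F → R i j} {q : F.Ω → ℝ},
    IsoD D c n K K' s₁ sh a₀ w₀ z M e g x Λ Bc z' A → (∀ i j, Subsingleton (R i j)) → z₀ ≤ z →
    IsLaw q → (∀ ω, 0 < q ω → A ω) → ∀ i < M, ∀ j < M,
    CH q ((D.cd n ρ).lab2 w₀ z (i + 1) (j + 1)) ((D.cd n ρ).lab2 w₀ z i j) ≤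
      C * z + (M + 1) ^ 2 * (C * (x + z' + 1)) := by
  obtain ⟨C₁, hC₁, hval⟩ := val_nb n K K' s₁ sh hK'
  obtain ⟨b₀, z₁, hcls⟩ := nb_cls n K K' Λ Bc hK'
  obtain ⟨b₁, z₂, hcls0⟩ := nb_cls0 n K K' Λ Bc hK'
  obtain ⟨S₁, hS₁, hmid⟩ := nb_mid n K K' hK'
  have hlS : 0 ≤ Real.log S₁ := Real.log_nonneg hS₁
  have hl1 := log2_le
  have hl0 := log2_pos
  refine ⟨1 + C₁ * (b₁ + 1) + C₁ * (b₀ + 1) + C₁ * (Real.log S₁ + 2), max 1 (max z₁ z₂),
    by positivity, ?_⟩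
  intro m J F D c a₀ w₀ z M e g x z' A R ρ q h hR hz hq hA i hi j hj
  have hz1 : 1 ≤ z := (le_max_left _ _).trans hz
  have hz2 : z₁ ≤ z := ((le_max_left _ _).trans (le_max_right _ _)).trans hz
  have hz3 : z₂ ≤ z := ((le_max_right _ _).trans (le_max_right _ _)).trans hz
  have hzr : (1 : ℝ) ≤ z := by exact_mod_cast hz1
  have hjM : (j + 1) * z ≤ M * z := Nat.mul_le_mul_right z hj
  have hjz : (j + 1) * z = j * z + z := by ring
  have hwJ : w₀ + j * z + z ≤ J := by have := h.wJ; omega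
  have e1 : w₀ + (j + 1) * z = w₀ + j * z + z := by ring
  obtain ⟨L, hL⟩ : ∃ L, L = (D.cd n ρ).lab2 w₀ z i j := ⟨_, rfl⟩
  obtain ⟨T, hT⟩ : ∃ T, T = F.T1 (w₀ + (j + 1) * z) := ⟨_, rfl⟩
  obtain ⟨V, hV⟩ : ∃ V : F.Ω → LV × LV, V = fun ω => (D.zL 0 (j + 1) (slam F (w₀ + (j + 1) * z) ω),
    D.zL (i + 1) (j + 1) (slam F (w₀ + (j + 1) * z) ω)) := ⟨_, rfl⟩
  have s1 := CH_le_add hq.nonneg ((D.cd n ρ).lab2 w₀ z (i + 1) (j + 1)) T L
  have s2 := CH_le_add hq.nonneg ((D.cd n ρ).lab2 w₀ z (i + 1) (j + 1)) V (fun ω => (T ω, L ω))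
  have s4 : CH q T L ≤ z * Real.log 2 := by
    rw [hT, e1, hL]
    exact (CH_mono_cond hq.nonneg fun ω ω' _ _ e => congrArg (·.2) e).trans (CDat2.T1_next hq hwJ)
  have dT : Det q (fun ω => (T ω, L ω)) (F.T1 (w₀ + (j + 1) * z)) := by
    intro ω ω' _ _ e
    rw [← hT]
    exact (Prod.ext_iff.mp e).1
  have dz : ∀ i' j', j' ≤ j → i' + j ≤ i + j' → ∀ ω ω', L ω = L ω' →
      D.zL i' j' (slam F (w₀ + j' * z) ω) = D.zL i' j' (slam F (w₀ + j' * z) ω') := by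
    intro i' j' h1 h2 ω ω' e
    rw [hL] at e
    have h5 := CDat2.lab2_val (D.cd n ρ) (i' := i') (j' := j') h1 h2 e
    exact congrArg (fun v : LV × R i' j' => v.1) h5
  have s5 : CH q (fun ω => D.zL 0 (j + 1) (slam F (w₀ + (j + 1) * z) ω)) (fun ω => (T ω, L ω)) ≤
      C₁ * ((b₁ * z : ℕ) * Real.log 2 + 1) := by
    refine hval h.ok hq hA 0 (Nat.zero_le M) (j + 1) hj _ dT _ (by positivity)
      fun ω ω' hω hω' e => ?_
    rw [exp_two]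
    have e2 := Prod.ext_iff.mp e
    simp only [hT] at e2
    exact hcls0 h hz3 j hj ω ω' (hA ω hω) (hA ω' hω') e2.1
      (dz 0 j le_rfl (by omega) ω ω' e2.2)
  have s6 : CH q (fun ω => D.zL (i + 1) (j + 1) (slam F (w₀ + (j + 1) * z) ω))
      (fun ω => (T ω, L ω)) ≤ C₁ * ((b₀ * z : ℕ) * Real.log 2 + 1) := by
    refine hval h.ok hq hA (i + 1) hi (j + 1) hj _ dT _ (by positivity)
      fun ω ω' hω hω' e => ?_
    rw [exp_two]
    have e2 := Prod.ext_iff.mp e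
    simp only [hT] at e2
    exact hcls h hz2 i hi j hj ω ω' (hA ω hω) (hA ω' hω') e2.1
      (dz i j le_rfl le_rfl ω ω' e2.2)
  have s3 := CH_subadd hq.nonneg (fun ω => D.zL 0 (j + 1) (slam F (w₀ + (j + 1) * z) ω))
    (fun ω => D.zL (i + 1) (j + 1) (slam F (w₀ + (j + 1) * z) ω)) (fun ω => (T ω, L ω))
  obtain ⟨ε, hε⟩ : ∃ ε : ℝ, ε = C₁ * (Real.log (S₁ * 2 ^ (2 * x)) + 1) := ⟨_, rfl⟩
  have hlog0 : 0 ≤ Real.log (S₁ * 2 ^ (2 * x)) :=
    Real.log_nonneg (one_le_mul_of_one_le_of_one_le hS₁ (two_one _))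
  have hε0 : 0 ≤ ε := by
    rw [hε]
    positivity
  have s7 := (D.cd n ρ).lab2_le (M := M) hq (fun ω => (V ω, (T ω, L ω))) (i := i + 1)
    (j := j + 1) hi hj (fun ω ω' a a' e => dT ω ω' a a' (Prod.ext_iff.mp e).2) (ε := ε) (by
    intro i' hi' j' hj' hij
    refine (val_zL hR hq _ w₀ z i' j').trans ?_
    rcases Nat.lt_or_ge j j' with h1 | h1
    · obtain rfl : j' = j + 1 := by omega
      rw [hε]
      refine hval h.ok hq hA i' hi' (j + 1) hj _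
        (fun ω ω' a a' e => dT ω ω' a a' (Prod.ext_iff.mp e).2) _ hlog0
        fun ω ω' hω hω' e => ?_
      rw [Real.exp_log (by positivity)]
      have e2 := Prod.ext_iff.mp e
      have e3 := Prod.ext_iff.mp e2.2
      simp only [hV, hT, Prod.mk.injEq] at e2 e3
      exact hmid h (i + 1) hi (j + 1) hj ω ω' (hA ω hω) (hA ω' hω') e3.1 e2.1.1 e2.1.2 i'
        (by omega)
    · refine le_trans (le_of_eq (CH_eq_zero hq.nonneg fun ω ω' _ _ e => ?_)) hε0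
      have e2 := Prod.ext_iff.mp (Prod.ext_iff.mp e).2
      exact dz i' j' h1 (by omega) ω ω' e2.2)
  have hV' : CH q V (fun ω => (T ω, L ω)) ≤
      C₁ * ((b₁ * z : ℕ) * Real.log 2 + 1) + C₁ * ((b₀ * z : ℕ) * Real.log 2 + 1) := by
    rw [hV]
    linarith
  rw [← hL]
  -- the numbers
  have n1 : z * Real.log 2 ≤ z := by nlinarith
  have n2 : ∀ b : ℕ, C₁ * ((b * z : ℕ) * Real.log 2 + 1) ≤ C₁ * (b + 1) * z := by
    intro b
    have hb : (0 : ℝ) ≤ b := Nat.cast_nonneg b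
    rw [mul_assoc]
    refine mul_le_mul_of_nonneg_left ?_ hC₁
    push_cast
    have : (b : ℝ) * z * Real.log 2 ≤ b * z * 1 := mul_le_mul_of_nonneg_left hl1 (by positivity)
    nlinarith
  have n3 : ε ≤ C₁ * (Real.log S₁ + 2) * (x + z' + 1) := by
    rw [hε, mul_assoc]
    refine mul_le_mul_of_nonneg_left ?_ hC₁
    have hx0 : (0 : ℝ) ≤ x := Nat.cast_nonneg x
    have hz0 : (0 : ℝ) ≤ z' := Nat.cast_nonneg z'
    rw [Real.log_mul (by positivity) (by positivity), Real.log_pow]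
    push_cast
    have n4 : 2 * (x : ℝ) * Real.log 2 ≤ 2 * x * 1 := mul_le_mul_of_nonneg_left hl1 (by positivity)
    have n5 : 0 ≤ Real.log S₁ * x := by positivity
    have n6 : 0 ≤ Real.log S₁ * z' := by positivity
    nlinarith
  have n4 := n2 b₁
  have n5 := n2 b₀
  have hM2 : (0 : ℝ) ≤ (M + 1) ^ 2 := by positivity
  have n6 : (M + 1 : ℝ) ^ 2 * ε ≤ (M + 1) ^ 2 *
      ((1 + C₁ * (b₁ + 1) + C₁ * (b₀ + 1) + C₁ * (Real.log S₁ + 2)) * (x + z' + 1)) := by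
    refine mul_le_mul_of_nonneg_left (n3.trans ?_) hM2
    refine mul_le_mul_of_nonneg_right ?_ (by positivity)
    have : 0 ≤ 1 + C₁ * (b₁ + 1) + C₁ * (b₀ + 1) := by positivity
    linarith
  have n7 : 0 ≤ C₁ * (Real.log S₁ + 2) * z := by positivity
  linarith

/-- **The heights over the reference.** -/
theorem hgt_ref (n K K' : ℕ) (hK' : 1 ≤ K') : ∃ b₀ z₀ : ℕ,
    ∀ {m J s₁ Λ Bc : ℕ} {sh : ℕ → ℕ} {F : Fam m J} {D : GDat F} {c : ℕ → Fin m} {a₀ w₀ z M : ℕ}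
    {e : ℕ → ℕ → ℕ} {g : ℕ → ℕ → ℕ → ℕ} {x z' : ℕ} {A : F.Ω → Prop},
    IsoD D c n K K' s₁ sh a₀ w₀ z M e g x Λ Bc z' A → z₀ ≤ z → ∀ i, i + 1 ≤ M → ∀ j ≤ M,
    ∀ ω ω₀, A ω → A ω₀ → F.T1 (w₀ + j * z) ω = F.T1 (w₀ + j * z) ω₀ →
    D.zL i j (slam F (w₀ + j * z) ω) = D.zL i j (slam F (w₀ + j * z) ω₀) →
    ∀ l, 1 ≤ l → l ≤ n → ∀ t : ℝ, Wn (tw F (w₀ + j * z) ω) (w₀ + j * z) t →
    |(2 : ℝ) ^ gs g (i + 1) j l * (ptt (pc c (slam F w₀ ω)) t l -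
      eval (ptt (pc c (slam F w₀ ω)) t) (Sy D c n w₀ z i j ω₀ l))| ≤ 2 ^ (b₀ * z) := by
  obtain ⟨S₀, hS₀, hsame⟩ := nb_same n K K' hK'
  obtain ⟨c₁, hc₁, hdil⟩ := NbP.dil n K
  obtain ⟨c₂, hc₂, h2⟩ := pw_comp c₁ 1 (1 + S₀) hc₁
  obtain ⟨z₀, hz₀⟩ := exists_nat_ge ((c₂ : ℝ) + 2)
  refine ⟨c₂ * (1 + 1) + 2, z₀, ?_⟩
  intro m J s₁ Λ Bc sh F D c a₀ w₀ z M e g x z' A h hz i hi j hj ω ω₀ hω hω₀ eT ez l l1 l2 t ht
  have hzz : (c₂ : ℝ) + 2 ≤ 2 ^ z := (hz₀.trans (by exact_mod_cast hz)).trans (two_ge z)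
  have hiM : i ≤ M := by omega
  have hnb := hsame h.ok i hiM j hj ω ω₀ hω hω₀ eT ez
  have t1 := tr_sy h.ok hiM hj ω
  have t2 := tr_sy h.ok hiM hj ω₀
  have how := h.own i hiM j hj ω hω
  have hp0 : ptt (pc c (slam F w₀ ω)) t 0 = t := by
    unfold ptt
    rw [pc_zero, Polynomial.eval_X]
  have h3 := hdil (R := 2 ^ z') t1 t2 (by linarith) (two_one _) hnb l l1 l2
    (ptt (pc c (slam F w₀ ω)) t) ⟨by rw [hp0]; exact ht, fun k k1 k2 => how k k1 (by omega) t ht⟩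
  have h4 := how l l1 l2 t ht
  have h5 : |ptt (pc c (slam F w₀ ω)) t l -
      eval (ptt (pc c (slam F w₀ ω)) t) (Sy D c n w₀ z i j ω₀ l)| ≤
      (2 ^ z' + ((c₁ : ℝ) * 2 ^ z') ^ c₁ * S₀) / 2 ^ gs g i j l := by
    have := abs_add_le (ptt (pc c (slam F w₀ ω)) t l -
      eval (ptt (pc c (slam F w₀ ω)) t) (Sy D c n w₀ z i j ω l))
      (eval (ptt (pc c (slam F w₀ ω)) t) (Sy D c n w₀ z i j ω l) -
        eval (ptt (pc c (slam F w₀ ω)) t) (Sy D c n w₀ z i j ω₀ l))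
    rw [sub_add_sub_cancel] at this
    refine (this.trans (add_le_add h4 h3)).trans (le_of_eq ?_)
    rw [← add_div]
  rw [abs_mul, abs_of_pos (by positivity)]
  have hY1 := two_one z'
  have h6 : (2 : ℝ) ^ z' + ((c₁ : ℝ) * 2 ^ z') ^ c₁ * S₀ ≤ ((c₂ : ℝ) * 2 ^ z') ^ c₂ := by
    have h7 := h2 c₂ le_rfl (2 ^ z') hY1
    rw [pow_one] at h7
    have h8 := pw_self hc₁ hY1
    nlinarith
  have h7 : ((c₂ : ℝ) * 2 ^ z') ^ c₂ ≤ 2 ^ (c₂ * (1 + 1) * z) := by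
    refine le_trans ?_ (pw_two (c := c₂) (a := 1) (z := z) (by linarith))
    refine pow_le_pow_left₀ (by positivity) (mul_le_mul_of_nonneg_left ?_ (by positivity)) _
    rw [one_mul]
    exact two_le h.zz
  have h8 : (2 : ℝ) ^ gs g (i + 1) j l ≤ 2 ^ (2 * z) * 2 ^ gs g i j l := two_mul_le (by
    have := (h.sds.r1 hi hj (l := l - 1) (by omega)).1
    have := h.sds.hx
    unfold gs
    omega)
  calc (2 : ℝ) ^ gs g (i + 1) j l * |ptt (pc c (slam F w₀ ω)) t l -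
        eval (ptt (pc c (slam F w₀ ω)) t) (Sy D c n w₀ z i j ω₀ l)| ≤
        (2 ^ (2 * z) * 2 ^ gs g i j l) * (2 ^ (c₂ * (1 + 1) * z) / 2 ^ gs g i j l) :=
        mul_le_mul h8 (h5.trans (div_le_div_of_nonneg_right (h6.trans h7) (by positivity)))
          (abs_nonneg _) (by positivity)
    _ = 2 ^ ((c₂ * (1 + 1) + 2) * z) := by
        rw [mul_assoc, mul_div_cancel₀ _ (by positivity : (2 : ℝ) ^ gs g i j l ≠ 0), ← pow_add]
        congr 1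
        ring

/-- **The new radius.** -/
theorem nb_new (n K K' : ℕ) (hK' : 1 ≤ K') : ∃ (c₀ : ℕ) (S₀ : ℝ), 1 ≤ c₀ ∧ 1 ≤ S₀ ∧
    ∀ {m J s₁ Λ Bc : ℕ} {sh : ℕ → ℕ} {F : Fam m J} {D : GDat F} {c : ℕ → Fin m} {a₀ w₀ z M : ℕ}
    {e : ℕ → ℕ → ℕ} {g : ℕ → ℕ → ℕ → ℕ} {x z' : ℕ} {A : F.Ω → Prop} {N Y : ℝ},
    IsoD D c n K K' s₁ sh a₀ w₀ z M e g x Λ Bc z' A → ∀ i, i + 1 ≤ M → ∀ j ≤ M,
    ∀ ω ω' ω₀, A ω → A ω' → A ω₀ → F.T1 (w₀ + j * z) ω = F.T1 (w₀ + j * z) ω₀ →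
    F.T1 (w₀ + j * z) ω' = F.T1 (w₀ + j * z) ω₀ →
    D.zL i j (slam F (w₀ + j * z) ω) = D.zL i j (slam F (w₀ + j * z) ω₀) →
    D.zL i j (slam F (w₀ + j * z) ω') = D.zL i j (slam F (w₀ + j * z) ω₀) →
    1 ≤ N → S₀ ≤ Y → N ≤ Y → (2 : ℝ) ^ z' ≤ Y → (2 : ℝ) ^ (4 * x) ≤ Y →
    (∀ l, 1 ≤ l → l ≤ n → ∀ a ≤ K,
      |(2 : ℝ) ^ gs g (i + 1) j l * (ptt (pc c (slam F w₀ ω)) (nod K (tw F (w₀ + j * z) ω₀)
          (w₀ + j * z) a) l - eval (ptt (pc c (slam F w₀ ω)) (nod K (tw F (w₀ + j * z) ω₀)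
          (w₀ + j * z) a)) (Sy D c n w₀ z i j ω₀ l)) -
        (2 : ℝ) ^ gs g (i + 1) j l * (ptt (pc c (slam F w₀ ω')) (nod K (tw F (w₀ + j * z) ω₀)
          (w₀ + j * z) a) l - eval (ptt (pc c (slam F w₀ ω')) (nod K (tw F (w₀ + j * z) ω₀)
          (w₀ + j * z) a)) (Sy D c n w₀ z i j ω₀ l))| ≤ N) →
    NbP n (Wn (tw F (w₀ + j * z) ω) (w₀ + j * z)) (gs g (i + 1) j) (((c₀ : ℝ) * Y) ^ c₀)
      (Sy D c n w₀ z (i + 1) j ω) (Sy D c n w₀ z (i + 1) j ω') := by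
  obtain ⟨S₀, hS₀, hsame⟩ := nb_same n K K' hK'
  obtain ⟨c₀, hc₀, hnwl⟩ := nwl n K
  refine ⟨c₀, S₀, hc₀, hS₀, ?_⟩
  intro m J s₁ Λ Bc sh F D c a₀ w₀ z M e g x z' A N Y h i hi j hj ω ω' ω₀ hω hω' hω₀ eT eT' ez ez'
    hN hSY hNY hzY hxY hnd
  have hiM : i ≤ M := by omega
  have e0 : tw F (w₀ + j * z) ω = tw F (w₀ + j * z) ω₀ := tw_eq eT.symm
  have e0' : tw F (w₀ + j * z) ω' = tw F (w₀ + j * z) ω₀ := tw_eq eT'.symm
  have n1 := hsame h.ok i hiM j hj ω ω₀ hω hω₀ eT ez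
  have n2 := hsame h.ok i hiM j hj ω' ω₀ hω' hω₀ eT' ez'
  have n3 := hsame h.ok i hiM j hj ω ω' hω hω' (eT.trans eT'.symm) (ez.trans ez'.symm)
  have t1 := tr_sy h.ok hiM hj ω
  have t2 := tr_sy h.ok hiM hj ω'
  have t3 := tr_sy h.ok hiM hj ω₀
  have hcom : ∀ ω, Sy D c n w₀ z (i + 1) j ω = Sy D c n w₀ z i j ω := fun ω => by
    rw [h.com.sy hi hj, h.com.sy hiM hj]
  have ow1 := h.own (i + 1) hi j hj ω hω
  have ow2 := h.own (i + 1) hi j hj ω' hω'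
  rw [hcom] at ow1 ow2
  rw [hcom, hcom]
  rw [e0] at n1 n3 ow1
  rw [e0'] at n2 ow2
  rw [e0]
  have hx := h.sds.hx
  refine hnwl (S := S₀) (E := 2 ^ z') (N := N) (x := 4 * x) (g₀ := gs g i j)
    (g₁ := gs g (i + 1) j) t1 t2 t3 hS₀ (two_one _) hN hSY hzY hNY hxY
    (pc_zero c _) (pc_zero c _) (pc_deg c _) (fun k k1 k2 => ?_) (fun l l2 k k1 k2 => ?_) n1 n2 n3
    ow1 ow2 (fun l l1 l2 a ha => ?_)
  · have := (h.sds.r1 hi hj (l := k - 1) (by omega)).2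
    unfold gs
    omega
  · have h1 := (h.sds.r1 hi hj (l := l - 1) (by omega)).1
    have h2 := (h.sds.r1 hi hj (l := k - 1) (by omega)).2
    unfold gs
    omega
  · have h1 := hnd l l1 l2 a ha
    rw [← mul_sub, abs_mul, abs_of_pos (by positivity)] at h1
    rw [le_div_iff₀ (by positivity)]
    linarith

/-- A representative of every fibre. -/
theorem rep_ex {Ω V : Type} [Fintype Ω] {q : Ω → ℝ} (hq : IsLaw q) (y : Ω → V) :
    ∃ rep : V → Ω, ∀ ω, 0 < q ω → 0 < q (rep (y ω)) ∧ y (rep (y ω)) = y ω := by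
  classical
  have hne : Nonempty Ω := by
    by_contra hne
    rw [not_nonempty_iff] at hne
    have := hq.sum_one
    rw [Finset.univ_eq_empty, Finset.sum_empty] at this
    exact zero_ne_one this
  have h1 : ∀ v : V, ∃ ω₀ : Ω, ∀ ω, 0 < q ω → y ω = v → 0 < q ω₀ ∧ y ω₀ = v := by
    intro v
    by_cases h : ∃ ω, 0 < q ω ∧ y ω = v
    · obtain ⟨ω₀, h1, h2⟩ := h
      exact ⟨ω₀, fun _ _ _ => ⟨h1, h2⟩⟩
    · exact ⟨Classical.arbitrary Ω, fun ω h1 h2 => absurd ⟨ω, h1, h2⟩ h⟩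
  choose rep hrep using h1
  exact ⟨rep, fun ω hω => hrep (y ω) ω hω rfl⟩

/-- **The context at `(i + 1, j)`.** -/
theorem i_few (n K K' s₁ Λ Bc : ℕ) (sh : ℕ → ℕ) (hK' : 1 ≤ K') : ∃ (C : ℝ) (z₀ : ℕ), 0 ≤ C ∧
    ∀ {m J : ℕ} {F : Fam m J} {D : GDat F} {c : ℕ → Fin m} {a₀ w₀ z M : ℕ}
    {e : ℕ → ℕ → ℕ} {g : ℕ → ℕ → ℕ → ℕ} {x z' : ℕ} {A : F.Ω → Prop} {R : ℕ → ℕ → Type}
    {ρ : (i j : ℕ) → LnT F → R i j} {q : F.Ω → ℝ},
    IsoD D c n K K' s₁ sh a₀ w₀ z M e g x Λ Bc z' A → (∀ i j, Subsingleton (R i j)) → z₀ ≤ z →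
    IsLaw q → (∀ ω, 0 < q ω → A ω) → ∀ i < M, ∀ j ≤ M,
    CH q ((D.cd n ρ).lab2 w₀ z (i + 1) j) ((D.cd n ρ).lab2 w₀ z i j) ≤
      C * z + (M + 1) ^ 2 * (C * (x + z' + 1)) := by
  obtain ⟨C₁, hC₁, hval⟩ := val_nb n K K' s₁ sh hK'
  obtain ⟨b₀, z₁, hdown⟩ := nb_down n K K' Λ Bc hK'
  obtain ⟨b₁, z₂, hgt⟩ := hgt_ref n K K' hK'
  obtain ⟨c₀, S₀, hc₀, hS₀, hnew⟩ := nb_new n K K' hK'
  obtain ⟨N₀, hvol⟩ := vol_ctx (2 * n) (K + 1)
  obtain ⟨Nr, hNr⟩ : ∃ Nr : ℝ, Nr = N₀ + 1 := ⟨_, rfl⟩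
  have hNr1 : 1 ≤ Nr := by
    rw [hNr]
    have : (0 : ℝ) ≤ N₀ := Nat.cast_nonneg _
    linarith
  have hl1 := log2_le
  have hl0 := log2_pos
  have hc1 : (1 : ℝ) ≤ c₀ := by exact_mod_cast hc₀
  obtain ⟨Cy, hCy⟩ : ∃ Cy : ℝ, Cy = C₁ * (c₀ * (Real.log (c₀ * (S₀ * Nr)) + 4) + 1) := ⟨_, rfl⟩
  have hlog0 : 0 ≤ Real.log (c₀ * (S₀ * Nr)) := Real.log_nonneg
    (one_le_mul_of_one_le_of_one_le hc1 (one_le_mul_of_one_le_of_one_le hS₀ hNr1))
  have hCy0 : 0 ≤ Cy := by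
    rw [hCy]
    positivity
  refine ⟨C₁ * (b₀ + 1) + N₀ * (b₁ + 3) + Cy, max 1 (max z₁ z₂), by positivity, ?_⟩
  intro m J F D c a₀ w₀ z M e g x z' A R ρ q h hR hz hq hA i hi j hj
  have hz1 : 1 ≤ z := (le_max_left _ _).trans hz
  have hz2 : z₁ ≤ z := ((le_max_left _ _).trans (le_max_right _ _)).trans hz
  have hz3 : z₂ ≤ z := ((le_max_right _ _).trans (le_max_right _ _)).trans hz
  have hzr : (1 : ℝ) ≤ z := by exact_mod_cast hz1
  have hww : ∀ j' ≤ j, w₀ + j' * z ≤ w₀ + j * z := fun j' hj' =>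
    Nat.add_le_add_left (Nat.mul_le_mul_right z hj') w₀
  have hwJ : w₀ + j * z ≤ J := (Nat.add_le_add_left (Nat.mul_le_mul_right z hj) w₀).trans h.wJ
  obtain ⟨L, hL⟩ : ∃ L, L = (D.cd n ρ).lab2 w₀ z i j := ⟨_, rfl⟩
  have dT : ∀ ω ω', L ω = L ω' → ∀ j' ≤ j, F.T1 (w₀ + j' * z) ω = F.T1 (w₀ + j' * z) ω' := by
    intro ω ω' e j' hj'
    rw [hL] at e
    exact CDat2.T1_slam F (hww j' hj') hwJ (congrArg (·.2) e)
  have dz : ∀ i' j', j' ≤ j → i' + j ≤ i + j' → ∀ ω ω', L ω = L ω' →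
      D.zL i' j' (slam F (w₀ + j' * z) ω) = D.zL i' j' (slam F (w₀ + j' * z) ω') := by
    intro i' j' h1 h2 ω ω' e
    rw [hL] at e
    have h5 := CDat2.lab2_val (D.cd n ρ) (i' := i') (j' := j') h1 h2 e
    exact congrArg (fun v : LV × R i' j' => v.1) h5
  obtain ⟨rep, hrep⟩ := rep_ex hq L
  -- the value at `(0, j - (i + 1))`
  obtain ⟨V, hV⟩ : ∃ V : F.Ω → Option LV, V = fun ω => if i + 1 ≤ j then
      some (D.zL 0 (j - (i + 1)) (slam F (w₀ + (j - (i + 1)) * z) ω)) else none := ⟨_, rfl⟩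
  have hVL : CH q V L ≤ C₁ * (b₀ + 1) * z := by
    by_cases hij : i + 1 ≤ j
    · have h1 : CH q V L ≤ CH q (fun ω => D.zL 0 (j - (i + 1))
          (slam F (w₀ + (j - (i + 1)) * z) ω)) L := by
        refine CH_mono_left hq.nonneg fun ω ω' _ _ e => ?_
        simp only [Prod.mk.injEq] at e
        rw [hV]
        simp only [if_pos hij]
        rw [e.1]
      have hj0 : j - (i + 1) + 1 ≤ j := by omega
      have h2 := hval h.ok hq hA 0 (Nat.zero_le M) (j - (i + 1)) (by omega) L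
        (fun ω ω' _ _ e => dT ω ω' e _ (by omega)) ((b₀ * z : ℕ) * Real.log 2) (by positivity)
        (fun ω ω' hω hω' e => by
          rw [exp_two]
          exact hdown h hz2 (j - (i + 1)) (by omega) ω ω' (hA ω hω) (hA ω' hω')
            (dT ω ω' e _ hj0) (dz 0 (j - (i + 1) + 1) hj0 (by omega) ω ω' e))
      refine h1.trans (h2.trans ?_)
      rw [mul_assoc]
      refine mul_le_mul_of_nonneg_left ?_ hC₁
      push_cast
      have hb : (0 : ℝ) ≤ b₀ := Nat.cast_nonneg b₀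
      have : (b₀ : ℝ) * z * Real.log 2 ≤ b₀ * z * 1 :=
        mul_le_mul_of_nonneg_left hl1 (by positivity)
      nlinarith
    · refine le_trans (le_of_eq (CH_eq_zero hq.nonneg fun ω ω' _ _ e => ?_)) (by positivity)
      rw [hV]
      simp only [if_neg hij]
  -- the heights
  obtain ⟨P, hP⟩ : ∃ P : ((((i' j' : ℕ) → Option ((D.cd n ρ).V i' j')) × ℕ)) →
      (Fin (M + 1) × Fin (K + 1) × Fin n) → PN, P = fun v r =>
      if r.1.1 ≤ j ∧ j ≤ i + r.1.1 then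
        hp (2 ^ gs g (i + r.1.1 - j + 1) r.1.1 (r.2.2 + 1))
          (nod K (tw F (w₀ + r.1.1 * z) (rep v)) (w₀ + r.1.1 * z) r.2.1)
          (Sy D c n w₀ z (i + r.1.1 - j) r.1.1 (rep v)) (r.2.2 + 1) else 0 := ⟨_, rfl⟩
  obtain ⟨u, hu1, hu2⟩ := hvol (q := q) hq L (fun ω => lpar c (slam F w₀ ω)) P
    (2 ^ (b₁ * z)) (two_one _) (fun v r => by
      rw [hP]
      simp only
      split_ifs with h1
      · exact hp_vars _ _ sy_tri (by have := r.2.2.2; omega)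
      · rw [vars_0]
        exact Finset.empty_subset _) (fun v r => by
      rw [hP]
      simp only
      split_ifs with h1
      · have hr := r.1.2
        have hi' : i + r.1.1 - j ≤ M := by omega
        exact hp_deg _ _ (tr_sy h.ok hi' (by omega) _).deg _
      · rw [totalDegree_zero]
        exact Nat.zero_le _) (fun ω hω r => by
      rw [hP]
      simp only
      split_ifs with h1
      · have hr := r.1.2
        obtain ⟨hq0, hL0⟩ := hrep ω hω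
        have e1 : tw F (w₀ + r.1.1 * z) (rep (L ω)) = tw F (w₀ + r.1.1 * z) ω :=
          tw_eq (dT ω _ hL0.symm _ h1.1)
        rw [eval_hp, e1]
        exact hgt h hz3 (i + r.1.1 - j) (by omega) r.1.1 (by omega) ω (rep (L ω)) (hA ω hω)
          (hA _ hq0) (dT ω _ hL0.symm _ h1.1) (dz _ _ h1.1 (by omega) ω _ hL0.symm) (r.2.2 + 1)
          (by omega) (by have := r.2.2.2; omega) _ (nod_win (by have := r.2.1.2; omega))
      · rw [map_zero, abs_zero]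
        positivity)
  -- the few bits
  have s1 := CH_le_add hq.nonneg ((D.cd n ρ).lab2 w₀ z (i + 1) j) (fun ω => (V ω, u ω)) L
  have s2 := CH_subadd hq.nonneg V u L
  obtain ⟨Y, hY⟩ : ∃ Y : ℝ, Y = S₀ * Nr * (2 ^ z' * 2 ^ (4 * x)) := ⟨_, rfl⟩
  have p1 := two_one z'
  have p2 := two_one (4 * x)
  have p3 : 1 ≤ S₀ * Nr := one_le_mul_of_one_le_of_one_le hS₀ hNr1
  have p4 : (1 : ℝ) ≤ 2 ^ z' * 2 ^ (4 * x) := one_le_mul_of_one_le_of_one_le p1 p2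
  have hY1 : 1 ≤ Y := by
    rw [hY]
    exact one_le_mul_of_one_le_of_one_le p3 p4
  have hSY : S₀ ≤ Y := by
    rw [hY]
    calc S₀ = S₀ * 1 * 1 := by ring
      _ ≤ S₀ * Nr * (2 ^ z' * 2 ^ (4 * x)) := mul_le_mul (mul_le_mul_of_nonneg_left hNr1
          (by linarith)) p4 (by norm_num) (by positivity)
  have hNY : Nr ≤ Y := by
    rw [hY]
    calc Nr = 1 * Nr * 1 := by ring
      _ ≤ S₀ * Nr * (2 ^ z' * 2 ^ (4 * x)) := mul_le_mul (mul_le_mul_of_nonneg_right hS₀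
          (by linarith)) p4 (by norm_num) (by positivity)
  have hzY : (2 : ℝ) ^ z' ≤ Y := by
    rw [hY]
    calc (2 : ℝ) ^ z' = 1 * (2 ^ z' * 1) := by ring
      _ ≤ S₀ * Nr * (2 ^ z' * 2 ^ (4 * x)) := mul_le_mul p3
          (mul_le_mul_of_nonneg_left p2 (by positivity)) (by positivity) (by positivity)
  have hxY : (2 : ℝ) ^ (4 * x) ≤ Y := by
    rw [hY]
    calc (2 : ℝ) ^ (4 * x) = 1 * (1 * 2 ^ (4 * x)) := by ring
      _ ≤ S₀ * Nr * (2 ^ z' * 2 ^ (4 * x)) := mul_le_mul p3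
          (mul_le_mul_of_nonneg_right p1 (by positivity)) (by positivity) (by positivity)
  obtain ⟨ε, hε⟩ : ∃ ε : ℝ, ε = C₁ * (Real.log (((c₀ : ℝ) * Y) ^ c₀) + 1) := ⟨_, rfl⟩
  have hcY : 1 ≤ (c₀ : ℝ) * Y := one_le_mul_of_one_le_of_one_le hc1 hY1
  have hlY : 0 ≤ Real.log (((c₀ : ℝ) * Y) ^ c₀) := Real.log_nonneg (one_le_pow₀ hcY)
  have hε0 : 0 ≤ ε := by
    rw [hε]
    positivity
  have s7 := (D.cd n ρ).lab2_le (M := M) hq (fun ω => ((V ω, u ω), L ω)) (i := i + 1)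
    (j := j) hi hj (fun ω ω' _ _ e => dT ω ω' (Prod.ext_iff.mp e).2 j le_rfl) (ε := ε) (by
    intro i' hi' j' hj' hij
    refine (val_zL hR hq _ w₀ z i' j').trans ?_
    by_cases h1 : i' + j ≤ i + j'
    · refine le_trans (le_of_eq (CH_eq_zero hq.nonneg fun ω ω' _ _ e => ?_)) hε0
      exact dz i' j' hj' h1 ω ω' (Prod.ext_iff.mp e).2
    · rcases Nat.eq_zero_or_pos i' with rfl | h2
      · refine le_trans (le_of_eq (CH_eq_zero hq.nonneg fun ω ω' _ _ e => ?_)) hε0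
        have e1 := (Prod.ext_iff.mp (Prod.ext_iff.mp e).1).1
        simp only [hV] at e1
        rw [if_pos (by omega), if_pos (by omega)] at e1
        have e2 : j - (i + 1) = j' := by omega
        rw [e2] at e1
        exact Option.some.inj e1
      · obtain ⟨i'', rfl⟩ : ∃ i'', i' = i'' + 1 := ⟨i' - 1, by omega⟩
        rw [hε]
        refine hval h.ok hq hA (i'' + 1) hi' j' (by omega) _
          (fun ω ω' _ _ e => dT ω ω' (Prod.ext_iff.mp e).2 j' hj') _ hlY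
          fun ω ω' hω hω' e => ?_
        rw [Real.exp_log (by positivity)]
        obtain ⟨e1, e2⟩ := Prod.ext_iff.mp e
        simp only at e1 e2
        have e3 := (Prod.ext_iff.mp e1).2
        simp only at e3
        obtain ⟨hq0, hL0⟩ := hrep ω hω
        have hij2 : i'' + j ≤ i + j' := by omega
        refine hnew h i'' hi' j' (by omega) ω ω' (rep (L ω)) (hA ω hω) (hA ω' hω') (hA _ hq0)
          (dT ω _ hL0.symm _ hj') (dT ω' _ (e2.symm.trans hL0.symm) _ hj')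
          (dz _ _ hj' hij2 ω _ hL0.symm) (dz _ _ hj' hij2 ω' _ (e2.symm.trans hL0.symm))
          hNr1 hSY hNY hzY hxY fun l l1 l2 a ha => ?_
        have h3 := hu2 ω ω' hω hω' e2 e3
          (⟨j', by omega⟩, ⟨a, by omega⟩, ⟨l - 1, by omega⟩)
        rw [← e2] at h3
        simp only [hP] at h3
        have e4 : i + j' - j = i'' := by omega
        rw [if_pos ⟨hj', by omega⟩, e4, Nat.sub_add_cancel l1, eval_hp, eval_hp] at h3
        refine h3.trans ?_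
        rw [hNr]
        linarith)
  rw [← hL]
  -- the numbers
  have n1 : N₀ * Real.log (2 * 2 ^ (b₁ * z) + 3) ≤ N₀ * (b₁ + 3) * z := by
    rw [mul_assoc]
    refine mul_le_mul_of_nonneg_left ?_ (Nat.cast_nonneg _)
    have h1 := two_one (b₁ * z)
    have h2 : (2 : ℝ) * 2 ^ (b₁ * z) + 3 ≤ 2 ^ (b₁ * z + 3) := by
      rw [pow_add]
      linarith
    have h3 := Real.log_le_log (by positivity) h2
    rw [Real.log_pow] at h3
    refine h3.trans ?_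
    push_cast
    have h4 : ((b₁ : ℝ) * z + 3) * Real.log 2 ≤ ((b₁ : ℝ) * z + 3) * 1 :=
      mul_le_mul_of_nonneg_left hl1 (by positivity)
    nlinarith
  have n3 : ε ≤ Cy * (x + z' + 1) := by
    rw [hε, hCy, mul_assoc]
    refine mul_le_mul_of_nonneg_left ?_ hC₁
    have hx0 : (0 : ℝ) ≤ x := Nat.cast_nonneg x
    have hz0 : (0 : ℝ) ≤ z' := Nat.cast_nonneg z'
    rw [Real.log_pow, hY]
    have e1 : (c₀ : ℝ) * (S₀ * Nr * (2 ^ z' * 2 ^ (4 * x))) =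
        c₀ * (S₀ * Nr) * 2 ^ (z' + 4 * x) := by
      rw [pow_add]
      ring
    rw [e1, Real.log_mul (by positivity) (by positivity), Real.log_pow]
    push_cast
    have n4 : (z' + 4 * (x : ℝ)) * Real.log 2 ≤ (z' + 4 * x) * 1 :=
      mul_le_mul_of_nonneg_left hl1 (by positivity)
    have n5 : 0 ≤ Real.log (c₀ * (S₀ * Nr)) * (x + z') := by positivity
    have n6 : Real.log (c₀ * (S₀ * Nr)) + (z' + 4 * x) * Real.log 2 ≤
        (Real.log (c₀ * (S₀ * Nr)) + 4) * (x + z' + 1) := by nlinarith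
    have n7 := mul_le_mul_of_nonneg_left n6 (by linarith : (0 : ℝ) ≤ c₀)
    have n8 : (0 : ℝ) ≤ x + z' := by positivity
    nlinarith
  have hM2 : (0 : ℝ) ≤ (M + 1) ^ 2 := by positivity
  have n6 : (M + 1 : ℝ) ^ 2 * ε ≤ (M + 1) ^ 2 *
      ((C₁ * (b₀ + 1) + N₀ * (b₁ + 3) + Cy) * (x + z' + 1)) := by
    refine mul_le_mul_of_nonneg_left (n3.trans ?_) hM2
    refine mul_le_mul_of_nonneg_right ?_ (by positivity)
    have : 0 ≤ C₁ * (b₀ + 1) + N₀ * (b₁ + 3) := by positivity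
    linarith
  have n7 : 0 ≤ Cy * z := by positivity
  linarith

end Pool.STAT.OKI
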