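import Pool.Agent.H40.ISO.Hta
import Pool.Agent.H40.ISO.Tbr

/-!
# Reference charts: the slopes of the own heights and the coefficients

`rf_tr`: the reference charts are affine. `rf_own`: the own heights over the reference charts are
small in the window. `rf_vlo`: the slopes. `rf_cofB`, `rf_cofT`: the coefficients, the exponent of
the steep last level enters once.
-/

set_option autoImplicit false

namespace Pool.STAT.OKI

open Finset MvPolynomial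
open Pool.Agent.H49.Ent Pool.Agent.H32.Dense Pool.STK Pool.KS3 Pool.KA Pool.KSAT Pool.PB Pool.GEN
open Pool.K2S Pool.S6C Pool.STAT.CLO Pool.STAT.Glu

variable {m J : ℕ}

/-- The reference charts are affine. -/
theorem rf_tr {F : Fam m J} {D : GDat F} {c : ℕ → Fin m} {n w₀ z M j₀ : ℕ} {g₀ : ℕ → ℕ → ℕ}
    {G' : ℕ → PtT F → ℕ → MvPolynomial (Option (Fin m)) ℝ}
    {H' : ℕ → LnT F → ℕ → MvPolynomial (Option (Fin m)) ℝ} {S : ℝ} {W : Type} {cp : PtT F → W}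
    {cs : LnT F → W} {Rf : ℕ → W → ℕ → PN} {B : F.Ω → Prop} {e' : ℕ → ℕ} {g' : ℕ → ℕ → ℕ} {j : ℕ}
    (hR : RefC D c n w₀ z M j₀ g₀ H' S cp cs Rf B)
    (hch : ChOK F c n (fun _ => 1) (w₀ + j * z) (w₀ + j * z) (e' j) (g' j) B (G' j) (H' j))
    (v : W) : Tr 1 (Rf j v) := by
  obtain ⟨s, hs⟩ := hR.ref j v
  rw [hs]
  exact tr_hx hch _ _

/-- **The own heights over the reference charts** are small in the window. -/
theorem rf_own {F : Fam m J} {D : GDat F} {c : ℕ → Fin m} {n K K' s₁ : ℕ} {sh : ℕ → ℕ}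
    {a₀ w₀ z M j₀ : ℕ} {e : ℕ → ℕ → ℕ} {g : ℕ → ℕ → ℕ → ℕ} {lo hi : ℕ → ℕ → ℝ} {e₀ : ℕ → ℕ}
    {g₀ : ℕ → ℕ → ℕ} {A : F.Ω → Prop} {G₀ : ℕ → PtT F → ℕ → MvPolynomial (Option (Fin m)) ℝ}
    {H₀ H' : ℕ → LnT F → ℕ → MvPolynomial (Option (Fin m)) ℝ} {S : ℝ} {W : Type}
    {cp : PtT F → W} {cs : LnT F → W} {Rf : ℕ → W → ℕ → PN} {j : ℕ}
    (hD : D.Ok c n K K' s₁ sh a₀ w₀ z M e g A)
    (hb : BalG D.G D.H c n K M w₀ z lo hi e₀ g₀ G₀ H₀ A)
    (hR : RefC D c n w₀ z M j₀ g₀ H' S cp cs Rf A) (hc : Inj c n) (hj₀ : j₀ ≤ M) (hj : j ≤ j₀)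
    {ω : F.Ω} (hω : A ω) {l : ℕ} (l1 : 1 ≤ l) (ln : l ≤ n) {t : ℝ}
    (ht : Wn (tw F (w₀ + j * z) ω) (w₀ + j * z) t) (w' : ℕ) :
    |ohg F c w' (Rf j (cs (slam F (w₀ + j₀ * z) ω))) t l ω| ≤ S / 2 ^ g₀ j (l - 1) := by
  have key : ∀ k, 1 ≤ k → k ≤ n → ohg F c w' (Sy D c n w₀ z 0 j ω) t k ω = 0 := by
    intro k k1 k2
    obtain ⟨k, rfl⟩ : ∃ k', k = k' + 1 := ⟨k - 1, by omega⟩
    have h1 : D.H 0 j (slam F (w₀ + j * z) ω) k =
        Hno (c k) (fun s => H₀ j s k) (slam F (w₀ + j * z) ω) :=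
      congrFun (congrFun (hb.eqH 0 (Nat.zero_le M) j (hj.trans hj₀)) (slam F (w₀ + j * z) ω)) k
    exact own_hno hc ((hD.chn 0 (Nat.zero_le M) j (hj.trans hj₀)).depH (slam F (w₀ + j * z) ω))
      ((hb.ball j (hj.trans hj₀)).depH (slam F (w₀ + j * z) ω)) (w₀ + j * z)
      (show k < n by omega) h1 t
  have e0 : ptt (pc c (slam F w' ω)) t 0 = t := by
    unfold ptt
    rw [pc_zero, Polynomial.eval_X]
  have h2 := hR.near 0 (Nat.zero_le M) j hj ω hω l l1 ln (ptt (pc c (slam F w' ω)) t) ⟨by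
    rw [e0]
    exact ht, fun k k1 k2 => by
      have h3 := key k k1 (by omega)
      unfold ohg at h3
      rw [h3, abs_zero]
      positivity⟩
  have h3 := key l l1 ln
  unfold ohg at h3 ⊢
  have e1 : ptt (pc c (slam F w' ω)) t l -
      eval (ptt (pc c (slam F w' ω)) t) (Rf j (cs (slam F (w₀ + j₀ * z) ω)) l) =
      (ptt (pc c (slam F w' ω)) t l - eval (ptt (pc c (slam F w' ω)) t) (Sy D c n w₀ z 0 j ω l)) +
      (eval (ptt (pc c (slam F w' ω)) t) (Sy D c n w₀ z 0 j ω l) -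
      eval (ptt (pc c (slam F w' ω)) t) (Rf j (cs (slam F (w₀ + j₀ * z) ω)) l)) := by ring
  rw [e1, h3, zero_add]
  exact h2

/-- **The slopes of the own heights over the reference charts.** -/
theorem rf_vlo {F : Fam m J} {D : GDat F} {c : ℕ → Fin m} {n K K' s₁ : ℕ} {sh : ℕ → ℕ}
    {a₀ w₀ z M j₀ : ℕ} {e : ℕ → ℕ → ℕ} {g : ℕ → ℕ → ℕ → ℕ} {lo hi : ℕ → ℕ → ℝ} {e₀ : ℕ → ℕ}
    {g₀ : ℕ → ℕ → ℕ} {A : F.Ω → Prop} {G₀ : ℕ → PtT F → ℕ → MvPolynomial (Option (Fin m)) ℝ}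
    {H₀ H' : ℕ → LnT F → ℕ → MvPolynomial (Option (Fin m)) ℝ} {S : ℝ} {W : Type}
    {cp : PtT F → W} {cs : LnT F → W} {Rf : ℕ → W → ℕ → PN} {j : ℕ}
    (hD : D.Ok c n K K' s₁ sh a₀ w₀ z M e g A)
    (hb : BalG D.G D.H c n K M w₀ z lo hi e₀ g₀ G₀ H₀ A)
    (hR : RefC D c n w₀ z M j₀ g₀ H' S cp cs Rf A) (hc : Inj c n) (hj₀ : j₀ ≤ M) (hj : j ≤ j₀)
    (hT : ∀ v, Tr 1 (Rf j v)) {ω : F.Ω} (hω : A ω) {l : ℕ} (l1 : 1 ≤ l) (ln : l ≤ n) :
    |vlo F c (Rf j (cs (slam F (w₀ + j₀ * z) ω))) l ω| ≤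
      S * 2 ^ (w₀ + j * z) / 2 ^ g₀ j (l - 1) := by
  have hp : (0 : ℝ) < 1 / 2 ^ (w₀ + j * z) := by positivity
  have pg : (0 : ℝ) < 2 ^ g₀ j (l - 1) := by positivity
  have k1 := rf_own hD hb hR hc hj₀ hj hω l1 ln
    (t := tw F (w₀ + j * z) ω + 1 / 2 ^ (w₀ + j * z)) (by
      unfold Wn
      rw [add_sub_cancel_left, abs_of_pos hp]) 0
  have k2 := rf_own hD hb hR hc hj₀ hj hω l1 ln
    (t := tw F (w₀ + j * z) ω - 1 / 2 ^ (w₀ + j * z)) (by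
      unfold Wn
      rw [sub_sub_cancel_left, abs_neg, abs_of_pos hp]) 0
  rw [ohg_aff (hT _) _ l1] at k1 k2
  obtain ⟨Ψ, hΨ⟩ : ∃ Ψ, Ψ = Rf j (cs (slam F (w₀ + j₀ * z) ω)) := ⟨_, rfl⟩
  rw [← hΨ] at k1 k2 ⊢
  obtain ⟨a, ha⟩ : ∃ a, a = F.x ω (c (l - 1)) - (coeff 0 (Ψ l) +
    ∑ k ∈ range l, cfo Ψ l k * xs F c ω k) := ⟨_, rfl⟩
  rw [← ha] at k1 k2
  obtain ⟨v, hv⟩ : ∃ v, v = vlo F c Ψ l ω := ⟨_, rfl⟩
  rw [← hv] at k1 k2 ⊢
  obtain ⟨u, hu⟩ : ∃ u : ℝ, u = 2 ^ (w₀ + j * z) := ⟨_, rfl⟩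
  have u0 : 0 < u := by rw [hu]; positivity
  rw [← hu] at k1 k2 ⊢
  have h3 : |2 * (1 / u) * v| ≤ 2 * (S / 2 ^ g₀ j (l - 1)) := by
    have e2 : 2 * (1 / u) * v =
        (a + (tw F (w₀ + j * z) ω + 1 / u - F.t ω) * v) -
        (a + (tw F (w₀ + j * z) ω - 1 / u - F.t ω) * v) := by ring
    rw [e2]
    refine (abs_sub _ _).trans ?_
    linarith
  rw [abs_mul, abs_of_pos (by positivity : (0 : ℝ) < 2 * (1 / u)), mul_assoc] at h3
  have h4 : 1 / u * |v| ≤ S / 2 ^ g₀ j (l - 1) := by linarith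
  rw [le_div_iff₀ pg] at h4 ⊢
  have h5 : |v| * 2 ^ g₀ j (l - 1) = u * (1 / u * |v| * 2 ^ g₀ j (l - 1)) := by
    field_simp
  rw [h5, mul_comm S u]
  exact mul_le_mul_of_nonneg_left h4 u0.le

/-- The loss of an almost nondecreasing scale. -/
theorem nlp_x {g : ℕ → ℕ} {x l k : ℕ} (h : ∀ k < l, g k ≤ g l + x) : nlp g k l ≤ x := by
  unfold nlp
  have h1 : (Finset.Icc k l).sup g ≤ g l + x := Finset.sup_le fun i hi => by
    rw [Finset.mem_Icc] at hi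
    rcases Nat.lt_or_ge i l with h2 | h2
    · exact h i h2
    · rw [show i = l by omega]
      exact Nat.le_add_right _ _
  omega

theorem pwn_le (n q : ℕ) : pwn n q ≤ (n + 1) ^ 3 * (q + 1) := by
  unfold pwn
  nlinarith [Nat.zero_le (n ^ 3 * q), Nat.zero_le (n ^ 2), Nat.zero_le (n * q), Nat.zero_le n,
    Nat.zero_le (n ^ 2 * q), Nat.zero_le (n ^ 3), Nat.zero_le q]

theorem inj_sub {c : ℕ → Fin m} {n n' : ℕ} (hc : Inj c n) (h : n' ≤ n) : Inj c n' :=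
  fun l hl l' hl' e => hc l (by omega) l' (by omega) e

/-- The exponent of the base levels of the charts of the line. -/
def rbn (n e x : ℕ) : ℕ := pwn n (e + x) + e + x + 2

/-- **The base levels of the charts of the line.** -/
theorem hx_cofB {F : Fam m J} {c : ℕ → Fin m} {n w e x : ℕ} {g : ℕ → ℕ} {A : F.Ω → Prop}
    {G : PtT F → ℕ → MvPolynomial (Option (Fin m)) ℝ}
    {H : LnT F → ℕ → MvPolynomial (Option (Fin m)) ℝ} (hw : w ≤ J) (hc : Inj c n)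
    (hch : ChOK F c (n - 1) (fun _ => 1) w w e g A G H)
    (hg : ∀ l < n, ∀ k < l, g k ≤ g l + x) {l k : ℕ} (hl : l + 1 < n) (hk : k < l) {ω : F.Ω}
    (hω : A ω) : |cfo (Hx c n w H (slam F w ω)) (l + 1) (k + 1)| ≤ 2 ^ rbn n e x := by
  have h1 := cf_hx (x₀ := x) (x := x) (show 1 ≤ n - 1 by omega) hw
    (inj_sub hc (Nat.sub_le n 1)) hch hω (show l < n - 1 by omega)
    (fun i hi k hk => nlp_x (hg i (by omega))) (fun k hk => nlp_x (hg l (by omega))) hk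
  have e1 : Hx c (n - 1) w H (slam F w ω) (l + 1) = Hx c n w H (slam F w ω) (l + 1) := by
    have a1 : Hx c (n - 1) w H (slam F w ω) (l + 1) = tr c l (H (slam F w ω) l) :=
      sy_succ (show l < n - 1 by omega)
    have a2 : Hx c n w H (slam F w ω) (l + 1) = tr c l (H (slam F w ω) l) :=
      sy_succ (show l < n by omega)
    rw [a1, a2]
  unfold cfo at h1 ⊢
  rw [← e1]
  refine h1.trans (pow_le_pow_right₀ (by norm_num) ?_)
  unfold rbn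
  have h2 : pwn (n - 1) (e + x) ≤ pwn n (e + x) := by
    unfold pwn
    have h3 : n - 1 ≤ n := Nat.sub_le n 1
    gcongr
  omega

/-- **The base levels of the charts at the point.** -/
theorem gx_cofB {F : Fam m J} {c : ℕ → Fin m} {n w e x : ℕ} {g : ℕ → ℕ} {A : F.Ω → Prop}
    {G : PtT F → ℕ → MvPolynomial (Option (Fin m)) ℝ}
    {H : LnT F → ℕ → MvPolynomial (Option (Fin m)) ℝ} (hc : Inj c n)
    (hch : ChOK F c (n - 1) (fun _ => 1) w w e g A G H)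
    (hg : ∀ l < n, ∀ k < l, g k ≤ g l + x) {l k : ℕ} (hl : l + 1 < n) (hk : k < l) {ω : F.Ω}
    (hω : A ω) : |cfo (Gx c n G (ptr F J ω)) (l + 1) (k + 1)| ≤ 2 ^ (e + x) := by
  have h1 := cf_gx (inj_sub hc (Nat.sub_le n 1)) hch hω (show l < n - 1 by omega) hk
  have e1 : Gx c (n - 1) G (ptr F J ω) (l + 1) = Gx c n G (ptr F J ω) (l + 1) := by
    have a1 : Gx c (n - 1) G (ptr F J ω) (l + 1) = tr c l (G (ptr F J ω) l) :=
      sy_succ (show l < n - 1 by omega)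
    have a2 : Gx c n G (ptr F J ω) (l + 1) = tr c l (G (ptr F J ω) l) :=
      sy_succ (show l < n by omega)
    rw [a1, a2]
  unfold cfo at h1 ⊢
  rw [← e1]
  refine h1.trans (pow_le_pow_right₀ (by norm_num) ?_)
  have := nlp_x (k := k) (hg l (by omega))
  omega

/-- **The last level of the charts of the line**: the steepness enters once. -/
theorem hx_cofT {F : Fam m J} {c : ℕ → Fin m} {n w e e₁ x : ℕ} {g : ℕ → ℕ} {A : F.Ω → Prop}
    {G : PtT F → ℕ → MvPolynomial (Option (Fin m)) ℝ}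
    {H : LnT F → ℕ → MvPolynomial (Option (Fin m)) ℝ} (hw : w ≤ J) (hc : Inj c n)
    (hch' : ChOK F c n (fun _ => 1) w w e₁ g A G H)
    (hch : ChOK F c (n - 1) (fun _ => 1) w w e g A G H)
    (hg : ∀ l < n, ∀ k < l, g k ≤ g l + x) {l k : ℕ} (hl : l + 1 = n) (hk : k < l) {ω : F.Ω}
    (hω : A ω) :
    |cfo (Hx c n w H (slam F w ω)) (l + 1) (k + 1)| ≤ 2 ^ (e₁ + pwn n (e + x) + x + 2) := by
  have hnb : NbP n (Et (F.t ω)) (gl g) (2 ^ 0) (Gx c n G (ptr F J ω))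
      (Hx c n w H (slam F w ω)) := by
    rw [pow_zero]
    exact nb_gh hw hc hch' hω
  have h1 := nb_cf (P := Et (F.t ω)) (q := e + x) (s := 0) (x := x) (l := l + 1)
    (t₀ := F.t ω) (show 1 ≤ n by omega) (tr_gx hch' _) (tr_hx hch' w _) rfl hnb (by omega)
    (by omega) (fun i hi j j1 j2 => by
      obtain ⟨i, rfl⟩ : ∃ i', i = i' + 1 := ⟨i - 1, by omega⟩
      obtain ⟨j, rfl⟩ : ∃ j', j = j' + 1 := ⟨j - 1, by omega⟩
      exact gx_cofB hc hch hg (by omega) (by omega) hω) (fun j j1 j2 => by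
      obtain ⟨j, rfl⟩ : ∃ j', j = j' + 1 := ⟨j - 1, by omega⟩
      show g (j + 1 - 1) ≤ g (l + 1 - 1) + x
      rw [Nat.add_sub_cancel, Nat.add_sub_cancel]
      exact hg l (by omega) j (by omega)) (k + 1) (by omega) (by omega)
  have h2 := cf_gx hc hch' hω (show l < n by omega) hk
  have h3 : |cfo (Hx c n w H (slam F w ω)) (l + 1) (k + 1)| ≤ 2 ^ (e₁ + nlp g k l) +
      2 ^ (pwn n (e + x) + 0 + x + 1) := by
    have e1 : cfo (Hx c n w H (slam F w ω)) (l + 1) (k + 1) =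
        cfo (Gx c n G (ptr F J ω)) (l + 1) (k + 1) - (cfo (Gx c n G (ptr F J ω)) (l + 1) (k + 1) -
          cfo (Hx c n w H (slam F w ω)) (l + 1) (k + 1)) := by ring
    rw [e1]
    exact (abs_sub _ _).trans (add_le_add h2 h1)
  refine h3.trans ?_
  have h4 : (2 : ℝ) ^ (e₁ + nlp g k l) ≤ 2 ^ (e₁ + pwn n (e + x) + x + 1) :=
    pow_le_pow_right₀ (by norm_num) (by
      have := nlp_x (k := k) (hg l (by omega))
      omega)
  have h5 : (2 : ℝ) ^ (pwn n (e + x) + 0 + x + 1) ≤ 2 ^ (e₁ + pwn n (e + x) + x + 1) :=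
    pow_le_pow_right₀ (by norm_num) (by omega)
  rw [pow_succ _ (e₁ + pwn n (e + x) + x + 1)]
  linarith

/-- **The coefficients of the reference charts**, given the coefficients of the charts of the line:
all the levels below and the level itself. -/
theorem rf_cofs {F : Fam m J} {D : GDat F} {c : ℕ → Fin m} {n w₀ z M j₀ : ℕ} {g₀ : ℕ → ℕ → ℕ}
    {H' : ℕ → LnT F → ℕ → MvPolynomial (Option (Fin m)) ℝ} {S : ℝ} {W : Type} {cp : PtT F → W}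
    {cs : LnT F → W} {Rf : ℕ → W → ℕ → PN} {B : F.Ω → Prop} {s x q q' j l k : ℕ}
    (hwJ : w₀ + j₀ * z ≤ J) (hR : RefC D c n w₀ z M j₀ g₀ H' S cp cs Rf B) (hS : S ≤ 2 ^ s)
    (hj : j ≤ j₀) (hT : ∀ s, Tr 1 (Hx c n (w₀ + j * z) (H' j) s)) (hT' : ∀ v, Tr 1 (Rf j v))
    (hl : l < n) {ω : F.Ω} (hω : B ω)
    (hq : ∀ i < l, ∀ k < i,
      |cfo (Hx c n (w₀ + j * z) (H' j) (slam F (w₀ + j * z) ω)) (i + 1) (k + 1)| ≤ 2 ^ q)
    (hq' : |cfo (Hx c n (w₀ + j * z) (H' j) (slam F (w₀ + j * z) ω)) (l + 1) (k + 1)| ≤ 2 ^ q')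
    (hg₀ : ∀ k < l, g₀ j k ≤ g₀ j l + x) (hk : k < l) :
    |cfo (Rf j (cs (slam F (w₀ + j₀ * z) ω))) (l + 1) (k + 1)| ≤
      2 ^ (q' + pwn n q + s + x + 2) := by
  have hwj : w₀ + j * z ≤ J := (Nat.add_le_add_left (Nat.mul_le_mul_right z hj) w₀).trans hwJ
  have hnb := (hR.raw j hj ω hω).mono le_rfl (fun _ h => h) hS
  have h1 := nb_cf (q := q) (s := s) (x := x) (l := l + 1) (t₀ := F.t ω) (show 1 ≤ n by omega)
    (hT _) (hT' _) (tw_t hwj ω) hnb (by omega) (by omega)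
    (fun i hi k k1 k2 => by
      obtain ⟨i, rfl⟩ : ∃ i', i = i' + 1 := ⟨i - 1, by omega⟩
      obtain ⟨k, rfl⟩ : ∃ k', k = k' + 1 := ⟨k - 1, by omega⟩
      exact hq i (by omega) k (by omega)) (fun k k1 k2 => by
      obtain ⟨k, rfl⟩ : ∃ k', k = k' + 1 := ⟨k - 1, by omega⟩
      show g₀ j (k + 1 - 1) ≤ g₀ j (l + 1 - 1) + x
      rw [Nat.add_sub_cancel, Nat.add_sub_cancel]
      exact hg₀ k (by omega)) (k + 1) (by omega) (by omega)
  obtain ⟨α, hα⟩ : ∃ α, α = cfo (Hx c n (w₀ + j * z) (H' j) (slam F (w₀ + j * z) ω)) (l + 1)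
    (k + 1) := ⟨_, rfl⟩
  rw [← hα] at h1 hq'
  have e1 : cfo (Rf j (cs (slam F (w₀ + j₀ * z) ω))) (l + 1) (k + 1) =
      α - (α - cfo (Rf j (cs (slam F (w₀ + j₀ * z) ω))) (l + 1) (k + 1)) := by ring
  rw [e1]
  refine (abs_sub _ _).trans ((add_le_add hq' h1).trans ?_)
  have h4 : (2 : ℝ) ^ q' ≤ 2 ^ (q' + pwn n q + s + x + 1) :=
    pow_le_pow_right₀ (by norm_num) (by omega)
  have h5 : (2 : ℝ) ^ (pwn n q + s + x + 1) ≤ 2 ^ (q' + pwn n q + s + x + 1) :=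
    pow_le_pow_right₀ (by norm_num) (by omega)
  rw [pow_succ _ (q' + pwn n q + s + x + 1)]
  linarith

/-- **The coefficients of the reference charts**: the exponents `e''` of the base levels and `e'` of
the last level, which enters once. -/
theorem rf_cof (n : ℕ) : ∃ C : ℕ, 1 ≤ C ∧ ∀ {m J : ℕ} {F : Fam m J} {D : GDat F} {c : ℕ → Fin m}
    {w₀ z M j₀ : ℕ} {g₀ : ℕ → ℕ → ℕ} {G' : ℕ → PtT F → ℕ → MvPolynomial (Option (Fin m)) ℝ}
    {H' : ℕ → LnT F → ℕ → MvPolynomial (Option (Fin m)) ℝ} {S : ℝ} {W : Type}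
    {cp : PtT F → W} {cs : LnT F → W} {Rf : ℕ → W → ℕ → PN} {B : F.Ω → Prop} {e' e'' : ℕ → ℕ}
    {g' : ℕ → ℕ → ℕ} {s x j : ℕ}, Inj c n → w₀ + j₀ * z ≤ J →
    RefC D c n w₀ z M j₀ g₀ H' S cp cs Rf B → S ≤ 2 ^ s → j ≤ j₀ →
    ChOK F c n (fun _ => 1) (w₀ + j * z) (w₀ + j * z) (e' j) (g' j) B (G' j) (H' j) →
    ChOK F c (n - 1) (fun _ => 1) (w₀ + j * z) (w₀ + j * z) (e'' j) (g' j) B (G' j) (H' j) →
    (∀ l < n, ∀ k < l, g' j k ≤ g' j l + x) → (∀ l < n, ∀ k < l, g₀ j k ≤ g₀ j l + x) →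
    ∀ {ω : F.Ω}, B ω → ∀ l k, k < l →
      (l + 1 < n → |cfo (Rf j (cs (slam F (w₀ + j₀ * z) ω))) (l + 1) (k + 1)| ≤
        2 ^ (C * (e'' j + s + x + 1))) ∧
      (l + 1 = n → |cfo (Rf j (cs (slam F (w₀ + j₀ * z) ω))) (l + 1) (k + 1)| ≤
        2 ^ (e' j + C * (e'' j + s + x + 1))) := by
  obtain ⟨N, hN⟩ : ∃ N, N = (n + 1) ^ 3 := ⟨_, rfl⟩
  have hN1 : 1 ≤ N := by rw [hN]; exact Nat.one_le_pow _ _ (by omega)
  refine ⟨4 * (N + 1) ^ 2 * 4, by nlinarith, ?_⟩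
  intro m J F D c w₀ z M j₀ g₀ G' H' S W cp cs Rf B e' e'' g' s x j hc hwJ hR hS hj hch' hch hg hg₀
    ω hω l k hk
  have hwj : w₀ + j * z ≤ J := (Nat.add_le_add_left (Nat.mul_le_mul_right z hj) w₀).trans hwJ
  obtain ⟨y, hy⟩ : ∃ y, y = e'' j + s + x + 1 := ⟨_, rfl⟩
  have q1 : pwn n (e'' j + x) ≤ N * y := by
    have h1 := pwn_le n (e'' j + x)
    rw [← hN] at h1
    refine h1.trans (Nat.mul_le_mul_left _ (by omega))
  have q2 : rbn n (e'' j) x ≤ (N + 2) * y := by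
    unfold rbn
    nlinarith
  have q3 : pwn n (rbn n (e'' j) x) ≤ N * ((N + 3) * y) := by
    have h1 := pwn_le n (rbn n (e'' j) x)
    rw [← hN] at h1
    refine h1.trans (Nat.mul_le_mul_left _ ?_)
    nlinarith
  rw [← hy]
  refine ⟨fun hl => ?_, fun hl => ?_⟩
  · have h1 := rf_cofs hwJ hR hS hj (fun s => tr_hx hch' _ s) (rf_tr hR hch') (show l < n by omega)
      hω (fun i hi k hk => hx_cofB hwj hc hch hg (show i + 1 < n by omega) hk hω)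
      (hx_cofB hwj hc hch hg hl hk hω) (hg₀ l (by omega)) hk
    refine h1.trans (pow_le_pow_right₀ (by norm_num) ?_)
    nlinarith [Nat.zero_le (N * y), Nat.zero_le (N ^ 2 * y)]
  · have h1 := rf_cofs hwJ hR hS hj (fun s => tr_hx hch' _ s) (rf_tr hR hch') (show l < n by omega)
      hω (fun i hi k hk => hx_cofB hwj hc hch hg (show i + 1 < n by omega) hk hω)
      (hx_cofT hwj hc hch' hch hg hl hk hω) (hg₀ l (by omega)) hk
    refine h1.trans (pow_le_pow_right₀ (by norm_num) ?_)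
    nlinarith [Nat.zero_le (N * y), Nat.zero_le (N ^ 2 * y)]

end Pool.STAT.OKI
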