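import Pool.Agent.H40.ISO.Lref
import Pool.Agent.H72.OWN.Spr
import Pool.Agent.H13.K2S.Lin

/-!
# The heights over affine reference charts

`hts_few`: the digits of the heights of the own path over affine reference charts at the nodes have
few bits given the code, the position and the time of the sample and the velocities over the charts.
-/

set_option autoImplicit false

namespace Pool.STAT.OKI

open Finset MvPolynomial
open Pool.Agent.H49.Ent Pool.Agent.H32.Dense Pool.STK Pool.KS3 Pool.KA Pool.KSAT Pool.PB Pool.GEN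
open Pool.K2S Pool.S6C Pool.STAT.CLO Pool.STAT.Glu

variable {m J : ℕ}

/-- The coefficients of an affine chart. -/
noncomputable def cfo (Φ : ℕ → PN) (l k : ℕ) : ℝ := coeff (Finsupp.single k 1) (Φ l)

/-- The velocities of the time and of the chain. -/
noncomputable def vxs (F : Fam m J) (c : ℕ → Fin m) (ω : F.Ω) (k : ℕ) : ℝ :=
  if k = 0 then 1 else F.d ω (c (k - 1))

/-- The velocity over the affine chart. -/
noncomputable def vlo (F : Fam m J) (c : ℕ → Fin m) (Φ : ℕ → PN) (l : ℕ) (ω : F.Ω) : ℝ :=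
  F.d ω (c (l - 1)) - ∑ k ∈ range l, cfo Φ l k * vxs F c ω k

/-- The digits of the velocities over the reference charts, natural in the windows. -/
noncomputable def vds (F : Fam m J) (c : ℕ → Fin m) (n w₀ z j : ℕ) (d : ℕ → ℕ → ℕ) {W : Type}
    (Rf : ℕ → W → ℕ → PN) (code : F.Ω → W) (ω : F.Ω) (j' : Fin (j + 1)) (l : Fin n) : ℤ :=
  ⌊(2 : ℝ) ^ (d j' l - (w₀ + j' * z)) * vlo F c (Rf j' (code ω)) (l + 1) ω⌋

/-- An affine polynomial. -/
theorem eval_aff {p : PN} {l : ℕ} (hv : p.vars ⊆ range l) (hd : p.totalDegree ≤ 1)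
    (b : ℕ → ℝ) :
    eval b p = coeff 0 p + ∑ k ∈ range l, coeff (Finsupp.single k 1) p * b k := by
  classical
  have hp : p = C (coeff 0 p) + ∑ k ∈ range l, C (coeff (Finsupp.single k 1) p) * X k := by
    ext d
    rw [coeff_add, coeff_sum, coeff_C]
    have h1 : ∀ k ∈ range l, coeff d (C (coeff (Finsupp.single k 1) p) * X k) =
        if Finsupp.single k 1 = d then coeff (Finsupp.single k 1) p else 0 := by
      intro k _
      rw [coeff_C_mul, coeff_X', mul_ite, mul_one, mul_zero]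
    rw [Finset.sum_congr rfl h1]
    by_cases h0 : d = 0
    · subst h0
      rw [if_pos rfl, Finset.sum_eq_zero, add_zero]
      intro k _
      rw [if_neg]
      intro h2
      have := DFunLike.congr_fun h2 k
      rw [Finsupp.single_eq_same] at this
      exact one_ne_zero this
    · rw [if_neg (fun h => h0 h.symm), zero_add]
      by_cases h1 : ∃ k, Finsupp.single k 1 = d
      · obtain ⟨k, rfl⟩ := h1
        have h2 : ∀ k' ∈ range l, (if Finsupp.single k' 1 = Finsupp.single k 1 then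
            coeff (Finsupp.single k' 1) p else 0) = if k' = k then
            coeff (Finsupp.single k 1) p else 0 := by
          intro k' _
          by_cases h3 : k' = k
          · rw [if_pos (by rw [h3]), if_pos h3, h3]
          · rw [if_neg, if_neg h3]
            intro h4
            exact h3 (Finsupp.single_left_injective one_ne_zero h4)
        rw [Finset.sum_congr rfl h2, Finset.sum_ite_eq']
        by_cases h3 : k ∈ range l
        · rw [if_pos h3]
        · rw [if_neg h3]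
          by_contra h4
          refine h3 (hv ?_)
          rw [mem_vars]
          exact ⟨_, mem_support_iff.2 h4, by rw [Finsupp.mem_support_iff, Finsupp.single_eq_same]; exact one_ne_zero⟩
      · rw [Finset.sum_eq_zero (fun k _ => if_neg fun h2 => h1 ⟨k, h2⟩)]
        by_contra h2
        have h3 := le_totalDegree (mem_support_iff.2 h2)
        have h4 : (d.sum fun _ e => e) ≤ 1 := h3.trans hd
        obtain ⟨k, hk⟩ := Finsupp.ne_iff.1 h0
        rw [Finsupp.zero_apply] at hk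
        have hks : k ∈ d.support := Finsupp.mem_support_iff.2 hk
        refine h1 ⟨k, ?_⟩
        have h5 : d.sum (fun _ e => e) = d k + ∑ i ∈ d.support.erase k, d i := by
          rw [Finsupp.sum, ← Finset.add_sum_erase _ _ hks]
        have h6 : ∑ i ∈ d.support.erase k, d i = 0 := by omega
        have h7 : d k = 1 := by omega
        ext i
        by_cases hi : i = k
        · rw [hi, Finsupp.single_eq_same, h7]
        · rw [Finsupp.single_eq_of_ne hi]
          by_contra h8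
          have h9 : i ∈ d.support.erase k := Finset.mem_erase.2
            ⟨hi, Finsupp.mem_support_iff.2 (fun h => h8 h.symm)⟩
          exact h8 ((Finset.sum_eq_zero_iff.1 h6 i h9).symm)
  conv_lhs => rw [hp]
  rw [map_add, eval_C, map_sum]
  congr 1
  refine Finset.sum_congr rfl fun k _ => ?_
  rw [map_mul, eval_C, eval_X]

/-- The own line at the time `t`. -/
theorem ptt_own (F : Fam m J) (c : ℕ → Fin m) (w : ℕ) (ω : F.Ω) (t : ℝ) (k : ℕ) :
    ptt (pc c (slam F w ω)) t k = xs F c ω k + (t - F.t ω) * vxs F c ω k := by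
  unfold ptt pc vxs xs cx
  by_cases hk : k = 0
  · rw [if_pos hk, if_pos hk, if_pos hk, Polynomial.eval_X]
    ring
  · rw [if_neg hk, if_neg hk, if_neg hk]
    have e1 : (slam F w ω).1 = F.l ω := rfl
    rw [e1, Polynomial.eval_add, Polynomial.eval_mul, Polynomial.eval_C, Polynomial.eval_C,
      Polynomial.eval_X]
    show F.u ω (c (k - 1)) + F.d ω (c (k - 1)) * t = F.x ω (c (k - 1)) + _
    unfold Fam.x
    ring

/-- **The heights over an affine chart are affine.** -/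
theorem ohg_aff {F : Fam m J} {c : ℕ → Fin m} {w : ℕ} {Φ : ℕ → PN} (hΦ : Tr 1 Φ) (t : ℝ)
    {l : ℕ} (hl : 1 ≤ l) (ω : F.Ω) :
    ohg F c w Φ t l ω = (F.x ω (c (l - 1)) - (coeff 0 (Φ l) +
      ∑ k ∈ range l, cfo Φ l k * xs F c ω k)) + (t - F.t ω) * vlo F c Φ l ω := by
  unfold ohg
  rw [eval_aff (hΦ.tri l) (hΦ.deg l), ptt_own]
  have e1 : xs F c ω l = F.x ω (c (l - 1)) := if_neg (by omega)
  have e2 : vxs F c ω l = F.d ω (c (l - 1)) := if_neg (by omega)
  have e3 : ∑ k ∈ range l, coeff (Finsupp.single k 1) (Φ l) * ptt (pc c (slam F w ω)) t k =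
      ∑ k ∈ range l, cfo Φ l k * xs F c ω k + (t - F.t ω) *
        ∑ k ∈ range l, cfo Φ l k * vxs F c ω k := by
    rw [Finset.mul_sum, ← Finset.sum_add_distrib]
    refine Finset.sum_congr rfl fun k _ => ?_
    rw [ptt_own]
    unfold cfo
    ring
  rw [e1, e2, e3]
  unfold vlo
  ring

/-- The node is near the time of the sample. -/
theorem nod_t {F : Fam m J} {K w a : ℕ} (hw : w ≤ J) (ha : a ≤ K) (ω : F.Ω) :
    |nod K (tw F w ω) w a - F.t ω| ≤ 2 / 2 ^ w := by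
  have h1 := tw_t hw ω
  have h2 : |nod K (tw F w ω) w a - tw F w ω| ≤ 1 / 2 ^ w := nod_win ha
  have h3 := abs_sub (nod K (tw F w ω) w a - tw F w ω) (F.t ω - tw F w ω)
  rw [sub_sub_sub_cancel_right] at h3
  have h4 : (2 : ℝ) / 2 ^ w = 1 / 2 ^ w + 1 / 2 ^ w := by ring
  linarith

/-- **The heights over affine reference charts have few bits** given the code, the position, the
time and the velocities over the charts. -/
theorem hts_few {F : Fam m J} {c : ℕ → Fin m} {n K w₀ z j e : ℕ} {d : ℕ → ℕ → ℕ} {W : Type}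
    {Rf : ℕ → W → ℕ → PN} {code : F.Ω → W} {q : F.Ω → ℝ} (hq : IsLaw q)
    (hRf : ∀ j' ≤ j, ∀ v, Tr 1 (Rf j' v)) (hwJ : w₀ + j * z ≤ J)
    (hd : ∀ j' ≤ j, ∀ l < n, d j' l ≤ J)
    (hlip : ∀ j' ≤ j, ∀ ω, 0 < q ω → ∀ l < n, ∀ k, 1 ≤ k → k ≤ l →
      |cfo (Rf j' (code ω)) (l + 1) k| ≤ 2 ^ e) :
    CH q (hts F c n K w₀ z j d Rf code) (fun ω => (code ω, (fun l : Fin n => F.X J ω (c l)),
      F.T ω, vds F c n w₀ z j d Rf code ω)) ≤
      (j + 1 : ℕ) * ((K + 1 : ℕ) * (n * Real.log (2 * ((n * 2 ^ e + 3) + 1) + 1))) := by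
  refine CH_pi_le hq.nonneg _ (j + 1) (fun j' ω => hts F c n K w₀ z j d Rf code ω j') fun j' => ?_
  refine CH_pi_le hq.nonneg _ (K + 1) (fun a ω => hts F c n K w₀ z j d Rf code ω j' a) fun a => ?_
  refine CH_pi_le hq.nonneg _ n (fun l ω => hts F c n K w₀ z j d Rf code ω j' a l) fun l => ?_
  have hj' : (j' : ℕ) ≤ j := by omega
  have ha : (a : ℕ) ≤ K := by omega
  have hl : (l : ℕ) < n := l.2
  have hw : w₀ + j' * z ≤ J := (Nat.add_le_add_left (Nat.mul_le_mul_right z hj') w₀).trans hwJ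
  refine Pool.OWN72.near_few hq (fun ω => ohg F c w₀ (Rf j' (code ω))
    (nod K (tw F (w₀ + j' * z) ω) (w₀ + j' * z) a) (l + 1) ω) _ ?_
  intro ω ω' hω hω' h
  obtain ⟨h1, h'⟩ := Prod.ext_iff.mp h
  obtain ⟨h2, h''⟩ := Prod.ext_iff.mp h'
  obtain ⟨h3, h4⟩ := Prod.ext_iff.mp h''
  simp only at h1 h2 h3 h4
  have eT : F.T1 (w₀ + j' * z) ω' = F.T1 (w₀ + j' * z) ω := by
    unfold Fam.T1
    rw [h3]
  have e0 : tw F (w₀ + j' * z) ω' = tw F (w₀ + j' * z) ω := by
    unfold tw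
    rw [eT]
  have et : F.t ω' = F.t ω := by
    unfold Fam.t
    rw [h3]
  have h5 := congrFun (congrFun h4 j') l
  unfold vds at h5
  show |ohg F c w₀ (Rf j' (code ω)) (nod K (tw F (w₀ + j' * z) ω) (w₀ + j' * z) a) (l + 1) ω -
    ohg F c w₀ (Rf j' (code ω')) (nod K (tw F (w₀ + j' * z) ω') (w₀ + j' * z) a) (l + 1) ω'| ≤ _
  obtain ⟨Φ, hΦ⟩ : ∃ Φ, Φ = Rf j' (code ω) := ⟨_, rfl⟩
  have hT : Tr 1 Φ := by rw [hΦ]; exact hRf j' hj' _
  have hlp := hlip j' hj' ω hω l hl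
  rw [← h1] at h5 ⊢
  rw [← hΦ] at h5 hlp ⊢
  rw [e0, ohg_aff hT _ (by omega), ohg_aff hT _ (by omega), et]
  simp only [Nat.add_sub_cancel]
  obtain ⟨τ, hτ⟩ : ∃ τ, τ = nod K (tw F (w₀ + j' * z) ω) (w₀ + j' * z) a - F.t ω := ⟨_, rfl⟩
  have hτ1 : |τ| ≤ 2 / 2 ^ (w₀ + j' * z) := by
    rw [hτ]
    exact nod_t hw ha ω
  rw [← hτ]
  have hX : ∀ k < n, |F.x ω (c k) - F.x ω' (c k)| ≤ 1 / 2 ^ J := by
    intro k hk
    have h6 : F.X J ω (c k) = F.X J ω' (c k) := congrFun h2 ⟨k, hk⟩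
    exact Pool.MIC6.floor_near h6
  have hV := Pool.MIC6.floor_near h5
  have e4 : F.x ω (c l) - (coeff 0 (Φ (l + 1)) + ∑ k ∈ range (l + 1), cfo Φ (l + 1) k *
      xs F c ω k) + τ * vlo F c Φ (l + 1) ω - (F.x ω' (c l) - (coeff 0 (Φ (l + 1)) +
      ∑ k ∈ range (l + 1), cfo Φ (l + 1) k * xs F c ω' k) + τ * vlo F c Φ (l + 1) ω') =
      (F.x ω (c l) - F.x ω' (c l)) - ∑ k ∈ range (l + 1), cfo Φ (l + 1) k *
        (xs F c ω k - xs F c ω' k) + τ * (vlo F c Φ (l + 1) ω - vlo F c Φ (l + 1) ω') := by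
    have e5 : ∑ k ∈ range (l + 1), cfo Φ (l + 1) k * (xs F c ω k - xs F c ω' k) =
        ∑ k ∈ range (l + 1), cfo Φ (l + 1) k * xs F c ω k -
        ∑ k ∈ range (l + 1), cfo Φ (l + 1) k * xs F c ω' k := by
      rw [← Finset.sum_sub_distrib]
      exact Finset.sum_congr rfl fun k _ => by ring
    rw [e5]
    ring
  rw [e4]
  have hdJ := hd j' hj' l hl
  have p1 : (1 : ℝ) / 2 ^ J ≤ 1 / 2 ^ d j' l :=
    one_div_le_one_div_of_le (by positivity) (pow_le_pow_right₀ (by norm_num) hdJ)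
  have b1 : |∑ k ∈ range (l + 1), cfo Φ (l + 1) k * (xs F c ω k - xs F c ω' k)| ≤
      n * 2 ^ e * (1 / 2 ^ J) := by
    refine (Finset.abs_sum_le_sum_abs _ _).trans ?_
    rw [Finset.sum_range_succ']
    have e6 : |cfo Φ (l + 1) 0 * (xs F c ω 0 - xs F c ω' 0)| = 0 := by
      rw [xs_zero, xs_zero, et, sub_self, mul_zero, abs_zero]
    rw [e6, add_zero]
    calc ∑ k ∈ range (l : ℕ), |cfo Φ (l + 1) (k + 1) * (xs F c ω (k + 1) - xs F c ω' (k + 1))| ≤
        ∑ k ∈ range (l : ℕ), (2 : ℝ) ^ e * (1 / 2 ^ J) := by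
          refine Finset.sum_le_sum fun k hk => ?_
          rw [Finset.mem_range] at hk
          have e7 : ∀ ω, xs F c ω (k + 1) = F.x ω (c k) := fun ω => by
            unfold xs cx
            rw [if_neg (by omega)]
            show F.x ω (c (k + 1 - 1)) = F.x ω (c k)
            rw [Nat.add_sub_cancel]
          rw [abs_mul, e7, e7]
          exact mul_le_mul (hlp (k + 1) (by omega) (by omega)) (hX k (by omega)) (abs_nonneg _)
            (by positivity)
      _ = (l : ℕ) * ((2 : ℝ) ^ e * (1 / 2 ^ J)) := by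
          rw [Finset.sum_const, Finset.card_range, nsmul_eq_mul]
      _ ≤ n * ((2 : ℝ) ^ e * (1 / 2 ^ J)) := by
          refine mul_le_mul_of_nonneg_right ?_ (by positivity)
          exact_mod_cast hl.le
      _ = n * 2 ^ e * (1 / 2 ^ J) := by ring
  have b2 : |τ * (vlo F c Φ (l + 1) ω - vlo F c Φ (l + 1) ω')| ≤ 2 / 2 ^ d j' l := by
    rw [abs_mul]
    refine (mul_le_mul hτ1 hV (abs_nonneg _) (by positivity)).trans ?_
    rw [div_mul_div_comm, mul_one, ← pow_add]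
    exact div_le_div_of_nonneg_left (by norm_num) (by positivity)
      (pow_le_pow_right₀ (by norm_num) (by omega))
  have b3 := hX l hl
  have b4 : (n : ℝ) * 2 ^ e * (1 / 2 ^ J) ≤ n * 2 ^ e * (1 / 2 ^ d j' l) :=
    mul_le_mul_of_nonneg_left p1 (by positivity)
  refine (abs_add_le _ _).trans ((add_le_add_left (abs_sub _ _) _).trans ?_)
  have e8 : ((n : ℝ) * 2 ^ e + 3) / 2 ^ d j' l = 1 / 2 ^ d j' l + n * 2 ^ e * (1 / 2 ^ d j' l) +
      2 / 2 ^ d j' l := by ring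
  rw [e8]
  linarith

/-- **The same with steep charts**: the slopes of level `l` are at most `2 ^ e l`. -/
theorem hts_fewE {F : Fam m J} {c : ℕ → Fin m} {n K w₀ z j x : ℕ} {e : ℕ → ℕ} {d : ℕ → ℕ → ℕ}
    {W : Type}
    {Rf : ℕ → W → ℕ → PN} {code : F.Ω → W} {q : F.Ω → ℝ} (hq : IsLaw q)
    (hRf : ∀ j' ≤ j, ∀ v, Tr 1 (Rf j' v)) (hwJ : w₀ + j * z ≤ J)
    (hd : ∀ j' ≤ j, ∀ l < n, d j' l + e l ≤ J + x)
    (hlip : ∀ j' ≤ j, ∀ ω, 0 < q ω → ∀ l < n, ∀ k, 1 ≤ k → k ≤ l →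
      |cfo (Rf j' (code ω)) (l + 1) k| ≤ 2 ^ e l) :
    CH q (hts F c n K w₀ z j d Rf code) (fun ω => (code ω, (fun l : Fin n => F.X J ω (c l)),
      F.T ω, vds F c n w₀ z j d Rf code ω)) ≤
      (j + 1 : ℕ) * ((K + 1 : ℕ) * (n * Real.log (2 * (((n + 1) * 2 ^ x + 2) + 1) + 1))) := by
  refine CH_pi_le hq.nonneg _ (j + 1) (fun j' ω => hts F c n K w₀ z j d Rf code ω j') fun j' => ?_
  refine CH_pi_le hq.nonneg _ (K + 1) (fun a ω => hts F c n K w₀ z j d Rf code ω j' a) fun a => ?_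
  refine CH_pi_le hq.nonneg _ n (fun l ω => hts F c n K w₀ z j d Rf code ω j' a l) fun l => ?_
  have hj' : (j' : ℕ) ≤ j := by omega
  have ha : (a : ℕ) ≤ K := by omega
  have hl : (l : ℕ) < n := l.2
  have hw : w₀ + j' * z ≤ J := (Nat.add_le_add_left (Nat.mul_le_mul_right z hj') w₀).trans hwJ
  refine Pool.OWN72.near_few hq (fun ω => ohg F c w₀ (Rf j' (code ω))
    (nod K (tw F (w₀ + j' * z) ω) (w₀ + j' * z) a) (l + 1) ω) _ ?_
  intro ω ω' hω hω' h
  obtain ⟨h1, h'⟩ := Prod.ext_iff.mp h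
  obtain ⟨h2, h''⟩ := Prod.ext_iff.mp h'
  obtain ⟨h3, h4⟩ := Prod.ext_iff.mp h''
  simp only at h1 h2 h3 h4
  have eT : F.T1 (w₀ + j' * z) ω' = F.T1 (w₀ + j' * z) ω := by
    unfold Fam.T1
    rw [h3]
  have e0 : tw F (w₀ + j' * z) ω' = tw F (w₀ + j' * z) ω := by
    unfold tw
    rw [eT]
  have et : F.t ω' = F.t ω := by
    unfold Fam.t
    rw [h3]
  have h5 := congrFun (congrFun h4 j') l
  unfold vds at h5
  show |ohg F c w₀ (Rf j' (code ω)) (nod K (tw F (w₀ + j' * z) ω) (w₀ + j' * z) a) (l + 1) ω -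
    ohg F c w₀ (Rf j' (code ω')) (nod K (tw F (w₀ + j' * z) ω') (w₀ + j' * z) a) (l + 1) ω'| ≤ _
  obtain ⟨Φ, hΦ⟩ : ∃ Φ, Φ = Rf j' (code ω) := ⟨_, rfl⟩
  have hT : Tr 1 Φ := by rw [hΦ]; exact hRf j' hj' _
  have hlp := hlip j' hj' ω hω l hl
  rw [← h1] at h5 ⊢
  rw [← hΦ] at h5 hlp ⊢
  rw [e0, ohg_aff hT _ (by omega), ohg_aff hT _ (by omega), et]
  simp only [Nat.add_sub_cancel]
  obtain ⟨τ, hτ⟩ : ∃ τ, τ = nod K (tw F (w₀ + j' * z) ω) (w₀ + j' * z) a - F.t ω := ⟨_, rfl⟩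
  have hτ1 : |τ| ≤ 2 / 2 ^ (w₀ + j' * z) := by
    rw [hτ]
    exact nod_t hw ha ω
  rw [← hτ]
  have hX : ∀ k < n, |F.x ω (c k) - F.x ω' (c k)| ≤ 1 / 2 ^ J := by
    intro k hk
    have h6 : F.X J ω (c k) = F.X J ω' (c k) := congrFun h2 ⟨k, hk⟩
    exact Pool.MIC6.floor_near h6
  have hV := Pool.MIC6.floor_near h5
  have e4 : F.x ω (c l) - (coeff 0 (Φ (l + 1)) + ∑ k ∈ range (l + 1), cfo Φ (l + 1) k *
      xs F c ω k) + τ * vlo F c Φ (l + 1) ω - (F.x ω' (c l) - (coeff 0 (Φ (l + 1)) +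
      ∑ k ∈ range (l + 1), cfo Φ (l + 1) k * xs F c ω' k) + τ * vlo F c Φ (l + 1) ω') =
      (F.x ω (c l) - F.x ω' (c l)) - ∑ k ∈ range (l + 1), cfo Φ (l + 1) k *
        (xs F c ω k - xs F c ω' k) + τ * (vlo F c Φ (l + 1) ω - vlo F c Φ (l + 1) ω') := by
    have e5 : ∑ k ∈ range (l + 1), cfo Φ (l + 1) k * (xs F c ω k - xs F c ω' k) =
        ∑ k ∈ range (l + 1), cfo Φ (l + 1) k * xs F c ω k -
        ∑ k ∈ range (l + 1), cfo Φ (l + 1) k * xs F c ω' k := by
      rw [← Finset.sum_sub_distrib]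
      exact Finset.sum_congr rfl fun k _ => by ring
    rw [e5]
    ring
  rw [e4]
  have hdJ := hd j' hj' l hl
  have p0 : (2 : ℝ) ^ e l * (1 / 2 ^ J) ≤ 2 ^ x / 2 ^ d j' l := by
    rw [mul_one_div, div_le_div_iff₀ (by positivity) (by positivity), ← pow_add, ← pow_add]
    exact pow_le_pow_right₀ (by norm_num) (by omega)
  have p1 : (1 : ℝ) / 2 ^ J ≤ 2 ^ x / 2 ^ d j' l := by
    rw [div_le_div_iff₀ (by positivity) (by positivity), one_mul, ← pow_add]
    exact pow_le_pow_right₀ (by norm_num) (by omega)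
  have b1 : |∑ k ∈ range (l + 1), cfo Φ (l + 1) k * (xs F c ω k - xs F c ω' k)| ≤
      n * 2 ^ e l * (1 / 2 ^ J) := by
    refine (Finset.abs_sum_le_sum_abs _ _).trans ?_
    rw [Finset.sum_range_succ']
    have e6 : |cfo Φ (l + 1) 0 * (xs F c ω 0 - xs F c ω' 0)| = 0 := by
      rw [xs_zero, xs_zero, et, sub_self, mul_zero, abs_zero]
    rw [e6, add_zero]
    calc ∑ k ∈ range (l : ℕ), |cfo Φ (l + 1) (k + 1) * (xs F c ω (k + 1) - xs F c ω' (k + 1))| ≤
        ∑ k ∈ range (l : ℕ), (2 : ℝ) ^ e l * (1 / 2 ^ J) := by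
          refine Finset.sum_le_sum fun k hk => ?_
          rw [Finset.mem_range] at hk
          have e7 : ∀ ω, xs F c ω (k + 1) = F.x ω (c k) := fun ω => by
            unfold xs cx
            rw [if_neg (by omega)]
            show F.x ω (c (k + 1 - 1)) = F.x ω (c k)
            rw [Nat.add_sub_cancel]
          rw [abs_mul, e7, e7]
          exact mul_le_mul (hlp (k + 1) (by omega) (by omega)) (hX k (by omega)) (abs_nonneg _)
            (by positivity)
      _ = (l : ℕ) * ((2 : ℝ) ^ e l * (1 / 2 ^ J)) := by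
          rw [Finset.sum_const, Finset.card_range, nsmul_eq_mul]
      _ ≤ n * ((2 : ℝ) ^ e l * (1 / 2 ^ J)) := by
          refine mul_le_mul_of_nonneg_right ?_ (by positivity)
          exact_mod_cast hl.le
      _ = n * 2 ^ e l * (1 / 2 ^ J) := by ring
  have b2 : |τ * (vlo F c Φ (l + 1) ω - vlo F c Φ (l + 1) ω')| ≤ 2 / 2 ^ d j' l := by
    rw [abs_mul]
    refine (mul_le_mul hτ1 hV (abs_nonneg _) (by positivity)).trans ?_
    rw [div_mul_div_comm, mul_one, ← pow_add]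
    exact div_le_div_of_nonneg_left (by norm_num) (by positivity)
      (pow_le_pow_right₀ (by norm_num) (by omega))
  have b3 := hX l hl
  have b4 : (n : ℝ) * 2 ^ e l * (1 / 2 ^ J) ≤ n * (2 ^ x / 2 ^ d j' l) := by
    rw [mul_assoc]
    exact mul_le_mul_of_nonneg_left p0 (by positivity)
  refine (abs_add_le _ _).trans ((add_le_add_left (abs_sub _ _) _).trans ?_)
  have e8 : (((n : ℝ) + 1) * 2 ^ x + 2) / 2 ^ d j' l = 2 ^ x / 2 ^ d j' l +
      n * (2 ^ x / 2 ^ d j' l) + 2 / 2 ^ d j' l := by ring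
  rw [e8]
  linarith

end Pool.STAT.OKI
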