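import Pool.Agent.H78.MIC.IsoF

/-!
# The axioms of the cells of the fattest boxes, from the near digits

`hV_isoN`, `ok2_isoN`: the fields of the kit of the fattest boxes from `ExN` (the base is full in the
near digits given the cell and the time).
-/

set_option autoImplicit false

namespace Pool.STAT

open Finset MvPolynomial
open Pool.Agent.H49.Ent Pool.Agent.H32.Dense Pool.STK Pool.KS3 Pool.KA Pool.KSAT Pool.PB Pool.GEN
open Pool.K2S Pool.S6C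
open Pool.LEV (Law Lv)
open Pool.STR (Affn Nw NfB AffB CellD)
open Pool.BFL (Pb)
open Pool.CHT (TmH)
open CLO Pool.MIC6

variable {m n₀ : ℕ} {Θ : Type*} {I : ℝ → Θ → Prop}

/-- **The property holds on large subevents**, from the near digits and full time. -/
theorem hV_isoN (hI : MonoI I) {S : PCl m} (hS : TmH S) (Kt : KitP m Θ n₀)
    (hml : ∀ p, ∀ l < n₀ + 1, Kt.ml p l = 1) (hinj : ∀ p, Inj (Kt.cs p) (n₀ + 1)) {K' s₁ : ℕ}
    {sh : ℕ → ℕ}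
    (hcom : ∀ p N M θ (J : ℕ) (F : Fam m J) (D : GDat F) (A : F.Ω → Prop),
      Kt.W p N M θ J F D A → OKI.Cmn D M) {T' : ℝ}
    (fcel : ∀ ε' : ℝ, 0 < ε' → EvP I fun p =>
      CellL (n₀ + 1) (Kt.L p) ε' T' (Kt.y p) (Kt.X p) (Kt.la p) (Kt.ml p))
    (fexn : ∀ k : ℝ, 0 < k → ∀ M : ℕ, EvQ I fun N θ p =>
      Kt.FldN S K' s₁ sh M N θ p fun G J F D q => OKI.ExN D G.c G.n G.sh (Kt.rc p N M θ J F D)
        (up G.ϖ J) (up G.ζ J) G.M (G.gn J) (k * up G.ζ J) q) :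
    ∃ Bc : ℕ, ∀ M : ℕ, EvQ I fun N θ p => ∀ (b : ℕ → ℕ → ℕ → ℝ) (e : ℕ → ℕ → ℝ),
      Kt.Near p N M θ b e → ∃ C : ℝ, 1 ≤ C ∧ Bas S fun J F A => ∀ D : GDat F,
        (Kt.grid K' s₁ sh p N M θ b e).Ok F D A →
        ∃ B : F.Ω → Prop, Sub B A ∧ Pe F.p A ≤ C * Pe F.p B ∧ Kt.Wgd Bc p N M θ J F D B := by
  obtain ⟨Λ, hΛ⟩ := exists_nat_ge (T' + 3)
  obtain ⟨Bc, hgd⟩ := OKI.gd_isoN (n₀ + 1) Kt.K K' s₁ Λ sh (by omega)
  refine ⟨Bc, fun M => ?_⟩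
  obtain ⟨δ, z₀, hδ, hgd⟩ := hgd M (1 / 2) (by norm_num) (by norm_num)
  obtain ⟨δ', hδ'⟩ : ∃ δ', δ' = min δ 1 := ⟨_, rfl⟩
  have hδ0 : 0 < δ' := by rw [hδ']; exact lt_min hδ one_pos
  have hδ1 : δ' ≤ δ := by rw [hδ']; exact min_le_left _ _
  have hδ2 : δ' ≤ 1 := by rw [hδ']; exact min_le_right _ _
  have key := (iso_num hI Kt hml fcel hΛ sh 0 z₀ M hδ0).and hI (fexn δ hδ M)
  refine key.mono ?_
  rintro N θ p ⟨⟨hθ, hζ0, hnum⟩, hexc⟩ b e hnear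
  obtain ⟨J₁, h1⟩ := hnum b e hnear
  obtain ⟨J₂, h2⟩ := lin_ev (a := δ * θ / 2) (by positivity) hζ0 1
  refine ⟨2, by norm_num, ?_⟩
  obtain ⟨hpos, htm⟩ := hS
  have hp : Bas S (fun _ F A => 0 < Pe F.p A) := ⟨1, one_pos, 0, fun J _ F A hA => hpos 1 J F A hA⟩
  refine Bas.mono (max J₁ J₂) (Bas.and (Bas.and (htm (δ * θ / 2 * msh (Kt.X p) N M)
    (by positivity)) hp) (hexc b e hnear)) ?_
  rintro J hJ F A ⟨⟨h3, hA⟩, h4⟩ D hD
  obtain ⟨c1, c2, c3, c4, c5, c6, c7, c8, c9, c10⟩ := h1 J ((le_max_left _ _).trans hJ)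
  have c11 := h2 J ((le_max_right _ _).trans hJ)
  obtain ⟨z, hz⟩ : ∃ z, z = up (msh (Kt.X p) N M) J := ⟨_, rfl⟩
  have hexcD := h4 D hD
  have hz0 : (0 : ℝ) ≤ z := Nat.cast_nonneg z
  have hw : up (Kt.y p).1 J ≤ J := by
    have h5 : 0 ≤ (M + 1) * up (msh (Kt.X p) N M) J := Nat.zero_le _
    omega
  have htime := CDat.nd_time hA (h3 hA) hw
  rw [Nat.cast_sub hw] at htime
  have hzJ : msh (Kt.X p) N M * J ≤ z := by rw [hz]; exact up_ge _ J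
  rw [← hz] at c1 c2 c3 c4 c5 c6 c7 c9 c10 c11
  have e1 : (M + 1) * z = M * z + z := by ring
  have hcl := Nat.le_ceil (θ * z)
  have hcl1 : (⌈θ * z⌉₊ : ℕ) ≤ z := by
    have h6 : ((⌈θ * z⌉₊ + (⌈θ * z⌉₊ + 1) : ℕ) : ℝ) ≤ z :=
      c3.trans (by
        have := mul_le_mul_of_nonneg_right hδ2 hz0
        linarith)
    have h7 : ⌈θ * z⌉₊ + (⌈θ * z⌉₊ + 1) ≤ z := by exact_mod_cast h6
    omega
  obtain ⟨A', k1, k2, k3⟩ := hgd (D := D) (a₀ := up ((Kt.y p).1 + (Kt.y p).2) J)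
    (w₀ := up (Kt.y p).1 J) (z := z) (e := fun i j => ⌊e i j * J⌋₊)
    (g := fun i j l => ⌊b i j l * J⌋₊) (x := xz θ M z) (z' := ⌈θ * z⌉₊) (B := A)
    (ρ := Kt.rc p N M θ J F D) (k := δ) (E := δ * θ / 2 * z)
    (q := Pool.Agent.H49.Ent.cond F.p A True) (by
      have h5 := hD.1
      rw [hz]
      exact h5) (hcom p N M θ J F D A hD.2) c1 (hinj p) c4 hcl1 (by omega)
    c8 (isLaw_cond F.isLaw hA) (fun ω hω => Pool.PB.End.of_cond_pos hω) (by positivity)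
    (by
      have h5 := mul_le_mul_of_nonneg_left hcl hδ.le
      linarith only [h5, c11]) (by
      have h5 := mul_le_mul_of_nonneg_left hzJ (show 0 ≤ δ * θ / 2 by positivity)
      linarith only [htime, h5]) hδ.le le_rfl (by
      rw [hz]
      exact hexcD)
  have hAA : Sub A' A := fun ω hω => Pool.PB.End.of_cond_pos (k1 ω hω)
  refine ⟨A', hAA, ?_, fun i j l => ⌊b i j l * J⌋₊, fun i hi j hj l hl => ?_, ?_⟩
  · have h5 := Pool.LBK.Pb_cond_sub hAA hA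
    have h6 := mul_le_mul_of_nonneg_right k2 hA.le
    rw [h5] at h6
    linarith
  · have h5 := c10 i hi j hj l hl
    rw [← hz]
    exact h5
  · rw [← hz]
    exact k3.gd

/-- **The axioms `Ok2`** for labels with near charts and the own relation, from the near digits. -/
theorem ok2_isoN (hI : MonoI I) {S : PCl m}
    (hpos : ∀ (τ : ℝ) (J : ℕ) (F : Fam m J) (A : F.Ω → Prop), S.St τ J F A → 0 < Pe F.p A)
    (Kt : KitP m Θ n₀) (hml : ∀ p, ∀ l < n₀ + 1, Kt.ml p l = 1)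
    (hinj : ∀ p, Inj (Kt.cs p) (n₀ + 1)) {K' s₁ : ℕ} {sh : ℕ → ℕ} (hK' : 1 ≤ K')
    (hsub : ∀ p N M θ (J : ℕ) (F : Fam m J) (D : GDat F) (i j : ℕ),
      Subsingleton (Kt.RT p N M θ J F D i j))
    (hcom : ∀ p N M θ (J : ℕ) (F : Fam m J) (D : GDat F) (A : F.Ω → Prop),
      Kt.W p N M θ J F D A → OKI.Cmn D M) {Bc : ℕ}
    (hWgd : ∀ p N M θ (J : ℕ) (F : Fam m J) (D : GDat F) (A : F.Ω → Prop),
      Kt.W p N M θ J F D A → Kt.Wgd Bc p N M θ J F D A) {T' : ℝ}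
    (fcel : ∀ ε' : ℝ, 0 < ε' → EvP I fun p =>
      CellL (n₀ + 1) (Kt.L p) ε' T' (Kt.y p) (Kt.X p) (Kt.la p) (Kt.ml p))
    (fexn : ∀ k : ℝ, 0 < k → ∀ M : ℕ, EvQ I fun N θ p =>
      Kt.FldN S K' s₁ sh M N θ p fun G J F D q => OKI.ExN D G.c G.n G.sh (Kt.rc p N M θ J F D)
        (up G.ϖ J) (up G.ζ J) G.M (G.gn J) (k * up G.ζ J) q) :
    ∃ C₅ : ℝ, ∀ C₁ ≥ C₅, ∀ κ : ℝ, 0 < κ → ∀ M : ℕ, EvQ I fun N θ p =>
      Kt.FldN S K' s₁ sh M N θ p fun G J F D q => (Kt.nd p N M θ G F D).Ok2 G.n G.K' J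
        (up G.α J) (up G.ϖ J) (up G.ζ J) G.M (lamS (n₀ + 1) (Kt.ml p))
        (gamS (n₀ + 1) (Kt.la p) (Kt.ml p)) κ C₁ q := by
  obtain ⟨Λ, hΛ⟩ := exists_nat_ge (T' + 3)
  obtain ⟨Bc', z₁, hchg⟩ := OKI.Gd.chg (n₀ + 1) Kt.K Bc
  obtain ⟨C₀, hC₀, hok⟩ := OKI.ok_isoN (n₀ + 1) Kt.K K' s₁ Λ Bc' sh hK'
  refine ⟨max C₀ 1, fun C₁ hC₁ κ hκ M => ?_⟩
  have c0 : C₀ ≤ C₁ := (le_max_left _ _).trans hC₁
  have c1 : 1 ≤ C₁ := (le_max_right _ _).trans hC₁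
  obtain ⟨δ, z₀, hδ, hok⟩ := hok M κ hκ
  obtain ⟨δ', hδ'⟩ : ∃ δ', δ' = min δ 1 := ⟨_, rfl⟩
  have hδ0 : 0 < δ' := by rw [hδ']; exact lt_min hδ one_pos
  have hδ1 : δ' ≤ δ := by rw [hδ']; exact min_le_left _ _
  have hδ2 : δ' ≤ 1 := by rw [hδ']; exact min_le_right _ _
  obtain ⟨N₁, hN₁⟩ := exists_nat_ge (4 * (T' + 2))
  have key := ((iso_num hI Kt hml fcel hΛ sh 0 (max z₀ z₁) M hδ0).and hI (fexn δ hδ M)).and hI
    ((KitP.cel_evQ fcel M).and hI (EvQ.self I (max N₁ 2) (θ₀ := 1 / 16) (by norm_num)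
      (ε := fun N _ => 1) (fun N _ _ => one_pos)))
  refine key.mono ?_
  rintro N θ p ⟨⟨⟨hθ, hζ0, hnum⟩, hexc⟩, hL, hN, -, hθ1, -⟩ b e hnear
  have hNN : N₁ ≤ N := (le_max_left _ _).trans hN
  have hN2 : 2 ≤ N := (le_max_right _ _).trans hN
  have hN1 : 1 ≤ N := by omega
  have hNT : 4 * (T' + 2) ≤ N := hN₁.trans (by exact_mod_cast hNN)
  obtain ⟨ε, hε⟩ : ∃ ε : ℝ, ε = 1 / (64 * (N * (M + 4)) + 1) := ⟨_, rfl⟩
  rw [← hε] at hL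
  have hε0 : 0 < ε := by rw [hε]; positivity
  have hεN : ε * (64 * (N * (M + 4))) ≤ 1 := by
    rw [hε, one_div, inv_mul_le_iff₀ (by positivity)]
    linarith
  have hs := hL.sideE (B := 1) (by omega : 1 ≤ n₀ + 1) hN1 hNT hN2 le_rfl hε0.le hεN hθ hθ1 hnear
  have hnum2 : ∀ i ≤ M, ∀ j ≤ M, ∀ l < n₀ + 1, |b i j l - Kt.L p l
      ((Kt.y p).1 + (Kt.y p).2 + i * msh (Kt.X p) N M) ((Kt.y p).1 + j * msh (Kt.X p) N M)| ≤
      msh (Kt.X p) N M / 16 := by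
    intro i hi j hj l hl
    have h1 := hnear.up i hi j hj l (by omega)
    have h2 := hnear.lo i hi j hj l (by omega)
    have h3 : θ * msh (Kt.X p) N M ≤ 1 / 16 * msh (Kt.X p) N M :=
      mul_le_mul_of_nonneg_right hθ1 hζ0.le
    rw [abs_le]
    constructor
    · linarith only [h2, h3]
    · linarith only [h1, hζ0]
  obtain ⟨J₁, h1⟩ := hnum b e hnear
  obtain ⟨J₂, h2⟩ := hL.num (by omega : 1 ≤ n₀ + 1) hN1 hNT hε0.le hεN (sh := sh) c1 hnum2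
    fun i hi j hj l hl => (hs.pos i hi j hj l hl).le
  have hp : Bas S (fun _ F A => 0 < Pe F.p A) := ⟨1, one_pos, 0, fun J _ F A hA => hpos 1 J F A hA⟩
  refine Bas.mono (max J₁ J₂) (Bas.and hp (hexc b e hnear)) ?_
  rintro J hJ F A ⟨hA, h4⟩ D hD
  obtain ⟨d1, d2, d3, d4, d5, d6, d7, d8, d9, d10⟩ := h1 J ((le_max_left _ _).trans hJ)
  have hN2' := h2 J ((le_max_right _ _).trans hJ)
  have hexcD := h4 D hD
  obtain ⟨g, hg, hG⟩ := hWgd p N M θ J F D A hD.2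
  obtain ⟨z, hz⟩ : ∃ z, z = up (msh (Kt.X p) N M) J := ⟨_, rfl⟩
  have hz0 : (0 : ℝ) ≤ z := Nat.cast_nonneg z
  rw [← hz] at d1 d2 d3 d4 d5 d6 d7 d9 d10 hg hG
  have hOk : D.Ok (Kt.cs p) (n₀ + 1) Kt.K K' s₁ sh (up ((Kt.y p).1 + (Kt.y p).2) J)
      (up (Kt.y p).1 J) z M (fun i j => ⌊e i j * J⌋₊) (fun i j l => ⌊b i j l * J⌋₊) A := by
    rw [hz]
    exact hD.1
  have e1 : (M + 1) * z = M * z + z := by ring
  have hcl1 : ⌈θ * z⌉₊ + (⌈θ * z⌉₊ + 1) ≤ z := by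
    have h6 : ((⌈θ * z⌉₊ + (⌈θ * z⌉₊ + 1) : ℕ) : ℝ) ≤ z :=
      d3.trans (by
        have := mul_le_mul_of_nonneg_right hδ2 hz0
        linarith)
    exact_mod_cast h6
  have hG' := hchg (g' := fun i j l => ⌊b i j l * J⌋₊) (u := ⌈θ * z⌉₊ + 1) hOk hG
    ((le_max_right _ _).trans d4) (by omega) (fun i hi j hj l hl => by
      have h5 := hg i hi j hj l hl
      have h6 := d10 i hi j hj l hl
      constructor
      · show g i j l ≤ ⌊b i j l * J⌋₊ + (⌈θ * z⌉₊ + 1)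
        omega
      · show ⌊b i j l * J⌋₊ ≤ g i j l + (⌈θ * z⌉₊ + 1)
        omega)
  have hiso := hG'.iso hOk (hcom p N M θ J F D A hD.2) d1 (by omega) d5 hcl1
  have hfin := hok (ρ := Kt.rc p N M θ J F D) (lam := lamS (n₀ + 1) (Kt.ml p))
    (gam := gamS (n₀ + 1) (Kt.la p) (Kt.ml p)) (k := δ)
    (q := Pool.Agent.H49.Ent.cond F.p A True) hiso (hsub p N M θ J F D)
    ((le_max_left _ _).trans d4)
    (d2.trans (mul_le_mul_of_nonneg_right hδ1 hz0))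
    (d3.trans (mul_le_mul_of_nonneg_right hδ1 hz0)) c0 (by
      rw [hz]
      exact hN2') (isLaw_cond F.isLaw hA) (fun ω hω => Pool.PB.End.of_cond_pos hω)
    le_rfl (by
      rw [hz]
      exact hexcD)
  rw [hz] at hfin
  exact hfin

end Pool.STAT
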