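import Pool.Agent.H55.GEN.GluB
import Pool.Agent.H62.ISO.Inc

/-!
# Near systems

`NbP n P g S Φ Ψ`: the systems `Φ` and `Ψ` are near on the natural boxes of `Φ`, up to `S` natural
units, for the times of `P`. The relation is symmetric and transitive up to polynomial losses in
`S` (`NbP.symm`, `NbP.trans`); `NbP.chg`: other times and other sides. `incB`: increments.
-/

set_option autoImplicit false

namespace Pool.STAT.OKI

open Finset MvPolynomial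
open Pool.Agent.H49.Ent Pool.Agent.H32.Dense Pool.STK Pool.KA Pool.K2S
open Pool.STAT.CLO Pool.STAT.Glu

/-! ### Polynomial losses -/

/-- Absorption of constants. -/
theorem pw (A : ℝ) (p : ℕ) : ∃ c : ℕ, 1 ≤ c ∧ ∀ c' ≥ c, ∀ x : ℝ, 1 ≤ x →
    A * x ^ p ≤ (c' * x) ^ c' := by
  obtain ⟨a, ha⟩ := exists_nat_ge A
  refine ⟨max 1 (max a p), le_max_left _ _, fun c' hc x hx => ?_⟩
  have h1 : 1 ≤ c' := (le_max_left _ _).trans hc
  have h2 : a ≤ c' := ((le_max_left _ _).trans (le_max_right _ _)).trans hc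
  have h3 : p ≤ c' := ((le_max_right _ _).trans (le_max_right _ _)).trans hc
  have e1 : (1 : ℝ) ≤ c' := by exact_mod_cast h1
  have e2 : A ≤ c' := ha.trans (by exact_mod_cast h2)
  rw [mul_pow]
  have e3 : (c' : ℝ) ≤ (c' : ℝ) ^ c' := le_self_pow₀ e1 (by omega)
  exact mul_le_mul (e2.trans e3) (pow_le_pow_right₀ hx h3) (by positivity) (by positivity)

theorem pw_mono {c c' : ℕ} (hc : 1 ≤ c) (hcc : c ≤ c') {x x' : ℝ} (hx : 1 ≤ x) (hxx : x ≤ x') :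
    ((c : ℝ) * x) ^ c ≤ (c' * x') ^ c' := by
  have e1 : (1 : ℝ) ≤ c := by exact_mod_cast hc
  have e2 : (c : ℝ) ≤ c' := by exact_mod_cast hcc
  have e3 : (c : ℝ) * x ≤ c' * x' := mul_le_mul e2 hxx (by linarith) (by linarith)
  have e4 : 1 ≤ (c : ℝ) * x := by nlinarith
  exact (pow_le_pow_left₀ (by linarith) e3 c).trans (pow_le_pow_right₀ (e4.trans e3) hcc)

theorem pw_one {c : ℕ} (hc : 1 ≤ c) {x : ℝ} (hx : 1 ≤ x) : 1 ≤ ((c : ℝ) * x) ^ c := by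
  have e1 : (1 : ℝ) ≤ c := by exact_mod_cast hc
  exact one_le_pow₀ (by nlinarith)

theorem pw_self {c : ℕ} (hc : 1 ≤ c) {x : ℝ} (hx : 1 ≤ x) : x ≤ ((c : ℝ) * x) ^ c := by
  have e1 : (1 : ℝ) ≤ c := by exact_mod_cast hc
  have e2 : x ≤ (c : ℝ) * x := by nlinarith
  exact e2.trans (le_self_pow₀ (hx.trans e2) (by omega))

/-- Composition of losses. -/
theorem pw_comp (c p : ℕ) (A : ℝ) (hc : 1 ≤ c) : ∃ d : ℕ, 1 ≤ d ∧ ∀ d' ≥ d, ∀ x : ℝ, 1 ≤ x →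
    A * (((c : ℝ) * x) ^ c) ^ p ≤ (d' * x) ^ d' := by
  obtain ⟨d, hd, h⟩ := pw (|A| * ((c : ℝ) ^ c) ^ p) (c * p)
  refine ⟨d, hd, fun d' hd' x hx => le_trans ?_ (h d' hd' x hx)⟩
  have e : (((c : ℝ) * x) ^ c) ^ p = ((c : ℝ) ^ c) ^ p * x ^ (c * p) := by
    rw [mul_pow, mul_pow, ← pow_mul x]
  rw [e, ← mul_assoc]
  refine mul_le_mul_of_nonneg_right ?_ (by positivity)
  exact mul_le_mul_of_nonneg_right (le_abs_self A) (by positivity)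

/-! ### The relation -/

/-- The systems are near on the natural boxes of the first one, up to `S` natural units. -/
def NbP (n : ℕ) (P : ℝ → Prop) (g : ℕ → ℕ) (S : ℝ) (Φ Ψ : ℕ → PN) : Prop :=
  ∀ l, 1 ≤ l → l ≤ n → ∀ b : ℕ → ℝ, Bt 1 P g Φ l b → |eval b (Φ l) - eval b (Ψ l)| ≤ S / 2 ^ g l

section

variable {n K : ℕ} {P : ℝ → Prop} {g : ℕ → ℕ} {S S' R : ℝ} {Φ Ψ Θ : ℕ → PN}

theorem NbP.mono {P' : ℝ → Prop} {n' : ℕ} (h : NbP n P g S Φ Ψ) (hn : n' ≤ n)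
    (hP : ∀ t, P' t → P t) (hS : S ≤ S') : NbP n' P' g S' Φ Ψ := fun l h1 h2 b hb =>
  (h l h1 (h2.trans hn) b (hb.mono le_rfl hP le_rfl)).trans
    (div_le_div_of_nonneg_right hS (by positivity))

/-- **Dilation.** -/
theorem NbP.dil (n K : ℕ) : ∃ c : ℕ, 1 ≤ c ∧ ∀ {P : ℝ → Prop} {g : ℕ → ℕ} {S R : ℝ}
    {Φ Ψ : ℕ → PN}, Tr K Φ → Tr K Ψ → 0 ≤ S → 1 ≤ R → NbP n P g S Φ Ψ → ∀ l, 1 ≤ l → l ≤ n →
    ∀ b : ℕ → ℝ, Bt R P g Φ l b →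
    |eval b (Φ l) - eval b (Ψ l)| ≤ ((c : ℝ) * R) ^ c * S / 2 ^ g l := by
  obtain ⟨C, hC, hd⟩ := dilB n K
  obtain ⟨c, hc, hpw⟩ := pw C (K * (K + 1) ^ (n + 1))
  refine ⟨c, hc, ?_⟩
  intro P g S R Φ Ψ hΦ hΨ hS hR h l h1 h2 b hb
  have h3 := hd Φ g (Φ l - Ψ l) l P (S / 2 ^ g l) R hΦ.tri hΦ.deg h2
    ((vars_sub_subset _).trans (Finset.union_subset (hΦ.tri l) (hΨ.tri l)))
    ((totalDegree_sub _ _).trans (max_le (hΦ.deg l) (hΨ.deg l))) hR (fun b' hb' => by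
      rw [map_sub]
      exact h l h1 h2 b' hb') b hb
  rw [map_sub] at h3
  refine h3.trans ?_
  have h4 := hpw c le_rfl R hR
  have h5 : C * (S / 2 ^ g l) * R ^ (K * (K + 1) ^ (n + 1)) =
      C * R ^ (K * (K + 1) ^ (n + 1)) * S / 2 ^ g l := by ring
  rw [h5]
  exact div_le_div_of_nonneg_right (mul_le_mul_of_nonneg_right h4 hS) (by positivity)

/-- **From the boxes of `Φ` to the boxes of `Ψ`.** -/
theorem NbP.box (n K : ℕ) : ∃ c : ℕ, 1 ≤ c ∧ ∀ {P : ℝ → Prop} {g : ℕ → ℕ} {S R : ℝ}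
    {Φ Ψ : ℕ → PN}, Tr K Φ → Tr K Ψ → 1 ≤ S → 1 ≤ R → NbP n P g S Φ Ψ → ∀ m ≤ n + 1,
    ∀ b : ℕ → ℝ, Bt R P g Φ m b → Bt (((c : ℝ) * (S * R)) ^ c) P g Ψ m b := by
  obtain ⟨c, hc, hdil⟩ := NbP.dil n K
  obtain ⟨d, hd, hpw⟩ := pw_comp c 1 1 hc
  obtain ⟨d₂, hd₂, hpw₂⟩ := pw (2 * ((d : ℝ) ^ d)) (d + 1)
  refine ⟨d₂, hd₂, ?_⟩
  intro P g S R Φ Ψ hΦ hΨ hS hR h m hm b hb
  refine ⟨hb.1, fun l h1 h2 => ?_⟩
  have h3 := hb.2 l h1 h2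
  have h4 := hdil hΦ hΨ (by linarith) hR h l h1 (by omega) b (hb.mono le_rfl (fun _ h => h) h2.le)
  have h5 : |b l - eval b (Ψ l)| ≤ |b l - eval b (Φ l)| + |eval b (Φ l) - eval b (Ψ l)| := by
    have := abs_add_le (b l - eval b (Φ l)) (eval b (Φ l) - eval b (Ψ l))
    rwa [sub_add_sub_cancel] at this
  refine (h5.trans (add_le_add h3 h4)).trans ?_
  rw [← add_div]
  refine div_le_div_of_nonneg_right ?_ (by positivity)
  have hSR : 1 ≤ S * R := by nlinarith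
  have h6 := hpw d le_rfl R hR
  rw [one_mul, pow_one] at h6
  have h7 := hpw₂ d₂ le_rfl (S * R) hSR
  have e1 : R ≤ S * R := by nlinarith
  have e2 : S ≤ S * R := by nlinarith
  have e3 : R ≤ (d : ℝ) ^ d * (S * R) ^ (d + 1) := by
    have a1 : (1 : ℝ) ≤ (d : ℝ) ^ d := one_le_pow₀ (by exact_mod_cast hd)
    have a2 : S * R ≤ (S * R) ^ (d + 1) := le_self_pow₀ hSR (by omega)
    nlinarith
  have e4 : ((c : ℝ) * R) ^ c * S ≤ (d : ℝ) ^ d * (S * R) ^ (d + 1) := by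
    calc ((c : ℝ) * R) ^ c * S ≤ ((d : ℝ) * R) ^ d * S :=
          mul_le_mul_of_nonneg_right h6 (by linarith)
      _ = (d : ℝ) ^ d * (R ^ d * S) := by rw [mul_pow]; ring
      _ ≤ (d : ℝ) ^ d * ((S * R) ^ d * (S * R)) := by
          refine mul_le_mul_of_nonneg_left ?_ (by positivity)
          exact mul_le_mul (pow_le_pow_left₀ (by linarith) e1 d) e2 (by linarith) (by positivity)
      _ = (d : ℝ) ^ d * (S * R) ^ (d + 1) := by rw [pow_succ]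
  linarith

/-- **From the boxes of `Ψ` to the boxes of `Φ`.** -/
theorem NbP.box' (n K : ℕ) : ∃ c : ℕ, 1 ≤ c ∧ ∀ {P : ℝ → Prop} {g : ℕ → ℕ} {S R : ℝ}
    {Φ Ψ : ℕ → PN}, Tr K Φ → Tr K Ψ → 1 ≤ S → 1 ≤ R → NbP n P g S Φ Ψ → ∀ m ≤ n + 1,
    ∀ b : ℕ → ℝ, Bt R P g Ψ m b → Bt (((c : ℝ) * (S * R)) ^ c) P g Φ m b := by
  obtain ⟨c₀, hc₀, hdil⟩ := NbP.dil n K
  have key : ∀ m ≤ n + 1, ∃ c : ℕ, 1 ≤ c ∧ ∀ {P : ℝ → Prop} {g : ℕ → ℕ} {S R : ℝ}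
      {Φ Ψ : ℕ → PN}, Tr K Φ → Tr K Ψ → 1 ≤ S → 1 ≤ R → NbP n P g S Φ Ψ →
      ∀ b : ℕ → ℝ, Bt R P g Ψ m b → Bt (((c : ℝ) * (S * R)) ^ c) P g Φ m b := by
    intro m
    induction m with
    | zero =>
      intro _
      exact ⟨1, le_rfl, fun _ _ _ _ _ b hb => ⟨hb.1, fun l h1 h2 => absurd h2 (Nat.not_lt_zero _)⟩⟩
    | succ m ih =>
      intro hm
      obtain ⟨c, hc, ih⟩ := ih (by omega)
      obtain ⟨d, hd, hpw⟩ := pw (2 * ((c₀ : ℝ) ^ c₀ * ((c : ℝ) ^ c) ^ c₀)) (c * c₀ + 1)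
      refine ⟨max c d, hc.trans (le_max_left _ _), ?_⟩
      intro P g S R Φ Ψ hΦ hΨ hS hR h b hb
      have hSR : 1 ≤ S * R := by nlinarith
      have h0 := ih hΦ hΨ hS hR h b (hb.mono le_rfl (fun _ h => h) (Nat.le_succ m))
      refine ⟨hb.1, fun l h1 h2 => ?_⟩
      rcases Nat.lt_succ_iff_lt_or_eq.1 h2 with h3 | rfl
      · exact (h0.2 l h1 h3).trans (div_le_div_of_nonneg_right
          (pw_mono hc (le_max_left _ _) hSR le_rfl) (by positivity))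
      · have hρ := pw_one hc hSR
        have h4 := hdil hΦ hΨ (by linarith) hρ h l h1 (by omega) b h0
        have h5 := hb.2 l h1 h2
        have h6 : |b l - eval b (Φ l)| ≤ |b l - eval b (Ψ l)| +
            |eval b (Φ l) - eval b (Ψ l)| := by
          have := abs_sub (b l - eval b (Ψ l)) (eval b (Φ l) - eval b (Ψ l))
          rwa [sub_sub_sub_cancel_right] at this
        refine (h6.trans (add_le_add h5 h4)).trans ?_
        rw [← add_div]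
        refine div_le_div_of_nonneg_right ?_ (by positivity)
        refine le_trans ?_ (hpw (max c d) (le_max_right _ _) (S * R) hSR)
        obtain ⟨A, hA⟩ : ∃ A : ℝ, A = (c₀ : ℝ) ^ c₀ * ((c : ℝ) ^ c) ^ c₀ := ⟨_, rfl⟩
        have hA1 : 1 ≤ A := by
          rw [hA]
          have a1 : (1 : ℝ) ≤ (c₀ : ℝ) ^ c₀ := one_le_pow₀ (by exact_mod_cast hc₀)
          have a2 : (1 : ℝ) ≤ ((c : ℝ) ^ c) ^ c₀ :=
            one_le_pow₀ (one_le_pow₀ (by exact_mod_cast hc))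
          nlinarith
        rw [← hA]
        have e1 : ((c₀ : ℝ) * ((c : ℝ) * (S * R)) ^ c) ^ c₀ * S ≤ A * (S * R) ^ (c * c₀ + 1) := by
          have a1 : ((c₀ : ℝ) * ((c : ℝ) * (S * R)) ^ c) ^ c₀ = A * (S * R) ^ (c * c₀) := by
            rw [hA, mul_pow, mul_pow, mul_pow, ← pow_mul (S * R)]
            ring
          rw [a1, pow_succ, ← mul_assoc]
          refine mul_le_mul_of_nonneg_left ?_ (by positivity)
          nlinarith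
        have e2 : R ≤ A * (S * R) ^ (c * c₀ + 1) := by
          have a2 : S * R ≤ (S * R) ^ (c * c₀ + 1) := le_self_pow₀ hSR (by omega)
          have a3 : R ≤ S * R := by nlinarith
          nlinarith
        linarith
  choose! c hc h using key
  refine ⟨∑ m ∈ range (n + 2), c m, ?_, ?_⟩
  · exact (hc 0 (Nat.zero_le _)).trans (Finset.single_le_sum (f := c) (fun _ _ => Nat.zero_le _)
      (mem_range.2 (by omega)))
  · intro P g S R Φ Ψ hΦ hΨ hS hR hn m hm b hb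
    refine (h m hm hΦ hΨ hS hR hn b hb).mono ?_ (fun _ h => h) le_rfl
    exact pw_mono (hc m hm) (Finset.single_le_sum (f := c) (fun _ _ => Nat.zero_le _)
      (mem_range.2 (by omega))) (by nlinarith) le_rfl

/-- **Symmetry.** -/
theorem NbP.symm (n K : ℕ) : ∃ c : ℕ, 1 ≤ c ∧ ∀ {P : ℝ → Prop} {g : ℕ → ℕ} {S : ℝ}
    {Φ Ψ : ℕ → PN}, Tr K Φ → Tr K Ψ → 1 ≤ S → NbP n P g S Φ Ψ →
    NbP n P g (((c : ℝ) * S) ^ c) Ψ Φ := by
  obtain ⟨c₁, hc₁, h1⟩ := NbP.dil n K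
  obtain ⟨c₂, hc₂, h2⟩ := NbP.box' n K
  obtain ⟨c, hc, hpw⟩ := pw ((c₁ : ℝ) ^ c₁ * ((c₂ : ℝ) ^ c₂) ^ c₁) (c₂ * c₁ + 1)
  refine ⟨c, hc, ?_⟩
  intro P g S Φ Ψ hΦ hΨ hS h l l1 l2 b hb
  have h3 := h2 hΦ hΨ hS le_rfl h l (by omega) b hb
  rw [mul_one] at h3
  have h4 := h1 hΦ hΨ (by linarith) (pw_one hc₂ hS) h l l1 l2 b h3
  rw [abs_sub_comm]
  refine h4.trans (div_le_div_of_nonneg_right ?_ (by positivity))
  refine le_trans (le_of_eq ?_) (hpw c le_rfl S hS)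
  rw [mul_pow, mul_pow, mul_pow, ← pow_mul S, pow_succ]
  ring

/-- **Transitivity.** -/
theorem NbP.trans (n K : ℕ) : ∃ c : ℕ, 1 ≤ c ∧ ∀ {P : ℝ → Prop} {g : ℕ → ℕ} {S S' : ℝ}
    {Φ Ψ Θ : ℕ → PN}, Tr K Φ → Tr K Ψ → Tr K Θ → 1 ≤ S → 1 ≤ S' → NbP n P g S Φ Ψ →
    NbP n P g S' Ψ Θ → NbP n P g (((c : ℝ) * (S * S')) ^ c) Φ Θ := by
  obtain ⟨c₁, hc₁, h1⟩ := NbP.dil n K
  obtain ⟨c₂, hc₂, h2⟩ := NbP.box n K
  obtain ⟨c, hc, hpw⟩ := pw (2 * ((c₁ : ℝ) ^ c₁ * ((c₂ : ℝ) ^ c₂) ^ c₁)) (c₂ * c₁ + 1)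
  refine ⟨c, hc, ?_⟩
  intro P g S S' Φ Ψ Θ hΦ hΨ hΘ hS hS' h h' l l1 l2 b hb
  have hSS : 1 ≤ S * S' := by nlinarith
  have h3 := h2 hΦ hΨ hS le_rfl h l (by omega) b hb
  rw [mul_one] at h3
  have h4 := h1 hΨ hΘ (by linarith) (pw_one hc₂ hS) h' l l1 l2 b h3
  have h5 := h l l1 l2 b hb
  have h6 : |eval b (Φ l) - eval b (Θ l)| ≤ |eval b (Φ l) - eval b (Ψ l)| +
      |eval b (Ψ l) - eval b (Θ l)| := abs_sub_le _ _ _
  refine (h6.trans (add_le_add h5 h4)).trans ?_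
  rw [← add_div]
  refine div_le_div_of_nonneg_right ?_ (by positivity)
  refine le_trans ?_ (hpw c le_rfl (S * S') hSS)
  obtain ⟨A, hA⟩ : ∃ A : ℝ, A = (c₁ : ℝ) ^ c₁ * ((c₂ : ℝ) ^ c₂) ^ c₁ := ⟨_, rfl⟩
  have hA1 : 1 ≤ A := by
    rw [hA]
    have a1 : (1 : ℝ) ≤ (c₁ : ℝ) ^ c₁ := one_le_pow₀ (by exact_mod_cast hc₁)
    have a2 : (1 : ℝ) ≤ ((c₂ : ℝ) ^ c₂) ^ c₁ :=
      one_le_pow₀ (one_le_pow₀ (by exact_mod_cast hc₂))
    nlinarith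
  rw [← hA]
  have e1 : ((c₁ : ℝ) * ((c₂ : ℝ) * S) ^ c₂) ^ c₁ * S' ≤ A * (S * S') ^ (c₂ * c₁ + 1) := by
    have a1 : ((c₁ : ℝ) * ((c₂ : ℝ) * S) ^ c₂) ^ c₁ = A * S ^ (c₂ * c₁) := by
      rw [hA, mul_pow, mul_pow, mul_pow, ← pow_mul S]
      ring
    rw [a1, pow_succ, mul_assoc]
    refine mul_le_mul_of_nonneg_left ?_ (by positivity)
    have a2 : S ≤ S * S' := by nlinarith
    have a3 : S' ≤ S * S' := by nlinarith
    exact mul_le_mul (pow_le_pow_left₀ (by linarith) a2 _) a3 (by linarith) (by positivity)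
  have e2 : S ≤ A * (S * S') ^ (c₂ * c₁ + 1) := by
    have a2 : S * S' ≤ (S * S') ^ (c₂ * c₁ + 1) := le_self_pow₀ hSS (by omega)
    have a3 : S ≤ S * S' := by nlinarith
    nlinarith
  linarith

end

end Pool.STAT.OKI
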