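import Pool.Agent.H29.REC.Iso
import Pool.Agent.H60.GEN.MicT

/-!
# The fattest side of the target: no front cells

The threshold `iso` of the diagonal of a threshold `P` is allowed as the threshold of the target
over the boxes of a chart (`iso_leT`). A row where the diagonal is near an affine function of slope
at most `1 / c` has no front cell for it (`noFB_iso`): the slope of the level in the row is the
inverse of the slope of the diagonal. `dev`: the deviation of the diagonal from its tangent, which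
is small at almost all windows.
-/

set_option autoImplicit false

namespace Pool.ISO

open Pool.LEV Pool.RTS Pool.STR MeasureTheory Set Filter Topology

variable {P : ℝ → ℝ → ℝ}

theorem iso_leT (hP : Law P) : LeT (iso fun w => P w w) P := fun _ _ h0 h1 h2 =>
  iso_least (g := fun w => P w w) hP (fun _ _ _ => rfl) h0.le h1 h2

/-- **The diagonal is near an affine function** of slope `D` at most `1 / c`, on the box of size
`8 r`. -/
def Tan (P : ℝ → ℝ → ℝ) (c Q g r e : ℝ) : Prop :=
  ∃ D : ℝ, c * D ≤ 1 ∧ ∀ a : ℝ, |a - g| ≤ 8 * r → |P a a - (Q + D * (a - g))| ≤ e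

theorem Tan.mono {c c' Q g r r' e e' : ℝ} (h : Tan P c Q g r e) (h0 : 0 ≤ c') (hc : c' ≤ c)
    (hr : r' ≤ r) (he : e ≤ e') : Tan P c' Q g r' e' := by
  obtain ⟨D, h1, h2⟩ := h
  refine ⟨D, ?_, fun a ha => (h2 a (ha.trans (by linarith))).trans he⟩
  rcases le_total 0 D with hD | hD
  · exact (mul_le_mul_of_nonneg_right hc hD).trans h1
  · exact (mul_nonpos_of_nonneg_of_nonpos h0 hD).trans zero_le_one

/-- At a window where the diagonal is differentiable. -/
theorem tan_ev {g Q : ℝ} (hQ : P g g = Q) (hd : DifferentiableAt ℝ (fun a => P a a) g) {c : ℝ}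
    (hc : c * deriv (fun a => P a a) g ≤ 1) {e : ℝ} (he : 0 < e) :
    ∃ r₀ : ℝ, 0 < r₀ ∧ ∀ r : ℝ, 0 < r → r < r₀ → Tan P c Q g r (e * r) := by
  have h1 := hd.hasDerivAt.hasFDerivAt.isLittleO.def (show 0 < e / 8 by positivity)
  obtain ⟨d, hd0, h2⟩ := Metric.eventually_nhds_iff.1 h1
  refine ⟨d / 8, by positivity, fun r hr hr' => ⟨deriv (fun a => P a a) g, hc, fun a ha => ?_⟩⟩
  have h3 := h2 (show dist a g < d by rw [Real.dist_eq]; linarith)
  rw [Real.norm_eq_abs, Real.norm_eq_abs, hQ] at h3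
  simp only [ContinuousLinearMap.toSpanSingleton_apply, smul_eq_mul] at h3
  have e1 : P a a - Q - (a - g) * deriv (fun a => P a a) g =
    P a a - (Q + deriv (fun a => P a a) g * (a - g)) := by ring
  rw [e1] at h3
  refine h3.trans ?_
  have := mul_le_mul_of_nonneg_left ha (show 0 ≤ e / 8 by positivity)
  linarith

/-- The diagonal at the level of a row. -/
theorem dia_lev (hP : Law P) {Q : ℝ} (h0 : 0 < Q) (h1 : Q < 1) (hg0 : 0 < Lv P (Q, 0))
    (hg1 : Lv P (Q, 0) < 1) (hc : ContinuousAt (fun a => P a a) (Lv P (Q, 0))) :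
    P (Lv P (Q, 0)) (Lv P (Q, 0)) = Q := by
  obtain ⟨g, hg⟩ : ∃ g, g = Lv P (Q, 0) := ⟨_, rfl⟩
  have hgl : g = lev P Q 0 := by rw [hg, Lv_eq le_rfl zero_le_one h0.le h1.le]
  rw [← hg] at hg0 hg1 hc ⊢
  refine le_antisymm ?_ ?_
  · by_contra hcon
    push Not at hcon
    have h2 := hc.eventually (eventually_gt_nhds hcon)
    obtain ⟨d, hd, h3⟩ := Metric.eventually_nhds_iff.1 h2
    obtain ⟨x, hx⟩ : ∃ x, x = g - min (d / 2) (g / 2) := ⟨_, rfl⟩
    have m1 : 0 < min (d / 2) (g / 2) := lt_min (by positivity) (by positivity)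
    have m2 : min (d / 2) (g / 2) ≤ d / 2 := min_le_left _ _
    have m3 : min (d / 2) (g / 2) ≤ g / 2 := min_le_right _ _
    have h4 := h3 (show dist x g < d by
      rw [Real.dist_eq, hx, sub_sub_cancel_left, abs_neg, abs_of_pos m1]
      linarith)
    have h5 := lt_of_lt_lev (P := P) (Q := Q) zero_le_one (show (0 : ℝ) ≤ x by linarith)
      (show x < lev P Q 0 by linarith)
    rw [sub_zero] at h5
    exact absurd h4 (not_lt.2 h5.le)
  · by_contra hcon
    push Not at hcon
    have h2 := hc.eventually (eventually_lt_nhds hcon)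
    obtain ⟨d, hd, h3⟩ := Metric.eventually_nhds_iff.1 h2
    obtain ⟨x, hx⟩ : ∃ x, x = g + min (d / 2) ((1 - g) / 2) := ⟨_, rfl⟩
    have m1 : 0 < min (d / 2) ((1 - g) / 2) := lt_min (by positivity) (by linarith)
    have m2 : min (d / 2) ((1 - g) / 2) ≤ d / 2 := min_le_left _ _
    have m3 : min (d / 2) ((1 - g) / 2) ≤ (1 - g) / 2 := min_le_right _ _
    have h4 := h3 (show dist x g < d by
      rw [Real.dist_eq, hx, add_sub_cancel_left, abs_of_pos m1]
      linarith)
    have h5 := le_of_lev_lt hP (Q := Q) le_rfl zero_le_one (show lev P Q 0 < x by linarith)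
      (by linarith)
    rw [sub_zero] at h5
    exact absurd h4 (not_lt.2 h5)

/-- **No front cells** for the fattest side of the target. -/
theorem noFB_iso {κ : Type*} (hd : Diag fun w => P w w) (ρ : ℝ → ℝ)
    {Ad : ℝ → κ → ℝ → ℝ → ℝ → Prop} {df : κ → ℝ → ℝ → ℝ}
    (hAd : ∀ c k Q g r, Ad c k Q g r → Tan P c Q g r (df k g r)) :
    NoFB ρ (fun _ : κ => iso fun w => P w w) Ad df := by
  intro c β h hc hβ hh
  refine ⟨c / 4, by positivity, 1, one_pos, min (c / 4) (1 / 8), lt_min (by positivity)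
    (by norm_num), ?_⟩
  intro k Q g r p X al be hr hX hg hg1 hQ hQ1 had hF _ hdf
  obtain ⟨D, hD, hT⟩ := hAd c k Q g r had
  obtain ⟨ε, hε⟩ : ∃ ε, ε = min (c / 4) (1 / 8) := ⟨_, rfl⟩
  have ε1 : ε ≤ c / 4 := by rw [hε]; exact min_le_left _ _
  have ε2 : ε ≤ 1 / 8 := by rw [hε]; exact min_le_right _ _
  have hε0 : 0 < ε := by rw [hε]; exact lt_min (by positivity) (by norm_num)
  rw [← hε] at hF hdf
  obtain ⟨L, hL⟩ : ∃ L : ℝ → ℝ → ℝ, L = iso fun w => P w w := ⟨_, rfl⟩
  have hlaw : Law L := by rw [hL]; exact iso_law hd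
  obtain ⟨Q', q⟩ := p
  have hrow := abs_le.1 hF.row
  have hdep := hF.dep
  have hdep' := hF.dep'
  simp only at hrow hdep hdep'
  have hXr : X ≤ r := by linarith
  have hq0 : 0 ≤ q := by linarith
  have hq1 : q ≤ 1 := by linarith
  have hdfX : df k g r ≤ X / 8 := hdf.trans (by nlinarith)
  have ha := hF.aff (Q' + X, q) (by
    rw [Prod.dist_eq, Real.dist_eq, Real.dist_eq]
    simp only [add_sub_cancel_left, sub_self, abs_zero]
    rw [abs_of_pos hX]
    exact max_le le_rfl hX.le)
  simp only [add_sub_cancel_left, sub_self, mul_zero, add_zero] at ha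
  rw [← hL, Lv_eq hq0 hq1 (by linarith) (by linarith), Lv_eq hq0 hq1 (by linarith) (by linarith)]
    at ha
  obtain ⟨a, haa⟩ : ∃ a, a = lev L Q' q := ⟨_, rfl⟩
  obtain ⟨a', haa'⟩ : ∃ a', a' = lev L (Q' + X) q := ⟨_, rfl⟩
  rw [← haa, ← haa'] at ha
  have h1 : a' - a ≤ (c / 2) * X := by
    have h2 := (abs_le.1 ha).2
    have h3 : al * X ≤ c / 4 * X := mul_le_mul_of_nonneg_right hF.als hX.le
    have h4 : ε * X ≤ c / 4 * X := mul_le_mul_of_nonneg_right ε1 hX.le
    linarith
  have hgQ := abs_le.1 (hT g (by rw [sub_self, abs_zero]; linarith))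
  simp only [sub_self, mul_zero, add_zero] at hgQ
  -- the level of the upper row
  have hup : a' ≤ g + 6 * r := by
    have h2 : Q' + X ≤ P (g + 5 * r) (g + 5 * r) := by
      have h3 := hd.gsl (w := g) (v := 5 * r) (by linarith) (by linarith) (by linarith)
      refine le_trans (le_min ?_ ?_) h3
      · linarith
      · linarith
    have h3 : Q' + X ≤ L (g + 5 * r + q) (g + 5 * r + q - q) := by
      rw [hL, iso, add_sub_cancel_right]
      refine le_min (by linarith) ?_
      linarith
    rw [haa']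
    exact (lev_le ⟨by linarith, by linarith, Or.inl h3⟩).trans (by linarith)
  -- the level of the lower row
  have hlo : g - 4 * r ≤ a := by
    by_contra hcon
    push Not at hcon
    obtain ⟨x, hx⟩ : ∃ x, x = max (g - 4 * r) q := ⟨_, rfl⟩
    have hax : a < x := by rw [hx]; exact hcon.trans_le (le_max_left _ _)
    have hqx : q ≤ x := by rw [hx]; exact le_max_right _ _
    have hx2 : x = g - 4 * r := by rw [hx]; exact max_eq_left (by linarith)
    have h2 := le_of_lev_lt hlaw (Q := Q') hq0 hq1 (show lev L Q' q < x by rw [← haa]; exact hax)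
      (by rw [hx2]; linarith)
    rw [hL, iso] at h2
    have h3 := le_min_iff.1 h2
    have h4 := h3.2
    simp only [sub_sub_cancel] at h4
    have h5 : P (x - q) (x - q) ≤ P (g - 4 * r) (g - 4 * r) := by
      rw [← hx2]
      exact hd.mono (w := x - q) (w' := x) (by linarith) (by linarith) (by rw [hx2]; linarith)
    have h6 := hd.gsl (w := g - 4 * r) (v := 4 * r) (by linarith) (by linarith) (by linarith)
    rw [sub_add_cancel] at h6
    rcases min_le_iff.1 h6 with h7 | h7
    · linarith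
    · linarith
  -- two windows
  have haa1 : a ≤ a' := by
    rw [haa, haa']
    exact lev_mono hlaw hq0 le_rfl hq1 (by linarith)
  obtain ⟨η, hη⟩ : ∃ η, η = c * X / 32 := ⟨_, rfl⟩
  have hη0 : 0 < η := by rw [hη]; positivity
  obtain ⟨η', hη', hη'1, hη'2⟩ : ∃ η', 0 < η' ∧ η' ≤ η ∧ η' ≤ r := ⟨min η r, lt_min hη0 hr,
    min_le_left _ _, min_le_right _ _⟩
  have k1 : P (a - η' - q) (a - η' - q) + q < Q' := by
    have h2 := lt_of_lt_lev (P := L) (Q := Q') (q := q) (a := a - η') hq1 (by linarith)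
      (by rw [← haa]; linarith)
    rw [hL, iso] at h2
    rcases min_lt_iff.1 h2 with h3 | h3
    · linarith
    · linarith
  have k2 : Q' + X ≤ P (a' + η' - q) (a' + η' - q) + q := by
    have h2 := le_of_lev_lt hlaw (Q := Q' + X) (q := q) (a := a' + η') hq0 hq1
      (by rw [← haa']; linarith) (by linarith)
    rw [hL, iso] at h2
    have h3 := (le_min_iff.1 h2).2
    linarith
  have t1 := abs_le.1 (hT (a - η' - q) (by rw [abs_le]; constructor <;> linarith))
  have t2 := abs_le.1 (hT (a' + η' - q) (by rw [abs_le]; constructor <;> linarith))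
  have h5 : X ≤ D * (a' - a + 2 * η') + X / 4 := by
    have e1 : D * (a' - a + 2 * η') = D * (a' + η' - q - g) - D * (a - η' - q - g) := by ring
    rw [e1]
    linarith [t1.1, t2.2]
  have h6 : a' - a + 2 * η' ≤ (9 / 16) * (c * X) := by
    rw [hη] at hη'1
    linarith
  have h7 : 0 ≤ a' - a + 2 * η' := by linarith
  have h8 : D * (a' - a + 2 * η') ≤ (9 / 16) * X := by
    rcases le_total 0 D with hD0 | hD0
    · have h9 := mul_le_mul_of_nonneg_left h6 hD0
      have h10 := mul_le_mul_of_nonneg_right hD (show 0 ≤ 9 / 16 * X by positivity)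
      linarith
    · exact (mul_nonpos_of_nonpos_of_nonneg hD0 h7).trans (by positivity)
  linarith

end Pool.ISO
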