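import Pool.Agent.H40.ISO.Few0

/-!
# The labels at the points are functions of closed values, up to few bits

`pts_nb`: the label at the point has few bits if the point sides of the chains are near. `clo_pt`:
on an event of proportion at least a constant there is an exact closed value at the window of the
length of the radius, and the label at the point has few bits given this value and the time.
-/

set_option autoImplicit false

namespace Pool.STAT.OKI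

open Finset MvPolynomial
open Pool.Agent.H49.Ent Pool.Agent.H32.Dense Pool.STK Pool.KS3 Pool.KA Pool.KSAT Pool.PB Pool.GEN
open Pool.K2S Pool.S6C Pool.STAT.CLO Pool.STAT.Glu
open Pool.BFL (Pb)

/-- The point side of the chain at `(i, j)`. -/
noncomputable def Gy {m J : ℕ} {F : Fam m J} (D : GDat F) (c : ℕ → Fin m) (n i j : ℕ) (ω : F.Ω) :
    ℕ → PN :=
  Gx c n (D.G i j) (ptr F J ω)

theorem tr_gy {m J : ℕ} {F : Fam m J} {D : GDat F} {c : ℕ → Fin m} {n K K' s₁ : ℕ} {sh : ℕ → ℕ}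
    {a₀ w₀ z M : ℕ} {e : ℕ → ℕ → ℕ} {g : ℕ → ℕ → ℕ → ℕ} {B : F.Ω → Prop}
    (h : D.Ok c n K K' s₁ sh a₀ w₀ z M e g B) {i j : ℕ} (hi : i ≤ M) (hj : j ≤ M)
    (ω : F.Ω) : Tr K (Gy D c n i j ω) :=
  ⟨sy_tri, fun l => sy_deg (fun l _ => (h.chn i hi j hj).degG _ l) l⟩

/-- **The label at the point has few bits**, abstract form. -/
theorem pts_net (n K K' s₁ : ℕ) (sh : ℕ → ℕ) (hK' : 1 ≤ K') : ∃ C₁ : ℝ, 0 ≤ C₁ ∧
    ∀ {Ω Y Λ W : Type} [Fintype Ω] {a w : ℕ} {B : Ω → Prop} {pt : Ω → Y} {ln : Ω → Λ}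
    {θ : Y → ℝ} {θ' : Λ → ℝ} {g : ℕ → ℕ} {G : Y → ℕ → PN} {H : Λ → ℕ → PN} {X : Ω → ℕ → ℝ}
    {zL : Λ → LV} {PL : LV → ℕ → PN} {zS : Y → LV} {zS' : LV → ℝ → LV} {PS : LV → ℕ → PN}
    {q : Ω → ℝ}, Out2 n K' s₁ sh a w B pt ln θ θ' g G H X zL PL zS zS' PS → IsLaw q →
    (∀ ω, 0 < q ω → B ω) → (∀ y, TriN (G y)) → (∀ y i, (G y i).totalDegree ≤ K) →
    (∀ y, G y 0 = MvPolynomial.C (θ y)) → ∀ y : Ω → W, Det q y (fun ω => θ (pt ω)) →
    ∀ C' : ℝ, 0 ≤ C' → (∀ ω ω', 0 < q ω → 0 < q ω' → y ω = y ω' → ∀ l, 1 ≤ l → l ≤ n →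
      ∀ b : ℕ → ℝ, Bxr 1 (gt0 a g) (G (pt ω)) l b →
      |eval b (G (pt ω) l) - eval b (G (pt ω') l)| ≤ Real.exp C' / 2 ^ gt0 a g l) →
    CH q (fun ω => zS (pt ω)) y ≤ C₁ * (C' + 1) := by
  obtain ⟨u, hu⟩ : ∃ u, u = ∑ i ∈ range (n + 1), sh i := ⟨_, rfl⟩
  have hshu : ∀ i ≤ n, sh i ≤ u := fun i hi => by
    rw [hu]
    exact Finset.single_le_sum (f := sh) (fun _ _ => Nat.zero_le _) (mem_range.2 (by omega))
  obtain ⟨A, hA, hnn⟩ := near_near n K K' (2 ^ s₁) (2 ^ u) hK' (one_le_pow₀ (by norm_num))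
    (one_le_pow₀ (by norm_num))
  obtain ⟨C₁, hC₁, hnum⟩ := Net.net_num (n := n) (c := K') (L := 2 ^ s₁ * A) (by positivity)
  refine ⟨C₁ * K', by positivity, ?_⟩
  intro Ω Y Λ W _ a w B pt ln θ θ' g G H X zL PL zS zS' PS q hO hq hB hT hK hG0 y hy C' hC' hn
  have hS₀ : (1 : ℝ) ≤ Real.exp C' := Real.one_le_exp hC'
  have hside : ∀ i ≤ n, 1 ≤ i → (1 : ℝ) / 2 ^ (g i - sh i) ≤ 2 ^ u / 2 ^ g i := by
    intro i hi _
    rw [div_le_div_iff₀ (by positivity) (by positivity), one_mul, ← pow_add]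
    refine pow_le_pow_right₀ (by norm_num) ?_
    have := hshu i hi
    omega
  refine (Net.net_core hq (n := n) (c := K') (L := 2 ^ s₁) (S := A * Real.exp C' ^ K')
    (fun ω => zS (pt ω)) y (fun ω ω' h h' e => ?_) (fun ω _ j k hk => hO.Ssupp _ j k hk)
    fun ω ω' h h' e j hj1 hj hk k => ?_).trans ?_
  · show (zS (pt ω)).1 = (zS (pt ω')).1
    rw [hO.Sfst, hO.Sfst]
    exact hy ω ω' h h' e
  · refine hO.Ssep _ _ ?_ j hj hk (A * Real.exp C' ^ K') (by positivity) (fun b hb => ?_) k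
    · rw [hO.Sfst, hO.Sfst]
      exact hy ω ω' h h' e
    · have e0 : G (pt ω) 0 = G (pt ω') 0 := by
        rw [hG0, hG0]
        exact congrArg _ (hy ω ω' h h' e)
      have hb1 : Bxr (2 ^ u) (gt0 a g) (PS (zS (pt ω))) j b := by
        intro i hi
        have h1 := hb i hi
        rcases Nat.eq_zero_or_pos i with rfl | hi0
        · rw [gt0_zero] at h1 ⊢
          refine h1.trans (div_le_div_of_nonneg_right ?_ (by positivity))
          exact one_le_pow₀ (by norm_num)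
        · rw [gt0_pos _ _ hi0] at h1 ⊢
          exact h1.trans (hside i (by omega) hi0)
      have h1 := hnn hS₀ (hT (pt ω)) (hT (pt ω')) (hK _) (hK _) (hO.nrS ω (hB ω h))
        (hO.nrS ω' (hB ω' h')) e0 (fun l l1 l2 => hn ω ω' h h' e l l1 l2) j hj b hb1
      refine h1.trans (div_le_div_of_nonneg_left (by positivity) (by positivity) ?_)
      rw [gt0_pos _ _ hj1, gt0_pos _ _ hj1]
      exact pow_le_pow_right₀ (by norm_num) (Nat.sub_le _ _)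
  · have h1 := hnum (K' * C') 1 (by positivity) le_rfl
    have e1 : (2 : ℝ) ^ s₁ * (A * Real.exp C' ^ K') =
        2 ^ s₁ * A * Real.exp (K' * C' * ((1 : ℕ) : ℝ)) := by
      rw [Nat.cast_one, mul_one, Real.exp_nat_mul]
      ring
    rw [e1]
    refine h1.trans ?_
    rw [Nat.cast_one, mul_one, mul_assoc]
    refine mul_le_mul_of_nonneg_left ?_ hC₁
    have h2 : (1 : ℝ) ≤ K' := by exact_mod_cast hK'
    nlinarith

/-- **The label at the point has few bits** if the point sides of the chains are near. -/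
theorem pts_nb (n K K' s₁ : ℕ) (sh : ℕ → ℕ) (hK' : 1 ≤ K') : ∃ C₁ : ℝ, 0 ≤ C₁ ∧
    ∀ {m J : ℕ} {F : Fam m J} {D : GDat F} {c : ℕ → Fin m} {a₀ w₀ z M : ℕ} {e : ℕ → ℕ → ℕ}
    {g : ℕ → ℕ → ℕ → ℕ} {B : F.Ω → Prop} {q : F.Ω → ℝ} {W : Type},
    D.Ok c n K K' s₁ sh a₀ w₀ z M e g B → IsLaw q → (∀ ω, 0 < q ω → B ω) →
    ∀ i ≤ M, ∀ j ≤ M, ∀ y : F.Ω → W, Det q y F.T → ∀ C' : ℝ, 0 ≤ C' →
    (∀ ω ω', 0 < q ω → 0 < q ω' → y ω = y ω' →
      NbP n (Wn (F.t ω) (a₀ + i * z)) (gs g i j) (Real.exp C') (Gy D c n i j ω)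
        (Gy D c n i j ω')) →
    CH q (fun ω => D.zS i j (ptr F J ω)) y ≤ C₁ * (C' + 1) := by
  obtain ⟨C₁, hC₁, h⟩ := pts_net n K K' s₁ sh hK'
  refine ⟨C₁, hC₁, ?_⟩
  intro m J F D c a₀ w₀ z M e g B q W hD hq hB i hi j hj y hy C' hC' hn
  have hch := hD.chn i hi j hj
  refine h (hD.out i hi j hj) hq hB (fun s => sy_tri) (fun s l => sy_deg (fun l _ => hch.degG s l)
    l) (fun s => sy_zero) y (fun ω ω' h h' e => ?_) C' hC' fun ω ω' h h' e l l1 l2 b hb => ?_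
  · have h1 := hy ω ω' h h' e
    show tx (ptr F J ω) = tx (ptr F J ω')
    rw [tx_eq, tx_eq]
    unfold Fam.t
    rw [h1]
  · have h1 := hn ω ω' h h' e l l1 l2 b ⟨?_, fun k k1 k2 => ?_⟩
    · rw [gt0_pos _ _ l1]
      exact h1
    · have h2 := hb 0 (by omega)
      have e1 : Gx c n (D.G i j) (ptr F J ω) 0 = MvPolynomial.C (F.t ω) := sy_zero
      rw [e1, eval_C, gt0_zero] at h2
      exact h2
    · have h2 := hb k k2
      rw [gt0_pos _ _ k1] at h2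
      exact h2

/-! ### Exact closed values -/

theorem NbP.cg {n : ℕ} {P : ℝ → Prop} {g : ℕ → ℕ} {S : ℝ} {Φ Ψ Φ' Ψ' : ℕ → PN}
    (h : NbP n P g S Φ Ψ) (h1 : ∀ l, 1 ≤ l → l ≤ n → Φ' l = Φ l)
    (h2 : ∀ l, 1 ≤ l → l ≤ n → Ψ' l = Ψ l) : NbP n P g S Φ' Ψ' := by
  intro l l1 l2 b hb
  rw [h1 l l1 l2, h2 l l1 l2]
  refine h l l1 l2 b ⟨hb.1, fun k k1 k2 => ?_⟩
  have h3 := hb.2 k k1 k2
  rw [h1 k k1 (by omega)] at h3
  exact h3

theorem gy_gs {m J : ℕ} {F : Fam m J} (D : GDat F) (c : ℕ → Fin m) (n i j a : ℕ) (ω : F.Ω) {l : ℕ}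
    (l1 : 1 ≤ l) (l2 : l ≤ n) :
    Gy D c n i j ω l = Gs c n a (D.G i j) (ptr F J ω) l := by
  obtain ⟨l, rfl⟩ : ∃ l', l = l' + 1 := ⟨l - 1, by omega⟩
  unfold Gy Gx Gs
  rw [sy_succ (by omega), sy_succ (by omega)]

/-- **An exact closed value** at the window of the length of the radius. -/
theorem clo_pt (n K K' s₁ : ℕ) (sh : ℕ → ℕ) (hK' : 1 ≤ K') : ∃ (C₁ : ℝ) (c₁ s₃ : ℕ), 0 ≤ C₁ ∧
    1 ≤ c₁ ∧
    ∀ {m J : ℕ} {F : Fam m J} {D : GDat F} {c : ℕ → Fin m} {a₀ w₀ z M : ℕ} {e : ℕ → ℕ → ℕ}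
    {g : ℕ → ℕ → ℕ → ℕ} {A : F.Ω → Prop}, D.Ok c n K K' s₁ sh a₀ w₀ z M e g A → Inj c n →
    ∀ i ≤ M, ∀ j ≤ M, w₀ + j * z ≤ a₀ + i * z → a₀ + i * z ≤ J → (∀ l < n, s₃ ≤ g i j l) →
    ∃ (y : PtT F → LV) (y' : LnT F → LV) (B : F.Ω → Prop), Sub B A ∧ Pe F.p A ≤ c₁ * Pe F.p B ∧
      (∀ ω, B ω → y (ptr F J ω) = y' (slam F (a₀ + i * z) ω)) ∧
      ∀ {q : F.Ω → ℝ}, IsLaw q → (∀ ω, 0 < q ω → B ω) →
        CH q (fun ω => D.zS i j (ptr F J ω))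
          (fun ω => (y' (slam F (a₀ + i * z) ω), F.T ω)) ≤ C₁ := by
  obtain ⟨s₀, hraw⟩ := raw_of n K
  obtain ⟨a, c', hc', hclo⟩ := clo n K
  obtain ⟨C₂, hC₂, hpts⟩ := pts_nb n K K' s₁ sh hK'
  obtain ⟨K₂, hK₂⟩ : ∃ K₂, K₂ = max K c' := ⟨_, rfl⟩
  have kK : K ≤ K₂ := by rw [hK₂]; exact le_max_left _ _
  have kc : c' ≤ K₂ := by rw [hK₂]; exact le_max_right _ _
  obtain ⟨c₁, hc₁, hchg⟩ := NbP.chg n K
  obtain ⟨c₂, hc₂, hsym⟩ := NbP.symm n K₂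
  obtain ⟨c₃, hc₃, htra⟩ := NbP.trans n K₂
  obtain ⟨S, hS⟩ : ∃ S : ℝ, S = (c' * 2 ^ s₀ * 1 : ℝ) ^ c' := ⟨_, rfl⟩
  have hc1 : (1 : ℝ) ≤ c' := by exact_mod_cast hc'
  have hS1 : 1 ≤ S := by
    rw [hS]
    refine one_le_pow₀ ?_
    have : (1 : ℝ) ≤ 2 ^ s₀ := one_le_pow₀ (by norm_num)
    nlinarith
  have hS2 : 1 ≤ ((c₂ : ℝ) * S) ^ c₂ := pw_one hc₂ hS1
  obtain ⟨S₃, hS₃⟩ : ∃ S₃ : ℝ, S₃ = ((c₁ : ℝ) * 1) ^ c₁ *
    ((c₃ : ℝ) * (S * ((c₂ : ℝ) * S) ^ c₂)) ^ c₃ := ⟨_, rfl⟩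
  have hS31 : 1 ≤ S₃ := by
    rw [hS₃]
    exact one_le_mul_of_one_le_of_one_le (pw_one hc₁ le_rfl)
      (pw_one hc₃ (one_le_mul_of_one_le_of_one_le hS1 hS2))
  have hlog : 0 ≤ Real.log S₃ := Real.log_nonneg hS31
  refine ⟨C₂ * (Real.log S₃ + 1), c', a * (s₀ + 1), by positivity, hc', ?_⟩
  intro m J F D c a₀ w₀ z M e g A hD hc i hi j hj hwa haJ hg
  have hch := hD.chn i hi j hj
  obtain ⟨aa, haa⟩ : ∃ aa, aa = a₀ + i * z := ⟨_, rfl⟩
  rw [← haa] at hwa haJ hch ⊢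
  have hR := hraw m J F c (fun _ => K) aa (w₀ + j * z) (e i j) (g i j) A (D.G i j) (D.H i j) hwa
    haJ hc (fun _ _ => le_rfl) hch
  obtain ⟨Z, Z', P, B, hB, hPe, hL, hN⟩ := hclo F.Ω (PtT F) (LnT F) F.p s₀ A (ptr F J)
    (slam F aa) (tp aa) (tl aa) (gg aa (g i j)) (Gs c n aa (D.G i j))
    (fun s => Hs c n (D.H i j) (crs (w₀ + j * z) aa s)) (cx F (fun i => c (i - 1))) F.isLaw hR
    (fun ω _ => by
      have h1 : cx F (fun i => c (i - 1)) ω 0 = F.t ω := if_pos rfl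
      have h2 : gg aa (g i j) 0 = aa := if_pos rfl
      unfold Gs
      rw [h1, h2, sy_zero, eval_C, tp_eq]
      exact t_cell F haJ ω)
    (fun ω hω l l1 l2 => (pos_of hc hch hω l1 l2).trans
      (div_le_div_of_nonneg_right (one_le_pow₀ (by norm_num)) (by positivity)))
    (fun l l1 l2 => by
      have h1 : gg aa (g i j) l = g i j (l - 1) := if_neg (by omega)
      rw [h1]
      exact hg (l - 1) (by omega))
  refine ⟨Z, Z', B, hB, hPe, fun ω hω => hL.cls ω hω, ?_⟩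
  intro q hq hqB
  have hgs : ∀ l, 1 ≤ l → gg aa (g i j) l = gs g i j l := fun l l1 => if_neg (by omega)
  -- near to the polynomials of the value
  have hnb : ∀ ω, B ω → NbP n (Wn ((F.T1 aa ω : ℝ) / 2 ^ aa) aa) (gs g i j) S
      (Gs c n aa (D.G i j) (ptr F J ω)) (P (Z (ptr F J ω))) := by
    intro ω hω l l1 l2 b hb
    have h1 := (hN ω hω).2 l l1 (by omega) 1 le_rfl b (fun k hk => by
      rcases Nat.eq_zero_or_pos k with rfl | k1
      · have e1 : Gs c n aa (D.G i j) (ptr F J ω) 0 =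
            MvPolynomial.C ((F.T1 aa ω : ℝ) / 2 ^ aa) := by
          unfold Gs
          rw [sy_zero, tp_eq]
        have e2 : gg aa (g i j) 0 = aa := if_pos rfl
        rw [e1, eval_C, e2]
        exact hb.1
      · rw [hgs k k1]
        exact hb.2 k k1 hk)
    rw [hgs l l1] at h1
    rw [abs_sub_comm, hS]
    exact h1
  have htr : ∀ ω : F.Ω, Tr K (Gs c n aa (D.G i j) (ptr F J ω)) := fun ω =>
    ⟨sy_tri, fun l => sy_deg (fun l _ => hch.degG _ l) l⟩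
  have htp : ∀ v, Tr K₂ (P v) := fun v => ⟨hL.tri v, fun l => (hL.deg v l).trans kc⟩
  have hq0 := hpts (D := D) hD hq (fun ω hω => hB ω (hqB ω hω)) i hi j hj
    (fun ω => (Z' (slam F aa ω), F.T ω)) (fun ω ω' _ _ e => (Prod.ext_iff.1 e).2) (Real.log S₃)
    hlog (fun ω ω' hω hω' e => by
      simp only [Prod.mk.injEq] at e
      obtain ⟨e1, e2⟩ := e
      have b1 := hqB ω hω
      have b2 := hqB ω' hω'
      have e3 : Z (ptr F J ω') = Z (ptr F J ω) := by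
        rw [hL.cls ω b1, hL.cls ω' b2, e1]
      have e4 : F.T1 aa ω' = F.T1 aa ω := by
        unfold Fam.T1
        rw [e2]
      have n1 := hnb ω b1
      have n2 := hnb ω' b2
      rw [e3, e4] at n2
      have t1 := tr_mono (htr ω) kK
      have t3 := tr_mono (htr ω') kK
      have n3 := htra t1 (htp _) t3 hS1 hS2 n1 (hsym t3 (htp _) hS1 n2)
      have n4 := hchg (τ' := F.t ω) (w' := aa) (g' := gs g i j) (R := 1) (htr ω) (htr ω')
        (by positivity) le_rfl n3 (t_cell F haJ ω) le_rfl (fun k _ _ => by rw [one_mul])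
        (fun k _ _ => by rw [one_mul])
      rw [Real.exp_log (by linarith), ← haa, hS₃]
      exact n4.cg (fun l l1 l2 => gy_gs D c n i j aa ω l1 l2)
        (fun l l1 l2 => gy_gs D c n i j aa ω' l1 l2))
  exact hq0

end Pool.STAT.OKI
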