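import Pool.Agent.H40.ISO.Two
import Pool.Agent.H20.MIC.Ctx
import Pool.Agent.H55.GEN.Lab

/-!
# Small polynomials on natural boxes, on large events

`rmz_ex`: the base is full given the context; finitely many polynomials of the context are small at
the sample, hence on the natural boxes of a near system at the exact time. `rmz_win`: hence on the
boxes of the window.
-/

set_option autoImplicit false

namespace Pool.STAT.OKI

open Finset MvPolynomial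
open Pool.Agent.H49.Ent Pool.Agent.H32.Dense Pool.STK Pool.KA Pool.K2S
open Pool.STAT.CLO Pool.STAT.Glu
open Pool.BFL (Pb)

section pb

variable {Ω : Type} [Fintype Ω] {q : Ω → ℝ}

theorem pb_add (hq : IsLaw q) (A : Ω → Prop) : Pb q A + Pb q (fun ω => ¬ A ω) = 1 := by
  classical
  unfold Pool.BFL.Pb
  rw [← Finset.sum_add_distrib, ← hq.sum_one]
  refine Finset.sum_congr rfl fun ω _ => ?_
  by_cases hA : A ω
  · rw [if_pos hA, if_neg (not_not.2 hA), add_zero]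
  · rw [if_neg hA, if_pos hA, zero_add]

theorem pb_un (hq : IsLaw q) {ι : Type} (s : Finset ι) (A : ι → Ω → Prop) :
    Pb q (fun ω => ∃ i ∈ s, A i ω) ≤ ∑ i ∈ s, Pb q (A i) := by
  classical
  unfold Pool.BFL.Pb
  rw [Finset.sum_comm]
  refine Finset.sum_le_sum fun ω _ => ?_
  have h0 : ∀ i ∈ s, (0 : ℝ) ≤ if A i ω then q ω else 0 := fun i _ => by
    split_ifs
    · exact hq.nonneg ω
    · exact le_rfl
  by_cases h3 : ∃ i ∈ s, A i ω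
  · rw [if_pos h3]
    obtain ⟨i, hi, h4⟩ := h3
    have := Finset.single_le_sum h0 hi
    rwa [if_pos h4] at this
  · rw [if_neg h3]
    exact Finset.sum_nonneg h0

theorem pb_all (hq : IsLaw q) {ι : Type} (s : Finset ι) (A : ι → Ω → Prop) {η : ℝ}
    (h : ∀ i ∈ s, 1 - η ≤ Pb q (A i)) : 1 - s.card * η ≤ Pb q (fun ω => ∀ i ∈ s, A i ω) := by
  have h1 := pb_add hq (fun ω => ∀ i ∈ s, A i ω)
  have h2 := pb_un hq s (fun i ω => ¬ A i ω)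
  have e0 : (fun ω => ∃ i ∈ s, ¬ A i ω) = fun ω => ¬ ∀ i ∈ s, A i ω := by
    funext ω
    simp
  rw [e0] at h2
  have h3 : ∑ i ∈ s, Pb q (fun ω => ¬ A i ω) ≤ ∑ _i ∈ s, η := by
    refine Finset.sum_le_sum fun i hi => ?_
    have h4 := pb_add hq (A i)
    have h5 := h i hi
    linarith
  rw [Finset.sum_const, nsmul_eq_mul] at h3
  linarith

theorem pb_and (hq : IsLaw q) {A B : Ω → Prop} {a b : ℝ} (hA : 1 - a ≤ Pb q A)
    (hB : 1 - b ≤ Pb q B) : 1 - (a + b) ≤ Pb q (fun ω => A ω ∧ B ω) := by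
  classical
  have h1 := pb_add hq (fun ω => A ω ∧ B ω)
  have h2 : Pb q (fun ω => ¬ (A ω ∧ B ω)) ≤ Pb q (fun ω => ¬ A ω) + Pb q (fun ω => ¬ B ω) := by
    unfold Pool.BFL.Pb
    rw [← Finset.sum_add_distrib]
    refine Finset.sum_le_sum fun ω _ => ?_
    have := hq.nonneg ω
    by_cases hA : A ω
    · by_cases hB : B ω
      · simp [hA, hB]
      · simp [hA, hB]
    · by_cases hB : B ω
      · simp [hA, hB]
      · simp [hA, hB, this]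
  have h3 := pb_add hq A
  have h4 := pb_add hq B
  linarith

end pb

theorem tr_mono {K K' : ℕ} {Φ : ℕ → PN} (h : Tr K Φ) (hK : K ≤ K') : Tr K' Φ :=
  ⟨h.tri, fun l => (h.deg l).trans hK⟩

/-- **Small at the sample, hence on the natural boxes at the exact time.** -/
theorem rmz_ex (n K : ℕ) (η : ℝ) (hn : 1 ≤ n) (hη : 0 < η) :
    ∃ (κ₀ : ℝ) (z₀ : ℕ), 0 < κ₀ ∧
    ∀ {Ω Y : Type} [Fintype Ω] {q : Ω → ℝ} {z : ℕ} {y : Ω → Y} {g : ℕ → ℕ} {Ψ Φ : Ω → ℕ → PN}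
    {F : Ω → ℕ → PN} {x : Ω → ℕ → ℝ} {τ : ℕ → ℝ} {θ : ℝ}, IsLaw q → z₀ ≤ z → 0 ≤ θ →
    θ ≤ κ₀ * z → Det q y (fun ω => x ω 0) → Det q y Ψ → (∀ l, Det q y (fun ω => F ω l)) →
    (∀ ω, 0 < q ω → Tr K (Ψ ω)) → (∀ ω, 0 < q ω → Tr K (Φ ω)) →
    (∀ ω, 0 < q ω → ∀ l, 1 ≤ l → l ≤ n → (F ω l).vars ⊆ range l) →
    (∀ ω, 0 < q ω → ∀ l, 1 ≤ l → l ≤ n → (F ω l).totalDegree ≤ K) → (∀ l, 0 < τ l) →
    (∀ ω, 0 < q ω → ∀ i, 1 ≤ i → i ≤ n - 1 →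
      |x ω i - eval (x ω) (Ψ ω i)| ≤ 1 / 2 ^ g i) →
    ((n - 1 : ℕ) : ℝ) * (z * Real.log 2) - θ ≤
      CH q (fun ω (i : Fin (n - 1)) =>
        ⌊(2 : ℝ) ^ (g (i + 1) + z) * (x ω (i + 1) - eval (x ω) (Ψ ω (i + 1)))⌋) y →
    (∀ ω, 0 < q ω → ∀ l, 1 ≤ l → l ≤ n → |eval (x ω) (F ω l)| ≤ τ l) →
    (∀ ω, 0 < q ω → NbP n (Et (x ω 0)) g 1 (Ψ ω) (Φ ω)) →
    ∃ A : Ω → Prop, (∀ ω, A ω → 0 < q ω) ∧ 1 - η ≤ Pb q A ∧ ∀ ω, A ω → ∀ l, 1 ≤ l → l ≤ n →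
      ∀ b : ℕ → ℝ, Bt 1 (Et (x ω 0)) g (Φ ω) l b → |eval b (F ω l)| ≤ 2 ^ z * τ l := by
  classical
  obtain ⟨c, hc, hbox⟩ := NbP.box' n K
  obtain ⟨R, hR⟩ : ∃ R : ℝ, R = (c : ℝ) ^ c := ⟨_, rfl⟩
  have hR0 : 0 ≤ R := by rw [hR]; positivity
  obtain ⟨C, hC, huni⟩ := Pool.MIC.Frm.uni_ctx (n - 1) K R hR0
  obtain ⟨η', hη'⟩ : ∃ η' : ℝ, η' = min (η / n) 1 := ⟨_, rfl⟩
  have hn0 : (0 : ℝ) < n := by exact_mod_cast hn
  have hη0 : 0 < η' := by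
    rw [hη']
    exact lt_min (by positivity) one_pos
  have hη1 : η' ≤ 1 := by rw [hη']; exact min_le_right _ _
  have hηn : n * η' ≤ η := by
    have : η' ≤ η / n := by rw [hη']; exact min_le_left _ _
    rw [le_div_iff₀ hn0] at this
    linarith
  have hl2 : (0 : ℝ) < Real.log 2 := Real.log_pos (by norm_num)
  obtain ⟨z₀, hz₀⟩ := exists_nat_ge (2 * C / (η' * Real.log 2))
  refine ⟨η' * Real.log 2 / (2 * C), z₀, by positivity, ?_⟩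
  intro Ω Y _ q z y g Ψ Φ F x τ θ hq hz hθ0 hθ dT dΨ dF tΨ tΦ vF kF hτ hpos hfull hsm hnb
  have hzz : (z₀ : ℝ) ≤ z := by exact_mod_cast hz
  have hCz : C * (θ + 1) / η' ≤ z * Real.log 2 := by
    rw [div_le_iff₀ hη0]
    have e1 : C * θ ≤ η' * Real.log 2 / 2 * z := by
      have := mul_le_mul_of_nonneg_left hθ (by linarith : (0 : ℝ) ≤ C)
      refine this.trans (le_of_eq ?_)
      field_simp
    have e2 : C ≤ η' * Real.log 2 / 2 * z := by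
      have e3 : 2 * C / (η' * Real.log 2) ≤ z := hz₀.trans hzz
      rw [div_le_iff₀ (by positivity)] at e3
      linarith
    nlinarith
  have hexp : Real.exp (C * (θ + 1) / η') ≤ 2 ^ z := by
    calc Real.exp (C * (θ + 1) / η') ≤ Real.exp (z * Real.log 2) := Real.exp_le_exp.2 hCz
      _ = 2 ^ z := by rw [Real.exp_nat_mul, Real.exp_log (by norm_num)]
  have hnat : ∀ ω i, Pool.MIC.Frm.nat g (Ψ ω) (x ω) i =
      2 ^ g i * (x ω i - eval (x ω) (Ψ ω i)) := fun _ _ => rfl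
  have hev : ∀ l ∈ Finset.Icc 1 n, 1 - η' ≤ Pb q (fun ω => ∀ b : ℕ → ℝ, b 0 = x ω 0 →
      (∀ i, 1 ≤ i → i ≤ l - 1 → |Pool.MIC.Frm.nat g (Ψ ω) b i| ≤ R) →
      |eval b (F ω l)| ≤ Real.exp (C * (θ + 1) / η') * τ l) := by
    intro l hl
    rw [Finset.mem_Icc] at hl
    have h1 := huni (l - 1) (by omega) Ω Y q z y g Ψ (fun ω => F ω l) x (τ l) θ η' hq dT dΨ
      (dF l) (fun ω hω => (tΨ ω hω).tri) (fun ω hω => (tΨ ω hω).deg) (fun ω hω => by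
        rw [Nat.sub_add_cancel hl.1]
        exact vF ω hω l hl.1 hl.2) (fun ω hω => kF ω hω l hl.1 hl.2) (hτ l) hθ0 hη0 hη1
      (fun ω hω i h1 h2 => by
        rw [hnat, abs_mul, abs_of_pos (by positivity)]
        have := hpos ω hω i h1 h2
        rw [le_div_iff₀ (by positivity)] at this
        linarith) (by
        refine hfull.trans (le_of_eq ?_)
        congr 1
        funext ω i
        rw [hnat, ← mul_assoc, ← pow_add, Nat.add_comm z]) hCz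
      (fun ω hω => hsm ω hω l hl.1 hl.2)
    have h2 := pb_add hq (fun ω => ∀ b : ℕ → ℝ, b 0 = x ω 0 →
      (∀ i, 1 ≤ i → i ≤ l - 1 → |Pool.MIC.Frm.nat g (Ψ ω) b i| ≤ R) →
      |eval b (F ω l)| ≤ Real.exp (C * (θ + 1) / η') * τ l)
    linarith
  have hall := pb_all hq (Finset.Icc 1 n) _ hev
  rw [Nat.card_Icc, Nat.add_sub_cancel] at hall
  refine ⟨fun ω => 0 < q ω ∧ ∀ l ∈ Finset.Icc 1 n, ∀ b : ℕ → ℝ, b 0 = x ω 0 →
      (∀ i, 1 ≤ i → i ≤ l - 1 → |Pool.MIC.Frm.nat g (Ψ ω) b i| ≤ R) →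
      |eval b (F ω l)| ≤ Real.exp (C * (θ + 1) / η') * τ l, fun ω h => h.1, ?_, ?_⟩
  · refine le_trans (by linarith) (hall.trans ?_)
    exact Pool.MIC.Frm.Pb_supp hq.nonneg fun ω hω h => ⟨hω, h⟩
  · rintro ω ⟨hω, h⟩ l l1 l2 b hb
    have h1 := hbox (tΨ ω hω) (tΦ ω hω) le_rfl le_rfl (hnb ω hω) l (by omega) b hb
    rw [mul_one, mul_one, ← hR] at h1
    refine (h l (Finset.mem_Icc.2 ⟨l1, l2⟩) b hb.1 fun i i1 i2 => ?_).trans
      (mul_le_mul_of_nonneg_right hexp (hτ l).le)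
    have h2 := h1.2 i i1 (by omega)
    unfold Pool.MIC.Frm.nat
    rw [abs_mul, abs_of_pos (by positivity)]
    rw [le_div_iff₀ (by positivity)] at h2
    linarith

/-- **Small at the sample, hence on the natural boxes of the window.** -/
theorem rmz_win (n K : ℕ) (η : ℝ) (hn : 1 ≤ n) (hη : 0 < η) (hη1 : η ≤ 1) :
    ∃ (κ₀ : ℝ) (z₀ : ℕ), 0 < κ₀ ∧
    ∀ {Ω Y L : Type} [Fintype Ω] {q : Ω → ℝ} {J w z : ℕ} {T : Ω → ℕ} {lam : Ω → L} {y : Ω → Y}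
    {g : ℕ → ℕ} {Ψ Φ : Ω → ℕ → PN}
    {F : Ω → ℕ → PN} {x : Ω → ℕ → ℝ} {τ : ℕ → ℝ} {θ E : ℝ}, IsLaw q → z₀ ≤ z → 0 ≤ θ →
    θ ≤ κ₀ * z → Det q y (fun ω => x ω 0) → Det q y Ψ → (∀ l, Det q y (fun ω => F ω l)) →
    (∀ ω, 0 < q ω → Tr K (Ψ ω)) → (∀ ω, 0 < q ω → Tr K (Φ ω)) →
    (∀ ω, 0 < q ω → ∀ l, 1 ≤ l → l ≤ n → (F ω l).vars ⊆ range l) →
    (∀ ω, 0 < q ω → ∀ l, 1 ≤ l → l ≤ n → (F ω l).totalDegree ≤ K) → (∀ l, 0 < τ l) →
    (∀ ω, 0 < q ω → ∀ i, 1 ≤ i → i ≤ n - 1 →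
      |x ω i - eval (x ω) (Ψ ω i)| ≤ 1 / 2 ^ g i) →
    ((n - 1 : ℕ) : ℝ) * (z * Real.log 2) - θ ≤
      CH q (fun ω (i : Fin (n - 1)) =>
        ⌊(2 : ℝ) ^ (g (i + 1) + z) * (x ω (i + 1) - eval (x ω) (Ψ ω (i + 1)))⌋) y →
    (∀ ω, 0 < q ω → ∀ l, 1 ≤ l → l ≤ n → |eval (x ω) (F ω l)| ≤ τ l) →
    (∀ ω, 0 < q ω → NbP n (Et (x ω 0)) g 1 (Ψ ω) (Φ ω)) →
    (∀ ω, x ω 0 = (T ω : ℝ) / 2 ^ J) → (∀ ω, T ω < 2 ^ J) → w + z ≤ J →
    Det q lam (fun ω => T ω / 2 ^ (J - w)) → 0 ≤ E → E ≤ κ₀ * z →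
    ((J : ℝ) - w) * Real.log 2 - E ≤ CH q T lam → Det q lam Φ → (∀ l, Det q lam fun ω => F ω l) →
    ∃ A : Ω → Prop, (∀ ω, A ω → 0 < q ω) ∧ 1 - η ≤ Pb q A ∧ ∀ ω, A ω → ∀ l, 1 ≤ l → l ≤ n →
      ∀ b : ℕ → ℝ, Bt 1 (Wn (x ω 0) w) g (Φ ω) l b → |eval b (F ω l)| ≤ 2 ^ (4 * z) * τ l := by
  classical
  obtain ⟨κ₁, z₁, hκ₁, h1⟩ := rmz_ex n K (η / 2) hn (by positivity)
  obtain ⟨C, hC, hrb⟩ := rb n K (Fin n) (η / 2) hn (by positivity)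
  obtain ⟨z₂, hz₂⟩ := exists_nat_ge (2 * C)
  refine ⟨min κ₁ (1 / (2 * C)), max z₁ z₂, lt_min hκ₁ (by positivity), ?_⟩
  intro Ω Y L _ q J w z T lam y g Ψ Φ F x τ θ E hq hz hθ0 hθ dT dΨ dF tΨ tΦ vF kF hτ hpos hfull
    hsm hnb hxT hT hwz dlam hE0 hE hCH dΦ dF'
  have hz0 : (0 : ℝ) ≤ z := Nat.cast_nonneg z
  have hz1 : z₁ ≤ z := (le_max_left _ _).trans hz
  have hz2 : (z₂ : ℝ) ≤ z := by exact_mod_cast (le_max_right _ _).trans hz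
  have hθ1 : θ ≤ κ₁ * z := hθ.trans (mul_le_mul_of_nonneg_right (min_le_left _ _) hz0)
  have hE1 : E ≤ 1 / (2 * C) * z := hE.trans (mul_le_mul_of_nonneg_right (min_le_right _ _) hz0)
  obtain ⟨A, hA0, hA1, hA2⟩ := h1 hq hz1 hθ0 hθ1 dT dΨ dF tΨ tΦ vF kF hτ hpos hfull hsm hnb
  obtain ⟨B, hB1, hB2, hB3⟩ := hrb J w z Ω L q T lam A (E + 1) (fun _ => g) (fun _ => Φ)
    (fun a ω => F ω (a + 1)) (fun a => a + 1) (fun a => 2 ^ z * τ (a + 1)) hq hT hwz dlam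
    (by linarith) (by linarith) (by linarith) (by
      have e1 : C * E ≤ z / 2 := by
        have := mul_le_mul_of_nonneg_left hE1 (by linarith : (0 : ℝ) ≤ C)
        refine this.trans (le_of_eq ?_)
        field_simp
      have e2 : C ≤ z / 2 := by linarith [hz₂.trans hz2]
      linarith) (fun _ => dΦ) (fun a => dF' (a + 1)) (fun _ ω hω => tΦ ω hω)
    (fun a ω hω => kF ω hω (a + 1) (by omega) (by have := a.2; omega))
    (fun a ω hω => vF ω hω (a + 1) (by omega) (by have := a.2; omega))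
    (fun a => by have := a.2; omega) (fun a => by
      have := hτ (a + 1)
      positivity) (fun a ω hω hAω b hb => by
      rw [← hxT] at hb
      exact hA2 ω hAω (a + 1) (by omega) (by have := a.2; omega) b hb)
  refine ⟨B, fun ω h => (hB1 ω h).1, by linarith, fun ω hω l l1 l2 b hb => ?_⟩
  have h3 := hB3 ω hω (b 0) (by rw [← hxT]; exact hb.1) ⟨l - 1, by omega⟩ b (by
    have e1 : ((⟨l - 1, by omega⟩ : Fin n) : ℕ) + 1 = l := Nat.sub_add_cancel l1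
    beta_reduce
    rw [e1]
    exact ⟨rfl, hb.2⟩)
  have e1 : ((⟨l - 1, by omega⟩ : Fin n) : ℕ) + 1 = l := Nat.sub_add_cancel l1
  beta_reduce at h3
  rw [e1] at h3
  refine h3.trans (le_of_eq ?_)
  rw [← mul_assoc, ← pow_add]
  congr 2
  ring

end Pool.STAT.OKI
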