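import Pool.Agent.H40.ISO.Few
import Pool.Agent.H6.MIC.NfE

/-!
# The kit of the fattest boxes: the statements for one family

`OkIso`: the axioms `Ok2` from the data `IsoD` and exactness. `GdIso`: the data `IsoD` on a large
event, from the labels of a grid with charts which do not depend on the radius, exactness and full
time.
-/

set_option autoImplicit false

namespace Pool.STAT.OKI

open Finset MvPolynomial
open Pool.Agent.H49.Ent Pool.Agent.H32.Dense Pool.STK Pool.KS3 Pool.KA Pool.KSAT Pool.PB Pool.GEN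
open Pool.K2S Pool.S6C Pool.STAT.CLO Pool.STAT.Glu
open Pool.BFL (Pb)
open Pool.MIC6

/-- **The axioms `Ok2` for one family.** -/
def OkIso (n K K' s₁ Λ Bc : ℕ) (sh : ℕ → ℕ) (C₀ : ℝ) (s₂ : ℕ) : Prop :=
  ∀ (M : ℕ) (κ : ℝ), 0 < κ → ∃ (δ : ℝ) (z₀ : ℕ), 0 < δ ∧
    ∀ {m J : ℕ} {F : Fam m J} {D : GDat F} {c : ℕ → Fin m} {a₀ w₀ z : ℕ} {e : ℕ → ℕ → ℕ}
      {g : ℕ → ℕ → ℕ → ℕ} {x z' : ℕ} {A : F.Ω → Prop} {R : ℕ → ℕ → Type}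
      {ρ : (i j : ℕ) → LnT F → R i j} {lam gam : ℕ → ℝ} {k C₁ : ℝ} {q : F.Ω → ℝ},
      IsoD D c n K K' s₁ sh a₀ w₀ z M e g x Λ Bc z' A → Inj c n →
      (∀ i j, Subsingleton (R i j)) → z₀ ≤ z → (x : ℝ) ≤ δ * z → (z' : ℝ) ≤ δ * z → C₀ ≤ C₁ →
      CDat2.Num2 n J a₀ w₀ z M lam gam (fun i j l => g i j (l - 1) - sh l) C₁ →
      (∀ i ≤ M, ∀ j ≤ M, ∀ l < n, sh (l + 1) ≤ g i j l) → SizF n J z M s₂ e g →
      IsLaw q → (∀ ω, 0 < q ω → A ω) → 0 ≤ k → k ≤ δ →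
      ExC D c n sh ρ w₀ z M g (k * z) q →
      (D.nd c n sh w₀ z M g ρ).Ok2 n K' J a₀ w₀ z M lam gam κ C₁ q

/-- **The data on a large event.** -/
def GdIso (n K K' s₁ Λ Bc : ℕ) (sh : ℕ → ℕ) (s₂ : ℕ) : Prop :=
  ∀ (M : ℕ) (η : ℝ), 0 < η → η ≤ 1 → ∃ (δ : ℝ) (z₀ : ℕ), 0 < δ ∧
    ∀ {m J : ℕ} {F : Fam m J} {D : GDat F} {c : ℕ → Fin m} {a₀ w₀ z : ℕ} {e : ℕ → ℕ → ℕ}
      {g : ℕ → ℕ → ℕ → ℕ} {x z' : ℕ} {B : F.Ω → Prop} {R : ℕ → ℕ → Type}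
      {ρ : (i j : ℕ) → LnT F → R i j} {k E : ℝ} {q : F.Ω → ℝ},
      D.Ok c n K K' s₁ sh a₀ w₀ z M e g B → Cmn D M → Sds n M z x Λ g → Inj c n →
      z₀ ≤ z → z' ≤ z → w₀ + (M + 1) * z ≤ J → a₀ + M * z ≤ J →
      (∀ i ≤ M, ∀ j ≤ M, ∀ l < n, sh (l + 1) ≤ g i j l) → SizF n J z M s₂ e g →
      IsLaw q → (∀ ω, 0 < q ω → B ω) → 0 ≤ E → E + 1 ≤ δ * z' →
      ((J : ℝ) - w₀) * Real.log 2 - E ≤ CH q F.T (slam F w₀) → 0 ≤ k → k ≤ δ →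
      ExC D c n sh ρ w₀ z M g (k * z) q →
      ∃ A : F.Ω → Prop, (∀ ω, A ω → 0 < q ω) ∧ 1 - η ≤ Pb q A ∧
        IsoD D c n K K' s₁ sh a₀ w₀ z M e g x Λ Bc z' A

/-- **The near charts and the own relation.** -/
structure Gd {m J : ℕ} {F : Fam m J} (D : GDat F) (c : ℕ → Fin m) (n w₀ z M : ℕ)
    (g : ℕ → ℕ → ℕ → ℕ) (Bc z' : ℕ) (A : F.Ω → Prop) : Prop where
  cls : ∀ i < M, ∀ j < M, ∀ ω, A ω →
    NbP n (Wn (tw F (w₀ + (j + 1) * z) ω) (w₀ + (j + 1) * z)) (gs g (i + 1) (j + 1))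
      (2 ^ (Bc * z)) (Sy D c n w₀ z (i + 1) (j + 1) ω) (Sy D c n w₀ z i j ω)
  own : ∀ i ≤ M, ∀ j ≤ M, ∀ ω, A ω → ∀ l, 1 ≤ l → l ≤ n → ∀ t : ℝ,
    Wn (tw F (w₀ + j * z) ω) (w₀ + j * z) t →
      |ptt (pc c (slam F w₀ ω)) t l - eval (ptt (pc c (slam F w₀ ω)) t)
        (Sy D c n w₀ z i j ω l)| ≤ 2 ^ z' / 2 ^ gs g i j l

section gd

variable {m J : ℕ} {F : Fam m J} {D : GDat F} {c : ℕ → Fin m} {n K K' s₁ : ℕ} {sh : ℕ → ℕ}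
  {a₀ w₀ z M : ℕ} {e : ℕ → ℕ → ℕ} {g : ℕ → ℕ → ℕ → ℕ} {x Λ Bc z' : ℕ} {A B : F.Ω → Prop}

theorem IsoD.gd (h : IsoD D c n K K' s₁ sh a₀ w₀ z M e g x Λ Bc z' A) :
    Gd D c n w₀ z M g Bc z' A := ⟨h.cls, h.own⟩

theorem Gd.iso (h : Gd D c n w₀ z M g Bc z' A) (ok : D.Ok c n K K' s₁ sh a₀ w₀ z M e g A)
    (com : Cmn D M) (sds : Sds n M z x Λ g) (wJ : w₀ + M * z ≤ J) (z1 : 1 ≤ z) (zz : z' ≤ z) :
    IsoD D c n K K' s₁ sh a₀ w₀ z M e g x Λ Bc z' A :=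
  ⟨ok, com, sds, wJ, z1, zz, h.cls, h.own⟩

theorem Gd.sub (h : Gd D c n w₀ z M g Bc z' A) (hB : Sub B A) : Gd D c n w₀ z M g Bc z' B :=
  ⟨fun i hi j hj ω hω => h.cls i hi j hj ω (hB ω hω),
    fun i hi j hj ω hω => h.own i hi j hj ω (hB ω hω)⟩

end gd

/-- **Other sides.** -/
theorem Gd.chg (n K Bc : ℕ) : ∃ Bc' z₀ : ℕ, ∀ {m J : ℕ} {F : Fam m J} {D : GDat F}
    {c : ℕ → Fin m} {K' s₁ : ℕ} {sh : ℕ → ℕ} {a₀ w₀ z M : ℕ} {e : ℕ → ℕ → ℕ}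
    {g g' : ℕ → ℕ → ℕ → ℕ} {z' u : ℕ} {A : F.Ω → Prop},
    D.Ok c n K K' s₁ sh a₀ w₀ z M e g' A → Gd D c n w₀ z M g Bc z' A → z₀ ≤ z → u ≤ z →
    (∀ i ≤ M, ∀ j ≤ M, ∀ l < n, g i j l ≤ g' i j l + u ∧ g' i j l ≤ g i j l + u) →
    Gd D c n w₀ z M g' Bc' (z' + u) A := by
  obtain ⟨c₁, hc₁, hchg⟩ := NbP.chg n K
  obtain ⟨z₀, hz₀⟩ := exists_nat_ge ((c₁ : ℝ) + 2)
  refine ⟨c₁ * (1 + 1) + Bc, z₀, ?_⟩
  intro m J F D c K' s₁ sh a₀ w₀ z M e g g' z' u A hD h hz hu hg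
  have hc1 : (0 : ℝ) ≤ c₁ := Nat.cast_nonneg _
  have hzz : (c₁ : ℝ) + 2 ≤ 2 ^ z := (hz₀.trans (by exact_mod_cast hz)).trans (two_ge z)
  refine ⟨fun i hi j hj ω hω => ?_, fun i hi j hj ω hω l l1 l2 t ht => ?_⟩
  · have h1 := h.cls i hi j hj ω hω
    have t1 := tr_sy hD (Nat.succ_le_of_lt hi) (Nat.succ_le_of_lt hj) ω
    have t2 := tr_sy hD hi.le hj.le ω
    have h2 := hchg (τ' := tw F (w₀ + (j + 1) * z) ω) (w' := w₀ + (j + 1) * z)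
      (g' := gs g' (i + 1) (j + 1)) (R := 2 ^ (1 * z)) t1 t2 (by positivity) (two_one _) h1 (by
        rw [sub_self, abs_zero]
        positivity)
      (div_le_div_of_nonneg_right (two_one _) (by positivity)) (fun l l1 l2 => two_mul_le (by
        have := hg (i + 1) hi (j + 1) hj (l - 1) (by omega)
        unfold gs
        omega)) (fun l l1 l2 => two_mul_le (by
        have := hg (i + 1) hi (j + 1) hj (l - 1) (by omega)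
        unfold gs
        omega))
    refine h2.mono le_rfl (fun _ h => h) ?_
    have e1 : (c₁ * (1 + 1) + Bc) * z = c₁ * (1 + 1) * z + Bc * z := by ring
    rw [e1, pow_add]
    exact mul_le_mul_of_nonneg_right (pw_two (by linarith)) (by positivity)
  · refine (h.own i hi j hj ω hω l l1 l2 t ht).trans ?_
    rw [div_le_div_iff₀ (by positivity) (by positivity), ← pow_add, ← pow_add]
    refine two_le ?_
    have := hg i hi j hj (l - 1) (by omega)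
    unfold gs
    omega

/-- The charts, the windows and the own relation are stable under subevents. -/
theorem IsoD.sub {m J : ℕ} {F : Fam m J} {D : GDat F} {c : ℕ → Fin m} {n K K' s₁ : ℕ} {sh : ℕ → ℕ}
    {a₀ w₀ z M : ℕ} {e : ℕ → ℕ → ℕ} {g : ℕ → ℕ → ℕ → ℕ} {x Λ Bc z' : ℕ} {A B : F.Ω → Prop}
    (h : IsoD D c n K K' s₁ sh a₀ w₀ z M e g x Λ Bc z' A) (hB : Sub B A) :
    IsoD D c n K K' s₁ sh a₀ w₀ z M e g x Λ Bc z' B :=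
  { h with
    ok := h.ok.sub hB
    cls := fun i hi j hj ω hω => h.cls i hi j hj ω (hB ω hω)
    own := fun i hi j hj ω hω => h.own i hi j hj ω (hB ω hω) }

end Pool.STAT.OKI
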