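import Pool.Agent.H40.ISO.Tbo
import Pool.Agent.H40.ISO.Few2

/-!
# Reference charts for the re-centred ball charts

`two_ballE`: two ball charts are near up to `exp (ε z)` natural units. `RefB`: the chart `H` is near
to the reference chart `H'` on the boxes of the ball, and two reference charts with the same closed
value are near. `ref_ball`: one window.
-/

set_option autoImplicit false

namespace Pool.STAT.OKI

open Finset MvPolynomial
open Pool.Agent.H49.Ent Pool.Agent.H32.Dense Pool.STK Pool.KS3 Pool.KA Pool.KSAT Pool.PB Pool.GEN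
open Pool.K2S Pool.S6C Pool.STAT.CLO Pool.STAT.Glu
open Pool.BFL (Pb)

theorem loss_e (c : ℕ) (hc : 1 ≤ c) {ε : ℝ} (hε : 0 < ε) : ∃ (ε₁ : ℝ) (z₀ : ℕ), 0 < ε₁ ∧ ∀ z ≥ z₀,
    ((c : ℝ) * Real.exp (ε₁ * (z : ℕ))) ^ c ≤ Real.exp (ε * z) := by
  have hc0 : (0 : ℝ) < c := by exact_mod_cast hc
  have hc1 : (1 : ℝ) ≤ c := by exact_mod_cast hc
  have hl : 0 ≤ Real.log c := Real.log_nonneg hc1
  obtain ⟨z₀, hz₀⟩ := exists_nat_ge (2 * (c * Real.log c) / ε)
  refine ⟨ε / (2 * c), z₀, by positivity, fun z hz => ?_⟩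
  have hzz : (z₀ : ℝ) ≤ z := by exact_mod_cast hz
  have h1 := hz₀.trans hzz
  rw [div_le_iff₀ hε] at h1
  have e1 : ((c : ℝ) * Real.exp (ε / (2 * c) * z)) ^ c =
      Real.exp (c * (Real.log c + ε / (2 * c) * z)) := by
    rw [← Real.exp_log hc0, ← Real.exp_add, ← Real.exp_nat_mul, Real.exp_log hc0]
  rw [e1]
  refine Real.exp_le_exp.2 ?_
  have e2 : (c : ℝ) * (ε / (2 * c) * z) = ε * z / 2 := by
    field_simp
  rw [mul_add, e2]
  linarith only [h1]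

/-- **Two ball charts are near**, small losses. -/
theorem two_ballE (n K : ℕ) (hn : 1 ≤ n) {ε : ℝ} (hε : 0 < ε) : ∃ (s₂ s₃ z₀ : ℕ) (κ C₁ : ℝ),
    0 < κ ∧ 1 ≤ C₁ ∧
    ∀ {m J : ℕ} {F : Fam m J} {c : ℕ → Fin m} {w z e e' : ℕ} {g g' : ℕ → ℕ} {A : F.Ω → Prop}
    {G G' : PtT F → ℕ → MvPolynomial (Option (Fin m)) ℝ}
    {H H' : LnT F → ℕ → MvPolynomial (Option (Fin m)) ℝ},
    ChOK F c n (fun _ => K) w w e g A G H → ChOK F c n (fun _ => K) w w e' g' A G' H' →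
    Inj c n → z₀ ≤ z → w + z ≤ J → (∀ l < n, s₃ ≤ g l ∧ s₃ ≤ g' l) →
    (∀ l < n, |(g l : ℝ) - g' l| ≤ κ * z) →
    (∀ l < n, (range (l + 1)).sup g + e + z + s₂ ≤ J) → 0 < Pe F.p A →
    (∀ B : F.Ω → Prop, Sub B A → Pe F.p A ≤ C₁ * Pe F.p B →
      ExW F B (fun l : Fin (n - 1) => c l) w
        ((∑ l ∈ range (n - 1), ((J : ℝ) - g l)) * Real.log 2 - κ * z)) →
    (∀ B : F.Ω → Prop, Sub B A → Pe F.p A ≤ C₁ * Pe F.p B →
      ((J : ℝ) - w) * Real.log 2 - κ * z ≤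
        CH (Pool.Agent.H49.Ent.cond F.p B True) F.T (slam F w)) →
    ∃ B : F.Ω → Prop, Sub B A ∧ Pe F.p A ≤ C₁ * Pe F.p B ∧ ∀ ω, B ω →
      NbP n (Wn (tw F w ω) w) (gl g) (Real.exp (ε * z)) (Hx c n w H (slam F w ω))
        (Hx c n w H' (slam F w ω)) := by
  obtain ⟨Bc, s₂, s₃, z₀, κ₀, C₁, hκ₀, hC₁, hball⟩ := two_ball n K 1 hn
  obtain ⟨δ, hδ⟩ : ∃ δ : ℝ, δ = min 1 (ε / (2 * (Bc + 1))) := ⟨_, rfl⟩
  have hδ0 : 0 < δ := by
    rw [hδ]
    exact lt_min one_pos (by positivity)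
  have hδ1 : δ ≤ 1 := by rw [hδ]; exact min_le_left _ _
  have hδ2 : δ * (Bc + 1) ≤ ε / 2 := by
    have h1 : δ ≤ ε / (2 * (Bc + 1)) := by rw [hδ]; exact min_le_right _ _
    rw [le_div_iff₀ (by positivity)] at h1
    linarith only [h1]
  obtain ⟨za, hza⟩ := exists_nat_ge ((z₀ : ℝ) / δ)
  obtain ⟨zb, hzb⟩ := exists_nat_ge (2 * (Bc + 1) / ε)
  refine ⟨s₂, s₃, max za zb, min δ (κ₀ * δ), C₁, lt_min hδ0 (by positivity), hC₁, ?_⟩
  intro m J F c w z e e' g g' A G G' H H' hch hch' hc hz hwJ hs hgg hsiz hA hex htm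
  have hz0 : (0 : ℝ) ≤ z := Nat.cast_nonneg z
  have hz1 : (za : ℝ) ≤ z := by exact_mod_cast (le_max_left _ _).trans hz
  have hz2 : (zb : ℝ) ≤ z := by exact_mod_cast (le_max_right _ _).trans hz
  obtain ⟨x, hx⟩ : ∃ x, x = ⌈δ * z⌉₊ := ⟨_, rfl⟩
  have hx1 : δ * z ≤ x := by rw [hx]; exact Nat.le_ceil _
  have hx2 : (x : ℝ) ≤ δ * z + 1 := by
    rw [hx]
    exact (Nat.ceil_lt_add_one (by positivity)).le
  have hxz : x ≤ z := by
    rw [hx]
    refine Nat.ceil_le.2 ?_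
    calc δ * z ≤ 1 * z := mul_le_mul_of_nonneg_right hδ1 hz0
      _ = z := one_mul _
  have hzx : z₀ ≤ x := by
    have h1 := hza.trans hz1
    rw [div_le_iff₀ hδ0] at h1
    have h2 : (z₀ : ℝ) ≤ x := by linarith only [hx1, h1]
    exact_mod_cast h2
  have k1 : min δ (κ₀ * δ) * z ≤ x :=
    (mul_le_mul_of_nonneg_right (min_le_left _ _) hz0).trans hx1
  have k2 : min δ (κ₀ * δ) * z ≤ κ₀ * x := by
    have h1 := mul_le_mul_of_nonneg_right (min_le_right δ (κ₀ * δ)) hz0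
    have h2 := mul_le_mul_of_nonneg_left hx1 hκ₀.le
    linarith only [h1, h2]
  obtain ⟨B, h1, h2, h3⟩ := hball hch hch' hc hzx (by omega) hs (fun l hl => by
      have h4 := abs_le.1 ((hgg l hl).trans k1)
      rw [one_mul]
      constructor
      · have : (g l : ℝ) ≤ g' l + x := by linarith only [h4, h4.2]
        exact_mod_cast this
      · have : (g' l : ℝ) ≤ g l + x := by linarith only [h4, h4.1]
        exact_mod_cast this)
    (fun l hl => by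
      have := hsiz l hl
      omega) hA (fun B hB hP => (hex B hB hP).mono (by linarith only [k2]))
    (fun B hB hP => by
      have := htm B hB hP
      linarith only [k2, this])
  refine ⟨B, h1, h2, fun ω hω => (h3 ω hω).mono le_rfl (fun _ h => h) ?_⟩
  rw [← exp_two]
  refine Real.exp_le_exp.2 ?_
  have h4 := hzb.trans hz2
  rw [div_le_iff₀ hε] at h4
  have hl1 := log2_le
  have hl0 := log2_pos
  have hB0 : (0 : ℝ) ≤ Bc := Nat.cast_nonneg _
  have h5 : ((Bc * x : ℕ) : ℝ) * Real.log 2 ≤ Bc * x := by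
    push_cast
    have : (0 : ℝ) ≤ Bc * x := by positivity
    nlinarith only [hl1, this]
  have h6 : (Bc : ℝ) * x ≤ Bc * (δ * z + 1) := mul_le_mul_of_nonneg_left hx2 hB0
  have h7 : (Bc : ℝ) * (δ * z) ≤ ε / 2 * z := by
    have h8 : (Bc : ℝ) * δ ≤ ε / 2 := by
      have : (0 : ℝ) ≤ δ := hδ0.le
      linarith only [hδ0, hδ2]
    calc (Bc : ℝ) * (δ * z) = Bc * δ * z := by ring
      _ ≤ ε / 2 * z := mul_le_mul_of_nonneg_right h8 hz0
  linarith only [h4, h5, h6, h7]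

/-- **Two ball charts are near**, the size of the second chart is bounded. -/
theorem two_ballS (n K : ℕ) (hn : 1 ≤ n) {ε : ℝ} (hε : 0 < ε) : ∃ (s₂ s₃ z₀ : ℕ) (κ C₁ : ℝ),
    0 < κ ∧ 1 ≤ C₁ ∧
    ∀ {m J : ℕ} {F : Fam m J} {c : ℕ → Fin m} {w z e e' : ℕ} {g g' : ℕ → ℕ} {A : F.Ω → Prop}
    {G G' : PtT F → ℕ → MvPolynomial (Option (Fin m)) ℝ}
    {H H' : LnT F → ℕ → MvPolynomial (Option (Fin m)) ℝ},
    ChOK F c n (fun _ => K) w w e g A G H → ChOK F c n (fun _ => K) w w e' g' A G' H' →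
    Inj c n → z₀ ≤ z → w + z ≤ J → (∀ l < n, s₃ ≤ g l ∧ s₃ ≤ g' l) →
    (∀ l < n, |(g l : ℝ) - g' l| ≤ κ * z) →
    (∀ l < n, (range (l + 1)).sup g' + e' + z + s₂ ≤ J) → 0 < Pe F.p A →
    (∀ B : F.Ω → Prop, Sub B A → Pe F.p A ≤ C₁ * Pe F.p B →
      ExW F B (fun l : Fin (n - 1) => c l) w
        ((∑ l ∈ range (n - 1), ((J : ℝ) - g l)) * Real.log 2 - κ * z)) →
    (∀ B : F.Ω → Prop, Sub B A → Pe F.p A ≤ C₁ * Pe F.p B →
      ((J : ℝ) - w) * Real.log 2 - κ * z ≤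
        CH (Pool.Agent.H49.Ent.cond F.p B True) F.T (slam F w)) →
    ∃ B : F.Ω → Prop, Sub B A ∧ Pe F.p A ≤ C₁ * Pe F.p B ∧ ∀ ω, B ω →
      NbP n (Wn (tw F w ω) w) (gl g) (Real.exp (ε * z)) (Hx c n w H (slam F w ω))
        (Hx c n w H' (slam F w ω)) := by
  obtain ⟨c₁, hc₁, hchg⟩ := NbP.chg n K
  obtain ⟨c₂, hc₂, hsym⟩ := NbP.symm n K
  have p1 : PBd fun Y => ((c₁ : ℝ) * Y) ^ c₁ * ((c₂ : ℝ) * Y) ^ c₂ :=
    (PBd.id.loss c₁).mul (PBd.id.loss c₂)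
  obtain ⟨c₅, hc₅, h5⟩ := p1
  obtain ⟨ε₁, z₁, hε₁, hloss⟩ := loss_e c₅ hc₅ hε
  obtain ⟨s₂, s₃, z₂, κ₁, C₁, hκ₁, hC₁, hball⟩ := two_ballE n K hn hε₁
  have hn0 : (0 : ℝ) ≤ n := Nat.cast_nonneg n
  obtain ⟨κ, hκ⟩ : ∃ κ : ℝ, κ = min (κ₁ / (n + 1)) (ε₁ / 2) := ⟨_, rfl⟩
  have hκ0 : 0 < κ := by
    rw [hκ]
    exact lt_min (by positivity) (by linarith only [hε₁])
  have hκa : κ * (n + 1) ≤ κ₁ := by
    have h1 : κ ≤ κ₁ / (n + 1) := by rw [hκ]; exact min_le_left _ _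
    rwa [le_div_iff₀ (by positivity)] at h1
  have hκb : κ ≤ ε₁ / 2 := by rw [hκ]; exact min_le_right _ _
  have hκ1 : κ ≤ κ₁ := by nlinarith only [hκa, hκ0, hn0]
  obtain ⟨z₃, hz₃⟩ := exists_nat_ge (2 / ε₁)
  refine ⟨s₂, s₃, max z₁ (max z₂ z₃), κ, C₁, hκ0, hC₁, ?_⟩
  intro m J F c w z e e' g g' A G G' H H' hch hch' hc hz hwJ hs hgg hsiz hA hex htm
  have hz1 : z₁ ≤ z := (le_max_left _ _).trans hz
  have hz2 : z₂ ≤ z := ((le_max_left _ _).trans (le_max_right _ _)).trans hz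
  have hz3 : (z₃ : ℝ) ≤ z := by
    exact_mod_cast ((le_max_right _ _).trans (le_max_right _ _)).trans hz
  have hz0 : (0 : ℝ) ≤ z := Nat.cast_nonneg z
  have q3 := hz₃.trans hz3
  rw [div_le_iff₀ hε₁] at q3
  have hκz : κ * z ≤ κ₁ * z := mul_le_mul_of_nonneg_right hκ1 hz0
  have hκz0 : 0 ≤ κ * z := by positivity
  have hl1 := log2_le
  have hl0 := log2_pos
  obtain ⟨B, b1, b2, b3⟩ := hball hch' hch hc hz2 hwJ (fun l hl => (hs l hl).symm)
    (fun l hl => by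
      rw [abs_sub_comm]
      exact (hgg l hl).trans hκz) hsiz hA (fun B hB hP => (hex B hB hP).mono (by
      have h1 : ∑ l ∈ range (n - 1), ((J : ℝ) - g' l) ≤
          ∑ l ∈ range (n - 1), (((J : ℝ) - g l) + κ * z) := by
        refine Finset.sum_le_sum fun l hl => ?_
        rw [Finset.mem_range] at hl
        have := (abs_le.1 (hgg l (by omega))).2
        linarith only [this]
      rw [Finset.sum_add_distrib, Finset.sum_const, Finset.card_range, nsmul_eq_mul] at h1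
      have h2 : ((n - 1 : ℕ) : ℝ) * (κ * z) ≤ n * (κ * z) :=
        mul_le_mul_of_nonneg_right (by exact_mod_cast Nat.sub_le n 1) hκz0
      have h3 : (∑ l ∈ range (n - 1), ((J : ℝ) - g' l)) * Real.log 2 ≤
          (∑ l ∈ range (n - 1), ((J : ℝ) - g l) + n * (κ * z)) * Real.log 2 :=
        mul_le_mul_of_nonneg_right (h1.trans (by linarith only [h2])) hl0.le
      have h4 : (n : ℝ) * (κ * z) * Real.log 2 ≤ n * (κ * z) * 1 :=
        mul_le_mul_of_nonneg_left hl1 (by positivity)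
      have h5 := mul_le_mul_of_nonneg_right hκa hz0
      linarith only [h3, h4, h5]))
    (fun B hB hP => by
      have := htm B hB hP
      linarith only [hκz, this])
  refine ⟨B, b1, b2, fun ω hω => ?_⟩
  obtain ⟨Y, hY⟩ : ∃ Y : ℝ, Y = Real.exp (ε₁ * z) := ⟨_, rfl⟩
  have hY1 : 1 ≤ Y := by
    rw [hY]
    exact Real.one_le_exp (by positivity)
  obtain ⟨x, hx⟩ : ∃ x, x = ⌈κ * z⌉₊ := ⟨_, rfl⟩
  have hx1 : κ * z ≤ x := by rw [hx]; exact Nat.le_ceil _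
  have hx2 : (x : ℝ) ≤ κ * z + 1 := by
    rw [hx]
    exact (Nat.ceil_lt_add_one hκz0).le
  have cY3 : (2 : ℝ) ^ x ≤ Y := by
    rw [hY, ← exp_two]
    refine Real.exp_le_exp.2 ?_
    have h1 : (x : ℝ) * Real.log 2 ≤ x * 1 := mul_le_mul_of_nonneg_left hl1 (Nat.cast_nonneg x)
    have h2 := mul_le_mul_of_nonneg_right hκb hz0
    linarith only [h1, h2, hx2, q3]
  have hgn : ∀ l < n, g l ≤ g' l + x ∧ g' l ≤ g l + x := fun l hl => by
    have h6 := abs_le.1 ((hgg l hl).trans hx1)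
    constructor
    · have : (g l : ℝ) ≤ g' l + x := by linarith only [h6, h6.2]
      exact_mod_cast this
    · have : (g' l : ℝ) ≤ g l + x := by linarith only [h6, h6.1]
      exact_mod_cast this
  have t1 := tr_hx hch w (slam F w ω)
  have t2 := tr_hx hch' w (slam F w ω)
  have n1 := b3 ω hω
  rw [← hY] at n1
  have n2 := hsym t2 t1 hY1 n1
  have n4 := hchg (τ' := tw F w ω) (w' := w) (g' := gl g) (R := Y) t1 t2
    (by positivity) hY1 n2 (by rw [sub_self, abs_zero]; positivity)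
    (div_le_div_of_nonneg_right hY1 (by positivity)) (fun l l1 l2 => by
      have h6 : (2 : ℝ) ^ gl g' l ≤ 2 ^ x * 2 ^ gl g l :=
        two_mul_le ((hgn (l - 1) (by omega)).2)
      exact h6.trans (mul_le_mul_of_nonneg_right cY3 (by positivity))) (fun l l1 l2 => by
      have h6 : (2 : ℝ) ^ gl g l ≤ 2 ^ x * 2 ^ gl g' l :=
        two_mul_le ((hgn (l - 1) (by omega)).1)
      exact h6.trans (mul_le_mul_of_nonneg_right cY3 (by positivity)))
  refine n4.mono le_rfl (fun _ h => h) ?_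
  have h6 := (le_abs_self _).trans (h5 Y hY1)
  beta_reduce at h6
  refine h6.trans ?_
  rw [hY]
  exact hloss z hz1

/-- **Two ball charts are near**, the size of one of the charts is bounded. -/
theorem two_ballD (n K : ℕ) (hn : 1 ≤ n) {ε : ℝ} (hε : 0 < ε) : ∃ (s₂ s₃ z₀ : ℕ) (κ C₁ : ℝ),
    0 < κ ∧ 1 ≤ C₁ ∧
    ∀ {m J : ℕ} {F : Fam m J} {c : ℕ → Fin m} {w z e e' : ℕ} {g g' : ℕ → ℕ} {A : F.Ω → Prop}
    {G G' : PtT F → ℕ → MvPolynomial (Option (Fin m)) ℝ}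
    {H H' : LnT F → ℕ → MvPolynomial (Option (Fin m)) ℝ},
    ChOK F c n (fun _ => K) w w e g A G H → ChOK F c n (fun _ => K) w w e' g' A G' H' →
    Inj c n → z₀ ≤ z → w + z ≤ J → (∀ l < n, s₃ ≤ g l ∧ s₃ ≤ g' l) →
    (∀ l < n, |(g l : ℝ) - g' l| ≤ κ * z) →
    ((∀ l < n, (range (l + 1)).sup g + e + z + s₂ ≤ J) ∨
      (∀ l < n, (range (l + 1)).sup g' + e' + z + s₂ ≤ J)) → 0 < Pe F.p A →
    (∀ B : F.Ω → Prop, Sub B A → Pe F.p A ≤ C₁ * Pe F.p B →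
      ExW F B (fun l : Fin (n - 1) => c l) w
        ((∑ l ∈ range (n - 1), ((J : ℝ) - g l)) * Real.log 2 - κ * z)) →
    (∀ B : F.Ω → Prop, Sub B A → Pe F.p A ≤ C₁ * Pe F.p B →
      ((J : ℝ) - w) * Real.log 2 - κ * z ≤
        CH (Pool.Agent.H49.Ent.cond F.p B True) F.T (slam F w)) →
    ∃ B : F.Ω → Prop, Sub B A ∧ Pe F.p A ≤ C₁ * Pe F.p B ∧ ∀ ω, B ω →
      NbP n (Wn (tw F w ω) w) (gl g) (Real.exp (ε * z)) (Hx c n w H (slam F w ω))
        (Hx c n w H' (slam F w ω)) := by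
  obtain ⟨s₂, s₃, z₀, κ, C₁, hκ, hC₁, ha⟩ := two_ballE n K hn hε
  obtain ⟨s₂', s₃', z₀', κ', C₁', hκ', hC₁', hb⟩ := two_ballS n K hn hε
  refine ⟨max s₂ s₂', max s₃ s₃', max z₀ z₀', min κ κ', max C₁ C₁', lt_min hκ hκ',
    hC₁.trans (le_max_left _ _), ?_⟩
  intro m J F c w z e e' g g' A G G' H H' hch hch' hc hz hwJ hs hgg hsiz hA hex htm
  have hz0 : (0 : ℝ) ≤ z := Nat.cast_nonneg z
  have k1 : min κ κ' * z ≤ κ * z := mul_le_mul_of_nonneg_right (min_le_left _ _) hz0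
  have k2 : min κ κ' * z ≤ κ' * z := mul_le_mul_of_nonneg_right (min_le_right _ _) hz0
  rcases hsiz with hsiz | hsiz
  · obtain ⟨B, b1, b2, b3⟩ := ha hch hch' hc ((le_max_left _ _).trans hz) hwJ
      (fun l hl => ⟨(le_max_left _ _).trans (hs l hl).1, (le_max_left _ _).trans (hs l hl).2⟩)
      (fun l hl => (hgg l hl).trans k1) (fun l hl => by
        have := hsiz l hl
        have h1 := le_max_left s₂ s₂'
        omega) hA
      (fun B hB hP => (hex B hB (hP.trans (mul_le_mul_of_nonneg_right (le_max_left _ _)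
        (Pe_nonneg F.isLaw _)))).mono (by linarith only [k1]))
      (fun B hB hP => by
        have := htm B hB (hP.trans (mul_le_mul_of_nonneg_right (le_max_left _ _)
          (Pe_nonneg F.isLaw _)))
        linarith only [k1, this])
    exact ⟨B, b1, b2.trans (mul_le_mul_of_nonneg_right (le_max_left _ _)
      (Pe_nonneg F.isLaw _)), b3⟩
  · obtain ⟨B, b1, b2, b3⟩ := hb hch hch' hc ((le_max_right _ _).trans hz) hwJ
      (fun l hl => ⟨(le_max_right _ _).trans (hs l hl).1, (le_max_right _ _).trans (hs l hl).2⟩)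
      (fun l hl => (hgg l hl).trans k2) (fun l hl => by
        have := hsiz l hl
        have h1 := le_max_right s₂ s₂'
        omega) hA
      (fun B hB hP => (hex B hB (hP.trans (mul_le_mul_of_nonneg_right (le_max_right _ _)
        (Pe_nonneg F.isLaw _)))).mono (by linarith only [k2]))
      (fun B hB hP => by
        have := htm B hB (hP.trans (mul_le_mul_of_nonneg_right (le_max_right _ _)
          (Pe_nonneg F.isLaw _)))
        linarith only [k2, this])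
    exact ⟨B, b1, b2.trans (mul_le_mul_of_nonneg_right (le_max_right _ _)
      (Pe_nonneg F.isLaw _)), b3⟩

/-- **Reference charts**: the chart is near to the reference chart on the boxes of the ball, the
reference charts of two samples with the same closed value are near. -/
structure RefB {m J : ℕ} (F : Fam m J) (c : ℕ → Fin m) (n w : ℕ) (g : ℕ → ℕ)
    (H H' : LnT F → ℕ → MvPolynomial (Option (Fin m)) ℝ) (S : ℝ) (Z : PtT F → LV)
    (Z' : LnT F → LV) (B : F.Ω → Prop) : Prop where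
  cls : ∀ ω, B ω → Z (ptr F J ω) = Z' (slam F w ω)
  near : ∀ ω, B ω → NbP n (Wn (tw F w ω) w) (gl g) S (Hx c n w H (slam F w ω))
    (Hx c n w H' (slam F w ω))
  same : ∀ ω ω', B ω → B ω' → F.T1 w ω = F.T1 w ω' → Z' (slam F w ω) = Z' (slam F w ω') →
    NbP n (Wn (tw F w ω) w) (gl g) S (Hx c n w H' (slam F w ω)) (Hx c n w H' (slam F w ω'))

theorem RefB.sub {m J : ℕ} {F : Fam m J} {c : ℕ → Fin m} {n w : ℕ} {g : ℕ → ℕ}
    {H H' : LnT F → ℕ → MvPolynomial (Option (Fin m)) ℝ} {S : ℝ} {Z : PtT F → LV}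
    {Z' : LnT F → LV} {B B' : F.Ω → Prop} (h : RefB F c n w g H H' S Z Z' B) (hB : Sub B' B) :
    RefB F c n w g H H' S Z Z' B' :=
  ⟨fun ω hω => h.cls ω (hB ω hω), fun ω hω => h.near ω (hB ω hω),
    fun ω ω' hω hω' => h.same ω ω' (hB ω hω) (hB ω' hω')⟩

/-- **One window.** -/
theorem ref_ball (n K : ℕ) (hn : 1 ≤ n) {ε : ℝ} (hε : 0 < ε) : ∃ (s₂ s₃ z₀ : ℕ) (κ C₁ : ℝ),
    0 < κ ∧ 1 ≤ C₁ ∧
    ∀ {m J : ℕ} {F : Fam m J} {c : ℕ → Fin m} {w z e e' : ℕ} {g g' : ℕ → ℕ} {A : F.Ω → Prop}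
    {G G' : PtT F → ℕ → MvPolynomial (Option (Fin m)) ℝ}
    {H H₀ H' : LnT F → ℕ → MvPolynomial (Option (Fin m)) ℝ},
    ChOK F c n (fun _ => K) w w e g A G H₀ → ChOK F c n (fun _ => K) w w e' g' A G' H' →
    Inj c n → (∀ s i, (H s i).totalDegree ≤ K) → (∀ s i, DepC c i (H s i)) →
    (∀ s, ∀ l < n, H s l = Hno (c l) (fun s => H₀ s l) s) →
    z₀ ≤ z → w + z ≤ J → (∀ l < n, s₃ ≤ g l ∧ s₃ ≤ g' l) →
    (∀ l < n, |(g l : ℝ) - g' l| ≤ κ * z) →
    ((∀ l < n, (range (l + 1)).sup g + e + z + s₂ ≤ J) ∨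
      (∀ l < n, (range (l + 1)).sup g' + e' + z + s₂ ≤ J)) → 0 < Pe F.p A →
    (∀ B : F.Ω → Prop, Sub B A → Pe F.p A ≤ C₁ * Pe F.p B →
      ExW F B (fun l : Fin (n - 1) => c l) w
        ((∑ l ∈ range (n - 1), ((J : ℝ) - g l)) * Real.log 2 - κ * z)) →
    (∀ B : F.Ω → Prop, Sub B A → Pe F.p A ≤ C₁ * Pe F.p B →
      ((J : ℝ) - w) * Real.log 2 - κ * z ≤
        CH (Pool.Agent.H49.Ent.cond F.p B True) F.T (slam F w)) →
    ∃ (Z : PtT F → LV) (Z' : LnT F → LV) (B : F.Ω → Prop), Sub B A ∧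
      Pe F.p A ≤ C₁ * Pe F.p B ∧ RefB F c n w g H H' (Real.exp (ε * z)) Z Z' B := by
  obtain ⟨c', s₂a, s₃a, S, L, hc', hS, hL, hclo⟩ := clo_ball n K
  obtain ⟨Co, hCo, hown⟩ := own_ball n K (1 / 2) (by norm_num) (by norm_num)
  obtain ⟨K₂, hK₂⟩ : ∃ K₂, K₂ = max K c' := ⟨_, rfl⟩
  have kK : K ≤ K₂ := by rw [hK₂]; exact le_max_left _ _
  have kc : c' ≤ K₂ := by rw [hK₂]; exact le_max_right _ _
  obtain ⟨c₁, hc₁, hchg⟩ := NbP.chg n K₂
  obtain ⟨c₂, hc₂, hsym⟩ := NbP.symm n K₂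
  obtain ⟨c₃, hc₃, htra⟩ := NbP.trans n K₂
  -- the losses
  have p1 : PBd fun Y => ((c₃ : ℝ) * (Y * Y)) ^ c₃ := (PBd.id.mul PBd.id).loss c₃
  have p2 : PBd fun Y => ((c₁ : ℝ) * Y) ^ c₁ * ((c₃ : ℝ) * (Y * ((c₂ : ℝ) * Y) ^ c₂)) ^ c₃ :=
    (PBd.id.loss c₁).mul ((PBd.id.mul (PBd.id.loss c₂)).loss c₃)
  obtain ⟨c₄, hc₄, h4⟩ := p1
  obtain ⟨c₅, hc₅, h5⟩ := p2
  obtain ⟨c₆, hc₆⟩ : ∃ c₆, c₆ = max c₄ c₅ := ⟨_, rfl⟩
  have hc61 : 1 ≤ c₆ := by rw [hc₆]; exact hc₄.trans (le_max_left _ _)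
  obtain ⟨ε₁, z₁, hε₁, hloss⟩ := loss_e c₆ hc61 hε
  obtain ⟨s₂b, s₃b, z₂, κ₁, C₂, hκ₁, hC₂, hball⟩ := two_ballD n K hn hε₁
  -- the digits of the own relation and of the change of the sides
  obtain ⟨κ, hκ⟩ : ∃ κ : ℝ, κ = min κ₁ (min (ε₁ / (8 * (Co + 1))) (1 / (4 * (Co + 1)))) :=
    ⟨_, rfl⟩
  have hCo0 : 0 < Co + 1 := by linarith only [hCo]
  have hκ0 : 0 < κ := by
    rw [hκ]
    exact lt_min hκ₁ (lt_min (by positivity) (by positivity))
  have hκa : κ ≤ κ₁ := by rw [hκ]; exact min_le_left _ _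
  have hκb : κ * (8 * (Co + 1)) ≤ ε₁ := by
    have h1 : κ ≤ ε₁ / (8 * (Co + 1)) := by
      rw [hκ]
      exact (min_le_right _ _).trans (min_le_left _ _)
    rwa [le_div_iff₀ (by positivity)] at h1
  have hκc : κ * (4 * (Co + 1)) ≤ 1 := by
    have h1 : κ ≤ 1 / (4 * (Co + 1)) := by
      rw [hκ]
      exact (min_le_right _ _).trans (min_le_right _ _)
    rwa [le_div_iff₀ (by positivity)] at h1
  obtain ⟨z₃, hz₃⟩ := exists_nat_ge (8 * (Co + 2) / ε₁)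
  obtain ⟨z₄, hz₄⟩ := exists_nat_ge (4 * (Co + 2))
  obtain ⟨z₅, hz₅⟩ := exists_nat_ge (S / ε₁)
  obtain ⟨C₃, hC₃⟩ : ∃ C₃ : ℝ, C₃ = C₂ * c' * 2 := ⟨_, rfl⟩
  have hc'1 : (1 : ℝ) ≤ c' := by exact_mod_cast hc'
  have hC₃1 : 1 ≤ C₃ := by
    rw [hC₃]
    nlinarith only [hc'1, hC₂]
  have hC23 : C₂ ≤ C₃ := by
    rw [hC₃]
    nlinarith only [hκ0, hκc, hc'1, hC₂, hCo]
  refine ⟨s₂b, max s₃a s₃b, max (max z₁ z₂) (max (max z₃ z₄) z₅), κ, C₃, hκ0, hC₃1, ?_⟩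
  intro m J F c w z e e' g g' A G G' H H₀ H' hch hch' hc hHd hHp hHe hz hwJ hs hgg hsiz hA hex
    htm
  have hz1 : z₁ ≤ z := ((le_max_left _ _).trans (le_max_left _ _)).trans hz
  have hz2 : z₂ ≤ z := ((le_max_right _ _).trans (le_max_left _ _)).trans hz
  have hz3 : (z₃ : ℝ) ≤ z := by
    exact_mod_cast (((le_max_left _ _).trans (le_max_left _ _)).trans (le_max_right _ _)).trans hz
  have hz4 : (z₄ : ℝ) ≤ z := by
    exact_mod_cast (((le_max_right _ _).trans (le_max_left _ _)).trans (le_max_right _ _)).trans hz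
  have hz5 : (z₅ : ℝ) ≤ z := by
    exact_mod_cast ((le_max_right _ _).trans (le_max_right _ _)).trans hz
  have hz0 : (0 : ℝ) ≤ z := Nat.cast_nonneg z
  have q3 := hz₃.trans hz3
  rw [div_le_iff₀ hε₁] at q3
  have q4 := hz₄.trans hz4
  have q5 := hz₅.trans hz5
  rw [div_le_iff₀ hε₁] at q5
  have hκz : κ * z ≤ κ₁ * z := mul_le_mul_of_nonneg_right hκa hz0
  have hC₂0 : 0 ≤ C₂ := by linarith only [hC₂]
  -- the two ball charts
  obtain ⟨B₁, b1, b2, b3⟩ := hball hch hch' hc hz2 hwJ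
    (fun l hl => ⟨(le_max_right _ _).trans (hs l hl).1, (le_max_right _ _).trans (hs l hl).2⟩)
    (fun l hl => (hgg l hl).trans hκz) hsiz hA
    (fun B hB hP => (hex B hB (hP.trans (mul_le_mul_of_nonneg_right hC23
      (Pe_nonneg F.isLaw _)))).mono (by linarith only [hκz]))
    (fun B hB hP => by
      have := htm B hB (hP.trans (mul_le_mul_of_nonneg_right hC23 (Pe_nonneg F.isLaw _)))
      linarith only [hκz, this])
  -- the closed value of the reference chart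
  obtain ⟨Z, Z', P, B₂, d1, d2, d3, d4, -, d6, -⟩ := hclo (hch'.sub b1) hc (by omega : w ≤ J)
    (fun l hl => (le_max_left _ _).trans (hs l hl).2)
  have hPe2 : Pe F.p A ≤ C₂ * c' * Pe F.p B₂ := by
    have := mul_le_mul_of_nonneg_left d2 hC₂0
    linarith only [b2, this]
  have hB₂ : 0 < Pe F.p B₂ := by
    by_contra hcon
    have h1 : Pe F.p B₂ = 0 := le_antisymm (not_lt.1 hcon) (Pe_nonneg F.isLaw _)
    rw [h1, mul_zero] at hPe2
    linarith only [hA, hPe2]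
  have hsub2 : Sub B₂ A := fun ω hω => b1 ω (d1 ω hω)
  have hPe3 : Pe F.p A ≤ C₃ * Pe F.p B₂ := by
    have : 0 ≤ C₂ * c' * Pe F.p B₂ := by positivity
    rw [hC₃]
    linarith only [hA, hPe2]
  -- the own relation
  obtain ⟨x, hx⟩ : ∃ x, x = ⌈Co * (κ * z + 1)⌉₊ := ⟨_, rfl⟩
  have hκz0 : 0 ≤ κ * z := by positivity
  have hx1 : Co * (κ * z + 1) ≤ x := by rw [hx]; exact Nat.le_ceil _
  have hx2 : (x : ℝ) ≤ Co * (κ * z + 1) + 1 := by
    rw [hx]
    exact (Nat.ceil_lt_add_one (by positivity)).le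
  have hCk : Co * (κ * z) ≤ (Co + 1) * (κ * z) :=
    mul_le_mul_of_nonneg_right (by linarith only) hκz0
  have hx3 : 4 * (x : ℝ) ≤ ε₁ * z := by
    have h1 : κ * (8 * (Co + 1)) * z ≤ ε₁ * z := mul_le_mul_of_nonneg_right hκb hz0
    nlinarith only [q3, hκz0, hx2, h1]
  have hx4 : (x : ℝ) ≤ z := by
    have h1 : κ * (4 * (Co + 1)) * z ≤ 1 * z := mul_le_mul_of_nonneg_right hκc hz0
    nlinarith only [hCo, hz₄, hz4, hκz0, hx2, h1]
  have hxz : x ≤ z := by exact_mod_cast hx4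
  have hκx : κ * z ≤ x := by nlinarith only [hCo, hκ0, hκc, hx1, hκz0]
  obtain ⟨B₃, o1, o2, o3⟩ := hown (hch.sub hsub2) hc (isLaw_cond F.isLaw hB₂)
    (fun ω hω => cond_supp hω) (E := κ * z + 1) (z' := x) (by omega) (by linarith only [hκz0]) (by
      have := htm B₂ hsub2 hPe3
      linarith only [this]) hx1
  have o4 : ∀ ω, B₃ ω → B₂ ω := fun ω hω => cond_supp (o1 ω hω)
  refine ⟨Z, Z', B₃, fun ω hω => hsub2 ω (o4 ω hω), ?_, fun ω hω => d4 ω (o4 ω hω),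
    fun ω hω => ?_, fun ω ω' hω hω' eT eZ => ?_⟩
  · have h1 := pb_cn hB₂ o4
    have h2 : 1 / 2 * Pe F.p B₂ ≤ Pe F.p B₃ := by
      rw [← h1]
      exact mul_le_mul_of_nonneg_right (by linarith only [o2]) hB₂.le
    have h3 : 0 ≤ C₂ * c' := by positivity
    rw [hC₃]
    nlinarith only [hPe2, h2, hC₃, hC₃1]
  · have hω2 := o4 ω hω
    obtain ⟨Y, hY⟩ : ∃ Y : ℝ, Y = Real.exp (ε₁ * z) := ⟨_, rfl⟩
    have hY1 : 1 ≤ Y := by
      rw [hY]
      exact Real.one_le_exp (by positivity)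
    have cY1 : (2 : ℝ) ^ (4 * x) ≤ Y := by
      rw [hY, ← exp_two]
      refine Real.exp_le_exp.2 ?_
      push_cast
      have hl1 := log2_le
      have hl0 := log2_pos
      have h1 : (0 : ℝ) ≤ 4 * x := by positivity
      nlinarith only [hx3, hl1]
    have t1 : Tr K₂ (Hx c n w H (slam F w ω)) :=
      tr_mono ⟨sy_tri, fun l => sy_deg (fun l _ => hHd _ l) l⟩ kK
    have t2 := tr_mono (tr_hx hch w (slam F w ω)) kK
    have t3 := tr_mono (tr_hx hch' w (slam F w ω)) kK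
    have n1 : NbP n (Wn (tw F w ω) w) (gl g) Y (Hx c n w H (slam F w ω))
        (Hx c n w H₀ (slam F w ω)) :=
      (nb_hno hc (hHp _) (hch.depH _) (hHe _) (o3 ω hω)).mono le_rfl (fun _ h => h) cY1
    have n2 := b3 ω (d1 ω hω2)
    rw [← hY] at n2
    have n3 := htra t1 t2 t3 hY1 hY1 n1 n2
    refine n3.mono le_rfl (fun _ h => h) ?_
    have h6 := (le_abs_self _).trans (h4 Y hY1)
    beta_reduce at h6
    refine h6.trans ((pw_mono hc₄ (le_max_left c₄ c₅) hY1 le_rfl).trans ?_)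
    rw [← hc₆, hY]
    exact hloss z hz1
  · have hω2 := o4 ω hω
    have hω2' := o4 ω' hω'
    obtain ⟨Y, hY⟩ : ∃ Y : ℝ, Y = Real.exp (ε₁ * z) := ⟨_, rfl⟩
    have hez : ε₁ * z ≤ Real.exp (ε₁ * z) := by
      have := Real.add_one_le_exp (ε₁ * z)
      linarith only [this]
    have hY1 : 1 ≤ Y := by
      rw [hY]
      exact Real.one_le_exp (by positivity)
    have hY0 : 0 ≤ Y := by linarith only [hCo, q3, hY, hez]
    have cY2 : S ≤ Y := by
      rw [hY]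
      linarith only [q5, hez]
    have cY3 : (2 : ℝ) ^ x ≤ Y := by
      rw [hY, ← exp_two]
      refine Real.exp_le_exp.2 ?_
      have hl1 := log2_le
      have hl0 := log2_pos
      have h1 : (0 : ℝ) ≤ x := by positivity
      nlinarith only [hCo, q3, hx3, hl1]
    have n1 := (d6 ω hω2).mono le_rfl (fun _ h => h) cY2
    have n2 := (d6 ω' hω2').mono le_rfl (fun _ h => h) cY2
    have e0 : tw F w ω' = tw F w ω := tw_eq eT
    rw [e0, ← eZ] at n2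
    have t1 := tr_mono (tr_hx hch' w (slam F w ω)) kK
    have t2 := tr_mono (d3 (Z' (slam F w ω))) kc
    have t3 := tr_mono (tr_hx hch' w (slam F w ω')) kK
    have n3 := htra t1 t2 t3 hY1 (pw_one hc₂ hY1) n1 (hsym t3 t2 hY1 n2)
    have hgn : ∀ l < n, g l ≤ g' l + x ∧ g' l ≤ g l + x := fun l hl => by
      have h6 := abs_le.1 ((hgg l hl).trans hκx)
      constructor
      · have : (g l : ℝ) ≤ g' l + x := by linarith only [h6, h6.2]
        exact_mod_cast this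
      · have : (g' l : ℝ) ≤ g l + x := by linarith only [h6, h6.1]
        exact_mod_cast this
    have n4 := hchg (τ' := tw F w ω) (w' := w) (g' := gl g) (R := Y) t1 t3
      (by positivity) hY1 n3 (by rw [sub_self, abs_zero]; positivity)
      (div_le_div_of_nonneg_right hY1 (by positivity)) (fun l l1 l2 => by
        have h6 : (2 : ℝ) ^ gl g' l ≤ 2 ^ x * 2 ^ gl g l :=
          two_mul_le ((hgn (l - 1) (by omega)).2)
        exact h6.trans (mul_le_mul_of_nonneg_right cY3 (by positivity))) (fun l l1 l2 => by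
        have h6 : (2 : ℝ) ^ gl g l ≤ 2 ^ x * 2 ^ gl g' l :=
          two_mul_le ((hgn (l - 1) (by omega)).1)
        exact h6.trans (mul_le_mul_of_nonneg_right cY3 (by positivity)))
    refine n4.mono le_rfl (fun _ h => h) ?_
    have h6 := (le_abs_self _).trans (h5 Y hY1)
    beta_reduce at h6
    refine h6.trans ((pw_mono hc₅ (le_max_right c₄ c₅) hY1 le_rfl).trans ?_)
    rw [← hc₆, hY]
    exact hloss z hz1

end Pool.STAT.OKI
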