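import Pool.Agent.H40.ISO.Pts
import Pool.Agent.H40.ISO.NfS

/-!
# Two ball charts are near on the natural boxes

`full_of`: the exactness of the base to `J` digits gives full natural digits. `clo_ball`: the closed
value of a ball chart. `two_ball`: two ball charts in the same window, the base is exact behind the
sides given all closed labels: on a large event the charts are near on the natural boxes.
-/

set_option autoImplicit false

namespace Pool.STAT.OKI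

open Finset MvPolynomial
open Pool.Agent.H49.Ent Pool.Agent.H32.Dense Pool.STK Pool.KS3 Pool.KA Pool.KSAT Pool.PB Pool.GEN
open Pool.K2S Pool.S6C Pool.STAT.CLO Pool.STAT.Glu
open Pool.BFL (Pb)
open Pool.MIC6 (ch_vec hgt_diff floor_near log_cell)

/-- **Full natural digits** from the exactness of the base to `J` digits. -/
theorem full_of {Ω U : Type} [Fintype Ω] {q : Ω → ℝ} (hq : IsLaw q) {n J z : ℕ} {g : ℕ → ℕ}
    {L₀ κ : ℝ} (hL : 0 ≤ L₀) {x : Ω → ℕ → ℝ} {Ψ : Ω → ℕ → PN} {y : Ω → U}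
    (hnear : ∀ ω ω', 0 < q ω → 0 < q ω' → y ω = y ω' → ∀ l, 1 ≤ l → l ≤ n - 1 →
      (∀ k, 1 ≤ k → k < l → ⌊(2 : ℝ) ^ J * x ω k⌋ = ⌊(2 : ℝ) ^ J * x ω' k⌋) →
      |eval (x ω) (Ψ ω l) - eval (x ω') (Ψ ω' l)| ≤ L₀ / 2 ^ (g l + z))
    (hJ : ∀ l, 1 ≤ l → l ≤ n - 1 → g l + z ≤ J)
    (hex : (∑ l ∈ range (n - 1), ((J : ℝ) - g (l + 1))) * Real.log 2 - κ ≤
      CH q (fun ω (l : Fin (n - 1)) => ⌊(2 : ℝ) ^ J * x ω (l + 1)⌋) y) :
    ((n - 1 : ℕ) : ℝ) * (z * Real.log 2) - (κ + ((n - 1 : ℕ) : ℝ) * Real.log (5 + 2 * L₀)) ≤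
      CH q (fun ω (i : Fin (n - 1)) =>
        ⌊(2 : ℝ) ^ (g (i + 1) + z) * (x ω (i + 1) - eval (x ω) (Ψ ω (i + 1)))⌋) y := by
  obtain ⟨v, hv⟩ : ∃ v : Ω → Fin (n - 1) → ℤ, v = fun ω (i : Fin (n - 1)) =>
    ⌊(2 : ℝ) ^ (g (i + 1) + z) * (x ω (i + 1) - eval (x ω) (Ψ ω (i + 1)))⌋ := ⟨_, rfl⟩
  rw [← hv]
  have h1 := CH_le_add hq.nonneg (fun ω (l : Fin (n - 1)) => ⌊(2 : ℝ) ^ J * x ω (l + 1)⌋) v y
  have h2 := ch_vec hq (fun ω (l : Fin (n - 1)) => ⌊(2 : ℝ) ^ J * x ω (l + 1)⌋)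
    (fun ω => (v ω, y ω)) (fun l _ => (2 : ℝ) ^ J * ((1 + L₀) / 2 ^ (g (l + 1) + z)) + 1)
    (fun l ω ω' hω hω' hyy hk => by
      simp only [Prod.mk.injEq] at hyy
      obtain ⟨e1, e2⟩ := hyy
      have e3 := congrFun e1 l
      rw [hv] at e3
      have h3 := floor_near e3
      have h4 := hnear ω ω' hω hω' e2 (l + 1) (by omega) (by omega) (fun k k1 k2 => by
        have h5 := hk ⟨k - 1, by omega⟩ (by
          show k - 1 < l
          omega)
        simp only [Nat.sub_add_cancel k1] at h5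
        exact h5)
      have h6 : |x ω (l + 1) - x ω' (l + 1)| ≤ (1 + L₀) / 2 ^ (g (l + 1) + z) := by
        have e : x ω (l + 1) - x ω' (l + 1) =
          ((x ω (l + 1) - eval (x ω) (Ψ ω (l + 1))) -
            (x ω' (l + 1) - eval (x ω') (Ψ ω' (l + 1)))) +
          (eval (x ω) (Ψ ω (l + 1)) - eval (x ω') (Ψ ω' (l + 1))) := by ring
        rw [e, add_div]
        exact (abs_add_le _ _).trans (add_le_add h3 h4)
      exact hgt_diff h6)
  have h3 : ∑ i ∈ range (n - 1), Pool.Agent.H32.Dense.Ex q (fun _ : Ω =>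
      Real.log (2 * ((2 : ℝ) ^ J * ((1 + L₀) / 2 ^ (g (i + 1) + z)) + 1) + 1)) ≤
      ∑ l ∈ range (n - 1), (((J : ℝ) - (g (l + 1) + z : ℕ)) * Real.log 2 +
        Real.log (5 + 2 * L₀)) := by
    refine Finset.sum_le_sum fun l hl => ?_
    have hl' := mem_range.1 hl
    rw [Ex_const hq.sum_one]
    exact log_cell hL (hJ (l + 1) (by omega) (by omega))
  have h4 := h2.trans h3
  rw [Finset.sum_add_distrib, Finset.sum_const, Finset.card_range, nsmul_eq_mul,
    ← Finset.sum_mul] at h4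
  have h5 : ∑ l ∈ range (n - 1), ((J : ℝ) - (g (l + 1) + z : ℕ)) =
      ∑ l ∈ range (n - 1), ((J : ℝ) - g (l + 1)) - ((n - 1 : ℕ) : ℝ) * z := by
    have e : ∀ l ∈ range (n - 1), (J : ℝ) - (g (l + 1) + z : ℕ) =
        ((J : ℝ) - g (l + 1)) - z := fun l _ => by
      push_cast
      ring
    rw [Finset.sum_congr rfl e, Finset.sum_sub_distrib, Finset.sum_const, Finset.card_range,
      nsmul_eq_mul]
  rw [h5, sub_mul] at h4
  linarith only [hex, h1, h4]

/-- The sides of a chain, coordinates `1, …, n`. -/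
def gl (g : ℕ → ℕ) (l : ℕ) : ℕ := g (l - 1)

theorem tr_hx {m J : ℕ} {F : Fam m J} {c : ℕ → Fin m} {n K a w e : ℕ} {g : ℕ → ℕ}
    {A : F.Ω → Prop} {G : PtT F → ℕ → MvPolynomial (Option (Fin m)) ℝ}
    {H : LnT F → ℕ → MvPolynomial (Option (Fin m)) ℝ}
    (h : ChOK F c n (fun _ => K) a w e g A G H) (w' : ℕ) (s : LnT F) : Tr K (Hx c n w' H s) :=
  ⟨sy_tri, fun l => sy_deg (fun l _ => h.degH _ l) l⟩

/-- **The closed value of a ball chart**: the event, the degree of the polynomials of the value, the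
nearness of the chart and the value, the heights, the variation. -/
theorem clo_ball (n K : ℕ) : ∃ (c' s₂ s₃ : ℕ) (S L : ℝ), 1 ≤ c' ∧ 1 ≤ S ∧ 0 ≤ L ∧
    ∀ {m J : ℕ} {F : Fam m J} {c : ℕ → Fin m} {w e : ℕ} {g : ℕ → ℕ} {A : F.Ω → Prop}
    {G : PtT F → ℕ → MvPolynomial (Option (Fin m)) ℝ}
    {H : LnT F → ℕ → MvPolynomial (Option (Fin m)) ℝ},
    ChOK F c n (fun _ => K) w w e g A G H → Inj c n → w ≤ J → (∀ l < n, s₃ ≤ g l) →
    ∃ (Z : PtT F → LV) (Z' : LnT F → LV) (P : LV → ℕ → PN) (B : F.Ω → Prop), Sub B A ∧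
      Pe F.p A ≤ c' * Pe F.p B ∧ (∀ v, Tr c' (P v)) ∧
      (∀ ω, B ω → Z (ptr F J ω) = Z' (slam F w ω)) ∧
      (∀ ω, B ω → ∀ l, 1 ≤ l → l ≤ n →
        |xs F c ω l - eval (xs F c ω) (P (Z' (slam F w ω)) l)| ≤ 1 / 2 ^ (gl g l - s₃)) ∧
      (∀ ω, B ω → NbP n (Wn (tw F w ω) w) (gl g) S (Hx c n w H (slam F w ω))
        (P (Z' (slam F w ω)))) ∧
      ∀ Y : ℕ, (∀ l < n, (range (l + 1)).sup g + e + Y + s₂ ≤ J) → ∀ ω ω', B ω → B ω' →
        F.T ω = F.T ω' → ∀ l, 1 ≤ l → l ≤ n →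
        (∀ k, 1 ≤ k → k < l → ⌊(2 : ℝ) ^ J * xs F c ω k⌋ = ⌊(2 : ℝ) ^ J * xs F c ω' k⌋) →
        |eval (xs F c ω) (P (Z' (slam F w ω)) l) - eval (xs F c ω') (P (Z' (slam F w ω)) l)| ≤
          L / 2 ^ (gl g l - s₃ + Y) := by
  obtain ⟨s₀, hraw⟩ := raw_of n K
  obtain ⟨a, c', hc', hclo⟩ := clo n K
  obtain ⟨s₃, hs₃⟩ : ∃ s₃, s₃ = a * (s₀ + 1) := ⟨_, rfl⟩
  obtain ⟨L, s₂, hL, hnear⟩ := near_gx n n K c' (s₀ + 1) (fun _ => s₃) le_rfl hc'
  obtain ⟨K₂, hK₂⟩ : ∃ K₂, K₂ = max K c' := ⟨_, rfl⟩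
  have kK : K ≤ K₂ := by rw [hK₂]; exact le_max_left _ _
  have kc : c' ≤ K₂ := by rw [hK₂]; exact le_max_right _ _
  obtain ⟨c₁, hc₁, hchg⟩ := NbP.chg n K₂
  obtain ⟨c₂, hc₂, hsym⟩ := NbP.symm n K₂
  obtain ⟨S₁, hS₁⟩ : ∃ S₁ : ℝ, S₁ = 2 ^ (c' * (s₀ + 1)) := ⟨_, rfl⟩
  have hS11 : 1 ≤ S₁ := by
    rw [hS₁]
    exact one_le_pow₀ (by norm_num)
  have h2s : (1 : ℝ) ≤ 2 ^ s₃ := one_le_pow₀ (by norm_num)
  refine ⟨c', s₂, s₃, ((c₁ : ℝ) * 2 ^ s₃) ^ c₁ * ((c₂ : ℝ) * S₁) ^ c₂, L, hc',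
    one_le_mul_of_one_le_of_one_le (pw_one hc₁ h2s) (pw_one hc₂ hS11), by linarith only [hL], ?_⟩
  intro m J F c w e g A G H hch hc hwJ hg
  have hR := hraw m J F c (fun _ => K) w w e g A G H le_rfl hwJ hc (fun _ _ => le_rfl) hch
  obtain ⟨Z, Z', P, B, hB, hPe, hLv, hN⟩ := hclo F.Ω (PtT F) (LnT F) F.p s₀ A (ptr F J)
    (slam F w) (tp w) (tl w) (gg w g) (Gs c n w G) (fun s => Hs c n H (crs w w s))
    (cx F (fun i => c (i - 1))) F.isLaw hR
    (fun ω _ => by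
      have h1 : cx F (fun i => c (i - 1)) ω 0 = F.t ω := if_pos rfl
      have h2 : gg w g 0 = w := if_pos rfl
      unfold Gs
      rw [h1, h2, sy_zero, eval_C, tp_eq]
      exact t_cell F hwJ ω)
    (fun ω hω l l1 l2 => (pos_of hc hch hω l1 l2).trans
      (div_le_div_of_nonneg_right (one_le_pow₀ (by norm_num)) (by positivity)))
    (fun l l1 l2 => by
      have h1 : gg w g l = g (l - 1) := if_neg (by omega)
      rw [h1, ← hs₃]
      exact hg (l - 1) (by omega))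
  rw [← hs₃] at hLv
  have hgs : ∀ l, 1 ≤ l → CLO.gs s₃ (gg w g) l = gl g l - s₃ := fun l l1 => by
    unfold CLO.gs gg gl
    rw [if_neg (by omega), if_neg (by omega)]
  have hgs0 : CLO.gs s₃ (gg w g) 0 = w := rfl
  have htP : ∀ v, Tr c' (P v) := fun v => ⟨hLv.tri v, hLv.deg v⟩
  have hfs : ∀ ω, (P (Z (ptr F J ω))) 0 = MvPolynomial.C (tw F w ω) := fun ω => by
    rw [hLv.zero, hLv.fst, tp_eq]
    rfl
  have hcrs : ∀ ω, crs w w (slam F w ω) = slam F w ω := fun ω => crs_eq F le_rfl hwJ ω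
  refine ⟨Z, Z', P, B, hB, hPe, htP, hLv.cls, fun ω hω l l1 l2 => ?_, fun ω hω => ?_,
    fun Y hY ω ω' hω hω' hT l l1 l2 hk => ?_⟩
  · have h1 := hLv.hgt ω hω l l2
    rw [hgs l l1, hLv.cls ω hω] at h1
    exact h1
  · -- the chart and the value
    have n1 : NbP n (Wn (tw F w ω) w) (fun l => gl g l - s₃) S₁ (P (Z (ptr F J ω)))
        (Hx c n w H (slam F w ω)) := by
      intro l l1 l2 b hb
      have h1 := hLv.line ω hω l l1 l2 b (fun k hk => by
        rcases Nat.eq_zero_or_pos k with rfl | k1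
        · rw [hfs, eval_C, hgs0]
          exact hb.1
        · rw [hgs k k1]
          exact hb.2 k k1 hk)
      rw [hgs l l1, hcrs] at h1
      have e1 : Hs c n H (slam F w ω) l = Hx c n w H (slam F w ω) l := by
        obtain ⟨l, rfl⟩ : ∃ l', l = l' + 1 := ⟨l - 1, by omega⟩
        unfold Hs Hx
        rw [sy_succ (by omega), sy_succ (by omega)]
      rw [e1, ← hS₁] at h1
      rw [abs_sub_comm]
      exact h1
    have t1 := tr_mono (htP (Z (ptr F J ω))) kc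
    have t2 := tr_mono (tr_hx hch w (slam F w ω)) kK
    have n2 := hsym t1 t2 hS11 n1
    have n3 := hchg (τ' := tw F w ω) (w' := w) (g' := gl g) (R := 2 ^ s₃) t2 t1 (by positivity)
      h2s n2 (by rw [sub_self, abs_zero]; positivity)
      (div_le_div_of_nonneg_right h2s (by positivity)) (fun l l1 l2 => by
        have h6 : (2 : ℝ) ^ (gl g l - s₃) ≤ 2 ^ gl g l :=
          pow_le_pow_right₀ (by norm_num) (Nat.sub_le _ _)
        have h7 : (0 : ℝ) < 2 ^ gl g l := by positivity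
        nlinarith only [h6, h2s, h7]) (fun l l1 l2 => by
        rw [← pow_add]
        exact pow_le_pow_right₀ (by norm_num) (by omega))
    rw [hLv.cls ω hω] at n3
    exact n3
  · -- the variation
    have h1 := hnear m J F c w g (fun l => e + ((range (l + 1)).sup g - g l)) Y
      (G (ptr F J ω)) (st (F.t ω) (P (Z (ptr F J ω)))) ω hwJ hc (fun k _ => hch.degG _ k)
      (fun k => hch.depG _ k) (fun k hk b hb l hl => by
        refine (hch.lip ω (hB ω hω) k (by omega) b hb l hl).trans ?_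
        refine pow_le_pow_right₀ (by norm_num) (Nat.add_le_add_left ?_ _)
        unfold nlp
        have h5 : (Finset.Icc l k).sup g ≤ (range (k + 1)).sup g := by
          refine Finset.sup_mono fun x hx => ?_
          rw [Finset.mem_Icc] at hx
          exact mem_range.2 (by omega)
        omega)
      (fun k _ _ => st_tri (hLv.tri _) k) (fun k _ _ => st_deg (hLv.deg _) k) (st_zero _ _)
      ⟨by rw [st_zero, sy_zero], fun k k1 k2 r hr b hb => by
        have h2 := (hN ω hω).2 k k1 k2 (r + 1) (by linarith only [hr]) b (fun j hj => by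
          have h3 := hb j hj
          rcases Nat.eq_zero_or_pos j with rfl | j1
          · have e1 : Gs c n w G (ptr F J ω) 0 = MvPolynomial.C ((F.T1 w ω : ℝ) / 2 ^ w) := by
              unfold Gs
              rw [sy_zero, tp_eq]
            have e2 : gg w g 0 = w := if_pos rfl
            rw [sy_zero, eval_C, e2] at h3
            rw [e1, eval_C, e2]
            have h4 := t_cell F hwJ ω
            have h5 : |b 0 - (F.T1 w ω : ℝ) / 2 ^ w| ≤ |b 0 - F.t ω| +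
              |F.t ω - (F.T1 w ω : ℝ) / 2 ^ w| := abs_sub_le _ _ _
            rw [add_div]
            exact h5.trans (add_le_add h3 h4)
          · obtain ⟨j, rfl⟩ : ∃ j', j = j' + 1 := ⟨j - 1, by omega⟩
            rw [sy_succ (by omega)] at h3
            unfold Gs
            rw [sy_succ (by omega)]
            exact h3.trans (div_le_div_of_nonneg_right (by linarith only) (by positivity)))
        have e3 : Gs c n w G (ptr F J ω) k = sy c n (F.t ω) (G (ptr F J ω)) k := by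
          obtain ⟨k, rfl⟩ : ∃ k', k = k' + 1 := ⟨k - 1, by omega⟩
          unfold Gs
          rw [sy_succ (by omega), sy_succ (by omega)]
        rw [e3] at h2
        rw [st_pos _ _ k1]
        refine h2.trans (div_le_div_of_nonneg_right ?_ (by positivity))
        refine pow_le_pow_left₀ (by positivity) ?_ _
        have e4 : (0 : ℝ) ≤ c' * 2 ^ s₀ := by positivity
        calc (c' : ℝ) * 2 ^ s₀ * (r + 1) ≤ c' * 2 ^ s₀ * (2 * r) :=
              mul_le_mul_of_nonneg_left (by linarith only [hr]) e4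
          _ = c' * 2 ^ (s₀ + 1) * r := by rw [pow_succ]; ring⟩
      (fun k h1 h2 => by
        have h3 := hLv.hgt ω hω k h2
        rw [hgs k h1] at h3
        rw [st_pos _ _ h1]
        exact h3)
      (fun l hl => hg l hl) (fun l hl => by
        have h5 : g l ≤ (range (l + 1)).sup g :=
          Finset.le_sup (f := g) (mem_range.2 (by omega))
        have h6 := hY l hl
        omega)
      (xs F c ω') (by
        have e1 : F.t ω' = F.t ω := by
          unfold Fam.t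
          rw [hT]
        rw [xs_zero, e1]) l l1 l2 (fun k k1 k2 => by
        have h2 := floor_near (a := J) (hk k k1 k2)
        rw [abs_sub_comm]
        exact h2)
    rw [abs_sub_comm, ← hLv.cls ω hω]
    rw [st_pos _ _ l1] at h1
    exact h1

theorem pb_cn {Ω : Type} [Fintype Ω] {p : Ω → ℝ} {A Q : Ω → Prop} (hA : 0 < Pe p A)
    (hQ : ∀ ω, Q ω → A ω) :
    Pb (Pool.Agent.H49.Ent.cond p A True) Q * Pe p A = Pe p Q := by
  have h1 : Pb (Pool.Agent.H49.Ent.cond p A True) Q =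
      Pe (Pool.Agent.H49.Ent.cond p A True) Q := by
    rw [Pe_eq]
    rfl
  have h2 : Pe p (fun ω => A ω ∧ Q ω) = Pe p Q := by
    congr 1
    funext ω
    exact propext ⟨fun h => h.2, fun h => ⟨hQ ω h, h⟩⟩
  rw [h1, Pe_cond, h2, div_mul_cancel₀ _ hA.ne']

/-- **Two ball charts are near.** -/
theorem two_ball (n K Λ : ℕ) (hn : 1 ≤ n) : ∃ (Bc s₂ s₃ z₀ : ℕ) (κ₀ C₁ : ℝ), 0 < κ₀ ∧ 1 ≤ C₁ ∧
    ∀ {m J : ℕ} {F : Fam m J} {c : ℕ → Fin m} {w z e e' : ℕ} {g g' : ℕ → ℕ} {A : F.Ω → Prop}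
    {G G' : PtT F → ℕ → MvPolynomial (Option (Fin m)) ℝ}
    {H H' : LnT F → ℕ → MvPolynomial (Option (Fin m)) ℝ},
    ChOK F c n (fun _ => K) w w e g A G H → ChOK F c n (fun _ => K) w w e' g' A G' H' →
    Inj c n → z₀ ≤ z → w + z ≤ J → (∀ l < n, s₃ ≤ g l ∧ s₃ ≤ g' l) →
    (∀ l < n, g l ≤ g' l + Λ * z ∧ g' l ≤ g l + Λ * z) →
    (∀ l < n, (range (l + 1)).sup g + e + z + s₂ ≤ J) → 0 < Pe F.p A →
    (∀ B : F.Ω → Prop, Sub B A → Pe F.p A ≤ C₁ * Pe F.p B →
      ExW F B (fun l : Fin (n - 1) => c l) w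
        ((∑ l ∈ range (n - 1), ((J : ℝ) - g l)) * Real.log 2 - κ₀ * z)) →
    (∀ B : F.Ω → Prop, Sub B A → Pe F.p A ≤ C₁ * Pe F.p B →
      ((J : ℝ) - w) * Real.log 2 - κ₀ * z ≤
        CH (Pool.Agent.H49.Ent.cond F.p B True) F.T (slam F w)) →
    ∃ B : F.Ω → Prop, Sub B A ∧ Pe F.p A ≤ C₁ * Pe F.p B ∧ ∀ ω, B ω →
      NbP n (Wn (tw F w ω) w) (gl g) (2 ^ (Bc * z)) (Hx c n w H (slam F w ω))
        (Hx c n w H' (slam F w ω)) := by
  obtain ⟨c', s₂, s₃, S, L, hc', hS, hL, hclo⟩ := clo_ball n K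
  obtain ⟨κ₁, z₁, hκ₁, hwin⟩ := rmz_win n c' (1 / 2) hn (by norm_num) (by norm_num)
  obtain ⟨K₂, hK₂⟩ : ∃ K₂, K₂ = max K c' := ⟨_, rfl⟩
  have kK : K ≤ K₂ := by rw [hK₂]; exact le_max_left _ _
  have kc : c' ≤ K₂ := by rw [hK₂]; exact le_max_right _ _
  obtain ⟨c₁, hc₁, hchg⟩ := NbP.chg n K₂
  obtain ⟨c₂, hc₂, hsym⟩ := NbP.symm n K₂
  obtain ⟨c₃, hc₃, htra⟩ := NbP.trans n K₂
  have hl2 : 0 < Real.log 2 := Real.log_pos one_lt_two
  have h5L : 0 ≤ Real.log (5 + 2 * L) := Real.log_nonneg (by linarith only [hL])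
  have h2s : (1 : ℝ) ≤ 2 ^ s₃ := one_le_pow₀ (by norm_num)
  -- the losses
  have p1 : PBd fun Y => ((c₁ : ℝ) * Y) ^ c₁ * Y := (PBd.id.loss c₁).mul PBd.id
  have p2 : PBd fun Y => ((c₁ : ℝ) * Y) ^ c₁ * ((c₂ : ℝ) * Y) ^ c₂ :=
    (PBd.id.loss c₁).mul (PBd.id.loss c₂)
  have p3 : PBd fun Y => ((c₃ : ℝ) * (Y * (((c₁ : ℝ) * Y) ^ c₁ * Y))) ^ c₃ :=
    (PBd.id.mul p1).loss c₃
  obtain ⟨c₄, hc₄, h4⟩ := (p3.mul p2).loss c₃
  obtain ⟨Kc, hKc⟩ : ∃ Kc : ℝ, Kc = ((n - 1 : ℕ) : ℝ) * s₃ * Real.log 2 +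
    ((n - 1 : ℕ) : ℝ) * Real.log (5 + 2 * L) := ⟨_, rfl⟩
  have hKc0 : 0 ≤ Kc := by rw [hKc]; positivity
  obtain ⟨za, hza⟩ := exists_nat_ge ((c₄ : ℝ) + (S + 2 ^ s₃) + 2)
  obtain ⟨zb, hzb⟩ := exists_nat_ge (2 * Kc / κ₁)
  have hc'1 : (1 : ℝ) ≤ c' := by exact_mod_cast hc'
  refine ⟨c₄ * (Λ + 5 + 1), s₂, s₃, max z₁ (max za zb), κ₁ / 2, 2 * (c' * c'), by positivity,
    by nlinarith only [hc'1], ?_⟩
  intro m J F c w z e e' g g' A G G' H H' hch hch' hc hz hwz hsh hgg hsiz hA hex htm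
  have hz0 : (0 : ℝ) ≤ z := Nat.cast_nonneg z
  have hz1 : z₁ ≤ z := (le_max_left _ _).trans hz
  have hz2 : za ≤ z := ((le_max_left _ _).trans (le_max_right _ _)).trans hz
  have hz3 : (zb : ℝ) ≤ z := by
    exact_mod_cast ((le_max_right _ _).trans (le_max_right _ _)).trans hz
  have hKz : Kc ≤ κ₁ / 2 * z := by
    have h1 := hzb.trans hz3
    rw [div_le_iff₀ hκ₁] at h1
    linarith only [h1]
  have hcz : (c₄ : ℝ) + (S + 2 ^ s₃) + 2 ≤ 2 ^ z :=
    (hza.trans (by exact_mod_cast hz2)).trans (two_ge z)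
  have hwJ : w ≤ J := by omega
  -- the closed values
  obtain ⟨Z₁, Z₁', P₁, B₁, s1, q1, r1, cl1, ht1, nb1, va1⟩ := hclo hch hc hwJ
    (fun l hl => (hsh l hl).1)
  obtain ⟨Z₂, Z₂', P₂, B₂, s2, q2, r2, cl2, ht2, nb2, -⟩ := hclo (hch'.sub s1) hc hwJ
    (fun l hl => (hsh l hl).2)
  have hc'0 : (0 : ℝ) ≤ c' := by linarith only [hc'1]
  have hPe : Pe F.p A ≤ c' * c' * Pe F.p B₂ := by
    have := mul_le_mul_of_nonneg_left q2 hc'0
    linarith only [q1, this]
  have hs : Sub B₂ A := fun ω hω => s1 ω (s2 ω hω)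
  have hB₂ : 0 < Pe F.p B₂ := by
    by_contra hcon
    have h1 : Pe F.p B₂ = 0 := le_antisymm (not_lt.1 hcon) (Pe_nonneg F.isLaw _)
    rw [h1, mul_zero] at hPe
    linarith only [hA, hPe]
  have hPe2 : Pe F.p A ≤ 2 * (c' * c') * Pe F.p B₂ := by
    have : 0 ≤ c' * c' * Pe F.p B₂ := by positivity
    linarith only [hA, hPe]
  obtain ⟨q, hqq⟩ : ∃ q, q = Pool.Agent.H49.Ent.cond F.p B₂ True := ⟨_, rfl⟩
  have hq : IsLaw q := by
    rw [hqq]
    exact isLaw_cond F.isLaw hB₂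
  have hqB : ∀ ω, 0 < q ω → B₂ ω := fun ω hω => by
    rw [hqq] at hω
    exact cond_supp hω
  have hT : ∀ ω : F.Ω, F.t ω = (F.T ω : ℝ) / 2 ^ J := fun _ => rfl
  have hE := hex B₂ hs hPe2 (LV × LV) (fun y => (Z₁ y, Z₂ y)) (fun s => (Z₁' s, Z₂' s))
    (fun ω hω => Prod.ext (cl1 ω (s2 ω hω)) (cl2 ω hω))
  have hEt := htm B₂ hs hPe2
  rw [← hqq] at hE hEt
  -- full natural digits
  have hfull := full_of hq (n := n) (J := J) (z := z) (g := fun l => gl g l - s₃) (L₀ := L)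
    (κ := κ₁ / 2 * z + ((n - 1 : ℕ) : ℝ) * s₃ * Real.log 2) (by linarith only [hL]) (x := xs F c)
    (Ψ := fun ω => P₁ (Z₁' (slam F w ω)))
    (y := fun ω => ((Z₁' (slam F w ω), Z₂' (slam F w ω)), F.W ω))
    (fun ω ω' hω hω' e0 l l1 l2 hk => by
      simp only [Prod.mk.injEq] at e0
      obtain ⟨⟨e1, e2⟩, e3⟩ := e0
      beta_reduce
      rw [← e1]
      exact va1 z (fun l hl => hsiz l hl) ω ω' (s2 ω (hqB ω hω)) (s2 ω' (hqB ω' hω'))
        (congrArg Prod.fst e3) l l1 (by omega) hk)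
    (fun l l1 l2 => by
      have h5 : g (l - 1) ≤ (range (l - 1 + 1)).sup g :=
        Finset.le_sup (f := g) (mem_range.2 (by omega))
      have h6 := hsiz (l - 1) (by omega)
      unfold gl
      omega)
    (by
      refine le_trans ?_ (hE.trans (le_of_eq ?_))
      · have e1 : ∑ l ∈ range (n - 1), ((J : ℝ) - (gl g (l + 1) - s₃ : ℕ)) ≤
            ∑ l ∈ range (n - 1), ((J : ℝ) - g l) + ((n - 1 : ℕ) : ℝ) * s₃ := by
          have e2 : ((n - 1 : ℕ) : ℝ) * s₃ = ∑ _l ∈ range (n - 1), (s₃ : ℝ) := by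
            rw [Finset.sum_const, Finset.card_range, nsmul_eq_mul]
          rw [e2, ← Finset.sum_add_distrib]
          refine Finset.sum_le_sum fun l hl => ?_
          have h1 := (hsh l (by have := mem_range.1 hl; omega)).1
          unfold gl
          rw [Nat.add_sub_cancel, Nat.cast_sub h1]
          linarith only
        have e3 := mul_le_mul_of_nonneg_right e1 hl2.le
        beta_reduce
        linarith only [e3]
      · rfl)
  have hθ : κ₁ / 2 * z + ((n - 1 : ℕ) : ℝ) * s₃ * Real.log 2 +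
      ((n - 1 : ℕ) : ℝ) * Real.log (5 + 2 * L) ≤ κ₁ * z := by
    rw [hKc] at hKz
    linarith only [hKz]
  obtain ⟨A', hA0, hA1, hA2⟩ := hwin (q := q) hq hz1 (J := J) (w := w) (z := z) (T := F.T)
    (lam := slam F w) (y := fun ω => ((Z₁' (slam F w ω), Z₂' (slam F w ω)), F.W ω))
    (g := fun l => gl g l - s₃) (Ψ := fun ω => P₁ (Z₁' (slam F w ω)))
    (Φ := fun ω => P₁ (Z₁' (slam F w ω)))
    (F := fun ω l => P₁ (Z₁' (slam F w ω)) l - P₂ (Z₂' (slam F w ω)) l)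
    (x := xs F c) (τ := fun l => 2 * 2 ^ (Λ * z) / 2 ^ (gl g l - s₃))
    (θ := κ₁ / 2 * z + ((n - 1 : ℕ) : ℝ) * s₃ * Real.log 2 +
      ((n - 1 : ℕ) : ℝ) * Real.log (5 + 2 * L)) (E := κ₁ / 2 * z) (by positivity) hθ
    (fun ω ω' _ _ e0 => by
      simp only [Prod.mk.injEq] at e0
      beta_reduce
      rw [xs_zero, xs_zero, hT, hT]
      have : F.T ω = F.T ω' := congrArg Prod.fst e0.2
      rw [this])
    (fun ω ω' _ _ e0 => by
      simp only [Prod.mk.injEq] at e0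
      beta_reduce
      rw [e0.1.1])
    (fun l ω ω' _ _ e0 => by
      simp only [Prod.mk.injEq] at e0
      beta_reduce
      rw [e0.1.1, e0.1.2])
    (fun ω _ => r1 _) (fun ω _ => r1 _)
    (fun ω _ l _ _ => (vars_sub_subset _).trans (Finset.union_subset
      ((r1 _).tri l) ((r2 _).tri l)))
    (fun ω _ l _ _ => (totalDegree_sub _ _).trans (max_le ((r1 _).deg l) ((r2 _).deg l)))
    (fun l => by positivity)
    (fun ω hω l l1 l2 => ht1 ω (s2 ω (hqB ω hω)) l l1 (by omega)) hfull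
    (fun ω hω l l1 l2 => by
      rw [map_sub]
      have e1 := ht1 ω (s2 ω (hqB ω hω)) l l1 l2
      have e2 := ht2 ω (hqB ω hω) l l1 l2
      have e3 := abs_sub (xs F c ω l - eval (xs F c ω) (P₂ (Z₂' (slam F w ω)) l))
        (xs F c ω l - eval (xs F c ω) (P₁ (Z₁' (slam F w ω)) l))
      rw [sub_sub_sub_cancel_left] at e3
      refine e3.trans ((add_le_add e2 e1).trans ?_)
      have e4 : (1 : ℝ) / 2 ^ (gl g' l - s₃) ≤ 2 ^ (Λ * z) / 2 ^ (gl g l - s₃) := by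
        rw [div_le_div_iff₀ (by positivity) (by positivity), one_mul, ← pow_add]
        refine pow_le_pow_right₀ (by norm_num) ?_
        have h1 := (hgg (l - 1) (by omega)).1
        have h2 := (hsh (l - 1) (by omega)).2
        unfold gl
        omega
      have e5 : (1 : ℝ) / 2 ^ (gl g l - s₃) ≤ 2 ^ (Λ * z) / 2 ^ (gl g l - s₃) :=
        div_le_div_of_nonneg_right (one_le_pow₀ (by norm_num)) (by positivity)
      refine (add_le_add e4 e5).trans (le_of_eq ?_)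
      ring)
    (fun ω _ l _ _ b _ => by
      rw [sub_self, abs_zero]
      positivity)
    (fun ω => by rw [xs_zero, hT]) F.tim hwz (fun ω ω' _ _ e0 => by
      have e1 : F.T1 w ω = F.T1 w ω' := congrArg (fun s : LnT F => s.2.2) e0
      exact e1) (by positivity) (by
      have : 0 ≤ κ₁ * z := by positivity
      linarith only [hKc0, hKz]) hEt (fun ω ω' _ _ e0 => by
      beta_reduce
      rw [e0]) (fun l ω ω' _ _ e0 => by
      beta_reduce
      rw [e0])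
  have hA'B : ∀ ω, A' ω → B₂ ω := fun ω hω => hqB ω (hA0 ω hω)
  refine ⟨A', fun ω hω => hs ω (hA'B ω hω), ?_, fun ω hω => ?_⟩
  · have h1 := pb_cn hB₂ hA'B
    rw [← hqq] at h1
    have h2 : 1 / 2 * Pe F.p B₂ ≤ Pe F.p A' := by
      rw [← h1]
      exact mul_le_mul_of_nonneg_right (by linarith only [hA1]) hB₂.le
    have h3 : (0 : ℝ) ≤ c' * c' := by positivity
    nlinarith only [hPe, h2]
  · have hω2 := hA'B ω hω
    have hω1 := s2 ω hω2
    obtain ⟨Y, hY⟩ : ∃ Y : ℝ, Y = 2 ^ ((Λ + 5) * z) := ⟨_, rfl⟩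
    have hzY : (2 : ℝ) ^ z ≤ Y := by
      rw [hY]
      exact pow_le_pow_right₀ (by norm_num) (Nat.le_mul_of_pos_left z (by omega))
    have hc4 : (0 : ℝ) ≤ c₄ := Nat.cast_nonneg _
    have hY1 : 1 ≤ Y := by linarith only [hS, h2s, hcz, hzY]
    have hY0 : 0 ≤ Y := by linarith only [hS, h2s, hcz, hzY]
    have cY1 : (2 : ℝ) ^ s₃ ≤ Y := by linarith only [hS, hcz, hzY]
    have cY2 : S ≤ Y := by linarith only [h2s, hcz, hzY]
    have h2z : (2 : ℝ) ≤ 2 ^ z := by linarith only [hS, h2s, hcz]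
    have cY3 : (2 : ℝ) ^ (4 * z) * (2 * 2 ^ (Λ * z)) ≤ Y := by
      rw [hY]
      calc (2 : ℝ) ^ (4 * z) * (2 * 2 ^ (Λ * z)) ≤ 2 ^ (4 * z) * (2 ^ z * 2 ^ (Λ * z)) :=
            mul_le_mul_of_nonneg_left (mul_le_mul_of_nonneg_right h2z (by positivity))
              (by positivity)
        _ = 2 ^ ((Λ + 5) * z) := by
            rw [← pow_add, ← pow_add]
            congr 1
            ring
    have cY4 : (2 : ℝ) ^ (Λ * z) ≤ Y := by
      rw [hY]
      exact pow_le_pow_right₀ (by norm_num) (Nat.mul_le_mul_right z (by omega))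
    have t1 := tr_mono (tr_hx hch w (slam F w ω)) kK
    have t2 := tr_mono (r1 (Z₁' (slam F w ω))) kc
    have t3 := tr_mono (r2 (Z₂' (slam F w ω))) kc
    have t4 := tr_mono (tr_hx hch' w (slam F w ω)) kK
    -- the values
    have a1 : NbP n (Wn (F.t ω) w) (fun l => gl g l - s₃) Y
        (P₁ (Z₁' (slam F w ω))) (P₂ (Z₂' (slam F w ω))) := by
      intro l l1 l2 b hb
      have h5 := hA2 ω hω l l1 l2 b (by rw [xs_zero]; exact hb)
      rw [map_sub] at h5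
      refine h5.trans ?_
      rw [← mul_div_assoc]
      exact div_le_div_of_nonneg_right cY3 (by positivity)
    have a1' := hchg (τ' := tw F w ω) (w' := w) (g' := gl g) (R := Y) t2 t3 hY0 hY1
      a1 (by
        rw [abs_sub_comm]
        exact (tw_t (by omega) ω).trans (div_le_div_of_nonneg_right hY1 (by positivity)))
      (div_le_div_of_nonneg_right hY1 (by positivity)) (fun l l1 l2 => by
        have h6 : (2 : ℝ) ^ (gl g l - s₃) ≤ 2 ^ gl g l :=
          pow_le_pow_right₀ (by norm_num) (Nat.sub_le _ _)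
        have h7 : (0 : ℝ) < 2 ^ gl g l := by positivity
        nlinarith only [h6, h7, hS, h2s, hcz, hzY]) (fun l l1 l2 => by
        have h6 : (2 : ℝ) ^ gl g l ≤ 2 ^ s₃ * 2 ^ (gl g l - s₃) := by
          rw [← pow_add]
          exact pow_le_pow_right₀ (by norm_num) (by omega)
        exact h6.trans (mul_le_mul_of_nonneg_right cY1 (by positivity)))
    have a2 := (nb1 ω hω1).mono le_rfl (fun _ h => h) cY2
    have a3 := hsym t4 t3 hY1 ((nb2 ω hω2).mono le_rfl (fun _ h => h) cY2)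
    have a3' := hchg (τ' := tw F w ω) (w' := w) (g' := gl g) (R := Y) t3 t4
      (by positivity) hY1 a3 (by rw [sub_self, abs_zero]; positivity)
      (div_le_div_of_nonneg_right hY1 (by positivity)) (fun l l1 l2 => by
        have h6 : (2 : ℝ) ^ gl g' l ≤ 2 ^ (Λ * z) * 2 ^ gl g l := by
          rw [← pow_add]
          refine pow_le_pow_right₀ (by norm_num) ?_
          have := (hgg (l - 1) (by omega)).2
          unfold gl
          omega
        exact h6.trans (mul_le_mul_of_nonneg_right cY4 (by positivity))) (fun l l1 l2 => by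
        have h6 : (2 : ℝ) ^ gl g l ≤ 2 ^ (Λ * z) * 2 ^ gl g' l := by
          rw [← pow_add]
          refine pow_le_pow_right₀ (by norm_num) ?_
          have := (hgg (l - 1) (by omega)).1
          unfold gl
          omega
        exact h6.trans (mul_le_mul_of_nonneg_right cY4 (by positivity)))
    have o1 : 1 ≤ ((c₁ : ℝ) * Y) ^ c₁ * Y := one_le_mul_of_one_le_of_one_le (pw_one hc₁ hY1) hY1
    have a12 := htra t1 t2 t3 hY1 o1 a2 a1'
    have o2 : 1 ≤ ((c₃ : ℝ) * (Y * (((c₁ : ℝ) * Y) ^ c₁ * Y))) ^ c₃ :=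
      pw_one hc₃ (one_le_mul_of_one_le_of_one_le hY1 o1)
    have o3 : 1 ≤ ((c₁ : ℝ) * Y) ^ c₁ * ((c₂ : ℝ) * Y) ^ c₂ :=
      one_le_mul_of_one_le_of_one_le (pw_one hc₁ hY1) (pw_one hc₂ hY1)
    have a123 := htra t1 t3 t4 o2 o3 a12 a3'
    refine a123.mono le_rfl (fun _ h => h) ?_
    have h5 := h4 Y hY1
    beta_reduce at h5
    refine (le_abs_self _).trans (h5.trans ?_)
    rw [hY]
    exact pw_two (a := Λ + 5) (by linarith only [hS, h2s, hcz])

end Pool.STAT.OKI
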