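import Pool.Agent.H40.ISO.Tbl
import Pool.Agent.H2.GEN.GrdI

/-!
# The own relation of a ball chart, re-centred ball charts

`own_ball`: the own path is near to the chart of the line on the window, on a large event. `nb_bal`:
a re-centred ball chart is near to the ball chart on the natural boxes of the ball if the own path
is near. `bal_own`: the own path is on the re-centred charts.
-/

set_option autoImplicit false

namespace Pool.STAT.OKI

open Finset MvPolynomial
open Pool.Agent.H49.Ent Pool.Agent.H32.Dense Pool.STK Pool.KS3 Pool.KA Pool.KSAT Pool.PB Pool.GEN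
open Pool.K2S Pool.S6C Pool.STAT.CLO Pool.STAT.Glu
open Pool.BFL (Pb)

/-- **The own relation of a chain on the window.** -/
theorem own_ball (n K : ℕ) (η : ℝ) (hη : 0 < η) (hη1 : η ≤ 1) : ∃ C : ℝ, 1 ≤ C ∧
    ∀ {m J : ℕ} {F : Fam m J} {c : ℕ → Fin m} {a w e z' : ℕ} {g : ℕ → ℕ} {A : F.Ω → Prop}
    {G : PtT F → ℕ → MvPolynomial (Option (Fin m)) ℝ}
    {H : LnT F → ℕ → MvPolynomial (Option (Fin m)) ℝ} {q : F.Ω → ℝ} {E : ℝ},
    ChOK F c n (fun _ => K) a w e g A G H → Inj c n → IsLaw q → (∀ ω, 0 < q ω → A ω) →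
    w + z' ≤ J → 1 ≤ E → ((J : ℝ) - w) * Real.log 2 - E ≤ CH q F.T (slam F w) → C * E ≤ z' →
    ∃ B : F.Ω → Prop, (∀ ω, B ω → 0 < q ω) ∧ 1 - η ≤ Pb q B ∧ ∀ ω, B ω → ∀ l, 1 ≤ l → l ≤ n →
      ∀ t : ℝ, Wn (tw F w ω) w t → |ptt (pc c (slam F w ω)) t l -
        eval (ptt (pc c (slam F w ω)) t) (Hx c n w H (slam F w ω) l)| ≤
          2 ^ (4 * z') / 2 ^ gl g l := by
  classical
  obtain ⟨C, hC, hrm⟩ := Glu.rmz_det (K + 1) (Fin n) η hη
  obtain ⟨Cw, hCw, hwin⟩ := own_win n K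
  refine ⟨max C Cw, hC.trans (le_max_left _ _), ?_⟩
  intro m J F c a w e z' g A G H q E hch hc hq hA hwJ hE hT hCE
  have hz1 : 1 ≤ z' := by
    have h1 : (1 : ℝ) ≤ z' := by
      have := le_max_left C Cw
      nlinarith
    exact_mod_cast h1
  have hCz : C * E ≤ z' := by
    have := mul_le_mul_of_nonneg_right (le_max_left C Cw) (by linarith : 0 ≤ E)
    linarith
  have hCwz : Cw ≤ z' := by
    have := mul_le_mul_of_nonneg_right (le_max_right C Cw) (by linarith : 0 ≤ E)
    nlinarith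
  have hP1 : Pe q (fun _ => True) = 1 := by
    rw [Pool.K2S.Pe_eq]
    simp only [if_true]
    exact hq.sum_one
  obtain ⟨B, hb1, hb2, hb3⟩ := hrm J w z' F.Ω (LnT F) q F.T (slam F w) (fun _ => True) E
    (fun l ω => Polynomial.C ((2 : ℝ) ^ g l / 2) * ow c n w H (slam F w ω) (l + 1)) hq F.tim hwJ
    (fun ω ω' _ _ h => congrArg (fun s => s.2.2) h) (by rw [hP1]; exact hη1) hE hT hCz
    (fun l ω ω' _ _ h => by
      simp only
      rw [h])
    (fun l ω _ => (Polynomial.natDegree_C_mul_le _ _).trans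
      (ow_deg (fun i _ => hch.degH _ i) _))
    (fun l ω hω _ => by
      rw [Polynomial.eval_mul, Polynomial.eval_C, abs_mul, abs_of_pos (by positivity)]
      have h3 := ow_pos (by omega) hc hch (hA ω hω) (l := l + 1) (by omega)
        (by have := l.2; omega)
      rw [Nat.add_sub_cancel] at h3
      have h4 : (0 : ℝ) < 2 ^ g l := by positivity
      rw [le_div_iff₀ h4] at h3
      have h5 : (F.t ω) = (F.T ω : ℝ) / 2 ^ J := rfl
      rw [h5] at h3
      linarith)
  refine ⟨B, fun ω hω => (hb1 ω hω).1, ?_, fun ω hω l l1 l2 t ht => ?_⟩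
  · have h1 : Pb q B = Pe q B := by
      rw [Pe_eq]
      rfl
    rw [h1]
    rw [hP1] at hb2
    linarith
  · have h3 := hwin (s := slam F w ω) (s' := slam F w ω) (ω := ω) (l := l) (H := H) (w := w)
      (S := 2 ^ (3 * z') / 2 ^ gl g l) (by omega) (fun l _ => hch.degH _ l) (fun t ht => by
        have h4 := hb3 ω hω t ht ⟨l - 1, by omega⟩
        simp only at h4
        rw [Nat.sub_add_cancel l1, Polynomial.eval_mul, Polynomial.eval_C, abs_mul,
          abs_of_pos (by positivity), ow_eval] at h4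
        have h5 : (0 : ℝ) < 2 ^ gl g l := by positivity
        rw [le_div_iff₀ h5]
        have h6 : (2 : ℝ) ^ (3 * z') = 2 ^ z' * 2 ^ (2 * z') := by
          rw [← pow_add]
          congr 1
          ring
        have h7 : (2 : ℝ) ≤ 2 ^ z' := by
          calc (2 : ℝ) = 2 ^ 1 := (pow_one _).symm
            _ ≤ 2 ^ z' := pow_le_pow_right₀ (by norm_num) hz1
        have h8 : (0 : ℝ) < 2 ^ (2 * z') := by positivity
        have h9 : gl g l = g (l - 1) := rfl
        rw [h6, h9]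
        nlinarith) t ht
    refine h3.trans ?_
    rw [← mul_div_assoc]
    refine div_le_div_of_nonneg_right ?_ (by positivity)
    calc Cw * 2 ^ (3 * z') ≤ 2 ^ z' * 2 ^ (3 * z') :=
          mul_le_mul_of_nonneg_right (hCwz.trans (two_ge z')) (by positivity)
      _ = 2 ^ (4 * z') := by
          rw [← pow_add]
          congr 1
          ring

section bal

variable {m J : ℕ} {F : Fam m J} {c : ℕ → Fin m} {n : ℕ}

/-- The chart of the line at a point. -/
theorem eval_hx {H : LnT F → ℕ → MvPolynomial (Option (Fin m)) ℝ} {s : LnT F} (hc : Inj c n)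
    (hH : ∀ i, DepC c i (H s i)) (w : ℕ) {l : ℕ} (hl : l < n) (b : ℕ → ℝ) :
    eval b (Hx c n w H s (l + 1)) = eval (fun o => eval b (vr c l o)) (H s l) :=
  eval_sy hc hH hl b

/-- The height of the own path. -/
theorem eso_pc {H : LnT F → ℕ → MvPolynomial (Option (Fin m)) ℝ} {s : LnT F} (hc : Inj c n)
    (hH : ∀ i, DepC c i (H s i)) (w : ℕ) {l : ℕ} (hl : l < n) (t : ℝ) :
    eso (c l) (fun s => H s l) s t = ptt (pc c s) t (l + 1) -
      eval (ptt (pc c s) t) (Hx c n w H s (l + 1)) := by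
  have e0 : ∀ k, ptt (pc c s) t (k + 1) = s.1.1 (c k) + s.1.2 (c k) * t := by
    intro k
    unfold ptt pc
    rw [if_neg (by omega), Polynomial.eval_add, Polynomial.eval_mul, Polynomial.eval_C,
      Polynomial.eval_C, Polynomial.eval_X]
    rfl
  have e1 : ptt (pc c s) t 0 = t := by
    unfold ptt
    rw [pc_zero, Polynomial.eval_X]
  have e2 : eval (ptt (pc c s) t) (Hx c n w H s (l + 1)) = eval (blo s t) (H s l) := by
    have h1 : Hx c n w H s (l + 1) = tr c l (H s l) := sy_succ hl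
    rw [h1]
    refine eval_tr hc hl.le (hH l) ?_ fun k hk => ?_
    · rw [e1]
      rfl
    · rw [e0]
      rfl
  rw [e0, e2]
  rfl

/-- **The re-centred chart** at a point. -/
theorem eval_hno {H H₀ : LnT F → ℕ → MvPolynomial (Option (Fin m)) ℝ} {s : LnT F} (hc : Inj c n)
    (hH : ∀ i, DepC c i (H s i)) (hH₀ : ∀ i, DepC c i (H₀ s i)) (w : ℕ) {l : ℕ} (hl : l < n)
    (e : H s l = Hno (c l) (fun s => H₀ s l) s) (b : ℕ → ℝ) :
    eval b (Hx c n w H s (l + 1)) = eval b (Hx c n w H₀ s (l + 1)) +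
      (ptt (pc c s) (b 0) (l + 1) - eval (ptt (pc c s) (b 0)) (Hx c n w H₀ s (l + 1))) := by
  have h1 := eso_pc hc hH₀ w hl (b 0)
  have h2 : eval b (vr c l none) = b 0 := by
    show eval b (X 0) = _
    rw [eval_X]
  rw [eval_hx hc hH w hl, eval_hx hc hH₀ w hl b, e, eval_Hno, ← h1, h2]

/-- **The own path is on the re-centred chart.** -/
theorem own_hno {H H₀ : LnT F → ℕ → MvPolynomial (Option (Fin m)) ℝ} {s : LnT F} (hc : Inj c n)
    (hH : ∀ i, DepC c i (H s i)) (hH₀ : ∀ i, DepC c i (H₀ s i)) (w : ℕ) {l : ℕ} (hl : l < n)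
    (e : H s l = Hno (c l) (fun s => H₀ s l) s) (t : ℝ) :
    ptt (pc c s) t (l + 1) - eval (ptt (pc c s) t) (Hx c n w H s (l + 1)) = 0 := by
  have h1 := eval_hno hc hH hH₀ w hl e (ptt (pc c s) t)
  have e1 : ptt (pc c s) t 0 = t := by
    unfold ptt
    rw [pc_zero, Polynomial.eval_X]
  rw [e1] at h1
  rw [h1]
  ring

/-- **The re-centred chart is near to the chart** on the boxes of the ball. -/
theorem nb_hno {H H₀ : LnT F → ℕ → MvPolynomial (Option (Fin m)) ℝ} {s : LnT F} (hc : Inj c n)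
    (hH : ∀ i, DepC c i (H s i)) (hH₀ : ∀ i, DepC c i (H₀ s i)) {w : ℕ} {τ S : ℝ} {g : ℕ → ℕ}
    (e : ∀ l < n, H s l = Hno (c l) (fun s => H₀ s l) s)
    (ho : ∀ l, 1 ≤ l → l ≤ n → ∀ t : ℝ, Wn τ w t →
      |ptt (pc c s) t l - eval (ptt (pc c s) t) (Hx c n w H₀ s l)| ≤ S / 2 ^ gl g l) :
    NbP n (Wn τ w) (gl g) S (Hx c n w H s) (Hx c n w H₀ s) := by
  intro l l1 l2 b hb
  obtain ⟨l, rfl⟩ : ∃ l', l = l' + 1 := ⟨l - 1, by omega⟩
  rw [eval_hno hc hH hH₀ w (by omega) (e l (by omega)), add_sub_cancel_left]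
  exact ho (l + 1) l1 l2 _ hb.1

end bal

end Pool.STAT.OKI
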