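import Pool.Agent.H40.ISO.Nb
import Pool.Agent.H40.MIC.TwoClo
import Pool.Agent.H95.GN.Lag

/-!
# Two samples

`NbP.chg`: near systems, other windows and other sides. `incB`: increments at a fixed time.
`mid`: near on the boxes of the radii `0` and `2`, hence near on the boxes of the radius `1`.
`nwl`: near on the boxes of the radius `0`, own paths, near heights at the nodes of the window, hence
near on the boxes of the radius `1`.
-/

set_option autoImplicit false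

namespace Pool.STAT.OKI

open Finset MvPolynomial
open Pool.Agent.H49.Ent Pool.Agent.H32.Dense Pool.STK Pool.KA Pool.K2S
open Pool.STAT.CLO Pool.STAT.Glu

/-- The window of length `2 ^ (-w)` around `τ`. -/
def Wn (τ : ℝ) (w : ℕ) (t : ℝ) : Prop := |t - τ| ≤ 1 / 2 ^ w

/-- The system with the time `τ`. -/
noncomputable def st (τ : ℝ) (Φ : ℕ → PN) (l : ℕ) : PN := if l = 0 then MvPolynomial.C τ else Φ l

theorem st_zero (τ : ℝ) (Φ : ℕ → PN) : st τ Φ 0 = MvPolynomial.C τ := if_pos rfl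

theorem st_pos (τ : ℝ) (Φ : ℕ → PN) {l : ℕ} (hl : 1 ≤ l) : st τ Φ l = Φ l := if_neg (by omega)

theorem st_tri {τ : ℝ} {Φ : ℕ → PN} (h : TriN Φ) : TriN (st τ Φ) := by
  intro l
  unfold st
  split_ifs
  · exact AdxRow.vars_C_le _
  · exact h l

theorem st_deg {τ : ℝ} {Φ : ℕ → PN} {K : ℕ} (h : ∀ l, (Φ l).totalDegree ≤ K) (l : ℕ) :
    (st τ Φ l).totalDegree ≤ K := by
  unfold st
  split_ifs
  · rw [totalDegree_C]
    exact Nat.zero_le _
  · exact h l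

theorem tr_st {K : ℕ} {τ : ℝ} {Φ : ℕ → PN} (h : Tr K Φ) : Tr K (st τ Φ) :=
  ⟨st_tri h.tri, st_deg h.deg⟩

/-- The boxes of the window. -/
theorem bxr_st {R τ : ℝ} {w l : ℕ} {g : ℕ → ℕ} {Φ : ℕ → PN} {b : ℕ → ℝ} (hl : 1 ≤ l) :
    Bxr R (gt0 w g) (st τ Φ) l b ↔
      |b 0 - τ| ≤ R / 2 ^ w ∧ ∀ k, 1 ≤ k → k < l → |b k - eval b (Φ k)| ≤ R / 2 ^ g k := by
  constructor
  · intro h
    refine ⟨?_, fun k k1 k2 => ?_⟩
    · have h0 := h 0 (by omega)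
      rwa [st_zero, eval_C, gt0_zero] at h0
    · have h0 := h k k2
      rwa [st_pos _ _ k1, gt0_pos _ _ k1] at h0
  · rintro ⟨h1, h2⟩ k hk
    rcases Nat.eq_zero_or_pos k with rfl | k1
    · rwa [st_zero, eval_C, gt0_zero]
    · rw [st_pos _ _ k1, gt0_pos _ _ k1]
      exact h2 k k1 hk

/-- **Other windows and other sides.** -/
theorem NbP.chg (n K : ℕ) : ∃ c : ℕ, 1 ≤ c ∧ ∀ {τ τ' : ℝ} {w w' : ℕ} {g g' : ℕ → ℕ} {S R : ℝ}
    {Φ Ψ : ℕ → PN}, Tr K Φ → Tr K Ψ → 0 ≤ S → 1 ≤ R → NbP n (Wn τ w) g S Φ Ψ →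
    |τ' - τ| ≤ R / 2 ^ w → (1 : ℝ) / 2 ^ w' ≤ R / 2 ^ w →
    (∀ k, 1 ≤ k → k ≤ n → (2 : ℝ) ^ g k ≤ R * 2 ^ g' k) →
    (∀ k, 1 ≤ k → k ≤ n → (2 : ℝ) ^ g' k ≤ R * 2 ^ g k) →
    NbP n (Wn τ' w') g' (((c : ℝ) * R) ^ c * S) Φ Ψ := by
  obtain ⟨C, hC, hd⟩ := CLO.dil n K
  obtain ⟨c, hc, hpw⟩ := pw (C * 2 ^ (K * (K + 1) ^ (n + 1))) (K * (K + 1) ^ (n + 1) + 1)
  refine ⟨c, hc, ?_⟩
  intro τ τ' w w' g g' S R Φ Ψ hΦ hΨ hS hR h hτ hw hg hg' l l1 l2 b hb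
  have h1 := hd (st τ Φ) (gt0 w g) (Φ l - Ψ l) l (S / 2 ^ g l) (2 * R) (st_tri hΦ.tri)
    (st_deg hΦ.deg) l2
    ((vars_sub_subset _).trans (Finset.union_subset (hΦ.tri l) (hΨ.tri l)))
    ((totalDegree_sub _ _).trans (max_le (hΦ.deg l) (hΨ.deg l))) (by linarith) (fun b' hb' => by
      rw [map_sub]
      rw [bxr_st l1] at hb'
      exact h l l1 l2 b' hb') b (by
      rw [bxr_st l1]
      refine ⟨?_, fun k k1 k2 => ?_⟩
      · have e1 : |b 0 - τ'| ≤ 1 / 2 ^ w' := hb.1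
        have e2 : |b 0 - τ| ≤ |b 0 - τ'| + |τ' - τ| := abs_sub_le _ _ _
        refine (e2.trans (add_le_add (e1.trans hw) hτ)).trans (le_of_eq ?_)
        ring
      · refine (hb.2 k k1 k2).trans ?_
        rw [div_le_div_iff₀ (by positivity) (by positivity), one_mul]
        have := hg k k1 (by omega)
        have e0 : (0 : ℝ) < 2 ^ g' k := by positivity
        nlinarith)
  rw [map_sub] at h1
  refine h1.trans ?_
  have e1 : C * (S / 2 ^ g l) * (2 * R) ^ (K * (K + 1) ^ (n + 1)) ≤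
      C * 2 ^ (K * (K + 1) ^ (n + 1)) * R ^ (K * (K + 1) ^ (n + 1) + 1) * S / 2 ^ g' l := by
    have e2 : S / 2 ^ g l ≤ R * S / 2 ^ g' l := by
      rw [div_le_div_iff₀ (by positivity) (by positivity)]
      have := mul_le_mul_of_nonneg_left (hg' l l1 l2) hS
      nlinarith
    calc C * (S / 2 ^ g l) * (2 * R) ^ (K * (K + 1) ^ (n + 1)) ≤
          C * (R * S / 2 ^ g' l) * (2 * R) ^ (K * (K + 1) ^ (n + 1)) := by
          refine mul_le_mul_of_nonneg_right ?_ (by positivity)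
          exact mul_le_mul_of_nonneg_left e2 (by linarith)
      _ = _ := by
          rw [mul_pow, pow_succ]
          ring
  refine e1.trans (div_le_div_of_nonneg_right ?_ (by positivity))
  exact mul_le_mul_of_nonneg_right (hpw c le_rfl R hR) hS

/-- **Increments at a fixed time.** -/
theorem incB (n K : ℕ) : ∃ c : ℕ, 1 ≤ c ∧ ∀ {P : ℝ → Prop} {g : ℕ → ℕ} {S R δ : ℝ} {Φ : ℕ → PN}
    {Q : PN} {l : ℕ}, Tr K Φ → l ≤ n → Q.vars ⊆ range l → Q.totalDegree ≤ K → 1 ≤ R → 0 ≤ S →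
    0 ≤ δ → (∀ b : ℕ → ℝ, Bt 1 P g Φ l b → |eval b Q| ≤ S) →
    ∀ b p : ℕ → ℝ, Bt R P g Φ l b → Bt R P g Φ l p → b 0 = p 0 →
    (∀ k, 1 ≤ k → k < l →
      |(b k - eval b (Φ k)) - (p k - eval p (Φ k))| ≤ δ / 2 ^ g k) →
    |eval b Q - eval p Q| ≤ ((c : ℝ) * R) ^ c * S * δ := by
  obtain ⟨C, hC, h⟩ := CLO.inc n K
  obtain ⟨c, hc, hpw⟩ := pw C (K * (K + 1) ^ (n + 1))
  refine ⟨c, hc, ?_⟩
  intro P g S R δ Φ Q l hΦ hl hv hQ hR hS hδ hb1 b p hb hp h0 hbp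
  have e0 : ∀ x : ℕ → ℝ, (fun l => if l = 0 then x 0 else x l) = x := by
    intro x
    funext l
    split_ifs with h0
    · rw [h0]
    · rfl
  have key : ∀ x : ℕ → ℝ, Bt R P g Φ l x → Bxr R g
      (fun l => if l = 0 then (MvPolynomial.C (x 0) : PN) else fz (x 0) (Φ l)) l x := by
    intro x hx k hk
    beta_reduce
    by_cases k0 : k = 0
    · rw [if_pos k0, k0, eval_C, sub_self, abs_zero]
      positivity
    · rw [if_neg k0, eval_fz, e0]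
      exact hx.2 k (by omega) hk
  have h1 := h (fun l => if l = 0 then (MvPolynomial.C (b 0) : PN) else fz (b 0) (Φ l)) g
    (fz (b 0) Q) l S R δ
    (by
      intro l
      beta_reduce
      split_ifs
      · exact AdxRow.vars_C_le _
      · exact fz_vars (hΦ.tri l)) (by
      intro l
      split_ifs
      · rw [totalDegree_C]
        exact Nat.zero_le _
      · exact fz_deg (hΦ.deg l)) hl (fz_vars hv) (fz_deg hQ) hR hS hδ (by
      intro y hy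
      rw [eval_fz]
      refine hb1 _ ⟨?_, fun l h1 h2 => ?_⟩
      · beta_reduce
        rw [if_pos rfl]
        exact hb.1
      · have h3 := hy l h2
        beta_reduce at h3
        rw [if_neg (by omega), eval_fz] at h3
        beta_reduce
        rw [if_neg (by omega)]
        exact h3) b p (key b hb) (by
      have := key p hp
      rwa [← h0] at this) (by
      intro k hk
      beta_reduce
      by_cases k0 : k = 0
      · rw [if_pos k0, k0, eval_C, eval_C, h0, sub_self, abs_zero]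
        positivity
      · rw [if_neg k0, eval_fz, eval_fz, e0]
        have e1 : (fun l => if l = 0 then b 0 else p l) = p := by
          rw [h0]
          exact e0 p
        rw [e1]
        exact hbp k (by omega) hk)
  rw [eval_fz, eval_fz, e0] at h1
  have e1 : (fun l => if l = 0 then b 0 else p l) = p := by
    rw [h0]
    exact e0 p
  rw [e1] at h1
  refine h1.trans ?_
  have e2 : C * S * R ^ (K * (K + 1) ^ (n + 1)) * δ =
      C * R ^ (K * (K + 1) ^ (n + 1)) * S * δ := by ring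
  rw [e2]
  exact mul_le_mul_of_nonneg_right (mul_le_mul_of_nonneg_right (hpw c le_rfl R hR) hS) hδ

/-- The centre of the boxes at the time `t`. -/
theorem ctr {Φ : ℕ → PN} (hΦ : TriN Φ) (t : ℝ) : ∃ p : ℕ → ℝ, p 0 = t ∧
    ∀ k, 1 ≤ k → p k = eval p (Φ k) := by
  have h1 := nc_nuc (Φ := st t Φ) (st_tri hΦ) (fun _ => 0) (fun _ => 0)
  refine ⟨fun j => eval (fun _ => 0) (nuc (fun _ => 0) (st t Φ) j), ?_, fun k k1 => ?_⟩
  · have h2 := congrFun h1 0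
    unfold nc at h2
    rw [st_zero, eval_C, pow_zero, one_mul] at h2
    linarith
  · have h2 := congrFun h1 k
    unfold nc at h2
    rw [st_pos _ _ k1, pow_zero, one_mul] at h2
    linarith

/-- **The radii between.** -/
theorem mid (n K : ℕ) : ∃ c : ℕ, 1 ≤ c ∧ ∀ {P : ℝ → Prop} {g₀ g₁ g₂ : ℕ → ℕ} {S : ℝ} {x : ℕ}
    {Φ Φ' : ℕ → PN}, Tr K Φ → Tr K Φ' → 0 ≤ S →
    (∀ k, 1 ≤ k → k ≤ n → g₀ k ≤ g₁ k) → (∀ k, 1 ≤ k → k ≤ n → g₁ k ≤ g₂ k + x) →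
    (∀ l ≤ n, ∀ k, 1 ≤ k → k < l → g₁ l + g₀ k ≤ g₀ l + g₁ k + x) →
    NbP n P g₀ S Φ Φ' → NbP n P g₂ S Φ Φ' → NbP n P g₁ (c * 2 ^ x * S) Φ Φ' := by
  obtain ⟨c, hc, hinc⟩ := incB n K
  obtain ⟨d, hd⟩ := exists_nat_ge ((c : ℝ) ^ c + 1)
  refine ⟨max 1 d, le_max_left _ _, ?_⟩
  intro P g₀ g₁ g₂ S x Φ Φ' hΦ hΦ' hS hg hg' hgx h0 h2 l l1 l2 b hb
  obtain ⟨p, hp0, hp⟩ := ctr hΦ.tri (b 0)
  have hp2 : Bt 1 P g₂ Φ l p := by
    refine ⟨by rw [hp0]; exact hb.1, fun k k1 k2 => ?_⟩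
    rw [← hp k k1, sub_self, abs_zero]
    positivity
  have hp1 : Bt 1 P g₀ Φ l p := by
    refine ⟨by rw [hp0]; exact hb.1, fun k k1 k2 => ?_⟩
    rw [← hp k k1, sub_self, abs_zero]
    positivity
  have hb1 : Bt 1 P g₀ Φ l b := ⟨hb.1, fun k k1 k2 => (hb.2 k k1 k2).trans
    (one_div_le_one_div_of_le (by positivity) (pow_le_pow_right₀ (by norm_num)
      (hg k k1 (by omega))))⟩
  have e1 := h2 l l1 l2 p hp2
  obtain ⟨δ, hδ⟩ : ∃ δ : ℝ, δ = 2 ^ x * 2 ^ g₀ l / 2 ^ g₁ l := ⟨_, rfl⟩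
  have hδ0 : 0 ≤ δ := by
    rw [hδ]
    positivity
  have e2 := hinc (Q := Φ l - Φ' l) hΦ l2
    ((vars_sub_subset _).trans (Finset.union_subset (hΦ.tri l) (hΦ'.tri l)))
    ((totalDegree_sub _ _).trans (max_le (hΦ.deg l) (hΦ'.deg l))) le_rfl
    (S := S / 2 ^ g₀ l) (by positivity) hδ0 (fun b' hb' => by
      rw [map_sub]
      exact h0 l l1 l2 b' hb') b p hb1 hp1 hp0.symm (fun k k1 k2 => by
      rw [← hp k k1, sub_self, sub_zero]
      refine (hb.2 k k1 k2).trans ?_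
      rw [hδ, div_div, div_le_div_iff₀ (by positivity) (by positivity), one_mul, ← pow_add,
        ← pow_add, ← pow_add]
      exact pow_le_pow_right₀ (by norm_num) (by
        have := hgx l l2 k k1 k2
        omega))
  rw [map_sub, map_sub, mul_one] at e2
  have e3 : (c : ℝ) ^ c * (S / 2 ^ g₀ l) * δ = (c : ℝ) ^ c * 2 ^ x * S / 2 ^ g₁ l := by
    rw [hδ]
    field_simp
  rw [e3] at e2
  have e4 : S / 2 ^ g₂ l ≤ 2 ^ x * S / 2 ^ g₁ l := by
    rw [div_le_div_iff₀ (by positivity) (by positivity)]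
    have e5 : (2 : ℝ) ^ g₁ l ≤ 2 ^ x * 2 ^ g₂ l := by
      rw [← pow_add]
      exact pow_le_pow_right₀ (by norm_num) (by
        have := hg' l l1 l2
        omega)
    have := mul_le_mul_of_nonneg_left e5 hS
    nlinarith
  have e5 : |eval b (Φ l) - eval b (Φ' l)| ≤
      |(eval b (Φ l) - eval b (Φ' l)) - (eval p (Φ l) - eval p (Φ' l))| +
      |eval p (Φ l) - eval p (Φ' l)| := by
    have := abs_add_le ((eval b (Φ l) - eval b (Φ' l)) - (eval p (Φ l) - eval p (Φ' l)))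
      (eval p (Φ l) - eval p (Φ' l))
    rwa [sub_add_cancel] at this
  refine (e5.trans (add_le_add e2 (e1.trans e4))).trans ?_
  rw [← add_div]
  refine div_le_div_of_nonneg_right ?_ (by positivity)
  have e6 : (d : ℝ) ≤ (max 1 d : ℕ) := by exact_mod_cast le_max_right 1 d
  have e7 : (0 : ℝ) ≤ 2 ^ x * S := by positivity
  have e8 := mul_le_mul_of_nonneg_right (hd.trans e6) e7
  calc (c : ℝ) ^ c * 2 ^ x * S + 2 ^ x * S = ((c : ℝ) ^ c + 1) * (2 ^ x * S) := by ring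
    _ ≤ ((max 1 d : ℕ) : ℝ) * (2 ^ x * S) := e8
    _ = ((max 1 d : ℕ) : ℝ) * 2 ^ x * S := by ring

/-! ### Polynomial bounds -/

/-- The function is bounded by a polynomial. -/
def PBd (f : ℝ → ℝ) : Prop := ∃ c : ℕ, 1 ≤ c ∧ ∀ x : ℝ, 1 ≤ x → |f x| ≤ ((c : ℝ) * x) ^ c

theorem PBd.const (A : ℝ) : PBd fun _ => A := by
  obtain ⟨c, hc, h⟩ := pw |A| 0
  exact ⟨c, hc, fun x hx => by
    have := h c le_rfl x hx
    rwa [pow_zero, mul_one] at this⟩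

theorem PBd.id : PBd fun x => x := ⟨1, le_rfl, fun x hx => by
  rw [abs_of_nonneg (by linarith), Nat.cast_one, one_mul, pow_one]⟩

theorem PBd.mul {f g : ℝ → ℝ} (hf : PBd f) (hg : PBd g) : PBd fun x => f x * g x := by
  obtain ⟨c, hc, h⟩ := hf
  obtain ⟨d, hd, h'⟩ := hg
  obtain ⟨e, he, h2⟩ := pw_comp (max c d) 2 1 (hc.trans (le_max_left _ _))
  refine ⟨e, he, fun x hx => ?_⟩
  rw [abs_mul]
  have e1 := (h x hx).trans (pw_mono hc (le_max_left c d) hx le_rfl)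
  have e2 := (h' x hx).trans (pw_mono hd (le_max_right c d) hx le_rfl)
  have e3 := h2 e le_rfl x hx
  rw [one_mul, sq] at e3
  exact (mul_le_mul e1 e2 (abs_nonneg _) ((abs_nonneg _).trans e1)).trans e3

theorem PBd.add {f g : ℝ → ℝ} (hf : PBd f) (hg : PBd g) : PBd fun x => f x + g x := by
  obtain ⟨c, hc, h⟩ := hf
  obtain ⟨d, hd, h'⟩ := hg
  obtain ⟨e, he, h2⟩ := pw_comp (max c d) 1 2 (hc.trans (le_max_left _ _))
  refine ⟨e, he, fun x hx => ?_⟩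
  have e1 := (h x hx).trans (pw_mono hc (le_max_left c d) hx le_rfl)
  have e2 := (h' x hx).trans (pw_mono hd (le_max_right c d) hx le_rfl)
  have e3 := h2 e le_rfl x hx
  rw [pow_one] at e3
  refine (abs_add_le _ _).trans ?_
  linarith

theorem PBd.pow {f : ℝ → ℝ} (hf : PBd f) (k : ℕ) : PBd fun x => f x ^ k := by
  obtain ⟨c, hc, h⟩ := hf
  obtain ⟨e, he, h2⟩ := pw_comp c k 1 hc
  refine ⟨e, he, fun x hx => ?_⟩
  have e3 := h2 e le_rfl x hx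
  rw [one_mul] at e3
  rw [abs_pow]
  exact (pow_le_pow_left₀ (abs_nonneg _) (h x hx) k).trans e3

/-- The usual form of the losses. -/
theorem PBd.loss {f : ℝ → ℝ} (hf : PBd f) (c : ℕ) : PBd fun x => ((c : ℝ) * f x) ^ c :=
  ((PBd.const c).mul hf).pow c

/-! ### The new radius -/

/-- The nodes of the window. -/
noncomputable def nod (K : ℕ) (τ : ℝ) (w a : ℕ) : ℝ := τ + (a : ℝ) / (K + 1) * (1 / 2 ^ w)

theorem nod_win {K a w : ℕ} {τ : ℝ} (ha : a ≤ K) : Wn τ w (nod K τ w a) := by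
  unfold Wn nod
  have h1 : (0 : ℝ) ≤ (a : ℝ) / (K + 1) := by positivity
  have h2 : (a : ℝ) / (K + 1) ≤ 1 := by
    rw [div_le_one (by positivity)]
    have : (a : ℝ) ≤ K := by exact_mod_cast ha
    linarith
  rw [add_sub_cancel_left, abs_of_nonneg (by positivity)]
  calc (a : ℝ) / (K + 1) * (1 / 2 ^ w) ≤ 1 * (1 / 2 ^ w) :=
        mul_le_mul_of_nonneg_right h2 (by positivity)
    _ = 1 / 2 ^ w := one_mul _

/-- **From the nodes to the window.** -/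
theorem nod_le (K : ℕ) : ∃ C : ℝ, 1 ≤ C ∧ ∀ (p : Polynomial ℝ) (τ : ℝ) (w : ℕ) (S : ℝ),
    p.natDegree ≤ K → (∀ a ≤ K, |p.eval (nod K τ w a)| ≤ S) →
    ∀ t, Wn τ w t → |p.eval t| ≤ C * S := by
  obtain ⟨C, hC, h⟩ := Pool.UNJ.lag1 K 1
  refine ⟨C, hC, ?_⟩
  intro p τ w S hp hS t ht
  have e1 : ∀ x, (p.comp (Polynomial.C τ + Polynomial.C ((1 : ℝ) / 2 ^ w) * Polynomial.X)).eval x =
      p.eval (τ + 1 / 2 ^ w * x) := by
    intro x
    rw [Polynomial.eval_comp]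
    simp
  have h1 := h (p.comp (Polynomial.C τ + Polynomial.C ((1 : ℝ) / 2 ^ w) * Polynomial.X)) S (by
      refine Polynomial.natDegree_comp_le.trans ?_
      have h3 : (Polynomial.C τ + Polynomial.C ((1 : ℝ) / 2 ^ w) * Polynomial.X :
          Polynomial ℝ).natDegree ≤ 1 := by
        refine (Polynomial.natDegree_add_le _ _).trans (max_le ?_ ?_)
        · rw [Polynomial.natDegree_C]
          exact Nat.zero_le _
        · exact (Polynomial.natDegree_C_mul_le _ _).trans Polynomial.natDegree_X_le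
      calc p.natDegree * _ ≤ p.natDegree * 1 := Nat.mul_le_mul_left _ h3
        _ ≤ K := by rw [mul_one]; exact hp) (fun i => by
      rw [e1]
      have := hS i (Nat.lt_succ_iff.1 i.2)
      unfold nod at this
      rwa [mul_comm (1 / (2 : ℝ) ^ w)]) ((t - τ) * 2 ^ w) (by
      unfold Wn at ht
      rw [le_div_iff₀ (by positivity)] at ht
      rw [← abs_of_pos (by positivity : (0 : ℝ) < 2 ^ w), ← abs_mul] at ht
      exact abs_le.1 ht)
  rw [e1] at h1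
  have e2 : τ + 1 / 2 ^ w * ((t - τ) * 2 ^ w) = t := by
    field_simp
    ring
  rwa [e2] at h1

/-- The point of the path at the time `t`. -/
noncomputable def ptt (X : ℕ → Polynomial ℝ) (t : ℝ) (k : ℕ) : ℝ := (X k).eval t

/-- **The new radius**: near heights of the own paths over the reference `Rf` at the nodes. -/
theorem nwl (n K : ℕ) : ∃ c : ℕ, 1 ≤ c ∧ ∀ {τ : ℝ} {w : ℕ} {g₀ g₁ : ℕ → ℕ} {S E N Y : ℝ} {x : ℕ}
    {Φ Φ' Rf : ℕ → PN} {X X' : ℕ → Polynomial ℝ}, Tr K Φ → Tr K Φ' → Tr K Rf →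
    1 ≤ S → 1 ≤ E → 1 ≤ N → S ≤ Y → E ≤ Y → N ≤ Y → (2 : ℝ) ^ x ≤ Y →
    X 0 = Polynomial.X → X' 0 = Polynomial.X → (∀ k, (X' k).natDegree ≤ 1) →
    (∀ k, 1 ≤ k → k ≤ n → g₀ k ≤ g₁ k) →
    (∀ l ≤ n, ∀ k, 1 ≤ k → k < l → g₁ l + g₀ k ≤ g₀ l + g₁ k + x) →
    NbP n (Wn τ w) g₀ S Φ Rf → NbP n (Wn τ w) g₀ S Φ' Rf → NbP n (Wn τ w) g₀ S Φ Φ' →
    (∀ l, 1 ≤ l → l ≤ n → ∀ t, Wn τ w t → |ptt X t l - eval (ptt X t) (Φ l)| ≤ E / 2 ^ g₁ l) →
    (∀ l, 1 ≤ l → l ≤ n → ∀ t, Wn τ w t → |ptt X' t l - eval (ptt X' t) (Φ' l)| ≤ E / 2 ^ g₁ l) →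
    (∀ l, 1 ≤ l → l ≤ n → ∀ a ≤ K,
      |(ptt X (nod K τ w a) l - eval (ptt X (nod K τ w a)) (Rf l)) -
        (ptt X' (nod K τ w a) l - eval (ptt X' (nod K τ w a)) (Rf l))| ≤ N / 2 ^ g₁ l) →
    NbP n (Wn τ w) g₁ (((c : ℝ) * Y) ^ c) Φ Φ' := by
  obtain ⟨c₁, hc₁, hbox⟩ := NbP.box n K
  obtain ⟨c₂, hc₂, hsym⟩ := NbP.symm n K
  obtain ⟨c₃, hc₃, hinc⟩ := incB n K
  obtain ⟨C, hC, hnod⟩ := nod_le K
  -- the constants
  have b1 : PBd fun Y => ((c₁ : ℝ) * (Y * Y)) ^ c₁ := (PBd.id.mul PBd.id).loss c₁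
  have b2 : PBd fun Y => ((c₃ : ℝ) * ((c₁ : ℝ) * (Y * Y)) ^ c₁) ^ c₃ * ((c₂ : ℝ) * Y) ^ c₂ * (Y * Y) +
      (Y + (Y + Y)) :=
    (((b1.loss c₃).mul (PBd.id.loss c₂)).mul (PBd.id.mul PBd.id)).add
      (PBd.id.add (PBd.id.add PBd.id))
  obtain ⟨c₄, hc₄, h4⟩ := b2
  have b3 : PBd fun Y => Y + C * ((c₄ : ℝ) * Y) ^ c₄ :=
    PBd.id.add ((PBd.const C).mul (PBd.id.loss c₄))
  have b4 : PBd fun Y => ((c₃ : ℝ) * (Y + C * ((c₄ : ℝ) * Y) ^ c₄)) ^ c₃ * Y *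
      ((1 + (Y + C * ((c₄ : ℝ) * Y) ^ c₄)) * Y) + C * ((c₄ : ℝ) * Y) ^ c₄ :=
    (((b3.loss c₃).mul PBd.id).mul (((PBd.const 1).add b3).mul PBd.id)).add
      ((PBd.const C).mul (PBd.id.loss c₄))
  obtain ⟨c, hc, h5⟩ := b4
  refine ⟨c, hc, ?_⟩
  intro τ w g₀ g₁ S E N Y x Φ Φ' Rf X X' hΦ hΦ' hRf hS hE hN hSY hEY hNY hxY hX0 hX0' hX1' hg hgx
    nr nr' nn ow ow' nds
  have hY : 1 ≤ Y := hS.trans hSY
  have hY0 : 0 ≤ Y := by linarith
  have hC0 : 0 ≤ C := by linarith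
  have h0 : ∀ t, ptt X t 0 = t := fun t => by
    unfold ptt
    rw [hX0, Polynomial.eval_X]
  have h0' : ∀ t, ptt X' t 0 = t := fun t => by
    unfold ptt
    rw [hX0', Polynomial.eval_X]
  have hside : ∀ k, 1 ≤ k → k ≤ n → ∀ r : ℝ, 0 ≤ r → r / 2 ^ g₁ k ≤ r / 2 ^ g₀ k :=
    fun k k1 k2 r hr => div_le_div_of_nonneg_left hr (by positivity)
      (pow_le_pow_right₀ (by norm_num) (hg k k1 k2))
  -- differences of sides
  have hδ : ∀ l ≤ n, ∀ k, 1 ≤ k → k < l → ∀ r : ℝ, 0 ≤ r →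
      r / 2 ^ g₁ k ≤ r * 2 ^ x * 2 ^ g₀ l / 2 ^ g₁ l / 2 ^ g₀ k := by
    intro l hl k k1 k2 r hr
    rw [div_div, div_le_div_iff₀ (by positivity) (by positivity)]
    have e1 : (2 : ℝ) ^ (g₁ l + g₀ k) ≤ 2 ^ (g₀ l + g₁ k + x) :=
      pow_le_pow_right₀ (by norm_num) (hgx l hl k k1 k2)
    rw [pow_add, pow_add, pow_add] at e1
    have := mul_le_mul_of_nonneg_left e1 hr
    nlinarith
  obtain ⟨S₁, hS₁⟩ : ∃ S₁ : ℝ, S₁ = ((c₄ : ℝ) * Y) ^ c₄ := ⟨_, rfl⟩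
  have hS₁0 : 0 ≤ S₁ := by
    rw [hS₁]
    positivity
  -- the nodes
  have step1 : ∀ l, 1 ≤ l → l ≤ n → ∀ a ≤ K,
      |eval (ptt X' (nod K τ w a)) (Φ l) - eval (ptt X' (nod K τ w a)) (Φ' l)| ≤
        S₁ / 2 ^ g₁ l := by
    intro l l1 l2 a ha
    obtain ⟨t, ht⟩ : ∃ t, t = nod K τ w a := ⟨_, rfl⟩
    have htw : Wn τ w t := by rw [ht]; exact nod_win ha
    have hnd : ∀ k, 1 ≤ k → k ≤ n → |(ptt X t k - eval (ptt X t) (Rf k)) -
        (ptt X' t k - eval (ptt X' t) (Rf k))| ≤ N / 2 ^ g₁ k := by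
      intro k k1 k2
      rw [ht]
      exact nds k k1 k2 a ha
    rw [← ht]
    obtain ⟨R₁, hR₁⟩ : ∃ R₁ : ℝ, R₁ = ((c₁ : ℝ) * (Y * Y)) ^ c₁ := ⟨_, rfl⟩
    have hR1 : 1 ≤ R₁ := by
      rw [hR₁]
      exact pw_one hc₁ (by nlinarith)
    have hSE : S * E ≤ Y * Y := mul_le_mul hSY hEY (by linarith) hY0
    have hR1' : ((c₁ : ℝ) * (S * E)) ^ c₁ ≤ R₁ := by
      rw [hR₁]
      exact pow_le_pow_left₀ (by positivity) (mul_le_mul_of_nonneg_left hSE (by positivity)) _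
    have bx : Bt R₁ (Wn τ w) g₀ Rf l (ptt X t) := by
      refine (hbox hΦ hRf hS hE nr l (by omega) (ptt X t) ⟨by rw [h0]; exact htw,
        fun k k1 k2 => ?_⟩).mono hR1' (fun _ h => h) le_rfl
      exact (ow k k1 (by omega) t htw).trans (hside k k1 (by omega) E (by linarith))
    have bx' : Bt R₁ (Wn τ w) g₀ Rf l (ptt X' t) := by
      refine (hbox hΦ' hRf hS hE nr' l (by omega) (ptt X' t) ⟨by rw [h0']; exact htw,
        fun k k1 k2 => ?_⟩).mono hR1' (fun _ h => h) le_rfl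
      exact (ow' k k1 (by omega) t htw).trans (hside k k1 (by omega) E (by linarith))
    have ns := hsym hΦ hRf hS nr
    have e1 := hinc (Q := Rf l - Φ l) hRf l2
      ((vars_sub_subset _).trans (Finset.union_subset (hRf.tri l) (hΦ.tri l)))
      ((totalDegree_sub _ _).trans (max_le (hRf.deg l) (hΦ.deg l))) hR1
      (S := ((c₂ : ℝ) * S) ^ c₂ / 2 ^ g₀ l) (by positivity)
      (δ := N * 2 ^ x * 2 ^ g₀ l / 2 ^ g₁ l) (by positivity) (fun b' hb' => by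
        rw [map_sub]
        exact ns l l1 l2 b' hb') (ptt X t) (ptt X' t) bx bx' (by rw [h0, h0'])
      (fun k k1 k2 => (hnd k k1 (by omega)).trans (hδ l l2 k k1 k2 N (by linarith)))
    rw [map_sub, map_sub] at e1
    have e2 := hnd l l1 l2
    have e3 := ow l l1 l2 t htw
    have e4 := ow' l l1 l2 t htw
    have e3' : |-(ptt X t l - eval (ptt X t) (Φ l))| ≤ E / 2 ^ g₁ l := by
      rw [abs_neg]
      exact e3
    have e5 : eval (ptt X' t) (Φ l) - eval (ptt X' t) (Φ' l) =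
        ((eval (ptt X t) (Rf l) - eval (ptt X t) (Φ l)) -
          (eval (ptt X' t) (Rf l) - eval (ptt X' t) (Φ l))) +
        (((ptt X t l - eval (ptt X t) (Rf l)) - (ptt X' t l - eval (ptt X' t) (Rf l))) +
        (-(ptt X t l - eval (ptt X t) (Φ l)) + (ptt X' t l - eval (ptt X' t) (Φ' l)))) := by
      ring
    rw [e5]
    refine (abs_add_le _ _).trans ((add_le_add e1 ((abs_add_le _ _).trans (add_le_add e2
      ((abs_add_le _ _).trans (add_le_add e3' e4))))).trans ?_)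
    have e6 : ((c₃ : ℝ) * R₁) ^ c₃ * (((c₂ : ℝ) * S) ^ c₂ / 2 ^ g₀ l) *
        (N * 2 ^ x * 2 ^ g₀ l / 2 ^ g₁ l) =
        ((c₃ : ℝ) * R₁) ^ c₃ * ((c₂ : ℝ) * S) ^ c₂ * (N * 2 ^ x) / 2 ^ g₁ l := by
      field_simp
    rw [e6, ← add_div, ← add_div, ← add_div]
    refine div_le_div_of_nonneg_right ?_ (by positivity)
    have e7 := (le_abs_self _).trans (h4 Y hY)
    beta_reduce at e7
    rw [← hR₁, ← hS₁] at e7
    refine le_trans ?_ e7
    have e8 : ((c₂ : ℝ) * S) ^ c₂ ≤ ((c₂ : ℝ) * Y) ^ c₂ :=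
      pow_le_pow_left₀ (by positivity) (mul_le_mul_of_nonneg_left hSY (by positivity)) _
    have e9 : N * 2 ^ x ≤ Y * Y := mul_le_mul hNY hxY (by positivity) hY0
    have e10 : ((c₃ : ℝ) * R₁) ^ c₃ * ((c₂ : ℝ) * S) ^ c₂ * (N * 2 ^ x) ≤
        ((c₃ : ℝ) * R₁) ^ c₃ * ((c₂ : ℝ) * Y) ^ c₂ * (Y * Y) := by
      refine mul_le_mul (mul_le_mul_of_nonneg_left e8 (by positivity)) e9 (by positivity)
        (by positivity)
    linarith
  -- the window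
  have step2 : ∀ l, 1 ≤ l → l ≤ n → ∀ t, Wn τ w t →
      |eval (ptt X' t) (Φ l) - eval (ptt X' t) (Φ' l)| ≤ C * S₁ / 2 ^ g₁ l := by
    intro l l1 l2 t ht
    have e1 : ∀ t, (aeval X' (Φ l - Φ' l)).eval t =
        eval (ptt X' t) (Φ l) - eval (ptt X' t) (Φ' l) := by
      intro t
      rw [Pool.UNJ.eval_aeval_poly, map_sub]
      rfl
    have e2 := hnod (aeval X' (Φ l - Φ' l)) τ w (S₁ / 2 ^ g₁ l)
      (Pool.UNJ.natDegree_aeval_le _ _ hX1' ((totalDegree_sub _ _).trans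
        (max_le (hΦ.deg l) (hΦ'.deg l)))) (fun a ha => by
        rw [e1]
        exact step1 l l1 l2 a ha) t ht
    rw [e1] at e2
    rwa [mul_div_assoc]
  -- the boxes
  intro l l1 l2 b hb
  obtain ⟨R₂, hR₂⟩ : ∃ R₂ : ℝ, R₂ = Y + C * S₁ := ⟨_, rfl⟩
  have hR2 : 1 ≤ R₂ := by
    rw [hR₂]
    have : 0 ≤ C * S₁ := by positivity
    linarith
  have htw : Wn τ w (b 0) := hb.1
  have hp : ∀ k, 1 ≤ k → k < l → |ptt X' (b 0) k - eval (ptt X' (b 0)) (Φ k)| ≤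
      R₂ / 2 ^ g₁ k := by
    intro k k1 k2
    have e1 := ow' k k1 (by omega) (b 0) htw
    have e2 := step2 k k1 (by omega) (b 0) htw
    have e3 : |ptt X' (b 0) k - eval (ptt X' (b 0)) (Φ k)| ≤
        |ptt X' (b 0) k - eval (ptt X' (b 0)) (Φ' k)| +
        |eval (ptt X' (b 0)) (Φ k) - eval (ptt X' (b 0)) (Φ' k)| := by
      have := abs_sub (ptt X' (b 0) k - eval (ptt X' (b 0)) (Φ' k))
        (eval (ptt X' (b 0)) (Φ k) - eval (ptt X' (b 0)) (Φ' k))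
      rwa [sub_sub_sub_cancel_right] at this
    refine (e3.trans (add_le_add e1 e2)).trans ?_
    rw [← add_div]
    refine div_le_div_of_nonneg_right ?_ (by positivity)
    rw [hR₂]
    linarith
  have bp : Bt R₂ (Wn τ w) g₀ Φ l (ptt X' (b 0)) := ⟨by rw [h0']; exact htw, fun k k1 k2 =>
    (hp k k1 k2).trans (hside k k1 (by omega) R₂ (by linarith))⟩
  have bb : Bt R₂ (Wn τ w) g₀ Φ l b := ⟨htw, fun k k1 k2 =>
    ((hb.2 k k1 k2).trans (div_le_div_of_nonneg_right hR2 (by positivity))).trans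
      (hside k k1 (by omega) R₂ (by linarith))⟩
  have e1 := hinc (Q := Φ l - Φ' l) hΦ l2
    ((vars_sub_subset _).trans (Finset.union_subset (hΦ.tri l) (hΦ'.tri l)))
    ((totalDegree_sub _ _).trans (max_le (hΦ.deg l) (hΦ'.deg l))) hR2
    (S := S / 2 ^ g₀ l) (by positivity)
    (δ := (1 + R₂) * 2 ^ x * 2 ^ g₀ l / 2 ^ g₁ l) (by positivity) (fun b' hb' => by
      rw [map_sub]
      exact nn l l1 l2 b' hb') b (ptt X' (b 0)) bb bp (by rw [h0'])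
    (fun k k1 k2 => by
      refine le_trans ?_ (hδ l l2 k k1 k2 (1 + R₂) (by linarith))
      refine (abs_sub _ _).trans ((add_le_add (hb.2 k k1 k2) (hp k k1 k2)).trans ?_)
      rw [← add_div])
  rw [map_sub, map_sub] at e1
  have e2 := step2 l l1 l2 (b 0) htw
  have e3 : |eval b (Φ l) - eval b (Φ' l)| ≤
      |(eval b (Φ l) - eval b (Φ' l)) -
        (eval (ptt X' (b 0)) (Φ l) - eval (ptt X' (b 0)) (Φ' l))| +
      |eval (ptt X' (b 0)) (Φ l) - eval (ptt X' (b 0)) (Φ' l)| := by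
    have := abs_add_le ((eval b (Φ l) - eval b (Φ' l)) -
        (eval (ptt X' (b 0)) (Φ l) - eval (ptt X' (b 0)) (Φ' l)))
      (eval (ptt X' (b 0)) (Φ l) - eval (ptt X' (b 0)) (Φ' l))
    rwa [sub_add_cancel] at this
  refine (e3.trans (add_le_add e1 e2)).trans ?_
  have e4 : ((c₃ : ℝ) * R₂) ^ c₃ * (S / 2 ^ g₀ l) *
      ((1 + R₂) * 2 ^ x * 2 ^ g₀ l / 2 ^ g₁ l) =
      ((c₃ : ℝ) * R₂) ^ c₃ * S * ((1 + R₂) * 2 ^ x) / 2 ^ g₁ l := by
    field_simp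
  rw [e4, ← add_div]
  refine div_le_div_of_nonneg_right ?_ (by positivity)
  have e5 := (le_abs_self _).trans (h5 Y hY)
  beta_reduce at e5
  rw [← hS₁, ← hR₂] at e5
  refine le_trans ?_ e5
  have e6 : ((c₃ : ℝ) * R₂) ^ c₃ * S ≤ ((c₃ : ℝ) * R₂) ^ c₃ * Y :=
    mul_le_mul_of_nonneg_left hSY (by positivity)
  have e7 : (1 + R₂) * 2 ^ x ≤ (1 + R₂) * Y := mul_le_mul_of_nonneg_left hxY (by linarith)
  have e8 := mul_le_mul e6 e7 (by positivity) (by positivity)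
  linarith

end Pool.STAT.OKI
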